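import Pool.Agent.Helper22.LC.Init

set_option autoImplicit false

namespace Pool.Agent.Helper22.LC

open Set Metric Filter Topology

/-- speed change: the parameter runs with speed `s` on the two ends -/
noncomputable def psi (s m x : ℝ) : ℝ := if x ≤ 0 then s * x else if x ≤ m then x else m + s * (x - m)

/-- link lengths -/
noncomputable def len (M N : ℕ) (s : ℝ) (i : ℕ) : ℝ :=
  if i < N then s else if i < N + M then 1 else s

theorem len_lengths (M N : ℕ) (s : ℝ) : Lengths M N s (len M N s) := by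
  refine ⟨fun i h => ?_, fun i h h' => ?_, fun i h _ => ?_⟩
  · simp [len, h]
  · simp [len, not_lt.2 h, h']
  · simp [len, not_lt.2 h, show ¬ i < N by omega]

theorem len_pos (M N : ℕ) (s : ℝ) (hs : 1 ≤ s) (i : ℕ) : 0 < len M N s i := by
  unfold len
  split_ifs <;> linarith

/-- link directions of the base configuration -/
noncomputable def bdir (R k N : ℕ) (i : ℕ) : E3 := rdir R k ((i : ℤ) - N)

/-- vertices from directions -/
noncomputable def chainOf (p : E3) (ℓ : ℕ → ℝ) (v : ℕ → E3) (i : ℕ) : E3 :=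
  p + ∑ j ∈ Finset.range i, ℓ j • v j

theorem chainOf_step (p : E3) (ℓ : ℕ → ℝ) (v : ℕ → E3) (i : ℕ) :
    chainOf p ℓ v (i + 1) - chainOf p ℓ v i = ℓ i • v i := by
  simp only [chainOf, Finset.sum_range_succ]
  abel

theorem rdir_neg (R k : ℕ) (hR : 1 ≤ R) (i : ℤ) (hi : i < 0) : rdir R k i = e0 := by
  have hRz : (0 : ℤ) < R := by exact_mod_cast hR
  have h3 : i / R < 0 := Int.ediv_neg_of_neg_of_pos hi hRz
  rw [rdir_flat R k i, D0_of_lt _ (by omega), e0_eq]
  · rw [D0_of_lt _ (by omega), D0_of_lt _ (by omega)]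
  · rw [D0_of_lt _ (by omega), D0_of_lt _ (by omega)]

theorem rdir_large (R k : ℕ) (hR : 1 ≤ R) (i : ℤ) (hi : 23 * (R : ℤ) ≤ i) : rdir R k i = e0 := by
  have hRz : (0 : ℤ) < R := by exact_mod_cast hR
  have h2 : 23 ≤ i / R := Int.le_ediv_of_mul_le hRz hi
  rw [rdir_flat R k i, D0_of_ge _ (by omega), e0_eq]
  · rw [D0_of_ge _ (by omega), D0_of_ge _ (by omega)]
  · rw [D0_of_ge _ (by omega), D0_of_ge _ (by omega)]

section

variable (R k M N : ℕ) (s : ℝ)

/-- affine pieces of the reparametrised rounded path -/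
theorem piece (hk : 1 ≤ k) (hR : 2 * k < R) (hM : M = 24 * R) (hs : 0 ≤ s) (i : ℕ) (x : ℝ)
    (h0 : (i : ℝ) ≤ N + x) (h1 : N + x ≤ i + 1) :
    curve (p0 R k) (psi s M x) = curve (p0 R k) (psi s M ((i : ℝ) - N)) +
      ((N : ℝ) + x - i) • (len M N s i • bdir R k N i) := by
  have hM' : (M : ℝ) = 24 * R := by rw [hM]; push_cast; ring
  have hM0 : (0 : ℝ) < M := by
    rw [hM']
    have : 0 < R := by omega
    positivity
  rcases lt_or_ge i N with hi | hi
  · have hiN : (i : ℝ) + 1 ≤ N := by exact_mod_cast hi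
    have hx : x ≤ 0 := by linarith
    have e1 : psi s M x = s * x := by simp [psi, hx]
    have e2 : psi s M ((i : ℝ) - N) = s * ((i : ℝ) - N) := by
      simp only [psi]; rw [if_pos (by linarith)]
    rw [e1, e2, len, if_pos hi, bdir, rdir_neg R k (by omega) _ (by omega)]
    rw [curve_p0_left R k (by omega) _ (mul_nonpos_of_nonneg_of_nonpos hs hx),
      curve_p0_left R k (by omega) _ (mul_nonpos_of_nonneg_of_nonpos hs (by linarith))]
    module
  · rcases lt_or_ge i (N + M) with hi' | hi'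
    · have hNi : (N : ℝ) ≤ i := by exact_mod_cast hi
      have hiM : (i : ℝ) + 1 ≤ N + M := by exact_mod_cast hi'
      have key : ∀ y : ℝ, 0 ≤ y → y ≤ M → psi s M y = y := by
        intro y hy0 hyM
        unfold psi
        split_ifs with g
        · have : y = 0 := le_antisymm g hy0
          rw [this, mul_zero]
        · rfl
      rw [key x (by linarith) (by linarith), key ((i : ℝ) - N) (by linarith) (by linarith),
        len, if_neg (not_lt.2 hi), if_pos hi', one_smul, bdir]
      have hc : (((i : ℤ) - N : ℤ) : ℝ) = (i : ℝ) - N := by push_cast; ring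
      rw [curve_of_mem (p0 R k) ((i : ℤ) - N) x (by rw [hc]; linarith) (by rw [hc]; linarith),
        ← hc, curve_int]
      have h3 := step_eq R k hk hR ((i : ℤ) - N)
      have h4 : p0 R k ((i : ℤ) - N + 1) - p0 R k ((i : ℤ) - N) = rdir R k ((i : ℤ) - N) := h3
      rw [h4, hc]
      congr 2; ring
    · have hNi : (N : ℝ) + M ≤ i := by exact_mod_cast hi'
      have key : ∀ y : ℝ, (M : ℝ) ≤ y → psi s M y = M + s * (y - M) := by
        intro y hy
        unfold psi
        split_ifs with g g'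
        · linarith
        · have : y = M := le_antisymm g' hy
          rw [this]; ring
        · rfl
      rw [key x (by linarith), key ((i : ℝ) - N) (by linarith),
        len, if_neg (not_lt.2 hi), if_neg (not_lt.2 hi'), bdir, rdir_large R k (by omega) _ (by omega)]
      have g1 : 0 ≤ s * (x - M) := mul_nonneg hs (by linarith)
      have g2 : 0 ≤ s * ((i : ℝ) - N - M) := mul_nonneg hs (by linarith)
      rw [curve_p0_right R k hk hR _ (by rw [hM'] at g1 ⊢; linarith),
        curve_p0_right R k hk hR (M + s * ((i : ℝ) - N - M)) (by rw [hM'] at g2 ⊢; linarith)]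
      module

/-- the base configuration -/
noncomputable def q0 : ℕ → E3 :=
  chainOf (curve (p0 R k) (psi s M (-N))) (len M N s) (bdir R k N)

theorem q0_eq (hk : 1 ≤ k) (hR : 2 * k < R) (hM : M = 24 * R) (hs : 0 ≤ s) (i : ℕ) :
    q0 R k M N s i = curve (p0 R k) (psi s M ((i : ℝ) - N)) := by
  induction i with
  | zero => simp [q0, chainOf]
  | succ i ih =>
    have h1 : q0 R k M N s (i + 1) = q0 R k M N s i + len M N s i • bdir R k N i := by
      rw [← chainOf_step]; simp only [q0]; abel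
    rw [h1, ih, piece R k M N s hk hR hM hs i (((i + 1 : ℕ) : ℝ) - N) (by push_cast; linarith)
      (by push_cast; linarith)]
    push_cast
    module

theorem chainCurve_q0 (hk : 1 ≤ k) (hR : 2 * k < R) (hM : M = 24 * R) (hs : 0 ≤ s) (x : ℝ)
    (hx : -(N : ℝ) ≤ x) : chainCurve N (q0 R k M N s) x = curve (p0 R k) (psi s M x) := by
  have h0 : (0 : ℝ) ≤ N + x := by linarith
  have h1 := Nat.floor_le h0
  have h2 := (Nat.lt_floor_add_one ((N : ℝ) + x)).le
  rw [chainCurve, curve_ext _ ⌊(N : ℝ) + x⌋₊ _ h1 h2,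
    piece R k M N s hk hR hM hs ⌊(N : ℝ) + x⌋₊ x h1 h2, ← q0_eq R k M N s hk hR hM hs]
  congr 2
  simp only [q0]
  rw [chainOf_step]

end

theorem psi_expand (s m x y : ℝ) (hs : 1 ≤ s) (hm : 0 ≤ m) (hxy : x ≤ y) :
    y - x ≤ psi s m y - psi s m x := by
  unfold psi
  split_ifs <;> nlinarith

theorem psi_expand' (s m x y : ℝ) (hs : 1 ≤ s) (hm : 0 ≤ m) :
    |x - y| ≤ |psi s m x - psi s m y| := by
  rcases le_total x y with h | h
  · have := psi_expand s m x y hs hm h
    rw [abs_sub_comm x y, abs_sub_comm (psi s m x), abs_of_nonneg (by linarith : 0 ≤ y - x)]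
    exact this.trans (le_abs_self _)
  · have := psi_expand s m y x hs hm h
    rw [abs_of_nonneg (by linarith : 0 ≤ x - y)]
    exact this.trans (le_abs_self _)

theorem simple_of_injOn (n : ℕ) (q : ℕ → E3)
    (hinj : Set.InjOn (curve (ext q)) (Set.Icc 0 (n : ℝ))) : SimplePath n q := by
  have seg : ∀ i : ℕ, i < n → ∀ p ∈ segment ℝ (q i) (q (i + 1)),
      ∃ x : ℝ, (i : ℝ) ≤ x ∧ x ≤ i + 1 ∧ x ∈ Set.Icc 0 (n : ℝ) ∧ curve (ext q) x = p := by
    intro i hi p hp
    rw [segment_eq_image'] at hp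
    obtain ⟨t, ht, rfl⟩ := hp
    have hin : (i : ℝ) + 1 ≤ n := by exact_mod_cast hi
    have hi0 : (0 : ℝ) ≤ i := Nat.cast_nonneg i
    refine ⟨i + t, by linarith [ht.1], by linarith [ht.2], ⟨by linarith [ht.1], by linarith [ht.2]⟩, ?_⟩
    rw [curve_ext q i _ (by linarith [ht.1]) (by linarith [ht.2])]
    congr 2; ring
  refine ⟨?_, ?_⟩
  · intro i hi
    ext p
    constructor
    · rintro ⟨h1, h2⟩
      obtain ⟨x, hx0, hx1, hx, hxp⟩ := seg i (by omega) p h1
      obtain ⟨y, hy0, hy1, hy, hyp⟩ := seg (i + 1) hi p h2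
      have := hinj hx hy (hxp.trans hyp.symm)
      push_cast at hy0
      have hxe : x = ((i + 1 : ℕ) : ℝ) := by push_cast; linarith
      rw [Set.mem_singleton_iff, ← hxp, hxe, curve_ext q (i + 1) _ le_rfl (by linarith)]
      simp
    · rintro rfl
      exact ⟨right_mem_segment ℝ _ _, left_mem_segment ℝ _ _⟩
  · intro i j hij hj
    rw [Set.disjoint_left]
    intro p h1 h2
    obtain ⟨x, hx0, hx1, hx, hxp⟩ := seg i (by omega) p h1
    obtain ⟨y, hy0, hy1, hy, hyp⟩ := seg j hj p h2
    have := hinj hx hy (hxp.trans hyp.symm)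
    have h3 : (i : ℝ) + 1 < j := by exact_mod_cast hij
    linarith

theorem config_of_injOn (n : ℕ) (p : E3) (ℓ : ℕ → ℝ) (hℓ : ∀ i, 0 < ℓ i) (v : ℕ → E3)
    (hv : ∀ i, ‖v i‖ = 1) (hinj : Set.InjOn (curve (ext (chainOf p ℓ v))) (Set.Icc 0 (n : ℝ))) :
    Config n ℓ (fun i => InnerProductGeometry.angle (v (i - 1)) (v i)) (chainOf p ℓ v) := by
  refine ⟨?_, ?_, simple_of_injOn n _ hinj⟩
  · intro i _
    rw [chainOf_step, norm_smul, hv, mul_one, Real.norm_of_nonneg (hℓ i).le]
  · intro i hi _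
    obtain ⟨j, rfl⟩ : ∃ j, i = j + 1 := ⟨i - 1, by omega⟩
    simp only [Nat.add_sub_cancel]
    rw [chainOf_step, chainOf_step, InnerProductGeometry.angle_smul_left_of_pos _ _ (hℓ j),
      InnerProductGeometry.angle_smul_right_of_pos _ _ (hℓ (j + 1))]

/-- only the vertices up to `n` matter -/
theorem Config.congr {n : ℕ} {ℓ θ : ℕ → ℝ} {q q' : ℕ → E3} (h : Config n ℓ θ q)
    (hq : ∀ i ≤ n, q i = q' i) : Config n ℓ θ q' := by
  refine ⟨?_, ?_, ?_, ?_⟩
  · intro i hi
    rw [← hq i (by omega), ← hq (i + 1) (by omega)]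
    exact h.length i hi
  · intro i h1 hi
    rw [← hq i (by omega), ← hq (i + 1) (by omega), ← hq (i - 1) (by omega)]
    exact h.turn i h1 hi
  · intro i hi
    rw [← hq i (by omega), ← hq (i + 1) (by omega), ← hq (i + 2) (by omega)]
    exact h.simple.1 i hi
  · intro i j hij hj
    rw [← hq i (by omega), ← hq (i + 1) (by omega), ← hq j (by omega), ← hq (j + 1) (by omega)]
    exact h.simple.2 i j hij hj

end Pool.Agent.Helper22.LC
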