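import Pool.Agent.Helper22.LC.Exit

set_option autoImplicit false

namespace Pool.Agent.Helper22.LC

open Set Metric Filter Topology


/-- The capped curve is a piecewise linear injective curve. -/
theorem capped_pl_injective {m h s β r x₁ x₂ : ℝ} {P : ℝ → E3} {a b : E3}
    (hP : NeedleCurve m h s β P a b)
    (hm : 1 ≤ m) (hh : h = 8 * m) (hs : 1 ≤ s) (hs2 : s ≤ 2) (hβ : 0 ≤ β) (hβ2 : β ≤ 1 / 16)
    (hr : r = 4 * m) (h1 : IsExitL P h r x₁) (h2 : IsExitR P m h r x₂) :
    PL (capped P m r x₁ x₂) ∧ Function.Injective (capped P m r x₁ x₂) ∧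
      ‖dir P r (-x₁)‖ = 1 ∧ ‖dir P r (m + x₂)‖ = 1 ∧
      dir P r (m + x₂) ≠ dir P r (-x₁) ∧ 4 * r ≤ capT P m r x₁ x₂ := by
  obtain ⟨hx1, hx1h, e1, in1, out1⟩ := h1
  obtain ⟨hx2, hx2h, e2, in2, out2⟩ := h2
  have hr0 : 0 < r := by rw [hr]; linarith
  have hrne : r ≠ 0 := hr0.ne'
  set w₁ := dir P r (-x₁) with hw1
  set w₂ := dir P r (m + x₂) with hw2
  have n1 : ‖w₁‖ = 1 := by
    rw [hw1, dir, norm_smul, e1, norm_inv, Real.norm_of_nonneg hr0.le, inv_mul_cancel₀ hrne]
  have n2 : ‖w₂‖ = 1 := by
    rw [hw2, dir, norm_smul, e2, norm_inv, Real.norm_of_nonneg hr0.le, inv_mul_cancel₀ hrne]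
  have p1 : P (-x₁) = P 0 + r • w₁ := by
    rw [hw1, dir, smul_smul, mul_inv_cancel₀ hrne, one_smul]; abel
  have p2 : P (m + x₂) = P 0 + r • w₂ := by
    rw [hw2, dir, smul_smul, mul_inv_cancel₀ hrne, one_smul]; abel
  have hne : w₂ ≠ w₁ := by
    intro h
    have h3 : P (-x₁) = P (m + x₂) := by rw [p1, p2, h]
    have h4 : -x₁ = m + x₂ := hP.inj ⟨by linarith, by linarith⟩ ⟨by linarith, by linarith⟩ h3
    linarith
  have hnpos : 0 < ‖w₂ - w₁‖ := norm_pos_iff.2 (sub_ne_zero.2 hne)
  have hnle : ‖w₂ - w₁‖ ≤ 2 := by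
    calc ‖w₂ - w₁‖ ≤ ‖w₂‖ + ‖w₁‖ := norm_sub_le _ _
      _ = 2 := by rw [n1, n2]; norm_num
  have hTdef : capT P m r x₁ x₂ = 8 * r / ‖w₂ - w₁‖ := rfl
  have hT : 4 * r ≤ capT P m r x₁ x₂ := by
    rw [hTdef, le_div_iff₀ hnpos]
    nlinarith
  set T := capT P m r x₁ x₂ with hTT
  have hTpos : 0 < T := by linarith
  -- key linear independence substitute
  have key : ∀ α γ : ℝ, α • w₁ = γ • w₂ → α = -γ := by
    intro α γ h
    have hn : |α| = |γ| := by
      have := congrArg norm h
      rwa [norm_smul, norm_smul, n1, n2, mul_one, mul_one, Real.norm_eq_abs,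
        Real.norm_eq_abs] at this
    rcases abs_eq_abs.1 hn with h' | h'
    · by_cases h0 : α = 0
      · rw [h0] at h' ⊢; rw [← h']; simp
      · exfalso
        rw [← h'] at h
        exact hne (smul_right_injective E3 h0 h).symm
    · exact h'
  -- norm bound on the cap segment
  have normD : ∀ μ : ℝ, 0 ≤ μ → μ ≤ 1 → r < ‖((1 - μ) * T) • w₂ - (μ * (2 * T)) • w₁‖ := by
    intro μ h0 h1
    set κ := ‖w₂ - w₁‖ with hκ
    have hTκ : T * κ = 8 * r := by rw [hTdef]; field_simp
    have hin : κ ^ 2 = 2 - 2 * inner ℝ w₂ w₁ := by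
      rw [hκ, @norm_sub_sq_real, n1, n2]; ring
    have hsq : ‖((1 - μ) * T) • w₂ - (μ * (2 * T)) • w₁‖ ^ 2
        = T ^ 2 * ((1 - μ) ^ 2 + 4 * μ ^ 2 - 4 * μ * (1 - μ) * inner ℝ w₂ w₁) := by
      rw [@norm_sub_sq_real, norm_smul, norm_smul, n1, n2, inner_smul_left, inner_smul_right,
        Real.norm_eq_abs, Real.norm_eq_abs, mul_one, mul_one, sq_abs, sq_abs]
      simp only [conj_trivial]
      ring
    have hin2 : inner ℝ w₂ w₁ = 1 - κ ^ 2 / 2 := by linarith
    have hlow : (4 * r) ^ 2 * (1 + μ) ^ 2 ≤ ‖((1 - μ) * T) • w₂ - (μ * (2 * T)) • w₁‖ ^ 2 := by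
      rw [hsq, hin2]
      have e : (1 - μ) ^ 2 + 4 * μ ^ 2 - 4 * μ * (1 - μ) * (1 - κ ^ 2 / 2)
          = (1 - 3 * μ) ^ 2 + 2 * κ ^ 2 * (μ * (1 - μ)) := by ring
      rw [e]
      have hκ2 : κ ^ 2 / 4 ≤ 1 := by nlinarith
      have e2 : κ ^ 2 / 4 * (1 + μ) ^ 2 ≤ (1 - 3 * μ) ^ 2 + 2 * κ ^ 2 * (μ * (1 - μ)) := by
        nlinarith [mul_nonneg (sub_nonneg.2 hκ2) (sq_nonneg (1 - 3 * μ))]
      have e3 : (4 * r) ^ 2 * (1 + μ) ^ 2 = T ^ 2 * (κ ^ 2 / 4 * (1 + μ) ^ 2) := by
        have : (T * κ) ^ 2 = (8 * r) ^ 2 := by rw [hTκ]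
        linear_combination (-(1 + μ) ^ 2 / 4) * this
      rw [e3]
      exact mul_le_mul_of_nonneg_left e2 (sq_nonneg T)
    have hlow2 : r ^ 2 < ‖((1 - μ) * T) • w₂ - (μ * (2 * T)) • w₁‖ ^ 2 := by
      refine lt_of_lt_of_le ?_ hlow
      nlinarith [mul_pos hr0 hr0, mul_nonneg (mul_pos hr0 hr0).le h0,
        mul_nonneg (mul_pos hr0 hr0).le (sq_nonneg μ)]
    exact lt_of_pow_lt_pow_left₀ 2 (norm_nonneg _) hlow2
  refine ⟨?_, ?_, n1, n2, hne, hT⟩
  · -- piecewise linearity
    have q6 : PL (fun l : ℝ => P 0 - (2 * T + (l - 5)) • w₁) := by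
      have := PL.affine (P 0 - (2 * T - 5) • w₁) (-w₁)
      convert this using 2
      module
    have q5 : PL (fun l : ℝ => P 0 + ((5 - l) * T) • w₂ - ((l - 4) * (2 * T)) • w₁) := by
      have := PL.affine (P 0 + (5 * T) • w₂ + (8 * T) • w₁) (-(T • w₂) - (2 * T) • w₁)
      convert this using 2
      module
    have q4 : PL (fun l : ℝ => P 0 + (r + (l - 3) * (T - r)) • w₂) := by
      have := PL.affine (P 0 + (r - 3 * (T - r)) • w₂) ((T - r) • w₂)
      convert this using 2
      module
    have q0 : PL (fun l : ℝ => P (-x₁) + (-l) • w₁) := by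
      have := PL.affine (P (-x₁)) (-w₁)
      convert this using 2
      module
    have q1 := hP.pl.comp x₁ (-x₁) hx1
    have q2 := hP.pl.comp m (-m) (by linarith)
    have q3 := hP.pl.comp x₂ (m - 2 * x₂) hx2
    have g5 := PL.glue q5 q6 5 (by
      show P 0 + ((5 - 5) * T) • w₂ - ((5 - 4) * (2 * T)) • w₁ = P 0 - (2 * T + (5 - 5)) • w₁
      module)
    have g4 := PL.glue q4 g5 4 (by
      show P 0 + (r + (4 - 3) * (T - r)) • w₂ = if (4 : ℝ) ≤ 5 then _ else _
      rw [if_pos (by norm_num)]
      module)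
    have g3 := PL.glue q3 g4 3 (by
      show P (x₂ * 3 + (m - 2 * x₂)) = if (3 : ℝ) ≤ 4 then _ else _
      rw [if_pos (by norm_num), show x₂ * 3 + (m - 2 * x₂) = m + x₂ by ring, p2]
      module)
    have g2 := PL.glue q2 g3 2 (by
      show P (m * 2 + -m) = if (2 : ℝ) ≤ 3 then _ else _
      rw [if_pos (by norm_num)]
      congr 1; ring)
    have g1 := PL.glue q1 g2 1 (by
      show P (x₁ * 1 + -x₁) = if (1 : ℝ) ≤ 2 then _ else _
      rw [if_pos (by norm_num)]
      congr 1; ring)
    have g0 := PL.glue q0 g1 0 (by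
      show P (-x₁) + (-0 : ℝ) • w₁ = if (0 : ℝ) ≤ 1 then _ else _
      rw [if_pos (by norm_num), neg_zero, zero_smul, add_zero]
      congr 1; ring)
    exact g0
  · -- injectivity
    -- representation outside (0,3)
    let g : ℝ → ℝ := fun l => if l ≤ 0 then r - l else if l ≤ 4 then -(r + (l - 3) * (T - r))
      else if l ≤ 5 then -((l - 3) * T) else -(2 * T + (l - 5))
    have rep : ∀ l, (l ≤ 0 ∨ 3 ≤ l) → ∃ A B : ℝ, capped P m r x₁ x₂ l = P 0 + (A • w₁ + B • w₂) ∧
        A - B = g l ∧ r ≤ ‖A • w₁ + B • w₂‖ := by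
      intro l hl
      by_cases l0 : l ≤ 0
      · refine ⟨r - l, 0, ?_, ?_, ?_⟩
        · simp only [capped, if_pos l0]
          rw [← hw1, p1]; module
        · simp only [g, if_pos l0]; ring
        · rw [zero_smul, add_zero, norm_smul, n1, mul_one, Real.norm_eq_abs]
          exact le_trans (by linarith) (le_abs_self _)
      · have l3 : 3 ≤ l := by rcases hl with h | h; exact absurd h l0; exact h
        have hl1 : ¬ l ≤ 1 := by linarith
        have hl2 : ¬ l ≤ 2 := by linarith
        by_cases l4 : l ≤ 4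
        · refine ⟨0, r + (l - 3) * (T - r), ?_, ?_, ?_⟩
          · by_cases l3' : l ≤ 3
            · have : l = 3 := le_antisymm l3' l3
              subst this
              simp only [capped, if_neg l0, if_neg hl1, if_neg hl2, le_refl, if_true]
              rw [show x₂ * 3 + (m - 2 * x₂) = m + x₂ by ring, p2]
              module
            · simp only [capped, if_neg l0, if_neg hl1, if_neg hl2, if_neg l3', if_pos l4]
              rw [← hw2, ← hTT]; module
          · simp only [g, if_neg l0, if_pos l4]; ring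
          · rw [zero_smul, zero_add, norm_smul, n2, mul_one, Real.norm_eq_abs]
            refine le_trans ?_ (le_abs_self _)
            nlinarith
        · have l3' : ¬ l ≤ 3 := by linarith
          by_cases l5 : l ≤ 5
          · refine ⟨-((l - 4) * (2 * T)), (5 - l) * T, ?_, ?_, ?_⟩
            · simp only [capped, if_neg l0, if_neg hl1, if_neg hl2, if_neg l3', if_neg l4,
                if_pos l5]
              rw [← hw2, ← hTT, ← hw1]; module
            · simp only [g, if_neg l0, if_neg l4, if_pos l5]; ring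
            · have := normD (l - 4) (by linarith) (by linarith)
              refine le_trans this.le (le_of_eq ?_)
              congr 1
              module
          · refine ⟨-(2 * T + (l - 5)), 0, ?_, ?_, ?_⟩
            · simp only [capped, if_neg l0, if_neg hl1, if_neg hl2, if_neg l3', if_neg l4,
                if_neg l5]
              rw [← hTT, ← hw1]; module
            · simp only [g, if_neg l0, if_neg l4, if_neg l5]; ring
            · rw [zero_smul, add_zero, norm_smul, n1, mul_one, Real.norm_eq_abs, abs_neg]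
              exact le_trans (by linarith) (le_abs_self _)
    have gmono : ∀ l l', (l ≤ 0 ∨ 3 ≤ l) → (l' ≤ 0 ∨ 3 ≤ l') → l < l' → g l' < g l := by
      intro l l' hl hl' hlt
      have hrT : 0 < T - r := by linarith
      have k1 : 0 < (l' - l) * (T - r) := mul_pos (by linarith) hrT
      have k2 : 0 < (l' - l) * T := mul_pos (by linarith) hTpos
      have k3 : l ≤ 4 → 0 ≤ (4 - l) * (T - r) := fun h => mul_nonneg (by linarith) hrT.le
      have k4 : 4 < l' → 0 < (l' - 4) * T := fun h => mul_pos (by linarith) hTpos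
      have k5 : 3 ≤ l' → 0 ≤ (l' - 3) * (T - r) := fun h => mul_nonneg (by linarith) hrT.le
      have k6 : l ≤ 5 → 0 ≤ (5 - l) * T := fun h => mul_nonneg (by linarith) hTpos.le
      simp only [g]
      split_ifs <;> first
        | linarith
        | (have := k5 (by rcases hl' with h | h <;> linarith); linarith)
        | (have := k4 (by linarith); linarith)
        | (have := k3 (by linarith); linarith)
        | (have := k6 (by linarith); linarith)
        | (have := k3 (by linarith); have := k4 (by linarith); linarith)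
    -- representation inside (0,3)
    let φ : ℝ → ℝ := fun l => if l ≤ 1 then x₁ * l + (-x₁) else if l ≤ 2 then m * l + (-m)
      else x₂ * l + (m - 2 * x₂)
    have rep2 : ∀ l, 0 < l → l < 3 → capped P m r x₁ x₂ l = P (φ l) ∧
        φ l ∈ Set.Icc (-h) (m + h) ∧ ‖P (φ l) - P 0‖ < r := by
      intro l l0 l3
      have hl0 : ¬ l ≤ 0 := by linarith
      by_cases l1 : l ≤ 1
      · have hφ : φ l = x₁ * l + (-x₁) := by simp only [φ, if_pos l1]
        rw [hφ]
        refine ⟨by simp only [capped, if_neg hl0, if_pos l1], ⟨by nlinarith, by nlinarith⟩, ?_⟩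
        have := in1 (x₁ - x₁ * l) (by nlinarith) (by nlinarith)
        rwa [show -(x₁ - x₁ * l) = x₁ * l + -x₁ by ring] at this
      · by_cases l2 : l ≤ 2
        · have hφ : φ l = m * l + (-m) := by simp only [φ, if_neg l1, if_pos l2]
          rw [hφ]
          refine ⟨by simp only [capped, if_neg hl0, if_neg l1, if_pos l2],
            ⟨by nlinarith, by nlinarith⟩, ?_⟩
          have := hP.mid (m * l + (-m)) ⟨by nlinarith, by nlinarith⟩ 0 ⟨le_rfl, by linarith⟩
          refine lt_of_le_of_lt this ?_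
          rw [sub_zero, abs_of_nonneg (by nlinarith)]
          nlinarith
        · have hφ : φ l = x₂ * l + (m - 2 * x₂) := by simp only [φ, if_neg l1, if_neg l2]
          rw [hφ]
          refine ⟨by simp only [capped, if_neg hl0, if_neg l1, if_neg l2, if_pos l3.le],
            ⟨by nlinarith, by nlinarith⟩, ?_⟩
          have := in2 (x₂ * l - 2 * x₂) (by nlinarith) (by nlinarith)
          rwa [show m + (x₂ * l - 2 * x₂) = x₂ * l + (m - 2 * x₂) by ring] at this
    have φmono : ∀ l l', 0 < l → l' < 3 → l < l' → φ l < φ l' := by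
      intro l l' hl hl' hlt
      have k1 : 0 < x₁ * (l' - l) := mul_pos hx1 (by linarith)
      have k2 : 0 < m * (l' - l) := mul_pos (by linarith) (by linarith)
      have k3 : 0 < x₂ * (l' - l) := mul_pos hx2 (by linarith)
      have k4 : l ≤ 1 → x₁ * (l - 1) ≤ 0 := fun h => mul_nonpos_of_nonneg_of_nonpos hx1.le (by linarith)
      have k5 : 1 < l' → 0 < m * (l' - 1) := fun h => mul_pos (by linarith) (by linarith)
      have k6 : l ≤ 2 → m * (l - 2) ≤ 0 := fun h =>
        mul_nonpos_of_nonneg_of_nonpos (by linarith) (by linarith)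
      have k7 : 2 < l' → 0 < x₂ * (l' - 2) := fun h => mul_pos (by linarith) (by linarith)
      simp only [φ]
      split_ifs <;> first
        | linarith
        | (have := k4 (by linarith); linarith)
        | (have := k4 (by linarith); have := k5 (by linarith); linarith)
        | (have := k6 (by linarith); have := k7 (by linarith); linarith)
        | (have := k4 (by linarith); have := k7 (by linarith); linarith)
    -- now assemble
    have main : ∀ l l', l < l' → capped P m r x₁ x₂ l ≠ capped P m r x₁ x₂ l' := by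
      intro l l' hlt heq
      by_cases c1 : l ≤ 0 ∨ 3 ≤ l
      · obtain ⟨A, B, hA, hAB, hN⟩ := rep l c1
        by_cases c2 : l' ≤ 0 ∨ 3 ≤ l'
        · obtain ⟨A', B', hA', hAB', hN'⟩ := rep l' c2
          have h3 : (A - A') • w₁ = (B' - B) • w₂ := by
            rw [hA, hA'] at heq
            have h4 : A • w₁ + B • w₂ = A' • w₁ + B' • w₂ := add_left_cancel heq
            have h5 : (A - A') • w₁ - (B' - B) • w₂ = 0 := by
              have : (A - A') • w₁ - (B' - B) • w₂ = (A • w₁ + B • w₂) - (A' • w₁ + B' • w₂) := by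
                module
              rw [this, h4, sub_self]
            exact sub_eq_zero.1 h5
          have h6 := key _ _ h3
          have h7 := gmono l l' c1 c2 hlt
          linarith
        · push Not at c2
          obtain ⟨h4, h5, h6⟩ := rep2 l' c2.1 c2.2
          rw [h4.symm, ← heq, hA, add_sub_cancel_left] at h6
          linarith
      · push Not at c1
        obtain ⟨h4, h5, h6⟩ := rep2 l c1.1 c1.2
        by_cases c2 : l' ≤ 0 ∨ 3 ≤ l'
        · obtain ⟨A', B', hA', hAB', hN'⟩ := rep l' c2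
          rw [h4.symm, heq, hA', add_sub_cancel_left] at h6
          linarith
        · push Not at c2
          obtain ⟨h4', h5', h6'⟩ := rep2 l' c2.1 c2.2
          rw [h4, h4'] at heq
          have := hP.inj h5 h5' heq
          have h7 := φmono l l' c1.1 c2.2 hlt
          linarith
    intro l l' heq
    rcases lt_trichotomy l l' with hlt | hlt | hlt
    · exact absurd heq (main l l' hlt)
    · exact hlt
    · exact absurd heq.symm (main l' l hlt)

end Pool.Agent.Helper22.LC
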