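import Pool.Agent.Helper22.LC.Exit

set_option autoImplicit false

namespace Pool.Agent.Helper22.LC

open Set Metric Filter Topology

theorem curve_congr (V W : ℤ → E3) (A B : ℤ) (h : ∀ i, A ≤ i → i ≤ B → V i = W i) (x : ℝ)
    (hx : x ∈ Icc (A : ℝ) B) (hAB : A < B) : curve V x = curve W x := by
  rcases lt_or_eq_of_le hx.2 with hlt | heq
  · have h1 : A ≤ ⌊x⌋ := Int.le_floor.2 hx.1
    have h2 : ⌊x⌋ < B := Int.floor_lt.2 hlt
    rw [curve_of_mem V ⌊x⌋ x (Int.floor_le x) (Int.lt_floor_add_one x).le,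
      curve_of_mem W ⌊x⌋ x (Int.floor_le x) (Int.lt_floor_add_one x).le,
      h _ h1 h2.le, h _ (by omega) (by omega)]
  · rw [heq, curve_int, curve_int, h B hAB.le le_rfl]

theorem curve_lipschitz_on (V : ℤ → E3) (η : ℝ) (hη : 0 ≤ η) (A B : ℤ) (hAB : A < B)
    (h : ∀ i, A ≤ i → i < B → ‖V (i + 1) - V i‖ ≤ η) (x y : ℝ) (hx : x ∈ Icc (A : ℝ) B)
    (hy : y ∈ Icc (A : ℝ) B) : ‖curve V x - curve V y‖ ≤ η * |x - y| := by
  set W : ℤ → E3 := fun i => V (max A (min i B)) with hW
  have hVW : ∀ i, A ≤ i → i ≤ B → V i = W i := by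
    intro i h1 h2
    simp only [hW]
    rw [min_eq_left h2, max_eq_right h1]
  rw [curve_congr V W A B hVW x hx hAB, curve_congr V W A B hVW y hy hAB]
  refine curve_lipschitz W η ?_ x y
  intro i
  simp only [hW]
  rcases lt_or_ge i A with h1 | h1
  · have e1 : max A (min i B) = A := by omega
    have e2 : max A (min (i + 1) B) = A := by omega
    rw [e1, e2, sub_self, norm_zero]; exact hη
  · rcases lt_or_ge i B with h2 | h2
    · have e1 : max A (min i B) = i := by omega
      have e2 : max A (min (i + 1) B) = i + 1 := by omega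
      rw [e1, e2]; exact h i h1 h2
    · have e1 : max A (min i B) = B := by omega
      have e2 : max A (min (i + 1) B) = B := by omega
      rw [e1, e2, sub_self, norm_zero]; exact hη

theorem curve_affine (p v : E3) (x : ℝ) : curve (fun i => p + (i : ℝ) • v) x = p + x • v := by
  simp only [curve]
  push_cast
  have : x = ⌊x⌋ + Int.fract x := (Int.floor_add_fract x).symm
  conv_rhs => rw [this]
  module

theorem curve_add (V W : ℤ → E3) (x : ℝ) :
    curve (fun i => V i + W i) x = curve V x + curve W x := by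
  simp only [curve]
  module

/-- the points `q 0, …, q n` are the vertices of a simple polygonal path -/
def SimplePath (n : ℕ) (q : ℕ → E3) : Prop :=
  (∀ i, i + 1 < n → segment ℝ (q i) (q (i + 1)) ∩ segment ℝ (q (i + 1)) (q (i + 2)) = {q (i + 1)}) ∧
  (∀ i j, i + 1 < j → j < n → Disjoint (segment ℝ (q i) (q (i + 1))) (segment ℝ (q j) (q (j + 1))))

/-- configurations of a chain, with vertices indexed by natural numbers -/
structure Config (n : ℕ) (ℓ θ : ℕ → ℝ) (q : ℕ → E3) : Prop where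
  length : ∀ i, i < n → ‖q (i + 1) - q i‖ = ℓ i
  turn : ∀ i, 1 ≤ i → i < n →
    InnerProductGeometry.angle (q i - q (i - 1)) (q (i + 1) - q i) = θ i
  simple : SimplePath n q

/-- the bi-infinite vertex sequence of a chain -/
def ext (q : ℕ → E3) : ℤ → E3 := fun i => q i.toNat

theorem curve_ext (q : ℕ → E3) (i : ℕ) (x : ℝ) (h0 : (i : ℝ) ≤ x) (h1 : x ≤ i + 1) :
    curve (ext q) x = q i + (x - i) • (q (i + 1) - q i) := by
  rw [curve_of_mem (ext q) i x (by exact_mod_cast h0) (by exact_mod_cast h1)]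
  have e1 : ext q (i : ℤ) = q i := by simp [ext]
  have e2 : ext q ((i : ℤ) + 1) = q (i + 1) := by
    simp only [ext]; congr 1
  rw [e1, e2]; simp

theorem curve_ext_mem_segment (q : ℕ → E3) (i : ℕ) (x : ℝ) (h0 : (i : ℝ) ≤ x) (h1 : x ≤ i + 1) :
    curve (ext q) x ∈ segment ℝ (q i) (q (i + 1)) := by
  rw [curve_ext q i x h0 h1, segment_eq_image']
  exact ⟨x - i, ⟨by linarith, by linarith⟩, rfl⟩

/-- simple paths are injective -/
theorem injOn_of_simple (n : ℕ) (q : ℕ → E3) (hs : SimplePath n q)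
    (hne : ∀ i, i < n → q (i + 1) ≠ q i) : Set.InjOn (curve (ext q)) (Set.Icc 0 (n : ℝ)) := by
  -- it suffices to treat x < y
  suffices H : ∀ x y : ℝ, 0 ≤ x → x < y → y ≤ n → curve (ext q) x ≠ curve (ext q) y by
    intro x hx y hy hxy
    rcases lt_trichotomy x y with h | h | h
    · exact absurd hxy (H x y hx.1 h hy.2)
    · exact h
    · exact absurd hxy.symm (H y x hy.1 h hx.2)
  intro x y hx hxy hy heq
  -- i = floor x, j with j < y ≤ j+1
  obtain ⟨i, hi0, hi1⟩ : ∃ i : ℕ, (i : ℝ) ≤ x ∧ x < i + 1 :=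
    ⟨⌊x⌋₊, Nat.floor_le hx, Nat.lt_floor_add_one x⟩
  obtain ⟨j, hj0, hj1⟩ : ∃ j : ℕ, (j : ℝ) < y ∧ y ≤ j + 1 := by
    have hy0 : 0 < y := by linarith
    refine ⟨⌈y⌉₊ - 1, ?_, ?_⟩
    · have h1 : 1 ≤ ⌈y⌉₊ := Nat.one_le_ceil_iff.2 hy0
      rw [Nat.cast_sub h1]
      have := Nat.ceil_lt_add_one hy0.le
      push_cast; linarith
    · have h1 : 1 ≤ ⌈y⌉₊ := Nat.one_le_ceil_iff.2 hy0
      rw [Nat.cast_sub h1]
      have := Nat.le_ceil y
      push_cast; linarith
  have hjn : j < n := by
    have : (j : ℝ) < n := by linarith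
    exact_mod_cast this
  have hij : i ≤ j := by
    have : (i : ℝ) < j + 1 := by linarith
    have : i < j + 1 := by exact_mod_cast this
    omega
  have hin : i < n := by omega
  have hxs := curve_ext_mem_segment q i x hi0 hi1.le
  have hys := curve_ext_mem_segment q j y hj0.le hj1
  have hxe := curve_ext q i x hi0 hi1.le
  have hye := curve_ext q j y hj0.le hj1
  rcases Nat.lt_or_ge i j with hlt | hge
  · rcases Nat.lt_or_ge (i + 1) j with hlt2 | hge2
    · exact (Set.disjoint_left.1 (hs.2 i j hlt2 hjn)) hxs (heq ▸ hys)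
    · have hj : j = i + 1 := by omega
      subst hj
      have hmem : curve (ext q) x ∈ segment ℝ (q i) (q (i + 1)) ∩
          segment ℝ (q (i + 1)) (q (i + 2)) := ⟨hxs, heq ▸ hys⟩
      rw [hs.1 i (by omega)] at hmem
      have h1 : curve (ext q) x = q (i + 1) := hmem
      rw [heq, hye] at h1
      have h2 : (y - ((i + 1 : ℕ) : ℝ)) • (q (i + 1 + 1) - q (i + 1)) = 0 := by
        have := congrArg (fun p => p - q (i + 1)) h1
        simpa using this
      rcases smul_eq_zero.1 h2 with h3 | h3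
      · linarith
      · exact hne (i + 1) hjn (sub_eq_zero.1 h3)
  · have hj : j = i := by omega
    subst hj
    rw [hxe, hye] at heq
    have h2 : (y - x) • (q (j + 1) - q j) = 0 := by
      have e : (y - x) • (q (j + 1) - q j) =
        (q j + (y - j) • (q (j + 1) - q j)) - (q j + (x - j) • (q (j + 1) - q j)) := by module
      rw [e, heq, sub_self]
    rcases smul_eq_zero.1 h2 with h3 | h3
    · linarith
    · exact hne j hin (sub_eq_zero.1 h3)

/-- the chord is shorter than the angle -/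
theorem norm_sub_le_angle (u v : E3) (hu : ‖u‖ = 1) (hv : ‖v‖ = 1) :
    ‖u - v‖ ≤ InnerProductGeometry.angle u v := by
  have h0 := InnerProductGeometry.angle_nonneg u v
  have h1 : ‖u - v‖ ^ 2 = 2 - 2 * Real.cos (InnerProductGeometry.angle u v) := by
    rw [InnerProductGeometry.cos_angle, hu, hv, norm_sub_sq_real, hu, hv]; ring
  have h2 := Real.one_sub_sq_div_two_le_cos (x := InnerProductGeometry.angle u v)
  exact le_of_sq_le_sq' (by nlinarith) h0
where
  le_of_sq_le_sq' {a b : ℝ} (h : a ^ 2 ≤ b ^ 2) (hb : 0 ≤ b) : a ≤ b := by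
    exact abs_le_of_sq_le_sq' h hb |>.2

/-- the parameters of the lengths of our chains -/
structure Lengths (M N : ℕ) (s : ℝ) (ℓ : ℕ → ℝ) : Prop where
  left : ∀ i, i < N → ℓ i = s
  mid : ∀ i, N ≤ i → i < N + M → ℓ i = 1
  right : ∀ i, N + M ≤ i → i < 2 * N + M → ℓ i = s

/-- total turn along the needles -/
structure SmallTurn (M N : ℕ) (β : ℝ) (θ : ℕ → ℝ) : Prop where
  left : ∑ i ∈ Finset.Ico 1 N, θ i ≤ β
  right : ∑ i ∈ Finset.Ico (N + M + 1) (2 * N + M), θ i ≤ β

theorem unit_of_config {n : ℕ} {ℓ θ : ℕ → ℝ} {q : ℕ → E3} (hq : Config n ℓ θ q) {s : ℝ}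
    (hs : 0 < s) {i : ℕ} (hi : i < n) (hℓ : ℓ i = s) : ‖s⁻¹ • (q (i + 1) - q i)‖ = 1 := by
  rw [norm_smul, hq.length i hi, hℓ, Real.norm_of_nonneg (by positivity), inv_mul_cancel₀ hs.ne']

theorem turn_dist {n : ℕ} {ℓ θ : ℕ → ℝ} {q : ℕ → E3} (hq : Config n ℓ θ q) {s : ℝ}
    (hs : 0 < s) {i : ℕ} (hi : i + 1 < n) (hℓ : ℓ i = s) (hℓ' : ℓ (i + 1) = s) :
    dist (s⁻¹ • (q (i + 1) - q i)) (s⁻¹ • (q (i + 2) - q (i + 1))) ≤ θ (i + 1) := by
  have h1 := unit_of_config hq hs (by omega : i < n) hℓ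
  have h2 := unit_of_config hq hs hi hℓ'
  have h3 := norm_sub_le_angle _ _ h1 h2
  have h4 := hq.turn (i + 1) (by omega) hi
  rw [InnerProductGeometry.angle_smul_left_of_pos _ _ (inv_pos.2 hs),
    InnerProductGeometry.angle_smul_right_of_pos _ _ (inv_pos.2 hs)] at h3
  simp only [Nat.add_sub_cancel] at h4
  rw [dist_eq_norm]
  exact h3.trans h4.le

theorem dir_close {n : ℕ} {ℓ θ : ℕ → ℝ} {q : ℕ → E3} (hq : Config n ℓ θ q) {s β : ℝ}
    (hs : 0 < s) (hθ : ∀ i, 1 ≤ i → i < n → 0 ≤ θ i) {A B : ℕ} (hB : B ≤ n)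
    (hℓ : ∀ i, A ≤ i → i < B → ℓ i = s) (hsum : ∑ i ∈ Finset.Ico (A + 1) B, θ i ≤ β)
    {i j : ℕ} (hi : A ≤ i) (hij : i ≤ j) (hj : j < B) :
    dist (s⁻¹ • (q (i + 1) - q i)) (s⁻¹ • (q (j + 1) - q j)) ≤ β := by
  have h1 := dist_le_Ico_sum_dist (fun k => s⁻¹ • (q (k + 1) - q k)) hij
  refine h1.trans ?_
  have h2 : ∑ k ∈ Finset.Ico i j, dist (s⁻¹ • (q (k + 1) - q k)) (s⁻¹ • (q (k + 1 + 1) - q (k + 1)))
      ≤ ∑ k ∈ Finset.Ico i j, θ (k + 1) := by
    refine Finset.sum_le_sum fun k hk => ?_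
    rw [Finset.mem_Ico] at hk
    exact turn_dist hq hs (by omega) (hℓ k (by omega) (by omega)) (hℓ (k + 1) (by omega) (by omega))
  refine h2.trans (le_trans ?_ hsum)
  rw [Finset.sum_Ico_add' θ i j 1]
  refine Finset.sum_le_sum_of_subset_of_nonneg ?_ ?_
  · intro k hk
    rw [Finset.mem_Ico] at hk ⊢
    omega
  · intro k hk _
    rw [Finset.mem_Ico] at hk
    exact hθ k (by omega) (by omega)

theorem needleCurve_of_config {M N : ℕ} (hM : 1 ≤ M) (hN : N = 8 * M) {s β : ℝ} (hs : 1 ≤ s)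
    (ℓ θ : ℕ → ℝ) (q : ℕ → E3) (hq : Config (2 * N + M) ℓ θ q)
    (hℓ : Lengths M N s ℓ) (hθ : ∀ i, 1 ≤ i → i < 2 * N + M → 0 ≤ θ i) (hst : SmallTurn M N β θ) :
    NeedleCurve M N s β (fun x => curve (ext q) (N + x)) (s⁻¹ • (q (N - 1) - q N))
      (s⁻¹ • (q (N + M + 1) - q (N + M))) := by
  have hs0 : 0 < s := by linarith
  have hβ : 0 ≤ β := (Finset.sum_nonneg (fun i hi => hθ i (Finset.mem_Ico.1 hi).1
    (by have := (Finset.mem_Ico.1 hi).2; omega))).trans hst.left
  have hN1 : 1 ≤ N := by omega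
  have hℓpos : ∀ i, i < 2 * N + M → 0 < ℓ i := by
    intro i hi
    rcases lt_or_ge i N with h | h
    · rw [hℓ.left i h]; exact hs0
    · rcases lt_or_ge i (N + M) with h' | h'
      · rw [hℓ.mid i h h']; exact one_pos
      · rw [hℓ.right i h' hi]; exact hs0
  have hne : ∀ i, i < 2 * N + M → q (i + 1) ≠ q i := by
    intro i hi h
    have := hq.length i hi
    rw [h, sub_self, norm_zero] at this
    exact (hℓpos i hi).ne this
  have hea : s⁻¹ • (q (N - 1) - q N) = -(s⁻¹ • (q (N - 1 + 1) - q (N - 1))) := by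
    have : N - 1 + 1 = N := by omega
    rw [this]; module
  have hPL : PL (fun x => curve (ext q) (N + x)) := by
    have := PL.comp (P := curve (ext q)) ⟨curve_rightPL _, curve_leftPL _⟩ 1 N one_pos
    have e : (fun x => curve (ext q) (1 * x + N)) = (fun x => curve (ext q) (N + x)) := by
      funext x; congr 1; ring
    rwa [e] at this
  refine ⟨hPL, ?_, ?_, ?_, ?_, ?_, ?_, ?_, ?_⟩
  · -- injectivity
    intro x hx y hy hxy
    have h1 := injOn_of_simple (2 * N + M) q hq.simple hne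
    have hx' : (N : ℝ) + x ∈ Icc (0 : ℝ) ((2 * N + M : ℕ) : ℝ) := by
      push_cast; constructor <;> linarith [hx.1, hx.2]
    have hy' : (N : ℝ) + y ∈ Icc (0 : ℝ) ((2 * N + M : ℕ) : ℝ) := by
      push_cast; constructor <;> linarith [hy.1, hy.2]
    have := h1 hx' hy' hxy
    linarith
  · rw [hea, norm_neg]
    exact unit_of_config hq hs0 (by omega) (hℓ.left _ (by omega))
  · exact unit_of_config hq hs0 (by omega) (hℓ.right _ (by omega) (by omega))
  · -- left
    intro x hx y hy
    have key := curve_lipschitz_on (fun i => ext q i + (i : ℝ) • (s • (s⁻¹ • (q (N - 1) - q N)))) (s * β)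
      (by positivity) 0 N (by omega) ?_ (N + x) (N + y) ?_ ?_
    · rw [curve_add, curve_add] at key
      have e1 := curve_affine 0 (s • (s⁻¹ • (q (N - 1) - q N))) (N + x)
      have e2 := curve_affine 0 (s • (s⁻¹ • (q (N - 1) - q N))) (N + y)
      simp only [zero_add] at e1 e2
      rw [e1, e2] at key
      have e3 : ((N : ℝ) + x - (N + y)) = x - y := by ring
      rw [e3] at key
      refine le_trans (le_of_eq ?_) key
      congr 1
      module
    · intro i hi0 hi1
      lift i to ℕ using hi0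
      have hi : i < N := by exact_mod_cast hi1
      have e1 : ext q ((i : ℤ) + 1) = q (i + 1) := by
        simp only [ext]; congr 1
      have e2 : ext q (i : ℤ) = q i := by simp [ext]
      have h3 := dir_close hq hs0 hθ (by omega : N ≤ 2 * N + M) (A := 0)
        (fun i _ h => hℓ.left i h) (by simpa using hst.left) (Nat.zero_le i) (by omega : i ≤ N - 1)
        (by omega : N - 1 < N)
      beta_reduce
      rw [e1, e2, hea]
      have e4 : q (i + 1) + (((i : ℤ) + 1 : ℤ) : ℝ) • (s • -(s⁻¹ • (q (N - 1 + 1) - q (N - 1)))) -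
          (q i + ((i : ℤ) : ℝ) • (s • -(s⁻¹ • (q (N - 1 + 1) - q (N - 1))))) =
          s • (s⁻¹ • (q (i + 1) - q i) - s⁻¹ • (q (N - 1 + 1) - q (N - 1))) := by
        have e5 : q (i + 1) - q i = s • (s⁻¹ • (q (i + 1) - q i)) := by
          rw [smul_smul, mul_inv_cancel₀ hs0.ne', one_smul]
        rw [smul_sub s, ← e5]
        push_cast
        module
      rw [e4, norm_smul, Real.norm_of_nonneg hs0.le, ← dist_eq_norm]
      exact mul_le_mul_of_nonneg_left h3 hs0.le
    · push_cast; constructor <;> linarith [hx.1, hx.2]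
    · push_cast; constructor <;> linarith [hy.1, hy.2]
  · -- right
    intro x hx y hy
    have key := curve_lipschitz_on
      (fun i => ext q i + (i : ℝ) • (-(s • (s⁻¹ • (q (N + M + 1) - q (N + M)))))) (s * β)
      (by positivity) (N + M) (2 * N + M) (by omega) ?_ (N + x) (N + y) ?_ ?_
    · rw [curve_add, curve_add] at key
      have e1 := curve_affine 0 (-(s • (s⁻¹ • (q (N + M + 1) - q (N + M))))) (N + x)
      have e2 := curve_affine 0 (-(s • (s⁻¹ • (q (N + M + 1) - q (N + M))))) (N + y)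
      simp only [zero_add] at e1 e2
      rw [e1, e2] at key
      have e3 : ((N : ℝ) + x - (N + y)) = x - y := by ring
      rw [e3] at key
      refine le_trans (le_of_eq ?_) key
      congr 1
      module
    · intro i hi0 hi1
      have hi2 : 0 ≤ i := by omega
      lift i to ℕ using hi2
      have hi : i < 2 * N + M := by exact_mod_cast hi1
      have hi' : N + M ≤ i := by exact_mod_cast hi0
      have e1 : ext q ((i : ℤ) + 1) = q (i + 1) := by
        simp only [ext]; congr 1
      have e2 : ext q (i : ℤ) = q i := by simp [ext]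
      have h3 := dir_close hq hs0 hθ (by omega : 2 * N + M ≤ 2 * N + M) (A := N + M)
        (fun i h h' => hℓ.right i h h') hst.right (le_refl (N + M)) (by omega : N + M ≤ i)
        hi
      beta_reduce
      rw [e1, e2]
      have e4 : q (i + 1) + (((i : ℤ) + 1 : ℤ) : ℝ) • (-(s • (s⁻¹ • (q (N + M + 1) - q (N + M))))) -
          (q i + ((i : ℤ) : ℝ) • (-(s • (s⁻¹ • (q (N + M + 1) - q (N + M)))))) =
          s • (s⁻¹ • (q (i + 1) - q i) - s⁻¹ • (q (N + M + 1) - q (N + M))) := by
        have e5 : q (i + 1) - q i = s • (s⁻¹ • (q (i + 1) - q i)) := by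
          rw [smul_smul, mul_inv_cancel₀ hs0.ne', one_smul]
        rw [smul_sub s, ← e5]
        push_cast
        module
      rw [e4, norm_smul, Real.norm_of_nonneg hs0.le, ← dist_eq_norm, dist_comm]
      exact mul_le_mul_of_nonneg_left h3 hs0.le
    · push_cast; constructor <;> linarith [hx.1, hx.2]
    · push_cast; constructor <;> linarith [hy.1, hy.2]
  · -- mid
    intro x hx y hy
    have key := curve_lipschitz_on (ext q) 1 zero_le_one N (N + M) (by omega) ?_ (N + x) (N + y) ?_ ?_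
    · have e3 : ((N : ℝ) + x - (N + y)) = x - y := by ring
      rwa [e3, one_mul] at key
    · intro i hi0 hi1
      have hi2 : 0 ≤ i := by omega
      lift i to ℕ using hi2
      have hi : i < N + M := by exact_mod_cast hi1
      have hi' : N ≤ i := by exact_mod_cast hi0
      have e1 : ext q ((i : ℤ) + 1) = q (i + 1) := by
        simp only [ext]; congr 1
      have e2 : ext q (i : ℤ) = q i := by simp [ext]
      rw [e1, e2, hq.length i (by omega), hℓ.mid i hi' hi]
    · push_cast; constructor <;> linarith [hx.1, hx.2]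
    · push_cast; constructor <;> linarith [hy.1, hy.2]
  · -- left1
    intro x hx
    have hc : ((N - 1 : ℕ) : ℝ) = (N : ℝ) - 1 := by rw [Nat.cast_sub hN1]; norm_num
    beta_reduce
    rw [add_zero, curve_ext q (N - 1) (N + x) (by rw [hc]; linarith [hx.1])
      (by rw [hc]; linarith [hx.2]), curve_ext q (N - 1) N (by rw [hc]; linarith)
      (by rw [hc]; linarith)]
    have : N - 1 + 1 = N := by omega
    rw [this, hc, smul_smul, mul_assoc, mul_inv_cancel₀ hs0.ne']
    module
  · -- right1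
    intro x hx
    beta_reduce
    rw [curve_ext q (N + M) (N + x) (by push_cast; linarith [hx.1])
      (by push_cast; linarith [hx.2]), curve_ext q (N + M) (N + M) (by push_cast; linarith)
      (by push_cast; linarith)]
    rw [smul_smul, mul_assoc, mul_inv_cancel₀ hs0.ne']
    push_cast
    module

end Pool.Agent.Helper22.LC
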