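import Mathlib

set_option autoImplicit false

namespace Pool.Agent.Helper22.LC

open Set Metric

/-- Euclidean three-space. -/
abbrev E3 := EuclideanSpace ℝ (Fin 3)

/-- Piecewise linear interpolation of a bi-infinite sequence of points. -/
noncomputable def curve (V : ℤ → E3) (x : ℝ) : E3 :=
  V ⌊x⌋ + Int.fract x • (V (⌊x⌋ + 1) - V ⌊x⌋)

theorem curve_of_mem (V : ℤ → E3) (n : ℤ) (x : ℝ) (h0 : (n : ℝ) ≤ x) (h1 : x ≤ n + 1) :
    curve V x = V n + (x - n) • (V (n + 1) - V n) := by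
  rcases lt_or_eq_of_le h1 with h | h
  · have hf : ⌊x⌋ = n := by
      rw [Int.floor_eq_iff]; exact ⟨h0, h⟩
    simp only [curve, hf, Int.fract]
  · have hf : ⌊x⌋ = n + 1 := by
      rw [Int.floor_eq_iff]; push_cast; constructor <;> linarith
    have hfr : Int.fract x = 0 := by
      rw [Int.fract, hf, h]; push_cast; ring
    simp only [curve, hf, hfr, zero_smul, add_zero]
    rw [h]
    have : ((n : ℝ) + 1 - n) = 1 := by ring
    rw [this, one_smul]; abel

theorem curve_int (V : ℤ → E3) (n : ℤ) : curve V n = V n := by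
  simp [curve]

theorem curve_sub (V W : ℤ → E3) (x : ℝ) :
    curve V x - curve W x = curve (fun i => V i - W i) x := by
  simp only [curve]
  module

theorem curve_add_smul (V W : ℤ → E3) (s t : ℝ) (x : ℝ) :
    s • curve V x + t • curve W x = curve (fun i => s • V i + t • W i) x := by
  simp only [curve]
  module

/-- Piecewise linear interpolation is Lipschitz if consecutive vertices are close. -/
theorem curve_lipschitz (V : ℤ → E3) (η : ℝ) (h : ∀ i, ‖V (i + 1) - V i‖ ≤ η) (x y : ℝ) :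
    ‖curve V x - curve V y‖ ≤ η * |x - y| := by
  have hη : 0 ≤ η := (norm_nonneg _).trans (h 0)
  -- it suffices to treat y ≤ x
  suffices H : ∀ k : ℕ, ∀ x y : ℝ, y ≤ x → ⌊x⌋ ≤ ⌊y⌋ + k → ‖curve V x - curve V y‖ ≤ η * (x - y) by
    rcases le_total y x with hxy | hxy
    · rw [abs_of_nonneg (sub_nonneg.2 hxy)]
      refine H (⌊x⌋ - ⌊y⌋).toNat x y hxy ?_
      have := Int.self_le_toNat (⌊x⌋ - ⌊y⌋)
      linarith
    · rw [abs_of_nonpos (sub_nonpos.2 hxy), norm_sub_rev, neg_sub]
      refine H (⌊y⌋ - ⌊x⌋).toNat y x hxy ?_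
      have := Int.self_le_toNat (⌊y⌋ - ⌊x⌋)
      linarith
  intro k
  induction k with
  | zero =>
    intro x y hxy hfl
    have hfl' : ⌊x⌋ = ⌊y⌋ := le_antisymm (by simpa using hfl) (Int.floor_mono hxy)
    have hx := curve_of_mem V ⌊y⌋ x (by rw [← hfl']; exact Int.floor_le x)
      (by rw [← hfl']; exact (Int.lt_floor_add_one x).le)
    have hy := curve_of_mem V ⌊y⌋ y (Int.floor_le y) (Int.lt_floor_add_one y).le
    have : curve V x - curve V y = (x - y) • (V (⌊y⌋ + 1) - V ⌊y⌋) := by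
      rw [hx, hy]; module
    rw [this, norm_smul, Real.norm_eq_abs, abs_of_nonneg (sub_nonneg.2 hxy), mul_comm]
    exact mul_le_mul_of_nonneg_right (h _) (sub_nonneg.2 hxy)
  | succ k ih =>
    intro x y hxy hfl
    rcases le_or_gt ⌊x⌋ (⌊y⌋ + k) with hk | hk
    · exact ih x y hxy hk
    · -- split at z = ⌊x⌋
      have hz1 : y ≤ (⌊x⌋ : ℝ) := by
        have h1 : ⌊y⌋ + 1 ≤ ⌊x⌋ := by
          have : (0 : ℤ) ≤ k := by positivity
          omega
        have h2 : ((⌊y⌋ : ℝ) + 1) ≤ (⌊x⌋ : ℝ) := by exact_mod_cast h1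
        linarith [(Int.lt_floor_add_one y).le]
      have hz2 : (⌊x⌋ : ℝ) ≤ x := Int.floor_le x
      -- from z to x
      have e1 : ‖curve V x - curve V (⌊x⌋ : ℝ)‖ ≤ η * (x - ⌊x⌋) := by
        have hx := curve_of_mem V ⌊x⌋ x hz2 (Int.lt_floor_add_one x).le
        rw [curve_int, hx]
        have : V ⌊x⌋ + (x - ⌊x⌋) • (V (⌊x⌋ + 1) - V ⌊x⌋) - V ⌊x⌋ =
          (x - ⌊x⌋) • (V (⌊x⌋ + 1) - V ⌊x⌋) := by module
        rw [this, norm_smul, Real.norm_eq_abs, abs_of_nonneg (sub_nonneg.2 hz2), mul_comm]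
        exact mul_le_mul_of_nonneg_right (h _) (sub_nonneg.2 hz2)
      -- from y to z, passing through z - 1
      have e2 : ‖curve V (⌊x⌋ : ℝ) - curve V y‖ ≤ η * (⌊x⌋ - y) := by
        rcases le_total y ((⌊x⌋ : ℝ) - 1) with hy | hy
        · have a1 : ‖curve V ((⌊x⌋ : ℝ) - 1) - curve V y‖ ≤ η * ((⌊x⌋ - 1) - y) := by
            refine ih _ _ hy ?_
            have : (⌊(⌊x⌋ : ℝ) - 1⌋ : ℤ) = ⌊x⌋ - 1 := by
              rw [Int.floor_sub_one, Int.floor_intCast]
            rw [this]; push_cast at hfl; omega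
          have a2 : ‖curve V (⌊x⌋ : ℝ) - curve V ((⌊x⌋ : ℝ) - 1)‖ ≤ η * 1 := by
            have : ((⌊x⌋ : ℝ) - 1) = ((⌊x⌋ - 1 : ℤ) : ℝ) := by push_cast; ring
            rw [this, curve_int, curve_int, mul_one]
            have := h (⌊x⌋ - 1)
            simpa using this
          calc ‖curve V (⌊x⌋ : ℝ) - curve V y‖
              = ‖(curve V (⌊x⌋ : ℝ) - curve V ((⌊x⌋ : ℝ) - 1)) +
                (curve V ((⌊x⌋ : ℝ) - 1) - curve V y)‖ := by congr 1; abel
            _ ≤ _ := norm_add_le _ _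
            _ ≤ η * 1 + η * ((⌊x⌋ - 1) - y) := add_le_add a2 a1
            _ = _ := by ring
        · have hy' := curve_of_mem V (⌊x⌋ - 1) y (by push_cast; linarith) (by push_cast; linarith)
          have hz' := curve_of_mem V (⌊x⌋ - 1) (⌊x⌋ : ℝ) (by push_cast; linarith) (by push_cast; linarith)
          have : curve V (⌊x⌋ : ℝ) - curve V y = ((⌊x⌋ : ℝ) - y) • (V (⌊x⌋ - 1 + 1) - V (⌊x⌋ - 1)) := by
            rw [hz', hy']; module
          rw [this, norm_smul, Real.norm_eq_abs, abs_of_nonneg (sub_nonneg.2 hz1), mul_comm]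
          exact mul_le_mul_of_nonneg_right (h _) (sub_nonneg.2 hz1)
      calc ‖curve V x - curve V y‖
          = ‖(curve V x - curve V (⌊x⌋ : ℝ)) + (curve V (⌊x⌋ : ℝ) - curve V y)‖ := by
            congr 1; abel
        _ ≤ _ := norm_add_le _ _
        _ ≤ η * (x - ⌊x⌋) + η * (⌊x⌋ - y) := add_le_add e1 e2
        _ = _ := by ring

/-- Ambient extension: a small relative perturbation of a map into space is realised by a
homeomorphism of space. -/
theorem exists_homeo_of_small : ∃ κ : ℝ, 0 < κ ∧ ∀ K K' : ℝ → E3,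
    (∀ x y, ‖(K' x - K x) - (K' y - K y)‖ ≤ κ * ‖K x - K y‖) →
    ∃ Φ : E3 ≃ₜ E3, ∀ x, Φ (K x) = K' x := by
  classical
  set C : NNReal := lipschitzExtensionConstant E3 with hC
  have hCpos : 0 < C := lipschitzExtensionConstant_pos E3
  refine ⟨((C⁻¹ / 2 : NNReal) : ℝ), by positivity, ?_⟩
  intro K K' h
  -- the map is well defined on the range
  have hwd : ∀ x y, K x = K y → K' x = K' y := by
    intro x y hxy
    have := h x y
    rw [hxy, sub_self, norm_zero, mul_zero] at this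
    have h0 := norm_le_zero_iff.1 this
    have : K' x - K' y = 0 := by
      have e : (K' x - K y) - (K' y - K y) = K' x - K' y := by abel
      rw [← e]; exact h0
    exact sub_eq_zero.1 this
  let f : E3 → E3 := fun p => if hp : ∃ x, K x = p then K' hp.choose else p
  have hf : ∀ x, f (K x) = K' x := by
    intro x
    have hp : ∃ y, K y = K x := ⟨x, rfl⟩
    simp only [f, dif_pos hp]
    exact hwd _ _ hp.choose_spec
  have happ : ApproximatesLinearOn f ((ContinuousLinearEquiv.refl ℝ E3 : E3 ≃L[ℝ] E3) : E3 →L[ℝ] E3)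
      (range K) (C⁻¹ / 2) := by
    rintro _ ⟨x, rfl⟩ _ ⟨y, rfl⟩
    rw [hf, hf]
    have := h x y
    have e : K' x - K' y - ((ContinuousLinearEquiv.refl ℝ E3 : E3 ≃L[ℝ] E3) : E3 →L[ℝ] E3) (K x - K y)
      = (K' x - K x) - (K' y - K y) := by
      simp only [ContinuousLinearEquiv.coe_refl, ContinuousLinearMap.coe_id', id_eq]
      abel
    rw [e]
    exact this
  obtain ⟨g, hg⟩ := happ.exists_homeomorph_extension (Or.inr (by
    have h1 : ‖((ContinuousLinearEquiv.refl ℝ E3).symm : E3 →L[ℝ] E3)‖₊ ≤ 1 := by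
      simp only [ContinuousLinearEquiv.refl_symm, ContinuousLinearEquiv.coe_refl]
      exact ContinuousLinearMap.norm_id_le
    have h2 : 0 < ‖((ContinuousLinearEquiv.refl ℝ E3).symm : E3 →L[ℝ] E3)‖₊ := by
      simp only [ContinuousLinearEquiv.refl_symm, ContinuousLinearEquiv.coe_refl]
      rw [ContinuousLinearMap.nnnorm_id]
      exact zero_lt_one
    have h3 : C * (C⁻¹ / 2) = 1 / 2 := by
      field_simp
    rw [h3]
    calc (1 / 2 : NNReal) < 1 := by
          rw [div_lt_one (by norm_num)]; norm_num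
      _ ≤ _ := by
          rw [one_le_inv₀ h2]
          exact h1))
  exact ⟨g, fun x => by rw [← hf x]; exact (hg ⟨x, rfl⟩).symm⟩

end Pool.Agent.Helper22.LC
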