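import Pool.Agent.Helper22.LC.Needle

set_option autoImplicit false

namespace Pool.Agent.Helper22.LC

open Set Metric Filter Topology

/-- `x₁` is the (unique) parameter at which the left end leaves the ball of radius `r`. -/
structure IsExitL (P : ℝ → E3) (h r x₁ : ℝ) : Prop where
  pos : 0 < x₁
  lt : x₁ < h
  eq : ‖P (-x₁) - P 0‖ = r
  inside : ∀ x, 0 ≤ x → x < x₁ → ‖P (-x) - P 0‖ < r
  outside : ∀ x, x₁ < x → x ≤ h → r < ‖P (-x) - P 0‖

/-- `x₂` is the (unique) parameter at which the right end leaves the ball of radius `r`. -/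
structure IsExitR (P : ℝ → E3) (m h r x₂ : ℝ) : Prop where
  pos : 0 < x₂
  lt : x₂ < h
  eq : ‖P (m + x₂) - P 0‖ = r
  inside : ∀ x, 0 ≤ x → x < x₂ → ‖P (m + x) - P 0‖ < r
  outside : ∀ x, x₂ < x → x ≤ h → r < ‖P (m + x) - P 0‖

open scoped RealInnerProductSpace in
theorem inner_needle_lower {c d β : ℝ} {v e f : E3} (hc : 0 ≤ c) (hd : 0 ≤ d)
    (hv : ‖v‖ = 1) (he : ‖e‖ ≤ c * β) (hf : ‖f‖ ≤ d * β) (hβ : 0 ≤ β) :
    c * d * (1 - 2 * β - β ^ 2) ≤ ⟪c • v + e, d • v + f⟫ := by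
  have h0 : ⟪c • v + e, d • v + f⟫ = c * d + c * ⟪v, f⟫ + d * ⟪e, v⟫ + ⟪e, f⟫ := by
    rw [inner_add_left, inner_add_right, inner_add_right, inner_smul_left, inner_smul_left,
      inner_smul_right, inner_smul_right, real_inner_self_eq_norm_sq, hv]
    simp only [conj_trivial]
    ring
  rw [h0]
  have h1 : |⟪v, f⟫| ≤ d * β := by
    refine (abs_real_inner_le_norm v f).trans ?_
    rw [hv, one_mul]; exact hf
  have h2 : |⟪e, v⟫| ≤ c * β := by
    refine (abs_real_inner_le_norm e v).trans ?_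
    rw [hv, mul_one]; exact he
  have h3 : |⟪e, f⟫| ≤ (c * β) * (d * β) := by
    refine (abs_real_inner_le_norm e f).trans ?_
    exact mul_le_mul he hf (norm_nonneg _) (by positivity)
  have h1' := (abs_le.1 h1).1
  have h2' := (abs_le.1 h2).1
  have h3' := (abs_le.1 h3).1
  nlinarith [mul_le_mul_of_nonneg_left h1' hc, mul_le_mul_of_nonneg_left h2' hd]

theorem norm_lt_norm_add_of_inner {u D : E3} (hD : D ≠ 0) (h : 0 ≤ inner ℝ D u) :
    ‖u‖ < ‖u + D‖ := by
  have h1 : ‖u + D‖ ^ 2 = ‖u‖ ^ 2 + 2 * inner ℝ u D + ‖D‖ ^ 2 := norm_add_sq_real u D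
  rw [real_inner_comm] at h1
  have h2 : 0 < ‖D‖ := norm_pos_iff.2 hD
  have h3 : 0 < ‖D‖ ^ 2 := by positivity
  have : ‖u‖ ^ 2 < ‖u + D‖ ^ 2 := by rw [h1]; linarith
  exact lt_of_pow_lt_pow_left₀ 2 (norm_nonneg _) this

theorem needle_norm_bounds {c β : ℝ} {v w : E3} (hc : 0 ≤ c) (hv : ‖v‖ = 1)
    (h : ‖w - c • v‖ ≤ c * β) : c * (1 - β) ≤ ‖w‖ ∧ ‖w‖ ≤ c * (1 + β) := by
  have h1 : ‖c • v‖ = c := by rw [norm_smul, hv, mul_one, Real.norm_of_nonneg hc]
  constructor
  · have h2 : ‖c • v‖ ≤ ‖w‖ + ‖w - c • v‖ := by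
      have : c • v = w - (w - c • v) := by abel
      calc ‖c • v‖ = ‖w - (w - c • v)‖ := by rw [← this]
        _ ≤ _ := norm_sub_le _ _
    rw [h1] at h2; linarith
  · have h2 : ‖w‖ ≤ ‖c • v‖ + ‖w - c • v‖ := by
      have : w = c • v + (w - c • v) := by abel
      calc ‖w‖ = ‖c • v + (w - c • v)‖ := by rw [← this]
        _ ≤ _ := norm_add_le _ _
    rw [h1] at h2; linarith

theorem left_cont {m h s β : ℝ} {P : ℝ → E3} {a b : E3} (hP : NeedleCurve m h s β P a b)
    (hs : 1 ≤ s) (hβ : 0 ≤ β) : ContinuousOn P (Set.Icc (-h) 0) := by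
  have : LipschitzOnWith (Real.toNNReal (s * (1 + β))) P (Set.Icc (-h) 0) := by
    refine LipschitzOnWith.of_dist_le_mul fun x hx y hy => ?_
    have h1 := hP.left x hx y hy
    rw [dist_eq_norm, Real.coe_toNNReal _ (by positivity), Real.dist_eq]
    have h2 : ‖P x - P y‖ ≤ ‖((y - x) * s) • a‖ + ‖(P x - P y) - ((y - x) * s) • a‖ := by
      have : P x - P y = ((y - x) * s) • a + ((P x - P y) - ((y - x) * s) • a) := by abel
      calc ‖P x - P y‖ = ‖((y - x) * s) • a + ((P x - P y) - ((y - x) * s) • a)‖ := by rw [← this]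
        _ ≤ _ := norm_add_le _ _
    rw [norm_smul, hP.ha, mul_one, Real.norm_eq_abs, abs_mul, abs_of_nonneg (by linarith : 0 ≤ s),
      abs_sub_comm] at h2
    linarith
  exact this.continuousOn

theorem right_cont {m h s β : ℝ} {P : ℝ → E3} {a b : E3} (hP : NeedleCurve m h s β P a b)
    (hs : 1 ≤ s) (hβ : 0 ≤ β) : ContinuousOn P (Set.Icc m (m + h)) := by
  have : LipschitzOnWith (Real.toNNReal (s * (1 + β))) P (Set.Icc m (m + h)) := by
    refine LipschitzOnWith.of_dist_le_mul fun x hx y hy => ?_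
    have h1 := hP.right x hx y hy
    rw [dist_eq_norm, Real.coe_toNNReal _ (by positivity), Real.dist_eq]
    have h2 : ‖P x - P y‖ ≤ ‖((x - y) * s) • b‖ + ‖(P x - P y) - ((x - y) * s) • b‖ := by
      have : P x - P y = ((x - y) * s) • b + ((P x - P y) - ((x - y) * s) • b) := by abel
      calc ‖P x - P y‖ = ‖((x - y) * s) • b + ((P x - P y) - ((x - y) * s) • b)‖ := by rw [← this]
        _ ≤ _ := norm_add_le _ _
    rw [norm_smul, hP.hb, mul_one, Real.norm_eq_abs, abs_mul,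
      abs_of_nonneg (by linarith : 0 ≤ s)] at h2
    linarith
  exact this.continuousOn

theorem exit_left {m h s β r : ℝ} {P : ℝ → E3} {a b : E3} (hP : NeedleCurve m h s β P a b)
    (hm : 1 ≤ m) (hh : h = 8 * m) (hs : 1 ≤ s) (hs2 : s ≤ 2) (hβ : 0 ≤ β) (hβ2 : β ≤ 1 / 16)
    (hr : r = 4 * m) : ∃ x₁, IsExitL P h r x₁ := by
  have hh0 : 0 ≤ h := by rw [hh]; linarith
  -- basic estimates
  have hu : ∀ x, 0 ≤ x → x ≤ h → ‖(P (-x) - P 0) - (x * s) • a‖ ≤ (x * s) * β := by
    intro x hx hxh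
    have := hP.left (-x) ⟨by linarith, by linarith⟩ 0 ⟨by linarith, le_refl _⟩
    rw [zero_sub, neg_neg, sub_zero, abs_neg, abs_of_nonneg hx] at this
    linarith
  have hD : ∀ x y, 0 ≤ x → x ≤ y → y ≤ h →
      ‖(P (-y) - P (-x)) - ((y - x) * s) • a‖ ≤ ((y - x) * s) * β := by
    intro x y hx hxy hyh
    have := hP.left (-y) ⟨by linarith, by linarith⟩ (-x) ⟨by linarith, by linarith⟩
    have e1 : (-x - -y) = y - x := by ring
    have e2 : |-y - -x| = y - x := by
      rw [show -y - -x = -(y - x) by ring, abs_neg, abs_of_nonneg (by linarith)]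
    rw [e1, e2] at this
    linarith
  have hmono : ∀ x y, 0 ≤ x → x < y → y ≤ h → ‖P (-x) - P 0‖ < ‖P (-y) - P 0‖ := by
    intro x y hx hxy hyh
    have h1 := hu x hx (by linarith)
    have h2 := hD x y hx hxy.le hyh
    have hc : 0 ≤ (y - x) * s := mul_nonneg (by linarith) (by linarith)
    have hd : 0 ≤ x * s := mul_nonneg hx (by linarith)
    have h3 := inner_needle_lower hc hd hP.ha h2 h1 hβ
    have e1 : ((y - x) * s) • a + (P (-y) - P (-x) - ((y - x) * s) • a) = P (-y) - P (-x) := by abel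
    have e2 : (x * s) • a + (P (-x) - P 0 - (x * s) • a) = P (-x) - P 0 := by abel
    rw [e1, e2] at h3
    have h4 : 0 ≤ ((y - x) * s) * (x * s) * (1 - 2 * β - β ^ 2) := by
      have : 0 ≤ 1 - 2 * β - β ^ 2 := by nlinarith
      positivity
    have hne : P (-y) - P (-x) ≠ 0 := by
      intro h0
      have := (needle_norm_bounds hc hP.ha h2).1
      rw [h0, norm_zero] at this
      have h5 : 0 < (y - x) * s * (1 - β) :=
        mul_pos (mul_pos (by linarith) (by linarith)) (by linarith)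
      linarith
    have h5 := norm_lt_norm_add_of_inner hne (h4.trans h3)
    have e3 : P (-x) - P 0 + (P (-y) - P (-x)) = P (-y) - P 0 := by abel
    rwa [e3] at h5
  have hcont : ContinuousOn (fun x => ‖P (-x) - P 0‖) (Set.Icc 0 h) := by
    have h1 : ContinuousOn (fun x => P (-x)) (Set.Icc 0 h) :=
      (left_cont hP hs hβ).comp continuous_neg.continuousOn
        (fun x hx => ⟨by linarith [hx.2], by linarith [hx.1]⟩)
    exact (h1.sub continuousOn_const).norm
  have h0 : ‖P (-0) - P 0‖ = 0 := by simp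
  have hhh : r < ‖P (-h) - P 0‖ := by
    have h1 := (needle_norm_bounds (mul_nonneg hh0 (by linarith)) hP.ha (hu h hh0 le_rfl)).1
    refine lt_of_lt_of_le ?_ h1
    rw [hr, hh]
    have : 8 * m * 1 * (15 / 16) ≤ 8 * m * s * (1 - β) := by
      apply mul_le_mul
      · nlinarith
      · linarith
      · norm_num
      · nlinarith
    nlinarith
  have hrpos : 0 < r := by rw [hr]; linarith
  obtain ⟨x₁, hx₁, hx₁e⟩ := intermediate_value_Icc hh0 hcont
    (show r ∈ Set.Icc (‖P (-0) - P 0‖) (‖P (-h) - P 0‖) from ⟨by rw [h0]; exact hrpos.le, hhh.le⟩)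
  beta_reduce at hx₁e
  refine ⟨x₁, ⟨?_, ?_, hx₁e, ?_, ?_⟩⟩
  · rcases hx₁.1.eq_or_lt with h | h
    · rw [← h, h0] at hx₁e; linarith
    · exact h
  · rcases hx₁.2.eq_or_lt with h | h
    · rw [h] at hx₁e; linarith
    · exact h
  · intro x hx hxx
    rw [← hx₁e]; exact hmono x x₁ hx hxx hx₁.2
  · intro x hx hxx
    rw [← hx₁e]; exact hmono x₁ x hx₁.1 hx hxx

theorem exit_right {m h s β r : ℝ} {P : ℝ → E3} {a b : E3} (hP : NeedleCurve m h s β P a b)
    (hm : 1 ≤ m) (hh : h = 8 * m) (hs : 1 ≤ s) (hs2 : s ≤ 2) (hβ : 0 ≤ β) (hβ2 : β ≤ 1 / 16)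
    (hr : r = 4 * m) : ∃ x₂, IsExitR P m h r x₂ := by
  have hh0 : 0 ≤ h := by rw [hh]; linarith
  have hmid : ‖P m - P 0‖ ≤ m := by
    have := hP.mid m ⟨by linarith, le_rfl⟩ 0 ⟨le_rfl, by linarith⟩
    rwa [sub_zero, abs_of_nonneg (by linarith)] at this
  have hu : ∀ x, 0 ≤ x → x ≤ h → ‖(P (m + x) - P m) - (x * s) • b‖ ≤ (x * s) * β := by
    intro x hx hxh
    have := hP.right (m + x) ⟨by linarith, by linarith⟩ m ⟨by linarith, by linarith⟩
    rw [add_sub_cancel_left, abs_of_nonneg hx] at this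
    linarith
  have hD : ∀ x y, 0 ≤ x → x ≤ y → y ≤ h →
      ‖(P (m + y) - P (m + x)) - ((y - x) * s) • b‖ ≤ ((y - x) * s) * β := by
    intro x y hx hxy hyh
    have := hP.right (m + y) ⟨by linarith, by linarith⟩ (m + x) ⟨by linarith, by linarith⟩
    have e1 : (m + y - (m + x)) = y - x := by ring
    rw [e1, abs_of_nonneg (by linarith)] at this
    linarith
  -- upper bound for small parameters
  have hsmall : ∀ x, 0 ≤ x → x ≤ h → x * s ≤ 2.8 * m → ‖P (m + x) - P 0‖ < r := by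
    intro x hx hxh hxs
    have hd : 0 ≤ x * s := mul_nonneg hx (by linarith)
    have h1 := (needle_norm_bounds hd hP.hb (hu x hx hxh)).2
    have h2 : ‖P (m + x) - P 0‖ ≤ ‖P (m + x) - P m‖ + ‖P m - P 0‖ := by
      have : P (m + x) - P 0 = (P (m + x) - P m) + (P m - P 0) := by abel
      rw [this]; exact norm_add_le _ _
    have h3 : x * s * (1 + β) ≤ 2.8 * m * (17 / 16) :=
      mul_le_mul hxs (by linarith) (by linarith) (by linarith)
    rw [hr]
    nlinarith
  have hmono : ∀ x y, 0 ≤ x → x < y → y ≤ h → 2.8 * m ≤ x * s →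
      ‖P (m + x) - P 0‖ < ‖P (m + y) - P 0‖ := by
    intro x y hx hxy hyh hxs
    have h1 := hu x hx (by linarith)
    have h2 := hD x y hx hxy.le hyh
    have hc : 0 < (y - x) * s := mul_pos (by linarith) (by linarith)
    have hd : 0 ≤ x * s := mul_nonneg hx (by linarith)
    have h3 := inner_needle_lower hc.le hd hP.hb h2 h1 hβ
    have e1 : ((y - x) * s) • b + (P (m + y) - P (m + x) - ((y - x) * s) • b)
        = P (m + y) - P (m + x) := by abel
    have e2 : (x * s) • b + (P (m + x) - P m - (x * s) • b) = P (m + x) - P m := by abel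
    rw [e1, e2] at h3
    have hDn := needle_norm_bounds hc.le hP.hb h2
    have h6 : -(((y - x) * s) * (1 + β) * m) ≤
        inner ℝ (P (m + y) - P (m + x)) (P m - P 0) := by
      have := (abs_le.1 (abs_real_inner_le_norm (P (m + y) - P (m + x)) (P m - P 0))).1
      have h7 : ‖P (m + y) - P (m + x)‖ * ‖P m - P 0‖ ≤ ((y - x) * s) * (1 + β) * m :=
        mul_le_mul hDn.2 hmid (norm_nonneg _) (by positivity)
      linarith
    have h8 : inner ℝ (P (m + y) - P (m + x)) (P (m + x) - P 0)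
        = inner ℝ (P (m + y) - P (m + x)) (P (m + x) - P m)
          + inner ℝ (P (m + y) - P (m + x)) (P m - P 0) := by
      rw [← inner_add_right]; congr 1; abel
    have h9 : 0 ≤ inner ℝ (P (m + y) - P (m + x)) (P (m + x) - P 0) := by
      rw [h8]
      have hβb : 1 - 1 / 8 - 1 / 256 ≤ 1 - 2 * β - β ^ 2 := by nlinarith
      have h10 : 2.8 * m * (1 - 1 / 8 - 1 / 256) ≤ (x * s) * (1 - 2 * β - β ^ 2) :=
        mul_le_mul hxs hβb (by norm_num) hd
      have h11 : (1 + β) * m ≤ (17 / 16) * m := by nlinarith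
      have h12 : 0 ≤ (x * s) * (1 - 2 * β - β ^ 2) - (1 + β) * m := by
        nlinarith
      have h13 := mul_nonneg hc.le h12
      nlinarith
    have hne : P (m + y) - P (m + x) ≠ 0 := by
      intro h0
      have := hDn.1
      rw [h0, norm_zero] at this
      have h5 : 0 < (y - x) * s * (1 - β) := mul_pos hc (by linarith)
      linarith
    have h5 := norm_lt_norm_add_of_inner hne h9
    have e3 : P (m + x) - P 0 + (P (m + y) - P (m + x)) = P (m + y) - P 0 := by abel
    rwa [e3] at h5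
  have hcont : ContinuousOn (fun x => ‖P (m + x) - P 0‖) (Set.Icc 0 h) := by
    have h1 : ContinuousOn (fun x => P (m + x)) (Set.Icc 0 h) :=
      (right_cont hP hs hβ).comp (continuous_const.add continuous_id).continuousOn
        (fun x hx => ⟨by simpa using hx.1, by simpa using hx.2⟩)
    exact (h1.sub continuousOn_const).norm
  have h0 : ‖P (m + 0) - P 0‖ < r := by
    refine hsmall 0 le_rfl hh0 ?_
    rw [zero_mul]; positivity
  have hhh : r < ‖P (m + h) - P 0‖ := by
    have h1 := (needle_norm_bounds (mul_nonneg hh0 (by linarith)) hP.hb (hu h hh0 le_rfl)).1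
    have h2 : ‖P (m + h) - P m‖ ≤ ‖P (m + h) - P 0‖ + ‖P m - P 0‖ := by
      have : P (m + h) - P m = (P (m + h) - P 0) - (P m - P 0) := by abel
      rw [this]; exact norm_sub_le _ _
    have : 8 * m * 1 * (15 / 16) ≤ h * s * (1 - β) := by
      rw [hh]
      apply mul_le_mul
      · nlinarith
      · linarith
      · norm_num
      · nlinarith
    rw [hr]
    linarith
  have hrpos : 0 < r := by rw [hr]; linarith
  obtain ⟨x₂, hx₂, hx₂e⟩ := intermediate_value_Icc hh0 hcont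
    (show r ∈ Set.Icc (‖P (m + 0) - P 0‖) (‖P (m + h) - P 0‖) from ⟨h0.le, hhh.le⟩)
  beta_reduce at hx₂e
  have hx₂s : 2.8 * m < x₂ * s := by
    by_contra hcon
    have := hsmall x₂ hx₂.1 hx₂.2 (not_lt.1 hcon)
    linarith
  refine ⟨x₂, ⟨?_, ?_, hx₂e, ?_, ?_⟩⟩
  · rcases hx₂.1.eq_or_lt with h | h
    · rw [← h] at hx₂e; linarith
    · exact h
  · rcases hx₂.2.eq_or_lt with h | h
    · rw [h] at hx₂e; linarith
    · exact h
  · intro x hx hxx
    rcases le_total (x * s) (2.8 * m) with h | h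
    · exact hsmall x hx (by linarith [hx₂.2]) h
    · rw [← hx₂e]; exact hmono x x₂ hx hxx hx₂.2 h
  · intro x hx hxx
    rw [← hx₂e]; exact hmono x₂ x hx₂.1 hx hxx hx₂s.le

end Pool.Agent.Helper22.LC
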