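import Mathlib

set_option autoImplicit false

namespace Pool.Agent.Helper22.LC

/-- The complement of the line `{(x,0,0)}` in `ℝ × ℝ × ℝ`. -/
abbrev LineCompl : Type := {p : ℝ × ℝ × ℝ // ¬ (p.2.1 = 0 ∧ p.2.2 = 0)}

theorem homotopic_cast_cast {X : Type*} [TopologicalSpace X] {x y x' y' : X} {p q : Path x y}
    (h : p.Homotopic q) (hx : x' = x) (hy : y' = y) :
    (p.cast hx hy).Homotopic (q.cast hx hy) := by
  subst hx
  subst hy
  exact h

open unitInterval in
/-- Eckmann-Hilton for a space with a continuous product having `x` as strict unit. -/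
theorem comm_of_strict_unit {X : Type*} [TopologicalSpace X] (x : X) (m : X × X → X)
    (hm : Continuous m) (h1 : ∀ a, m (a, x) = a) (h2 : ∀ b, m (x, b) = b)
    (α β : FundamentalGroup X x) : α * β = β * α := by
  induction α using Quotient.inductionOn with
  | h a =>
  induction β using Quotient.inductionOn with
  | h b =>
  let F : I × I → X := fun st => m (a st.1, b st.2)
  have hF : Continuous F := by fun_prop
  let i : Path (0 : I) (1 : I) := ⟨ContinuousMap.id _, rfl, rfl⟩
  have hi : ∀ t, i t = t := fun _ => rfl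
  let bottom : Path ((0 : I), (0 : I)) ((1 : I), (0 : I)) := i.prod (Path.refl 0)
  let right : Path ((1 : I), (0 : I)) ((1 : I), (1 : I)) := (Path.refl 1).prod i
  let left : Path ((0 : I), (0 : I)) ((0 : I), (1 : I)) := (Path.refl 0).prod i
  let top : Path ((0 : I), (1 : I)) ((1 : I), (1 : I)) := i.prod (Path.refl 1)
  have : ContractibleSpace I := (convex_Icc (0 : ℝ) 1).contractibleSpace ⟨0, by simp⟩
  have hsc : Path.Homotopic (bottom.trans right) (left.trans top) :=
    SimplyConnectedSpace.paths_homotopic _ _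
  have h00 : F (0, 0) = x := by simp [F, h1]
  have h11 : F (1, 1) = x := by simp [F, h1]
  have e1 : a.trans b = ((bottom.trans right).map hF).cast h00.symm h11.symm := by
    ext t
    simp only [Path.cast_coe, Path.map_coe, Function.comp, Path.trans_apply]
    split_ifs with h
    · simp [F, bottom, hi, h1]
    · simp [F, right, hi, h2]
  have e2 : b.trans a = ((left.trans top).map hF).cast h00.symm h11.symm := by
    ext t
    simp only [Path.cast_coe, Path.map_coe, Function.comp, Path.trans_apply]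
    split_ifs with h
    · simp [F, left, hi, h2]
    · simp [F, top, hi, h1]
  change (⟦b.trans a⟧ : Path.Homotopic.Quotient x x) = ⟦a.trans b⟧
  apply Quotient.sound
  change Path.Homotopic _ _
  rw [e1, e2]
  exact (homotopic_cast_cast (hsc.map ⟨F, hF⟩) h00.symm h11.symm).symm

/-- The fundamental group of the complement of a line in 3-space is commutative. -/
theorem lineCompl_comm (x : LineCompl) (α β : FundamentalGroup LineCompl x) :
    α * β = β * α := by
  -- product `(r, z) * (r', z') = (r + r' - r₀, z z' conj z₀ / |z₀|^2)` with `z = u + i v`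
  obtain ⟨⟨r, u, v⟩, hx⟩ := x
  have hD : 0 < u ^ 2 + v ^ 2 := by
    rcases eq_or_ne u 0 with hu | hu
    · have hv : v ≠ 0 := fun hv => hx ⟨hu, hv⟩
      positivity
    · positivity
  have key : ∀ a b : LineCompl,
      ¬ (((a.1.2.1 * b.1.2.1 - a.1.2.2 * b.1.2.2) * u +
          (a.1.2.1 * b.1.2.2 + a.1.2.2 * b.1.2.1) * v) / (u ^ 2 + v ^ 2) = 0 ∧
        ((a.1.2.1 * b.1.2.2 + a.1.2.2 * b.1.2.1) * u -
          (a.1.2.1 * b.1.2.1 - a.1.2.2 * b.1.2.2) * v) / (u ^ 2 + v ^ 2) = 0) := by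
    rintro ⟨⟨a0, a, b⟩, ha⟩ ⟨⟨c0, c, d⟩, hc⟩ ⟨h1, h2⟩
    simp only at h1 h2 ha hc
    rw [div_eq_zero_iff] at h1 h2
    have h1' := h1.resolve_right hD.ne'
    have h2' := h2.resolve_right hD.ne'
    have e : (a ^ 2 + b ^ 2) * (c ^ 2 + d ^ 2) * (u ^ 2 + v ^ 2) = 0 := by
      have : (a ^ 2 + b ^ 2) * (c ^ 2 + d ^ 2) * (u ^ 2 + v ^ 2) =
        ((a * c - b * d) * u + (a * d + b * c) * v) ^ 2 +
        ((a * d + b * c) * u - (a * c - b * d) * v) ^ 2 := by ring
      rw [this, h1', h2']; ring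
    rcases mul_eq_zero.mp e with e | e
    · rcases mul_eq_zero.mp e with e | e
      · exact ha ⟨by nlinarith [sq_nonneg a, sq_nonneg b], by nlinarith [sq_nonneg a, sq_nonneg b]⟩
      · exact hc ⟨by nlinarith [sq_nonneg c, sq_nonneg d], by nlinarith [sq_nonneg c, sq_nonneg d]⟩
    · exact hD.ne' e
  let m : LineCompl × LineCompl → LineCompl := fun ab =>
    ⟨(ab.1.1.1 + ab.2.1.1 - r,
      ((ab.1.1.2.1 * ab.2.1.2.1 - ab.1.1.2.2 * ab.2.1.2.2) * u +
          (ab.1.1.2.1 * ab.2.1.2.2 + ab.1.1.2.2 * ab.2.1.2.1) * v) / (u ^ 2 + v ^ 2),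
      ((ab.1.1.2.1 * ab.2.1.2.2 + ab.1.1.2.2 * ab.2.1.2.1) * u -
          (ab.1.1.2.1 * ab.2.1.2.1 - ab.1.1.2.2 * ab.2.1.2.2) * v) / (u ^ 2 + v ^ 2)),
      key ab.1 ab.2⟩
  refine comm_of_strict_unit _ m ?_ ?_ ?_ α β
  · refine Continuous.subtype_mk ?_ _
    fun_prop
  · rintro ⟨⟨a0, a, b⟩, ha⟩
    apply Subtype.ext
    simp only [m, Prod.mk.injEq]
    refine ⟨by ring, ?_, ?_⟩
    · field_simp; ring
    · field_simp; ring
  · rintro ⟨⟨a0, a, b⟩, ha⟩
    apply Subtype.ext
    simp only [m, Prod.mk.injEq]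
    refine ⟨by ring, ?_, ?_⟩
    · field_simp; ring
    · field_simp; ring

end Pool.Agent.Helper22.LC
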