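import Mathlib

set_option autoImplicit false

namespace Pool.Agent.Helper22.LC

/-- A polygonal long trefoil knot, as a subset of `ℝ × ℝ × ℝ` with coordinates `(x, y, z)`,
`x = p.1`, `y = p.2.1`, `z = p.2.2`. -/
def S0 : Set (ℝ × ℝ × ℝ) :=
  {p | (p.1 ≤ 3 ∧ p.2.1 = 0 ∧ p.2.2 = 0) ∨
       (p.1 = 3 ∧ 0 ≤ p.2.1 ∧ p.2.1 ≤ 2 ∧ p.2.2 = 0) ∨
       (p.1 = 3 ∧ p.2.1 = 2 ∧ 0 ≤ p.2.2 ∧ p.2.2 ≤ 2) ∨
       (1 ≤ p.1 ∧ p.1 ≤ 3 ∧ p.2.1 = 2 ∧ p.2.2 = 2) ∨
       (p.1 = 1 ∧ p.2.1 = 2 ∧ -1 ≤ p.2.2 ∧ p.2.2 ≤ 2) ∨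
       (p.1 = 1 ∧ -1 ≤ p.2.1 ∧ p.2.1 ≤ 2 ∧ p.2.2 = -1) ∨
       (1 ≤ p.1 ∧ p.1 ≤ 2 ∧ p.2.1 = -1 ∧ p.2.2 = -1) ∨
       (p.1 = 2 ∧ p.2.1 = -1 ∧ -1 ≤ p.2.2 ∧ p.2.2 ≤ 1) ∨
       (p.1 = 2 ∧ -1 ≤ p.2.1 ∧ p.2.1 ≤ 3 ∧ p.2.2 = 1) ∨
       (2 ≤ p.1 ∧ p.2.1 = 3 ∧ p.2.2 = 1)}

/-- The complement of the long trefoil. -/
abbrev S0Compl : Type := {p : ℝ × ℝ × ℝ // p ∉ S0}

section Cov
open Topology Set

universe u v w
variable {X : Type u} {ι : Type v} {F : Type w} [TopologicalSpace X] [TopologicalSpace F]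
  [DiscreteTopology F]

/-- A fibre bundle core with discrete fibre from a multiplicative cocycle. -/
def core (B : ι → Set X) (hB : ∀ i, IsOpen (B i)) (idx : X → ι) (hidx : ∀ x, x ∈ B (idx x))
    (c : ι → X → Equiv.Perm F)
    (hc : ∀ i j, ∀ x ∈ B i ∩ B j, ∀ᶠ y in 𝓝 x, c j y * (c i y)⁻¹ = c j x * (c i x)⁻¹) :
    FiberBundleCore ι X F where
  baseSet := B
  isOpen_baseSet := hB
  indexAt := idx
  mem_baseSet_at := hidx
  coordChange i j x v := (c j x * (c i x)⁻¹) v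
  coordChange_self i x hx v := by simp
  continuousOn_coordChange i j := by
    rintro ⟨x, v⟩ ⟨hx, -⟩
    apply ContinuousAt.continuousWithinAt
    have h1 : ContinuousAt (fun q : X × F => (c j x * (c i x)⁻¹) q.2) (x, v) :=
      (continuous_of_discreteTopology.comp continuous_snd).continuousAt
    refine h1.congr ?_
    have h2 : ∀ᶠ q : X × F in 𝓝 (x, v), c j q.1 * (c i q.1)⁻¹ = c j x * (c i x)⁻¹ :=
      (continuous_fst.tendsto (x, v)).eventually (hc i j x hx)
    filter_upwards [h2] with q hq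
    simp only [hq]
  coordChange_comp i j k x hx v := by simp

variable (B : ι → Set X) (hB : ∀ i, IsOpen (B i)) (idx : X → ι) (hidx : ∀ x, x ∈ B (idx x))
    (c : ι → X → Equiv.Perm F)
    (hc : ∀ i j, ∀ x ∈ B i ∩ B j, ∀ᶠ y in 𝓝 x, c j y * (c i y)⁻¹ = c j x * (c i x)⁻¹)

theorem isCov : IsCoveringMap (core B hB idx hidx c hc).proj :=
  FiberBundle.isCoveringMap

/-- point with true label `t` over `x` -/
def lab (x : X) (t : F) : (core B hB idx hidx c hc).proj ⁻¹' {x} :=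
  ⟨⟨x, c (idx x) x t⟩, rfl⟩

theorem lab_inj (x : X) {t s : F} (h : lab B hB idx hidx c hc x t = lab B hB idx hidx c hc x s) :
    t = s := by
  have h1 := congrArg Subtype.val h
  simp only [lab] at h1
  have h2 := Bundle.TotalSpace.mk_inj.1 h1
  exact (c (idx x) x).injective h2

theorem mono_chart (i : ι) {x y : X} (γ : Path x y) (hγ : ∀ s, γ s ∈ B i) (t : F) :
    (isCov B hB idx hidx c hc).monodromy (Path.Homotopic.Quotient.mk γ) (lab B hB idx hidx c hc x t)
      = lab B hB idx hidx c hc y ((c i y)⁻¹ (c i x t)) := by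
  set Z := core B hB idx hidx c hc with hZ
  -- the lifted path
  have hcont : Continuous (fun s : unitInterval =>
      (Z.localTriv i).toOpenPartialHomeomorph.symm (γ s, c i x t)) := by
    have h1 : ContinuousOn (Z.localTriv i).toOpenPartialHomeomorph.symm
      (Z.localTriv i).toOpenPartialHomeomorph.target :=
      (Z.localTriv i).toOpenPartialHomeomorph.continuousOn_symm
    refine h1.comp_continuous (by fun_prop) ?_
    intro s
    have := (Z.mem_localTriv_target i (γ s, c i x t)).2 (hγ s)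
    exact this
  let Γ : Path ((lab B hB idx hidx c hc x t) : Z.TotalSpace)
      (lab B hB idx hidx c hc y ((c i y)⁻¹ (c i x t)) : Z.TotalSpace) :=
    { toFun := fun s => (Z.localTriv i).toOpenPartialHomeomorph.symm (γ s, c i x t)
      continuous_toFun := hcont
      source' := by
        simp only [FiberBundleCore.localTriv_symm_apply, Path.source]
        simp [lab, hZ, core]
        rfl
      target' := by
        simp only [FiberBundleCore.localTriv_symm_apply, Path.target]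
        simp [lab, hZ, core]
        rfl }
  refine (isCov B hB idx hidx c hc).monodromy_eq_of_map_eq (Path.Homotopic.Quotient.mk Γ) ?_
  refine congrArg Path.Homotopic.Quotient.mk ?_
  ext s
  rfl

end Cov

section Geo
open Topology Set

/-- the transposition `(0 1)` -/
abbrev pa : Equiv.Perm (Fin 3) := Equiv.swap 0 1
/-- the transposition `(1 2)` -/
abbrev pb : Equiv.Perm (Fin 3) := Equiv.swap 1 2

/-- the face labels -/
noncomputable def gg (x y : ℝ) : Equiv.Perm (Fin 3) :=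
  if y < -1 then pa else if y < 0 then (if x < 1 then pa else if x < 2 then pb * pa else pa)
  else if y < 2 then (if x < 1 then 1 else if x < 2 then pb else if x < 3 then pa * pb else pa)
  else if y < 3 then (if x < 2 then 1 else pa) else 1

/-- persistence of strict inequalities -/
def Pers (w a a' : ℝ) : Prop := (a < w ∧ a' < w) ∨ (a = w) ∨ (w < a ∧ w < a')

theorem Pers.aux {w a a' : ℝ} (h : Pers w a a') :
    (a < w ∧ a' < w) ∨ (¬ a < w ∧ a ≤ w) ∨ (¬ a < w ∧ ¬ a' < w ∧ w < a) := by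
  rcases h with h | h | h
  · exact Or.inl h
  · exact Or.inr (Or.inl ⟨by rw [h]; exact lt_irrefl _, h.le⟩)
  · exact Or.inr (Or.inr ⟨not_lt.2 h.1.le, not_lt.2 h.2.le, h.1⟩)

set_option maxHeartbeats 4000000 in
theorem gUV (x y x' y' : ℝ)
    (h : ¬ ((x ≤ 3 ∧ y = 0) ∨ (x = 3 ∧ 0 ≤ y ∧ y ≤ 2) ∨ (1 ≤ x ∧ x ≤ 3 ∧ y = 2) ∨
      (x = 1 ∧ -1 ≤ y ∧ y ≤ 2) ∨ (1 ≤ x ∧ x ≤ 2 ∧ y = -1) ∨ (x = 2 ∧ -1 ≤ y ∧ y ≤ 3) ∨
      (2 ≤ x ∧ y = 3)))
    (x1 : Pers 1 x x') (x2 : Pers 2 x x') (x3 : Pers 3 x x')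
    (y1 : Pers (-1) y y') (y0 : Pers 0 y y') (y2 : Pers 2 y y') (y3 : Pers 3 y y') :
    gg x' y' = gg x y := by
  replace x1 := x1.aux
  replace x2 := x2.aux
  replace x3 := x3.aux
  replace y1 := y1.aux
  replace y0 := y0.aux
  replace y2 := y2.aux
  replace y3 := y3.aux
  rcases x1 with ⟨a1, a1'⟩ | ⟨a1, a1'⟩ | ⟨a1, a1', a1''⟩ <;>
  rcases x2 with ⟨a2, a2'⟩ | ⟨a2, a2'⟩ | ⟨a2, a2', a2''⟩ <;> try (exfalso; linarith)
  all_goals rcases x3 with ⟨a3, a3'⟩ | ⟨a3, a3'⟩ | ⟨a3, a3', a3''⟩ <;> try (exfalso; linarith)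
  all_goals rcases y1 with ⟨b1, b1'⟩ | ⟨b1, b1'⟩ | ⟨b1, b1', b1''⟩ <;>
    rcases y0 with ⟨b0, b0'⟩ | ⟨b0, b0'⟩ | ⟨b0, b0', b0''⟩ <;> try (exfalso; linarith)
  all_goals rcases y2 with ⟨b2, b2'⟩ | ⟨b2, b2'⟩ | ⟨b2, b2', b2''⟩ <;> try (exfalso; linarith)
  all_goals rcases y3 with ⟨b3, b3'⟩ | ⟨b3, b3'⟩ | ⟨b3, b3', b3''⟩ <;> try (exfalso; linarith)
  all_goals first
    | (simp only [gg, if_pos, if_neg, *, not_false_eq_true]; done)
    | (simp only [gg, if_pos, if_neg, *, not_false_eq_true]; split_ifs <;> rfl)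
    | (exfalso; apply h; first
      | (left; constructor <;> linarith)
      | (right; left; refine ⟨?_, ?_, ?_⟩ <;> linarith)
      | (right; right; left; refine ⟨?_, ?_, ?_⟩ <;> linarith)
      | (right; right; right; left; refine ⟨?_, ?_, ?_⟩ <;> linarith)
      | (right; right; right; right; left; refine ⟨?_, ?_, ?_⟩ <;> linarith)
      | (right; right; right; right; right; left; refine ⟨?_, ?_, ?_⟩ <;> linarith)
      | (right; right; right; right; right; right; refine ⟨?_, ?_⟩ <;> linarith))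

theorem pers_ev {X : Type*} [TopologicalSpace X] (f : X → ℝ) (hf : Continuous f) (w : ℝ) (x : X) :
    ∀ᶠ q in 𝓝 x, Pers w (f x) (f q) := by
  rcases lt_trichotomy (f x) w with h | h | h
  · filter_upwards [(hf.tendsto x).eventually (gt_mem_nhds h)] with q hq
    exact Or.inl ⟨h, hq⟩
  · exact Filter.Eventually.of_forall fun q => Or.inr (Or.inl h)
  · filter_upwards [(hf.tendsto x).eventually (lt_mem_nhds h)] with q hq
    exact Or.inr (Or.inr ⟨h, hq⟩)

theorem ite_ev {X : Type*} [TopologicalSpace X] {A : Type*} (f : X → ℝ) (hf : Continuous f) (w : ℝ)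
    (x : X) (hx : f x ≠ w) (a b : A) :
    ∀ᶠ q in 𝓝 x, (if f q < w then a else b) = (if f x < w then a else b) := by
  filter_upwards [pers_ev f hf w x] with q hq
  rcases hq with ⟨h1, h2⟩ | h | ⟨h1, h2⟩
  · rw [if_pos h1, if_pos h2]
  · exact absurd h hx
  · rw [if_neg (not_lt.2 h1.le), if_neg (not_lt.2 h2.le)]

theorem ite_ev' {X : Type*} [TopologicalSpace X] {A : Type*} (f : X → ℝ) (hf : Continuous f) (w : ℝ)
    (x : X) (hx : f x ≠ w) (a b : A) :
    ∀ᶠ q in 𝓝 x, (if w ≤ f q then a else b) = (if w ≤ f x then a else b) := by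
  filter_upwards [ite_ev f hf w x hx b a] with q hq
  simpa only [← not_lt, ite_not] using hq

theorem W1box (x y : ℝ) (h1 : 1/2 < x) (h2 : x < 3/2) (h3 : -1/2 < y) (h4 : y < 1/2) :
    gg x y * (if 0 ≤ y then 1 else pa)⁻¹ = if x < 1 then 1 else pb := by
  unfold gg
  split_ifs <;> first | (exfalso; linarith) | decide

theorem W2box (x y : ℝ) (h1 : 3/2 < x) (h2 : x < 5/2) (h3 : -1/2 < y) (h4 : y < 1/2) :
    gg x y * (if 2 ≤ x then 1 else pb * pa * pb)⁻¹ = if y < 0 then pa else pa * pb := by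
  unfold gg
  split_ifs <;> first | (exfalso; linarith) | decide

theorem W3box (x y : ℝ) (h1 : 3/2 < x) (h2 : x < 5/2) (h3 : 3/2 < y) (h4 : y < 5/2) :
    gg x y * (if 2 ≤ y then 1 else pb)⁻¹ = if x < 2 then 1 else pa := by
  unfold gg
  split_ifs <;> first | (exfalso; linarith) | decide

/-- The base set `U` -/
def BU : Set S0Compl := {p | (3 < p.1.1 ∨ p.1.2.1 ≠ 0 ∨ 0 < p.1.2.2) ∧
       (p.1.1 ≠ 3 ∨ p.1.2.1 < 0 ∨ 2 < p.1.2.1 ∨ 0 < p.1.2.2) ∧
       (p.1.1 < 1 ∨ 3 < p.1.1 ∨ p.1.2.1 ≠ 2 ∨ 2 < p.1.2.2) ∧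
       (p.1.1 ≠ 1 ∨ p.1.2.1 < -1 ∨ 2 < p.1.2.1 ∨ -1 < p.1.2.2) ∧
       (p.1.1 < 1 ∨ 2 < p.1.1 ∨ p.1.2.1 ≠ -1 ∨ -1 < p.1.2.2) ∧
       (p.1.1 ≠ 2 ∨ p.1.2.1 < -1 ∨ 3 < p.1.2.1 ∨ 1 < p.1.2.2) ∧
       (p.1.1 < 2 ∨ p.1.2.1 ≠ 3 ∨ 1 < p.1.2.2)}

/-- The base set `V` -/
def BV : Set S0Compl := {p | (3 < p.1.1 ∨ p.1.2.1 ≠ 0 ∨ p.1.2.2 < 0) ∧
       (p.1.1 ≠ 3 ∨ p.1.2.1 < 0 ∨ 2 < p.1.2.1 ∨ p.1.2.2 < 0) ∧
       (p.1.1 < 1 ∨ 3 < p.1.1 ∨ p.1.2.1 ≠ 2 ∨ p.1.2.2 < 2) ∧
       (p.1.1 ≠ 1 ∨ p.1.2.1 < -1 ∨ 2 < p.1.2.1 ∨ p.1.2.2 < -1) ∧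
       (p.1.1 < 1 ∨ 2 < p.1.1 ∨ p.1.2.1 ≠ -1 ∨ p.1.2.2 < -1) ∧
       (p.1.1 ≠ 2 ∨ p.1.2.1 < -1 ∨ 3 < p.1.2.1 ∨ p.1.2.2 < 1) ∧
       (p.1.1 < 2 ∨ p.1.2.1 ≠ 3 ∨ p.1.2.2 < 1)}

/-- The base set `W1` -/
def BW1 : Set S0Compl := {p | 1/2 < p.1.1 ∧ p.1.1 < 3/2 ∧ -1/2 < p.1.2.1 ∧ p.1.2.1 < 1/2 ∧
  -1 < p.1.2.2 ∧ p.1.2.2 < 0}

/-- The base set `W2` -/
def BW2 : Set S0Compl := {p | 3/2 < p.1.1 ∧ p.1.1 < 5/2 ∧ -1/2 < p.1.2.1 ∧ p.1.2.1 < 1/2 ∧
  0 < p.1.2.2 ∧ p.1.2.2 < 1}

/-- The base set `W3` -/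
def BW3 : Set S0Compl := {p | 3/2 < p.1.1 ∧ p.1.1 < 5/2 ∧ 3/2 < p.1.2.1 ∧ p.1.2.1 < 5/2 ∧
  1 < p.1.2.2 ∧ p.1.2.2 < 2}

/-- The base sets. -/
def BS : Fin 5 → Set S0Compl := ![BU, BV, BW1, BW2, BW3]

/-- the chart labels -/
noncomputable def cc : Fin 5 → S0Compl → Equiv.Perm (Fin 3) :=
  ![fun _ => 1, fun p => gg p.1.1 p.1.2.1,
    fun p => if 0 ≤ p.1.2.1 then 1 else pa,
    fun p => if 2 ≤ p.1.1 then 1 else pb * pa * pb,
    fun p => if 2 ≤ p.1.2.1 then 1 else pb]

theorem cx : Continuous (fun p : S0Compl => p.1.1) := by fun_prop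
theorem cy : Continuous (fun p : S0Compl => p.1.2.1) := by fun_prop
theorem cz : Continuous (fun p : S0Compl => p.1.2.2) := by fun_prop

theorem iand {X : Type*} [TopologicalSpace X] {p q : X → Prop} (hp : IsOpen {x | p x})
    (hq : IsOpen {x | q x}) : IsOpen {x | p x ∧ q x} := hp.inter hq

theorem ior {X : Type*} [TopologicalSpace X] {p q : X → Prop} (hp : IsOpen {x | p x})
    (hq : IsOpen {x | q x}) : IsOpen {x | p x ∨ q x} := hp.union hq

theorem BS_open : ∀ i, IsOpen (BS i) := by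
  have hx := cx
  have hy := cy
  have hz := cz
  intro i
  fin_cases i
  · show IsOpen BU
    unfold BU
    repeat' first | apply iand | apply ior | apply isOpen_lt | apply isOpen_ne_fun
    all_goals first | exact continuous_const | assumption
  · show IsOpen BV
    unfold BV
    repeat' first | apply iand | apply ior | apply isOpen_lt | apply isOpen_ne_fun
    all_goals first | exact continuous_const | assumption
  · show IsOpen BW1
    unfold BW1
    repeat' first | apply iand | apply ior | apply isOpen_lt | apply isOpen_ne_fun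
    all_goals first | exact continuous_const | assumption
  · show IsOpen BW2
    unfold BW2
    repeat' first | apply iand | apply ior | apply isOpen_lt | apply isOpen_ne_fun
    all_goals first | exact continuous_const | assumption
  · show IsOpen BW3
    unfold BW3
    repeat' first | apply iand | apply ior | apply isOpen_lt | apply isOpen_ne_fun
    all_goals first | exact continuous_const | assumption

/-- membership in S0 -/
theorem S0_intro {p : ℝ × ℝ × ℝ} (h : (p.1 ≤ 3 ∧ p.2.1 = 0 ∧ p.2.2 = 0) ∨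
       (p.1 = 3 ∧ 0 ≤ p.2.1 ∧ p.2.1 ≤ 2 ∧ p.2.2 = 0) ∨
       (p.1 = 3 ∧ p.2.1 = 2 ∧ 0 ≤ p.2.2 ∧ p.2.2 ≤ 2) ∨
       (1 ≤ p.1 ∧ p.1 ≤ 3 ∧ p.2.1 = 2 ∧ p.2.2 = 2) ∨
       (p.1 = 1 ∧ p.2.1 = 2 ∧ -1 ≤ p.2.2 ∧ p.2.2 ≤ 2) ∨
       (p.1 = 1 ∧ -1 ≤ p.2.1 ∧ p.2.1 ≤ 2 ∧ p.2.2 = -1) ∨
       (1 ≤ p.1 ∧ p.1 ≤ 2 ∧ p.2.1 = -1 ∧ p.2.2 = -1) ∨
       (p.1 = 2 ∧ p.2.1 = -1 ∧ -1 ≤ p.2.2 ∧ p.2.2 ≤ 1) ∨
       (p.1 = 2 ∧ -1 ≤ p.2.1 ∧ p.2.1 ≤ 3 ∧ p.2.2 = 1) ∨
       (2 ≤ p.1 ∧ p.2.1 = 3 ∧ p.2.2 = 1)) : p ∈ S0 := h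

set_option maxHeartbeats 4000000 in
theorem BS_cover (p : S0Compl) : ∃ i, p ∈ BS i := by
  by_cases hU : p ∈ BU
  · exact ⟨0, hU⟩
  by_cases hV : p ∈ BV
  · exact ⟨1, hV⟩
  obtain ⟨⟨x, y, z⟩, hp⟩ := p
  have key : (1/2 < x ∧ x < 3/2 ∧ -1/2 < y ∧ y < 1/2 ∧ -1 < z ∧ z < 0) ∨
     (3/2 < x ∧ x < 5/2 ∧ -1/2 < y ∧ y < 1/2 ∧ 0 < z ∧ z < 1) ∨
     (3/2 < x ∧ x < 5/2 ∧ 3/2 < y ∧ y < 5/2 ∧ 1 < z ∧ z < 2) := by
    change ¬ (_ ∧ _) at hU
    change ¬ (_ ∧ _) at hV
    simp only [not_and_or, not_or, not_lt, ne_eq, not_not] at hU hV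
    rcases hU with hU | hU | hU | hU | hU | hU | hU <;>
    rcases hV with hV | hV | hV | hV | hV | hV | hV
    all_goals (obtain ⟨u1, u2, u3⟩ := hU; obtain ⟨v1, v2, v3⟩ := hV)
    all_goals try (obtain ⟨u3, u4⟩ := u3)
    all_goals try (obtain ⟨v3, v4⟩ := v3)
    all_goals try (exfalso; linarith)
    all_goals try (exfalso; refine hp (S0_intro ?_); dsimp only; first
      | (left; refine ⟨?_, ?_, ?_⟩ <;> linarith)
      | (right; left; refine ⟨?_, ?_, ?_, ?_⟩ <;> linarith)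
      | (right; right; left; refine ⟨?_, ?_, ?_, ?_⟩ <;> linarith)
      | (right; right; right; left; refine ⟨?_, ?_, ?_, ?_⟩ <;> linarith)
      | (right; right; right; right; left; refine ⟨?_, ?_, ?_, ?_⟩ <;> linarith)
      | (right; right; right; right; right; left; refine ⟨?_, ?_, ?_, ?_⟩ <;> linarith)
      | (right; right; right; right; right; right; left; refine ⟨?_, ?_, ?_, ?_⟩ <;> linarith)
      | (right; right; right; right; right; right; right; left; refine ⟨?_, ?_, ?_, ?_⟩ <;> linarith)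
      | (right; right; right; right; right; right; right; right; left; refine ⟨?_, ?_, ?_, ?_⟩ <;> linarith)
      | (right; right; right; right; right; right; right; right; right; refine ⟨?_, ?_, ?_⟩ <;> linarith))
    all_goals rcases lt_trichotomy z (-1) with z1 | z1 | z1 <;>
      rcases lt_trichotomy z 0 with z2 | z2 | z2 <;> try (exfalso; linarith)
    all_goals try (exfalso; refine hp (S0_intro ?_); dsimp only; first
      | (left; refine ⟨?_, ?_, ?_⟩ <;> linarith)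
      | (right; left; refine ⟨?_, ?_, ?_, ?_⟩ <;> linarith)
      | (right; right; left; refine ⟨?_, ?_, ?_, ?_⟩ <;> linarith)
      | (right; right; right; left; refine ⟨?_, ?_, ?_, ?_⟩ <;> linarith)
      | (right; right; right; right; left; refine ⟨?_, ?_, ?_, ?_⟩ <;> linarith)
      | (right; right; right; right; right; left; refine ⟨?_, ?_, ?_, ?_⟩ <;> linarith)
      | (right; right; right; right; right; right; left; refine ⟨?_, ?_, ?_, ?_⟩ <;> linarith)
      | (right; right; right; right; right; right; right; left; refine ⟨?_, ?_, ?_, ?_⟩ <;> linarith)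
      | (right; right; right; right; right; right; right; right; left; refine ⟨?_, ?_, ?_, ?_⟩ <;> linarith)
      | (right; right; right; right; right; right; right; right; right; refine ⟨?_, ?_, ?_⟩ <;> linarith))
    all_goals rcases lt_trichotomy z 1 with z3 | z3 | z3 <;>
      rcases lt_trichotomy z 2 with z4 | z4 | z4 <;> try (exfalso; linarith)
    all_goals try (exfalso; refine hp (S0_intro ?_); dsimp only; first
      | (left; refine ⟨?_, ?_, ?_⟩ <;> linarith)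
      | (right; left; refine ⟨?_, ?_, ?_, ?_⟩ <;> linarith)
      | (right; right; left; refine ⟨?_, ?_, ?_, ?_⟩ <;> linarith)
      | (right; right; right; left; refine ⟨?_, ?_, ?_, ?_⟩ <;> linarith)
      | (right; right; right; right; left; refine ⟨?_, ?_, ?_, ?_⟩ <;> linarith)
      | (right; right; right; right; right; left; refine ⟨?_, ?_, ?_, ?_⟩ <;> linarith)
      | (right; right; right; right; right; right; left; refine ⟨?_, ?_, ?_, ?_⟩ <;> linarith)
      | (right; right; right; right; right; right; right; left; refine ⟨?_, ?_, ?_, ?_⟩ <;> linarith)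
      | (right; right; right; right; right; right; right; right; left; refine ⟨?_, ?_, ?_, ?_⟩ <;> linarith)
      | (right; right; right; right; right; right; right; right; right; refine ⟨?_, ?_, ?_⟩ <;> linarith))
    all_goals first
      | (left; refine ⟨?_, ?_, ?_, ?_, ?_, ?_⟩ <;> linarith)
      | (right; left; refine ⟨?_, ?_, ?_, ?_, ?_, ?_⟩ <;> linarith)
      | (right; right; refine ⟨?_, ?_, ?_, ?_, ?_, ?_⟩ <;> linarith)
  rcases key with h | h | h
  · exact ⟨2, h⟩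
  · exact ⟨3, h⟩
  · exact ⟨4, h⟩

/-- local constancy of the transition from chart `i` to chart `j` -/
def Loc (i j : Fin 5) : Prop := ∀ x ∈ BS i ∩ BS j, ∀ᶠ y in 𝓝 x,
  cc j y * (cc i y)⁻¹ = cc j x * (cc i x)⁻¹

theorem Loc_symm {i j : Fin 5} (h : Loc i j) : Loc j i := by
  intro x hx
  filter_upwards [h x hx.symm] with y hy
  have := congrArg (·⁻¹) hy
  simpa using this

theorem Loc_self (i : Fin 5) : Loc i i := by
  intro x hx
  refine Filter.Eventually.of_forall fun y => ?_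
  simp

theorem LC01 : Loc 0 1 := by
  intro p hp
  have hU : p ∈ BU := hp.1
  have hV : p ∈ BV := hp.2
  filter_upwards [pers_ev _ cx 1 p, pers_ev _ cx 2 p, pers_ev _ cx 3 p, pers_ev _ cy (-1) p,
    pers_ev _ cy 0 p, pers_ev _ cy 2 p, pers_ev _ cy 3 p] with q x1 x2 x3 y1 y0 y2 y3
  show gg q.1.1 q.1.2.1 * 1⁻¹ = gg p.1.1 p.1.2.1 * 1⁻¹
  rw [inv_one, mul_one, mul_one]
  refine gUV _ _ _ _ ?_ x1 x2 x3 y1 y0 y2 y3
  obtain ⟨⟨x, y, z⟩, hp'⟩ := p
  obtain ⟨u1, u2, u3, u4, u5, u6, u7⟩ := hU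
  obtain ⟨v1, v2, v3, v4, v5, v6, v7⟩ := hV
  simp only [ne_eq] at *
  rintro (⟨h1, h2⟩ | ⟨h1, h2, h3⟩ | ⟨h1, h2, h3⟩ | ⟨h1, h2, h3⟩ | ⟨h1, h2, h3⟩ | ⟨h1, h2, h3⟩ |
    ⟨h1, h2⟩)
  · rcases u1 with u | u | u
    · linarith
    · exact u h2
    · rcases v1 with v | v | v
      · linarith
      · exact v h2
      · linarith
  · rcases u2 with u | u | u | u
    · exact u h1
    · linarith
    · linarith
    · rcases v2 with v | v | v | v
      · exact v h1
      · linarith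
      · linarith
      · linarith
  · rcases u3 with u | u | u | u
    · linarith
    · linarith
    · exact u h3
    · rcases v3 with v | v | v | v
      · linarith
      · linarith
      · exact v h3
      · linarith
  · rcases u4 with u | u | u | u
    · exact u h1
    · linarith
    · linarith
    · rcases v4 with v | v | v | v
      · exact v h1
      · linarith
      · linarith
      · linarith
  · rcases u5 with u | u | u | u
    · linarith
    · linarith
    · exact u h3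
    · rcases v5 with v | v | v | v
      · linarith
      · linarith
      · exact v h3
      · linarith
  · rcases u6 with u | u | u | u
    · exact u h1
    · linarith
    · linarith
    · rcases v6 with v | v | v | v
      · exact v h1
      · linarith
      · linarith
      · linarith
  · rcases u7 with u | u | u
    · linarith
    · exact u h2
    · rcases v7 with v | v | v
      · linarith
      · exact v h2
      · linarith

theorem LC02 : Loc 0 2 := by
  intro p hp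
  have hU : p ∈ BU := hp.1
  have hW : p ∈ BW1 := hp.2
  obtain ⟨w1, w2, w3, w4, w5, w6⟩ := hW
  have hne : p.1.2.1 ≠ 0 := by
    rcases hU.1 with h | h | h
    · linarith
    · exact h
    · linarith
  filter_upwards [ite_ev' _ cy 0 p hne (1 : Equiv.Perm (Fin 3)) pa] with q hq
  show (if 0 ≤ q.1.2.1 then 1 else pa) * 1⁻¹ = (if 0 ≤ p.1.2.1 then 1 else pa) * 1⁻¹
  rw [hq]

theorem LC03 : Loc 0 3 := by
  intro p hp
  have hU : p ∈ BU := hp.1
  have hW : p ∈ BW2 := hp.2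
  obtain ⟨w1, w2, w3, w4, w5, w6⟩ := hW
  have hne : p.1.1 ≠ 2 := by
    obtain ⟨u1, u2, u3, u4, u5, u6, u7⟩ := hU
    rcases u6 with h | h | h | h
    · exact h
    · linarith
    · linarith
    · linarith
  filter_upwards [ite_ev' _ cx 2 p hne (1 : Equiv.Perm (Fin 3)) (pb * pa * pb)] with q hq
  show (if 2 ≤ q.1.1 then 1 else pb * pa * pb) * 1⁻¹ = (if 2 ≤ p.1.1 then 1 else pb * pa * pb) * 1⁻¹
  rw [hq]

theorem LC04 : Loc 0 4 := by
  intro p hp
  have hU : p ∈ BU := hp.1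
  have hW : p ∈ BW3 := hp.2
  obtain ⟨w1, w2, w3, w4, w5, w6⟩ := hW
  have hne : p.1.2.1 ≠ 2 := by
    obtain ⟨u1, u2, u3, u4, u5, u6, u7⟩ := hU
    rcases u3 with h | h | h | h
    · linarith
    · linarith
    · exact h
    · linarith
  filter_upwards [ite_ev' _ cy 2 p hne (1 : Equiv.Perm (Fin 3)) pb] with q hq
  show (if 2 ≤ q.1.2.1 then 1 else pb) * 1⁻¹ = (if 2 ≤ p.1.2.1 then 1 else pb) * 1⁻¹
  rw [hq]

theorem BW1_open : IsOpen BW1 := BS_open 2
theorem BW2_open : IsOpen BW2 := BS_open 3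
theorem BW3_open : IsOpen BW3 := BS_open 4

theorem LC21 : Loc 2 1 := by
  intro p hp
  have hV : p ∈ BV := hp.2
  have hW0 : p ∈ BW1 := hp.1
  obtain ⟨w1, w2, w3, w4, w5, w6⟩ := hW0
  have hne : p.1.1 ≠ 1 := by
    obtain ⟨u1, u2, u3, u4, u5, u6, u7⟩ := hV
    rcases u4 with h | h | h | h
    · exact h
    · linarith
    · linarith
    · linarith
  filter_upwards [ite_ev _ cx 1 p hne (1 : Equiv.Perm (Fin 3)) pb, BW1_open.mem_nhds hp.1] with q hq hqW
  obtain ⟨w1', w2', w3', w4', w5', w6'⟩ := hqW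
  show gg q.1.1 q.1.2.1 * (if 0 ≤ q.1.2.1 then 1 else pa)⁻¹ =
    gg p.1.1 p.1.2.1 * (if 0 ≤ p.1.2.1 then 1 else pa)⁻¹
  rw [W1box _ _ w1' w2' w3' w4', W1box _ _ w1 w2 w3 w4, hq]

theorem LC31 : Loc 3 1 := by
  intro p hp
  have hV : p ∈ BV := hp.2
  have hW0 : p ∈ BW2 := hp.1
  obtain ⟨w1, w2, w3, w4, w5, w6⟩ := hW0
  have hne : p.1.2.1 ≠ 0 := by
    obtain ⟨u1, u2, u3, u4, u5, u6, u7⟩ := hV
    rcases u1 with h | h | h
    · linarith
    · exact h
    · linarith
  filter_upwards [ite_ev _ cy 0 p hne pa (pa * pb), BW2_open.mem_nhds hp.1] with q hq hqW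
  obtain ⟨w1', w2', w3', w4', w5', w6'⟩ := hqW
  show gg q.1.1 q.1.2.1 * (if 2 ≤ q.1.1 then 1 else pb * pa * pb)⁻¹ =
    gg p.1.1 p.1.2.1 * (if 2 ≤ p.1.1 then 1 else pb * pa * pb)⁻¹
  rw [W2box _ _ w1' w2' w3' w4', W2box _ _ w1 w2 w3 w4, hq]

theorem LC41 : Loc 4 1 := by
  intro p hp
  have hV : p ∈ BV := hp.2
  have hW0 : p ∈ BW3 := hp.1
  obtain ⟨w1, w2, w3, w4, w5, w6⟩ := hW0
  have hne : p.1.1 ≠ 2 := by
    obtain ⟨u1, u2, u3, u4, u5, u6, u7⟩ := hV
    rcases u6 with h | h | h | h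
    · exact h
    · linarith
    · linarith
    · linarith
  filter_upwards [ite_ev _ cx 2 p hne (1 : Equiv.Perm (Fin 3)) pa, BW3_open.mem_nhds hp.1] with q hq hqW
  obtain ⟨w1', w2', w3', w4', w5', w6'⟩ := hqW
  show gg q.1.1 q.1.2.1 * (if 2 ≤ q.1.2.1 then 1 else pb)⁻¹ =
    gg p.1.1 p.1.2.1 * (if 2 ≤ p.1.2.1 then 1 else pb)⁻¹
  rw [W3box _ _ w1' w2' w3' w4', W3box _ _ w1 w2 w3 w4, hq]

theorem LC23 : Loc 2 3 := by
  intro p hp
  obtain ⟨w1, w2, w3, w4, w5, w6⟩ : p ∈ BW1 := hp.1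
  obtain ⟨w1', w2', w3', w4', w5', w6'⟩ : p ∈ BW2 := hp.2
  exfalso; linarith

theorem LC24 : Loc 2 4 := by
  intro p hp
  obtain ⟨w1, w2, w3, w4, w5, w6⟩ : p ∈ BW1 := hp.1
  obtain ⟨w1', w2', w3', w4', w5', w6'⟩ : p ∈ BW3 := hp.2
  exfalso; linarith

theorem LC34 : Loc 3 4 := by
  intro p hp
  obtain ⟨w1, w2, w3, w4, w5, w6⟩ : p ∈ BW2 := hp.1
  obtain ⟨w1', w2', w3', w4', w5', w6'⟩ : p ∈ BW3 := hp.2
  exfalso; linarith

theorem Loc_all (i j : Fin 5) : Loc i j := by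
  fin_cases i <;> fin_cases j
  · exact Loc_self _
  · exact LC01
  · exact LC02
  · exact LC03
  · exact LC04
  · exact Loc_symm LC01
  · exact Loc_self _
  · exact Loc_symm LC21
  · exact Loc_symm LC31
  · exact Loc_symm LC41
  · exact Loc_symm LC02
  · exact LC21
  · exact Loc_self _
  · exact LC23
  · exact LC24
  · exact Loc_symm LC03
  · exact LC31
  · exact Loc_symm LC23
  · exact Loc_self _
  · exact LC34
  · exact Loc_symm LC04
  · exact LC41
  · exact Loc_symm LC24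
  · exact Loc_symm LC34
  · exact Loc_self _

/-- the base point -/
noncomputable def PP : S0Compl := ⟨(0, 1, 0), by
  simp only [S0]
  intro h
  change _ ∨ _ at h
  norm_num at h⟩

/-- second point -/
noncomputable def QQ : S0Compl := ⟨(0, -1, 0), by
  simp only [S0]
  intro h
  change _ ∨ _ at h
  norm_num at h⟩

/-- third point -/
noncomputable def RR : S0Compl := ⟨(3/2, 1, 0), by
  simp only [S0]
  intro h
  change _ ∨ _ at h
  norm_num at h⟩

theorem n0 (y z : ℝ) (h : y ≠ 0 ∨ z ≠ 0) : ((0 : ℝ), y, z) ∉ S0 := by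
  intro h'
  change _ ∨ _ at h'
  dsimp only at h'
  rcases h' with h' | h' | h' | h' | h' | h' | h' | h' | h' | h'
  · rcases h with h | h
    · exact h h'.2.1
    · exact h h'.2.2
  all_goals (obtain ⟨h1, h2⟩ := h'; linarith)

theorem n1 (x z : ℝ) (hx : x ≤ 3/2) (h : x ≠ 1 ∨ z ≠ -1) : (x, (1 : ℝ), z) ∉ S0 := by
  intro h'
  change _ ∨ _ at h'
  dsimp only at h'
  rcases h' with h' | h' | h' | h' | h' | h' | h' | h' | h' | h'
  · linarith [h'.2.1]
  · linarith [h'.1]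
  · linarith [h'.1]
  · linarith [h'.2.2.1]
  · linarith [h'.2.1]
  · rcases h with h | h
    · exact h h'.1
    · exact h h'.2.2.2
  · linarith [h'.2.2.1]
  · linarith [h'.1]
  · linarith [h'.1]
  · linarith [h'.1]

/-- path under the first strand -/
noncomputable def g1 : Path PP QQ where
  toFun t := ⟨(0, 1 - 2 * (t : ℝ), -((t : ℝ) * (1 - t))), n0 _ _ (by
    by_cases h : (t : ℝ) = 1/2
    · right; rw [h]; norm_num
    · left; intro h'; apply h; linarith)⟩
  continuous_toFun := by fun_prop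
  source' := by
    apply Subtype.ext
    simp [PP]
  target' := by
    apply Subtype.ext
    simp [QQ]
    norm_num

/-- path back over the first strand -/
noncomputable def g2 : Path QQ PP where
  toFun t := ⟨(0, -1 + 2 * (t : ℝ), ((t : ℝ) * (1 - t))), n0 _ _ (by
    by_cases h : (t : ℝ) = 1/2
    · right; rw [h]; norm_num
    · left; intro h'; apply h; linarith)⟩
  continuous_toFun := by fun_prop
  source' := by
    apply Subtype.ext
    simp [QQ]
  target' := by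
    apply Subtype.ext
    simp [PP]
    norm_num

/-- path under the second strand -/
noncomputable def g3 : Path PP RR where
  toFun t := ⟨(3/2 * (t : ℝ), 1, -8 * ((t : ℝ) * (1 - t))), n1 _ _ (by linarith [t.2.2]) (by
    by_cases h : (t : ℝ) = 2/3
    · right; rw [h]; norm_num
    · left; intro h'; apply h; linarith)⟩
  continuous_toFun := by fun_prop
  source' := by
    apply Subtype.ext
    simp [PP]
  target' := by
    apply Subtype.ext
    simp [RR]

/-- path back over the second strand -/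
noncomputable def g4 : Path RR PP where
  toFun t := ⟨(3/2 * (1 - (t : ℝ)), 1, 0), n1 _ _ (by linarith [t.2.1]) (by
    right; norm_num)⟩
  continuous_toFun := by fun_prop
  source' := by
    apply Subtype.ext
    simp [RR]
  target' := by
    apply Subtype.ext
    simp [PP]

theorem g1_mem (t : unitInterval) : g1 t ∈ BS 1 := by
  show (_ ∧ _)
  have ht0 := t.2.1
  have ht1 := t.2.2
  simp only [g1, Path.coe_mk_mk, ne_eq]
  refine ⟨?_, ?_, ?_, ?_, ?_, ?_, ?_⟩
  · by_cases h : (t : ℝ) = 1/2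
    · right; right; rw [h]; norm_num
    · right; left; intro h'; apply h; linarith
  · left; norm_num
  · left; norm_num
  · left; norm_num
  · left; norm_num
  · left; norm_num
  · left; norm_num

theorem g2_mem (t : unitInterval) : g2 t ∈ BS 0 := by
  show (_ ∧ _)
  have ht0 := t.2.1
  have ht1 := t.2.2
  simp only [g2, Path.coe_mk_mk, ne_eq]
  refine ⟨?_, ?_, ?_, ?_, ?_, ?_, ?_⟩
  · by_cases h : (t : ℝ) = 1/2
    · right; right; rw [h]; norm_num
    · right; left; intro h'; apply h; linarith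
  · left; norm_num
  · left; norm_num
  · left; norm_num
  · left; norm_num
  · left; norm_num
  · left; norm_num

theorem g3_mem (t : unitInterval) : g3 t ∈ BS 1 := by
  show (_ ∧ _)
  have ht0 := t.2.1
  have ht1 := t.2.2
  simp only [g3, Path.coe_mk_mk, ne_eq]
  refine ⟨?_, ?_, ?_, ?_, ?_, ?_, ?_⟩
  · right; left; norm_num
  · left; intro h; linarith
  · right; right; left; norm_num
  · by_cases h : (t : ℝ) = 2/3
    · right; right; right; rw [h]; norm_num
    · left; intro h'; apply h; linarith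
  · right; right; left; norm_num
  · left; intro h; linarith
  · left; linarith

theorem g4_mem (t : unitInterval) : g4 t ∈ BS 0 := by
  show (_ ∧ _)
  have ht0 := t.2.1
  have ht1 := t.2.2
  simp only [g4, Path.coe_mk_mk, ne_eq]
  refine ⟨?_, ?_, ?_, ?_, ?_, ?_, ?_⟩
  · right; left; norm_num
  · left; intro h; linarith
  · right; right; left; norm_num
  · right; right; right; norm_num
  · right; right; left; norm_num
  · left; intro h; linarith
  · left; linarith

/-- chart index -/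
noncomputable def idx0 (p : S0Compl) : Fin 5 := Classical.choose (BS_cover p)

theorem idx0_mem (p : S0Compl) : p ∈ BS (idx0 p) := Classical.choose_spec (BS_cover p)

/-- The fundamental group of the complement of the long trefoil is not commutative. -/
theorem s0Compl_noncomm : ∃ (x : S0Compl) (α β : FundamentalGroup S0Compl x), α * β ≠ β * α := by
  let α : FundamentalGroup S0Compl PP :=
    (Path.Homotopic.Quotient.mk g1).trans (Path.Homotopic.Quotient.mk g2)
  let β : FundamentalGroup S0Compl PP :=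
    (Path.Homotopic.Quotient.mk g3).trans (Path.Homotopic.Quotient.mk g4)
  refine ⟨PP, α, β, ?_⟩
  intro hcomm
  have hc := Loc_all
  let cov := isCov BS BS_open idx0 idx0_mem cc hc
  let L := lab BS BS_open idx0 idx0_mem cc hc PP
  have hα : ∀ t, cov.monodromyPerm PP α (L t) = L (pa t) := by
    intro t
    show cov.monodromy ((Path.Homotopic.Quotient.mk g1).trans (Path.Homotopic.Quotient.mk g2)) (L t)
      = L (pa t)
    rw [cov.monodromy_trans_apply]
    have h1 := mono_chart BS BS_open idx0 idx0_mem cc hc 1 g1 g1_mem t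
    have h2 := mono_chart BS BS_open idx0 idx0_mem cc hc 0 g2 g2_mem ((cc 1 QQ)⁻¹ (cc 1 PP t))
    have h3 := (congrArg (cov.monodromy (Path.Homotopic.Quotient.mk g2)) h1).trans h2
    refine h3.trans ?_
    refine congrArg L ?_
    have e1 : cc 1 PP = 1 := by
      show gg 0 1 = 1
      unfold gg
      norm_num
    have e2 : cc 1 QQ = pa := by
      show gg 0 (-1) = pa
      unfold gg
      norm_num
    have e3 : cc 0 PP = 1 := rfl
    have e4 : cc 0 QQ = 1 := rfl
    rw [e1, e2, e3, e4]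
    simp
  have hβ : ∀ t, cov.monodromyPerm PP β (L t) = L (pb t) := by
    intro t
    show cov.monodromy ((Path.Homotopic.Quotient.mk g3).trans (Path.Homotopic.Quotient.mk g4)) (L t)
      = L (pb t)
    rw [cov.monodromy_trans_apply]
    have h1 := mono_chart BS BS_open idx0 idx0_mem cc hc 1 g3 g3_mem t
    have h2 := mono_chart BS BS_open idx0 idx0_mem cc hc 0 g4 g4_mem ((cc 1 RR)⁻¹ (cc 1 PP t))
    have h3 := (congrArg (cov.monodromy (Path.Homotopic.Quotient.mk g4)) h1).trans h2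
    refine h3.trans ?_
    refine congrArg L ?_
    have e1 : cc 1 PP = 1 := by
      show gg 0 1 = 1
      unfold gg
      norm_num
    have e2 : cc 1 RR = pb := by
      show gg (3/2) 1 = pb
      unfold gg
      norm_num
    have e3 : cc 0 PP = 1 := rfl
    have e4 : cc 0 RR = 1 := rfl
    rw [e1, e2, e3, e4]
    simp
  have h := congrArg (fun γ => cov.monodromyPerm PP γ (L 0)) hcomm
  simp only [map_mul, Equiv.Perm.mul_apply] at h
  rw [hβ, hα, hα, hβ] at h
  have h' := lab_inj BS BS_open idx0 idx0_mem cc hc PP h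
  revert h'
  decide

end Geo

end Pool.Agent.Helper22.LC
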