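import Pool.Agent.Helper22.LC.Path
import Pool.Agent.Helper22.LC.LineComm
import Pool.Agent.Helper22.LC.Trefoil

set_option autoImplicit false

namespace Pool.Agent.Helper22.LC

open Set Metric Filter Topology

theorem pathMap_injective {X Y : Type*} [TopologicalSpace X] [TopologicalSpace Y]
    (f : X ≃ₜ Y) {x : X} (p q : Path x x)
    (h : (p.map f.continuous).Homotopic (q.map f.continuous)) : p.Homotopic q := by
  have h2 := (h.map ⟨f.symm, f.symm.continuous⟩).pathCast (f.symm_apply_apply x).symm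
    (f.symm_apply_apply x).symm
  convert h2 using 1
  · ext t
    simp
  · ext t
    simp

theorem comm_transfer {X Y : Type*} [TopologicalSpace X] [TopologicalSpace Y] (f : X ≃ₜ Y)
    (hcomm : ∀ (y : Y) (α β : FundamentalGroup Y y), α * β = β * α)
    (x : X) (α β : FundamentalGroup X x) : α * β = β * α := by
  have key := hcomm (f x) (FundamentalGroup.map ⟨f, f.continuous⟩ x α)
    (FundamentalGroup.map ⟨f, f.continuous⟩ x β)
  rw [← map_mul, ← map_mul] at key
  revert key
  generalize α * β = γ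
  generalize β * α = δ
  intro key
  obtain ⟨p, rfl⟩ := Path.Homotopic.Quotient.mk_surjective γ
  obtain ⟨q, rfl⟩ := Path.Homotopic.Quotient.mk_surjective δ
  have h1 : Path.Homotopic.Quotient.mk (p.map f.continuous)
      = Path.Homotopic.Quotient.mk (q.map f.continuous) := key
  exact Path.Homotopic.Quotient.eq.2 (pathMap_injective f p q (Path.Homotopic.Quotient.exact h1))

/-- Coordinates, scaled. -/
noncomputable def coordH (R : ℝ) (hR : 0 < R) : (ℝ × ℝ × ℝ) ≃ₜ E3 where
  toFun p := !₂[R * p.1, R * p.2.1, R * p.2.2]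
  invFun p := (p 0 / R, p 1 / R, p 2 / R)
  left_inv p := by
    ext <;> simp [hR.ne']
  right_inv p := by
    ext i
    fin_cases i <;> simp <;> field_simp
  continuous_toFun := by fun_prop
  continuous_invFun := by fun_prop

/-- If the complement of `S` has a non commutative fundamental group (at some point) and the
complement of the standard line has commutative fundamental groups, then a curve whose range is
the `R`-scaled copy of `S` is not straightened by any homeomorphism of space. -/
theorem knotted_of_noncomm (S : Set (ℝ × ℝ × ℝ))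
    (hcomm : ∀ (x : LineCompl) (α β : FundamentalGroup LineCompl x), α * β = β * α)
    (hnon : ∃ (x : {p : ℝ × ℝ × ℝ // p ∉ S})
      (α β : FundamentalGroup {p : ℝ × ℝ × ℝ // p ∉ S} x), α * β ≠ β * α)
    (K : ℝ → E3) (R : ℝ) (hR : 0 < R)
    (hK : Set.range K = {p : E3 | (p 0 / R, p 1 / R, p 2 / R) ∈ S}) :
    ¬ ∃ Φ : E3 ≃ₜ E3, ∀ x : ℝ, Φ (K x) = x • (EuclideanSpace.single (0 : Fin 3) (1 : ℝ) : E3) := by
  rintro ⟨Φ, hΦ⟩
  obtain ⟨x, α, β, hne⟩ := hnon
  apply hne
  let g : (ℝ × ℝ × ℝ) ≃ₜ (ℝ × ℝ × ℝ) :=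
    ((coordH R hR).trans Φ).trans (coordH 1 one_pos).symm
  have hg : ∀ p : ℝ × ℝ × ℝ, p ∈ S ↔ ((g p).2.1 = 0 ∧ (g p).2.2 = 0) := by
    intro p
    have h1 : p ∈ S ↔ coordH R hR p ∈ Set.range K := by
      rw [hK]
      have : (coordH R hR).symm (coordH R hR p) = p := (coordH R hR).symm_apply_apply p
      change p ∈ S ↔ ((coordH R hR).symm (coordH R hR p)) ∈ S
      rw [this]
    rw [h1]
    have h2 : ∀ z : E3, z ∈ Set.range K ↔ (Φ z 1 = 0 ∧ Φ z 2 = 0) := by
      intro z
      constructor
      · rintro ⟨t, rfl⟩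
        rw [hΦ]
        simp
      · rintro ⟨h3, h4⟩
        refine ⟨Φ z 0, ?_⟩
        apply Φ.injective
        rw [hΦ]
        ext i
        fin_cases i <;> simp [h3, h4]
    rw [h2]
    have h3 : g p = ((Φ (coordH R hR p)) 0 / 1, (Φ (coordH R hR p)) 1 / 1,
      (Φ (coordH R hR p)) 2 / 1) := rfl
    rw [h3]
    simp
  let f : {p : ℝ × ℝ × ℝ // p ∉ S} ≃ₜ LineCompl := g.subtype (fun p => not_congr (hg p))
  exact comm_transfer f hcomm x α β


/-- The scaled trefoil is knotted. -/
theorem not_unknotted_of_range (K : ℝ → E3) (R : ℝ) (hR : 0 < R)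
    (hK : Set.range K = {p : E3 | (p 0 / R, p 1 / R, p 2 / R) ∈ S0}) : ¬ Unknotted K := by
  have := knotted_of_noncomm S0 lineCompl_comm s0Compl_noncomm K R hR hK
  intro h
  exact this h

end Pool.Agent.Helper22.LC
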