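import Pool.Agent.Helper22.LC.Curve

set_option autoImplicit false

namespace Pool.Agent.Helper22.LC

open Set Metric Filter Topology


/-- A sequence of unit vectors none of which is parallel to `f` can be perturbed slightly so that
consecutive vectors make positive angles, keeping strict upper bounds for these angles. -/
theorem zigzag (u : ℕ → E3) (hu : ∀ i, ‖u i‖ = 1) (f : E3) (hf0 : f ≠ 0)
    (hf : ∀ i, ∀ c : ℝ, u i ≠ c • f)
    (n : ℕ) (γ : ℕ → ℝ) (hγ : ∀ i < n, InnerProductGeometry.angle (u i) (u (i + 1)) < γ i)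
    (δ : ℝ) (hδ : 0 < δ) :
    ∃ v : ℕ → E3, (∀ i, ‖v i‖ = 1) ∧ (∀ i ≤ n, ‖v i - u i‖ < δ) ∧
      (∀ i < n, 0 < InnerProductGeometry.angle (v i) (v (i + 1)) ∧
        InnerProductGeometry.angle (v i) (v (i + 1)) < γ i) := by
  let w : ℝ → ℕ → E3 := fun η i => u i + ((-1 : ℝ) ^ i * η) • f
  have hw0 : ∀ η i, w η i ≠ 0 := by
    intro η i h
    apply hf i (-((-1 : ℝ) ^ i * η))
    rw [neg_smul]
    exact eq_neg_of_add_eq_zero_left h
  let v : ℝ → ℕ → E3 := fun η i => ‖w η i‖⁻¹ • w η i
  have hv1 : ∀ η i, ‖v η i‖ = 1 := by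
    intro η i
    change ‖‖w η i‖⁻¹ • w η i‖ = 1
    rw [norm_smul, norm_inv, norm_norm, inv_mul_cancel₀ (norm_ne_zero_iff.2 (hw0 η i))]
  have hw00 : ∀ i, w 0 i = u i := by
    intro i
    change u i + ((-1 : ℝ) ^ i * 0) • f = u i
    rw [mul_zero, zero_smul, add_zero]
  have hv0 : ∀ i, v 0 i = u i := by
    intro i
    change ‖w 0 i‖⁻¹ • w 0 i = u i
    rw [hw00, hu, inv_one, one_smul]
  have hwc : ∀ i, Continuous fun η => w η i := by
    intro i
    change Continuous fun η => u i + ((-1 : ℝ) ^ i * η) • f
    fun_prop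
  have hvc : ∀ i, Continuous fun η => v η i := by
    intro i
    exact ((hwc i).norm.inv₀ (fun η => norm_ne_zero_iff.2 (hw0 η i))).smul (hwc i)
  have hu0 : ∀ i, u i ≠ 0 := by
    intro i h
    have := hu i
    rw [h, norm_zero] at this
    exact one_ne_zero this.symm
  have hang : ∀ i, ContinuousAt (fun η => InnerProductGeometry.angle (v η i) (v η (i + 1))) 0 := by
    intro i
    have h1 : ContinuousAt (fun y : E3 × E3 => InnerProductGeometry.angle y.1 y.2) (v 0 i, v 0 (i + 1)) := by
      apply InnerProductGeometry.continuousAt_angle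
      · change v 0 i ≠ 0
        rw [hv0]; exact hu0 i
      · change v 0 (i + 1) ≠ 0
        rw [hv0]; exact hu0 (i + 1)
    exact ContinuousAt.comp (g := fun y : E3 × E3 => InnerProductGeometry.angle y.1 y.2)
      (f := fun η => (v η i, v η (i + 1))) h1 ((hvc i).prodMk (hvc (i + 1))).continuousAt
  have hlt : ∀ i < n, ∀ᶠ η in 𝓝[>] (0 : ℝ), InnerProductGeometry.angle (v η i) (v η (i + 1)) < γ i := by
    intro i hi
    have h1 := (hang i).tendsto
    rw [hv0, hv0] at h1
    exact (h1.eventually_lt_const (hγ i hi)).filter_mono nhdsWithin_le_nhds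
  have hpos : ∀ i < n, ∀ᶠ η in 𝓝[>] (0 : ℝ), 0 < InnerProductGeometry.angle (v η i) (v η (i + 1)) := by
    intro i hi
    by_cases he : u i = u (i + 1)
    · filter_upwards [self_mem_nhdsWithin] with η hη
      have hη' : (0 : ℝ) < η := hη
      rcases (InnerProductGeometry.angle_nonneg (v η i) (v η (i + 1))).lt_or_eq with h | h
      · exact h
      · exfalso
        have h2 : InnerProductGeometry.angle (w η i) (w η (i + 1)) = 0 := by
          have h3 : InnerProductGeometry.angle (v η i) (v η (i + 1)) =
              InnerProductGeometry.angle (w η i) (w η (i + 1)) := by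
            change InnerProductGeometry.angle (‖w η i‖⁻¹ • w η i) (‖w η (i + 1)‖⁻¹ • w η (i + 1)) = _
            rw [InnerProductGeometry.angle_smul_left_of_pos _ _
              (inv_pos.2 (norm_pos_iff.2 (hw0 η i))),
              InnerProductGeometry.angle_smul_right_of_pos _ _
              (inv_pos.2 (norm_pos_iff.2 (hw0 η (i + 1))))]
          rw [← h3, ← h]
        obtain ⟨-, r, hr, h4⟩ := InnerProductGeometry.angle_eq_zero_iff.1 h2
        have h5 : u i + ((-1 : ℝ) ^ (i + 1) * η) • f = r • (u i + ((-1 : ℝ) ^ i * η) • f) := by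
          have : w η (i + 1) = u i + ((-1 : ℝ) ^ (i + 1) * η) • f := by
            change u (i + 1) + _ = _
            rw [he]
          rw [← this]
          exact h4
        set a : ℝ := (-1 : ℝ) ^ i * η with ha
        have ha0 : a ≠ 0 := mul_ne_zero (pow_ne_zero _ (by norm_num)) hη'.ne'
        have h6 : ((-1 : ℝ) ^ (i + 1) * η) = -a := by
          rw [ha, pow_succ]; ring
        rw [h6] at h5
        have h7 : (1 - r) • u i = (a * (1 + r)) • f := by
          have h8 : u i + (-a) • f - r • u i - (r * a) • f = 0 := by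
            rw [h5, smul_add, smul_smul]
            abel
          have h9 : (1 - r) • u i - (a * (1 + r)) • f = 0 := by
            rw [← h8]
            module
          exact sub_eq_zero.1 h9
        by_cases hr1 : r = 1
        · rw [hr1, sub_self, zero_smul] at h7
          have h8 : a * (1 + 1) ≠ 0 := mul_ne_zero ha0 (by norm_num)
          exact (smul_ne_zero h8 hf0) h7.symm
        · have h8 : (1 - r) ≠ 0 := sub_ne_zero.2 (Ne.symm hr1)
          apply hf i ((1 - r)⁻¹ * (a * (1 + r)))
          rw [mul_smul, ← h7, smul_smul, inv_mul_cancel₀ h8, one_smul]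
    · have h1 := (hang i).tendsto
      rw [hv0, hv0] at h1
      have h2 : 0 < InnerProductGeometry.angle (u i) (u (i + 1)) := by
        rcases (InnerProductGeometry.angle_nonneg (u i) (u (i + 1))).lt_or_eq with h | h
        · exact h
        · exfalso
          obtain ⟨-, r, hr, h4⟩ := InnerProductGeometry.angle_eq_zero_iff.1 h.symm
          have h5 := congrArg norm h4
          rw [norm_smul, hu, hu, mul_one, Real.norm_eq_abs, abs_of_pos hr] at h5
          rw [← h5, one_smul] at h4
          exact he h4.symm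
      exact (h1.eventually_const_lt h2).filter_mono nhdsWithin_le_nhds
  have hclose : ∀ i, ∀ᶠ η in 𝓝[>] (0 : ℝ), ‖v η i - u i‖ < δ := by
    intro i
    have h1 : Tendsto (fun η => ‖v η i - u i‖) (𝓝 0) (𝓝 0) := by
      have h2 : Continuous fun η => ‖v η i - u i‖ := ((hvc i).sub continuous_const).norm
      have h3 := h2.tendsto 0
      rwa [hv0, sub_self, norm_zero] at h3
    exact (h1.eventually_lt_const hδ).filter_mono nhdsWithin_le_nhds
  have hall : ∀ᶠ η in 𝓝[>] (0 : ℝ), ∀ i ∈ Finset.range (n + 1), ‖v η i - u i‖ < δ ∧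
      (i < n → 0 < InnerProductGeometry.angle (v η i) (v η (i + 1)) ∧
        InnerProductGeometry.angle (v η i) (v η (i + 1)) < γ i) := by
    rw [Filter.eventually_all_finset]
    intro i _
    by_cases hi : i < n
    · filter_upwards [hclose i, hpos i hi, hlt i hi] with η h1 h2 h3
      exact ⟨h1, fun _ => ⟨h2, h3⟩⟩
    · filter_upwards [hclose i] with η h1
      exact ⟨h1, fun h => absurd h hi⟩
  obtain ⟨η, hη⟩ := hall.exists
  refine ⟨v η, hv1 η, ?_, ?_⟩
  · intro i hi
    exact (hη i (Finset.mem_range.2 (by omega))).1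
  · intro i hi
    exact (hη i (Finset.mem_range.2 (by omega))).2 hi


end Pool.Agent.Helper22.LC
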