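import Pool.Agent.Helper22.LC.Model
import Pool.Agent.Helper22.LC.Knot
import Pool.Agent.Helper22.LC.Pert

set_option autoImplicit false

namespace Pool.Agent.Helper22.LC

open Set Metric Filter Topology

/-- the curve of a sequence of points in a level set stays in the level set -/
theorem curve_ext_level (n : ℕ) (q : ℕ → E3) (ν : E3) (d : ℝ) (h : ∀ i ≤ n, inner ℝ (q i) ν = d)
    (x : ℝ) (hx : x ∈ Icc (0 : ℝ) n) : inner ℝ (curve (ext q) x) ν = d := by
  rcases hx.2.lt_or_eq with h1 | h1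
  · have h2 : ⌊x⌋₊ < n := (Nat.floor_lt hx.1).2 h1
    rw [curve_ext q ⌊x⌋₊ x (Nat.floor_le hx.1) (Nat.lt_floor_add_one x).le, inner_add_left,
      inner_smul_left, inner_sub_left, h _ h2.le, h _ h2, sub_self, mul_zero, add_zero]
  · rw [h1, curve_ext q n n le_rfl (by linarith)]
    simpa using h n le_rfl

theorem config_of_steps (n : ℕ) (ℓ : ℕ → ℝ) (hℓ : ∀ i, 0 < ℓ i) (v q : ℕ → E3)
    (hv : ∀ i, ‖v i‖ = 1) (hstep : ∀ i < n, q (i + 1) - q i = ℓ i • v i)
    (hinj : Set.InjOn (curve (ext q)) (Set.Icc 0 (n : ℝ))) :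
    Config n ℓ (fun i => InnerProductGeometry.angle (v (i - 1)) (v i)) q := by
  refine ⟨?_, ?_, simple_of_injOn n _ hinj⟩
  · intro i hi
    rw [hstep i hi, norm_smul, hv, mul_one, Real.norm_of_nonneg (hℓ i).le]
  · intro i hi hin
    obtain ⟨j, rfl⟩ : ∃ j, i = j + 1 := ⟨i - 1, by omega⟩
    simp only [Nat.add_sub_cancel]
    rw [hstep j (by omega), hstep (j + 1) hin,
      InnerProductGeometry.angle_smul_left_of_pos _ _ (hℓ j),
      InnerProductGeometry.angle_smul_right_of_pos _ _ (hℓ (j + 1))]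

section base

variable (R k M N : ℕ) (s : ℝ)

theorem q0_step (i : ℕ) : q0 R k M N s (i + 1) - q0 R k M N s i = len M N s i • bdir R k N i := by
  simp only [q0]
  rw [chainOf_step]

/-- lower bound for the base curve -/
theorem q0_lower (hk : 1 ≤ k) (hR : 2 * k < R) (hM : M = 24 * R) (hs : 1 ≤ s)
    (hinj : Function.Injective (curve (p0 R k))) :
    ∃ c > 0, ∀ x y : ℝ, -(N : ℝ) ≤ x → -(N : ℝ) ≤ y →
      c * |x - y| ≤ ‖chainCurve N (q0 R k M N s) x - chainCurve N (q0 R k M N s) y‖ := by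
  have h1 : (0 : ℝ) < inner ℝ e0 e0 := by
    rw [real_inner_self_eq_norm_sq, norm_e0]; norm_num
  have hR0 : (0 : ℝ) ≤ R := Nat.cast_nonneg R
  obtain ⟨c, hc, hlow⟩ := pl_lower_bound _ hinj (curve_rightPL _) (curve_leftPL _) (24 * R) e0 e0 e0
    h1 h1 (by
      intro x hx
      rw [curve_p0_left R k (by omega) x (by linarith),
        curve_p0_left R k (by omega) _ (by linarith)]
      module) (fun x hx => curve_p0_right R k hk hR x hx)
  refine ⟨c, hc, fun x y hx hy => ?_⟩
  rw [chainCurve_q0 R k M N s hk hR hM (by linarith) x hx,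
    chainCurve_q0 R k M N s hk hR hM (by linarith) y hy]
  exact (mul_le_mul_of_nonneg_left (psi_expand' s M x y hs (Nat.cast_nonneg M)) hc.le).trans
    (hlow _ _)

theorem injOn_of_lower (n : ℕ) (hn : n = 2 * N + M) (q : ℕ → E3) (c : ℝ) (hc : 0 < c)
    (h : ∀ x ∈ Icc (-(N : ℝ)) (M + N), ∀ y ∈ Icc (-(N : ℝ)) (M + N),
      c * |x - y| ≤ ‖chainCurve N q x - chainCurve N q y‖) :
    Set.InjOn (curve (ext q)) (Set.Icc 0 (n : ℝ)) := by
  intro x hx y hy hxy
  have hx' : x - N ∈ Icc (-(N : ℝ)) (M + N) := by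
    rw [hn] at hx; push_cast at hx
    constructor <;> linarith [hx.1, hx.2]
  have hy' : y - N ∈ Icc (-(N : ℝ)) (M + N) := by
    rw [hn] at hy; push_cast at hy
    constructor <;> linarith [hy.1, hy.2]
  have h1 := h _ hx' _ hy'
  simp only [chainCurve] at h1
  rw [show (N : ℝ) + (x - N) = x by ring, show (N : ℝ) + (y - N) = y by ring, hxy, sub_self,
    norm_zero] at h1
  have h2 : |x - N - (y - N)| ≤ 0 := by
    by_contra h3
    push Not at h3
    nlinarith
  have h3 := abs_nonpos_iff.1 h2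
  linarith

theorem bdir_eq_of_lt (hR : 1 ≤ R) (i : ℕ) (hi : i < N) : bdir R k N i = e0 :=
  rdir_neg R k hR _ (by omega)

theorem bdir_eq_of_ge (hR : 1 ≤ R) (hM : M = 24 * R) (i : ℕ) (hi : N + M ≤ i) :
    bdir R k N i = e0 :=
  rdir_large R k hR _ (by push_cast [hM] at hi ⊢; omega)

/-- the base configuration is a configuration -/
theorem q0_config (hk : 1 ≤ k) (hR : 2 * k < R) (hM : M = 24 * R) (hs : 1 ≤ s)
    (hinj : Function.Injective (curve (p0 R k))) :
    Config (2 * N + M) (len M N s)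
      (fun i => InnerProductGeometry.angle (bdir R k N (i - 1)) (bdir R k N i)) (q0 R k M N s) := by
  obtain ⟨c, hc, hlow⟩ := q0_lower R k M N s hk hR hM hs hinj
  refine config_of_steps _ _ (len_pos M N s hs) _ _ (fun i => norm_rdir R k _)
    (fun i _ => q0_step R k M N s i) ?_
  exact injOn_of_lower M N (2 * N + M) rfl _ c hc (fun x hx y hy => hlow x y hx.1 hy.1)

theorem q0_smallTurn (hR : 1 ≤ R) (hM : M = 24 * R) (β : ℝ) (hβ : 0 ≤ β) :
    SmallTurn M N β (fun i => InnerProductGeometry.angle (bdir R k N (i - 1)) (bdir R k N i)) := by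
  have h0 : e0 ≠ 0 := norm_ne_zero_iff.1 (by rw [norm_e0]; norm_num)
  refine ⟨?_, ?_⟩
  · rw [Finset.sum_eq_zero]
    · exact hβ
    · intro i hi
      rw [Finset.mem_Ico] at hi
      rw [bdir_eq_of_lt R k N hR (i - 1) (by omega), bdir_eq_of_lt R k N hR i (by omega),
        InnerProductGeometry.angle_self h0]
  · rw [Finset.sum_eq_zero]
    · exact hβ
    · intro i hi
      rw [Finset.mem_Ico] at hi
      rw [bdir_eq_of_ge R k M N hR hM (i - 1) (by omega), bdir_eq_of_ge R k M N hR hM i (by omega),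
        InnerProductGeometry.angle_self h0]

/-- the capped base curve is knotted -/
theorem q0_knotted (hk : 1 ≤ k) (hR : 2 * k < R) (hR24 : 24 * k ≤ R) (hM : M = 24 * R)
    (hN : N = 8 * M) (hs : 1 ≤ s) (hs2 : s ≤ 2)
    (hinj : ∀ σ ∈ Icc (0 : ℝ) 1, Function.Injective
      (fun x => σ • curve (p0 R k) x + (1 - σ) • curve (W R) x))
    (β : ℝ) (hβ : 0 ≤ β) (hβ2 : β ≤ 1 / 16) (x₁ x₂ : ℝ)
    (h1 : IsExitL (chainCurve N (q0 R k M N s)) N (4 * M) x₁)
    (h2 : IsExitR (chainCurve N (q0 R k M N s)) M N (4 * M) x₂) :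
    ¬ Unknotted (capped (chainCurve N (q0 R k M N s)) M (4 * M) x₁ x₂) := by
  have hinj1 : Function.Injective (curve (p0 R k)) := by
    have := hinj 1 ⟨zero_le_one, le_rfl⟩
    simpa using this
  have hR1 : 1 ≤ R := by omega
  have hRpos : (0 : ℝ) < R := by exact_mod_cast hR1
  have hM1 : 1 ≤ M := by omega
  have hm : (1 : ℝ) ≤ M := by exact_mod_cast hM1
  have hh : (N : ℝ) = 8 * M := by rw [hN]; push_cast; ring
  have hMR : (M : ℝ) = 24 * R := by rw [hM]; push_cast; ring
  have hneedle := needleCurve_of_config hM1 hN hs (len M N s) _ (q0 R k M N s)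
    (q0_config R k M N s hk hR hM hs hinj1) (len_lengths M N s)
    (fun i _ _ => InnerProductGeometry.angle_nonneg _ _) (q0_smallTurn R k M N hR1 hM β hβ)
  have hx2 := (LocEq.x2_ge hm hh hs hs2 hβ hβ2 rfl hneedle h2).1
  have hx2s : (M : ℝ) < x₂ * s := by
    have h3 : 0 < x₂ * s := mul_pos h2.pos (by linarith)
    nlinarith
  obtain ⟨K₁, hE, hrange⟩ := capped_equiv_model (g₀ := curve (p0 R k)) (g₁ := curve (W R))
    hm hh hs hs2 hβ hβ2 rfl hneedle h1 h2 hx2s
    ⟨curve_rightPL _, curve_leftPL _⟩ ⟨curve_rightPL _, curve_leftPL _⟩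
    (curve_p0_lipschitz R k hk hR) (curve_W_lipschitz R hR1)
    (curve_p0_left R k hR1) (curve_W_left R hR1)
    (fun y hy => by rw [hMR]; exact curve_p0_right R k hk hR y (by rw [← hMR]; exact hy))
    (fun y hy => by rw [hMR]; exact curve_W_right' R hR1 y (by rw [← hMR]; exact hy))
    (by rw [hMR]; exact p0_end_coord R k hk hR24)
    (by rw [hMR, W_end_coord R hR1]; positivity)
    hinj
    (fun x hx => chainCurve_q0 R k M N s hk hR hM (by linarith) x hx.1)
    (capped_pl_injective hneedle hm hh hs hs2 hβ hβ2 rfl h1 h2)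
    ambEquiv_of_segment
    (fun K hK hr hl R d₁ d₂ u a1 a2 a3 a4 => pl_lower_bound K hK hr hl R d₁ d₂ u a1 a2 a3 a4)
  intro hU
  exact not_unknotted_of_range K₁ R hRpos (hrange.trans (range_curve_W R hR1)) (hE.symm.trans hU)

end base

theorem not_parallel (R k : ℕ) (i : ℤ) (c : ℝ) : rdir R k i ≠ c • pt 1 1 1 := by
  intro h
  obtain ⟨j, hj⟩ := rdir_coord R k i
  have h1 : c = 0 := by
    rw [h] at hj
    have : (c • pt 1 1 1) j = c := by
      rw [PiLp.smul_apply, smul_eq_mul]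
      fin_cases j <;> simp [pt]
    rw [this] at hj; exact hj
  have h2 := norm_rdir R k i
  rw [h, h1, zero_smul, norm_zero] at h2
  norm_num at h2

theorem pt_one_ne : pt 1 1 1 ≠ 0 := by
  intro h
  have := congrFun (congrArg (fun p : E3 => (p : Fin 3 → ℝ)) h) 0
  simp [pt] at this

/-- truncation of a sequence -/
def trunc (n : ℕ) (q : ℕ → E3) (i : ℕ) : E3 := q (min i n)

theorem trunc_of_le {n : ℕ} {q : ℕ → E3} {i : ℕ} (h : i ≤ n) : trunc n q i = q i := by
  simp [trunc, min_eq_left h]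

/-- a small unit angle -/
theorem exists_unitAngle (α : ℝ) (hα : 0 < α) : ∃ k : ℕ, 1 ≤ k ∧ unitAngle k < α := by
  obtain ⟨k, hk⟩ := exists_nat_gt (Real.pi / α)
  refine ⟨k + 1, by omega, ?_⟩
  have hpi := Real.pi_pos
  unfold unitAngle
  rw [div_div, div_lt_iff₀ (by positivity)]
  rw [div_lt_iff₀ hα] at hk
  push_cast
  nlinarith [mul_nonneg hα.le (Nat.cast_nonneg k : (0 : ℝ) ≤ k)]

/-- the main theorem, with vertices indexed by natural numbers -/
theorem main_nat (α : ℝ) (hα : 0 < α) : ∃ M N : ℕ, 1 ≤ M ∧ N = 8 * M ∧ ∀ s : ℝ, 1 ≤ s → s ≤ 2 →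
    ∃ (θ : ℕ → ℝ) (q : ℕ → E3), (∀ i, 1 ≤ i → i < 2 * N + M → 0 < θ i ∧ θ i ≤ α) ∧
      (∀ i, q (min i (2 * N + M)) = q i) ∧
      Config (2 * N + M) (len M N s) θ q ∧
      ∀ Q : ℝ → ℕ → E3, (∀ t ∈ Icc (0 : ℝ) 1, Config (2 * N + M) (len M N s) θ (Q t)) →
        (∀ i ≤ 2 * N + M, ContinuousOn (fun t => Q t i) (Icc 0 1)) → Q 0 = q →
        ¬ ∃ S : AffineSubspace ℝ E3, Module.finrank ℝ S.direction = 2 ∧
          ∀ i ≤ 2 * N + M, Q 1 i ∈ S := by
  obtain ⟨β₀, hβ0, hβ2, hmotion⟩ := capped_motion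
  obtain ⟨κ, hκ, hκ'⟩ := exists_homeo_of_small
  obtain ⟨C, hC24, hC⟩ := exists_scale
  obtain ⟨k, hk, hkα⟩ := exists_unitAngle α hα
  obtain ⟨R, hRdef⟩ : ∃ R, R = C * k := ⟨_, rfl⟩
  obtain ⟨M, hM⟩ : ∃ M, M = 24 * R := ⟨_, rfl⟩
  obtain ⟨N, hN⟩ : ∃ N, N = 8 * M := ⟨_, rfl⟩
  have hR24 : 24 * k ≤ R := by rw [hRdef]; exact Nat.mul_le_mul_right k hC24
  have hR : 2 * k < R := by omega
  have hR1 : 1 ≤ R := by omega
  have hM1 : 1 ≤ M := by omega
  have hinj := hC k hk R hRdef.ge
  have hinj1 : Function.Injective (curve (p0 R k)) := by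
    have := hinj 1 ⟨zero_le_one, le_rfl⟩
    simpa using this
  refine ⟨M, N, hM1, hN, ?_⟩
  intro s hs hs2
  have hm : (1 : ℝ) ≤ M := by exact_mod_cast hM1
  have hh : (N : ℝ) = 8 * M := by rw [hN]; push_cast; ring
  obtain ⟨n, hn⟩ : ∃ n, n = 2 * N + M := ⟨_, rfl⟩
  have hn1 : 1 ≤ n := by omega
  have hnpos : (0 : ℝ) < n := by exact_mod_cast hn1
  -- the deviation allowed
  set β := min β₀ (κ / 16) with hβdef
  have hβpos : 0 < β := lt_min hβ0 (by positivity)
  have hββ0 : β ≤ β₀ := min_le_left _ _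
  have hβκ : β ≤ κ / 16 := min_le_right _ _
  have hβ16 : β ≤ 1 / 16 := hββ0.trans hβ2
  -- base curve
  have hneedle0 := needleCurve_of_config hM1 hN hs (len M N s) _ (q0 R k M N s)
    (q0_config R k M N s hk hR hM hs hinj1) (len_lengths M N s)
    (fun i _ _ => InnerProductGeometry.angle_nonneg _ _) (q0_smallTurn R k M N hR1 hM β hβpos.le)
  obtain ⟨x₁, hx₁⟩ := exit_left hneedle0 hm hh hs hs2 hβpos.le hβ16 rfl
  obtain ⟨x₂, hx₂⟩ := exit_right hneedle0 hm hh hs hs2 hβpos.le hβ16 rfl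
  have hknot := q0_knotted R k M N s hk hR hR24 hM hN hs hs2 hinj β hβpos.le hβ16 x₁ x₂ hx₁ hx₂
  obtain ⟨c, hc, hlow⟩ := q0_lower R k M N s hk hR hM hs hinj1
  -- perturbed directions
  set γ : ℕ → ℝ := fun i => if i + 1 < N ∨ N + M ≤ i then min α (β / n) else α with hγ
  have hγα : ∀ i, γ i ≤ α := by
    intro i
    simp only [hγ]
    split_ifs
    · exact min_le_left _ _
    · exact le_rfl
  have hγbase : ∀ i < n, InnerProductGeometry.angle (bdir R k N i) (bdir R k N (i + 1)) < γ i := by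
    intro i _
    have h0 : e0 ≠ 0 := norm_ne_zero_iff.1 (by rw [norm_e0]; norm_num)
    simp only [hγ]
    split_ifs with g
    · have hb : bdir R k N i = e0 ∧ bdir R k N (i + 1) = e0 := by
        rcases g with g | g
        · exact ⟨bdir_eq_of_lt R k N hR1 _ (by omega), bdir_eq_of_lt R k N hR1 _ (by omega)⟩
        · exact ⟨bdir_eq_of_ge R k M N hR1 hM _ g, bdir_eq_of_ge R k M N hR1 hM _ (by omega)⟩
      rw [hb.1, hb.2, InnerProductGeometry.angle_self h0]
      exact lt_min hα (by positivity)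
    · have h1 := angle_rdir R k hk hR ((i : ℤ) - N)
      have h2 : ((i : ℤ) - N + 1) = (((i + 1 : ℕ) : ℤ) - N) := by push_cast; ring
      rw [h2] at h1
      exact lt_of_le_of_lt h1 hkα
  have hz := fun j : ℕ => zigzag (bdir R k N) (fun i => norm_rdir R k _) (pt 1 1 1) pt_one_ne
    (fun i c => not_parallel R k _ c) n γ hγbase (1 / ((j : ℝ) + 1)) (by positivity)
  choose v hv1 hv2 hv3 using hz
  set qv : ℕ → ℕ → E3 := fun j => trunc n (chainOf (q0 R k M N s 0) (len M N s) (v j)) with hqv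
  have hstep : ∀ j, ∀ i < n, qv j (i + 1) - qv j i = len M N s i • v j i := by
    intro j i hi
    simp only [hqv]
    rw [trunc_of_le (by omega), trunc_of_le (by omega), chainOf_step]
  have hlen2 : ∀ i, len M N s i ≤ 2 := by
    intro i
    unfold len
    split_ifs <;> linarith
  have hclose : ∀ δ > 0, ∀ᶠ j in atTop, ∀ x ∈ Icc (-(N : ℝ)) (M + N), ∀ y ∈ Icc (-(N : ℝ)) (M + N),
      ‖(chainCurve N (qv j) x - chainCurve N (q0 R k M N s) x) -
        (chainCurve N (qv j) y - chainCurve N (q0 R k M N s) y)‖ ≤ δ * |x - y| := by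
    intro δ hδ
    have h1 : ∀ᶠ j : ℕ in atTop, 1 / ((j : ℝ) + 1) < δ / 2 :=
      tendsto_one_div_add_atTop_nhds_zero_nat.eventually_lt_const (by positivity)
    filter_upwards [h1] with j hj x hx y hy
    refine chainCurve_close M N hM1 (qv j) (q0 R k M N s) δ hδ.le ?_ x y hx hy
    intro i hi
    rw [← hn] at hi
    have e1 : (qv j (i + 1) - q0 R k M N s (i + 1)) - (qv j i - q0 R k M N s i) =
        len M N s i • (v j i - bdir R k N i) := by
      have a1 := hstep j i hi
      have a2 := q0_step R k M N s i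
      rw [smul_sub, ← a1, ← a2]; abel
    rw [e1, norm_smul, Real.norm_of_nonneg (len_pos M N s hs i).le]
    calc len M N s i * ‖v j i - bdir R k N i‖ ≤ 2 * (δ / 2) :=
          mul_le_mul (hlen2 i) ((hv2 j i hi.le).le.trans hj.le) (norm_nonneg _) (by norm_num)
      _ = δ := by ring
  -- eventually the perturbed chain is a configuration
  have hconf : ∀ᶠ j in atTop, Config n (len M N s)
      (fun i => InnerProductGeometry.angle (v j (i - 1)) (v j i)) (qv j) := by
    filter_upwards [hclose (c / 2) (by positivity)] with j hj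
    refine config_of_steps n (len M N s) (len_pos M N s hs) (v j) (qv j) (hv1 j) (hstep j) ?_
    refine injOn_of_lower M N n hn (qv j) (c / 2) (by positivity) ?_
    intro x hx y hy
    have a1 := hlow x y hx.1 hy.1
    have a2 := hj x hx y hy
    have a3 : ‖chainCurve N (q0 R k M N s) x - chainCurve N (q0 R k M N s) y‖ ≤
        ‖chainCurve N (qv j) x - chainCurve N (qv j) y‖ +
        ‖(chainCurve N (qv j) x - chainCurve N (q0 R k M N s) x) -
        (chainCurve N (qv j) y - chainCurve N (q0 R k M N s) y)‖ := by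
      have : chainCurve N (q0 R k M N s) x - chainCurve N (q0 R k M N s) y =
          (chainCurve N (qv j) x - chainCurve N (qv j) y) -
          ((chainCurve N (qv j) x - chainCurve N (q0 R k M N s) x) -
          (chainCurve N (qv j) y - chainCurve N (q0 R k M N s) y)) := by abel
      rw [this]; exact norm_sub_le _ _
    linarith
  have hturn : ∀ j, SmallTurn M N β (fun i => InnerProductGeometry.angle (v j (i - 1)) (v j i)) := by
    intro j
    have hbd : ∀ i, 1 ≤ i → i < n → (i < N ∨ N + M + 1 ≤ i) →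
        InnerProductGeometry.angle (v j (i - 1)) (v j i) ≤ β / n := by
      intro i h1 h2 h3
      have := (hv3 j (i - 1) (by omega)).2
      have e : i - 1 + 1 = i := by omega
      rw [e] at this
      have g : i - 1 + 1 < N ∨ N + M ≤ i - 1 := by omega
      simp only [hγ] at this
      rw [if_pos g] at this
      exact this.le.trans (min_le_right _ _)
    refine ⟨?_, ?_⟩
    · calc ∑ i ∈ Finset.Ico 1 N, InnerProductGeometry.angle (v j (i - 1)) (v j i)
          ≤ ∑ i ∈ Finset.Ico 1 N, β / n := by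
            refine Finset.sum_le_sum fun i hi => ?_
            rw [Finset.mem_Ico] at hi
            exact hbd i (by omega) (by omega) (Or.inl hi.2)
        _ = ((N - 1 : ℕ) : ℝ) * (β / n) := by rw [Finset.sum_const, Nat.card_Ico, nsmul_eq_mul]
        _ ≤ (n : ℝ) * (β / n) := by
            refine mul_le_mul_of_nonneg_right ?_ (by positivity)
            exact_mod_cast (by omega : N - 1 ≤ n)
        _ = β := by field_simp
    · calc ∑ i ∈ Finset.Ico (N + M + 1) (2 * N + M), InnerProductGeometry.angle (v j (i - 1)) (v j i)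
          ≤ ∑ i ∈ Finset.Ico (N + M + 1) (2 * N + M), β / n := by
            refine Finset.sum_le_sum fun i hi => ?_
            rw [Finset.mem_Ico] at hi
            exact hbd i (by omega) (by omega) (Or.inr hi.1)
        _ = ((2 * N + M - (N + M + 1) : ℕ) : ℝ) * (β / n) := by
            rw [Finset.sum_const, Nat.card_Ico, nsmul_eq_mul]
        _ ≤ (n : ℝ) * (β / n) := by
            refine mul_le_mul_of_nonneg_right ?_ (by positivity)
            exact_mod_cast (by omega : 2 * N + M - (N + M + 1) ≤ n)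
        _ = β := by field_simp
  have hneedle : ∀ᶠ j in atTop, NeedleCurve M N s β (chainCurve N (qv j))
      (s⁻¹ • (qv j (N - 1) - qv j N)) (s⁻¹ • (qv j (N + M + 1) - qv j (N + M))) := by
    filter_upwards [hconf] with j hj
    rw [hn] at hj
    exact needleCurve_of_config hM1 hN hs (len M N s) _ (qv j) hj (len_lengths M N s)
      (fun i _ _ => InnerProductGeometry.angle_nonneg _ _) (hturn j)
  have hex1 : ∀ j, ∃ x, NeedleCurve M N s β (chainCurve N (qv j))
      (s⁻¹ • (qv j (N - 1) - qv j N)) (s⁻¹ • (qv j (N + M + 1) - qv j (N + M))) →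
      IsExitL (chainCurve N (qv j)) N (4 * M) x := by
    intro j
    by_cases h : NeedleCurve M N s β (chainCurve N (qv j))
      (s⁻¹ • (qv j (N - 1) - qv j N)) (s⁻¹ • (qv j (N + M + 1) - qv j (N + M)))
    · obtain ⟨x, hx⟩ := exit_left h hm hh hs hs2 hβpos.le hβ16 rfl
      exact ⟨x, fun _ => hx⟩
    · exact ⟨0, fun h' => absurd h' h⟩
  have hex2 : ∀ j, ∃ x, NeedleCurve M N s β (chainCurve N (qv j))
      (s⁻¹ • (qv j (N - 1) - qv j N)) (s⁻¹ • (qv j (N + M + 1) - qv j (N + M))) →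
      IsExitR (chainCurve N (qv j)) M N (4 * M) x := by
    intro j
    by_cases h : NeedleCurve M N s β (chainCurve N (qv j))
      (s⁻¹ • (qv j (N - 1) - qv j N)) (s⁻¹ • (qv j (N + M + 1) - qv j (N + M)))
    · obtain ⟨x, hx⟩ := exit_right h hm hh hs hs2 hβpos.le hβ16 rfl
      exact ⟨x, fun _ => hx⟩
    · exact ⟨0, fun h' => absurd h' h⟩
  choose z₁ hz₁ using hex1
  choose z₂ hz₂ using hex2
  obtain ⟨-, -, -, -, hne0, hT0⟩ :=
    capped_pl_injective hneedle0 hm hh hs hs2 hβpos.le hβ16 rfl hx₁ hx₂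
  have hamb := local_equiv hm hh hs hs2 hβpos.le hβ16 hβκ rfl hκ (fun K K' h => hκ' K K' h)
    hneedle0 hx₁ hx₂ (capped_lower hneedle0 hm hh hs hs2 hβpos.le hβ16 rfl hx₁ hx₂) hne0 hT0
    atTop (fun j => chainCurve N (qv j)) _ _ z₁ z₂ hneedle
    (hneedle.mono fun j hj => hz₁ j hj) (hneedle.mono fun j hj => hz₂ j hj) hclose
  obtain ⟨j, hcj, hnj, haj⟩ := (hconf.and (hneedle.and hamb)).exists
  have hknotj : ¬ Unknotted (capped (chainCurve N (qv j)) M (4 * M) (z₁ j) (z₂ j)) := by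
    intro hU
    exact hknot (haj.trans hU)
  refine ⟨fun i => InnerProductGeometry.angle (v j (i - 1)) (v j i), qv j, ?_, ?_, ?_, ?_⟩
  · intro i h1 h2
    have := hv3 j (i - 1) (by omega)
    have e : i - 1 + 1 = i := by omega
    rw [e] at this
    exact ⟨this.1, this.2.le.trans (hγα _)⟩
  · intro i
    simp only [hqv, trunc, ← hn]
    congr 1
    omega
  · rw [← hn]; exact hcj
  · intro Q hQ hQc hQ0 hflat
    obtain ⟨S, hS, hSq⟩ := hflat
    have hθ0 : ∀ i, 1 ≤ i → i < 2 * N + M →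
        0 ≤ InnerProductGeometry.angle (v j (i - 1)) (v j i) :=
      fun i _ _ => InnerProductGeometry.angle_nonneg _ _
    have hneedle1 := needleCurve_of_config hM1 hN hs (len M N s) _ (Q 1)
      (hQ 1 ⟨zero_le_one, le_rfl⟩) (len_lengths M N s) hθ0 (hturn j)
    obtain ⟨y₁, hy₁⟩ := exit_left hneedle1 hm hh hs hs2 hβpos.le hβ16 rfl
    obtain ⟨y₂, hy₂⟩ := exit_right hneedle1 hm hh hs hs2 hβpos.le hβ16 rfl
    have hturn0 : SmallTurn M N β₀
        (fun i => InnerProductGeometry.angle (v j (i - 1)) (v j i)) :=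
      ⟨(hturn j).left.trans hββ0, (hturn j).right.trans hββ0⟩
    have hz1 : IsExitL (chainCurve N (Q 0)) N (4 * M) (z₁ j) := by rw [hQ0]; exact hz₁ j hnj
    have hz2 : IsExitR (chainCurve N (Q 0)) M N (4 * M) (z₂ j) := by rw [hQ0]; exact hz₂ j hnj
    have hE := hmotion M N s (len M N s) _ Q (z₁ j) (z₂ j) y₁ y₂ hM1 hN hs hs2
      (len_lengths M N s) hθ0 hturn0 hQ hQc hz1 hz2 hy₁ hy₂
    rw [hQ0] at hE
    obtain ⟨ν, hν, d, hd⟩ := exists_normal (2 * N + M) (Q 1) S hS hSq
    have hflat1 := capped_flat hneedle1 hm hh hs hs2 hβpos.le hβ16 rfl hy₁ hy₂ ν hν d (by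
      intro x hx
      refine curve_ext_level (2 * N + M) (Q 1) ν d hd _ ?_
      push_cast
      constructor <;> linarith [hx.1, hx.2])
    exact hknotj (hE.trans hflat1)

end Pool.Agent.Helper22.LC
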