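import Pool.Agent.Helper22.LC.LocalEquiv
import Pool.Agent.Helper22.LC.Chain

set_option autoImplicit false

namespace Pool.Agent.Helper22.LC

open Set Metric Filter Topology

theorem IsExitL.unique {P : ℝ → E3} {h r x y : ℝ} (hx : IsExitL P h r x) (hy : IsExitL P h r y) :
    x = y := by
  rcases lt_trichotomy x y with h1 | h1 | h1
  · have := hx.outside y h1 hy.lt.le
    rw [hy.eq] at this
    exact absurd this (lt_irrefl _)
  · exact h1
  · have := hy.outside x h1 hx.lt.le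
    rw [hx.eq] at this
    exact absurd this (lt_irrefl _)

theorem IsExitR.unique {P : ℝ → E3} {m h r x y : ℝ} (hx : IsExitR P m h r x)
    (hy : IsExitR P m h r y) : x = y := by
  rcases lt_trichotomy x y with h1 | h1 | h1
  · have := hx.outside y h1 hy.lt.le
    rw [hy.eq] at this
    exact absurd this (lt_irrefl _)
  · exact h1
  · have := hy.outside x h1 hx.lt.le
    rw [hx.eq] at this
    exact absurd this (lt_irrefl _)

/-- the capped curve is bi-Lipschitz from below -/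
theorem capped_lower {m h s β r x₁ x₂ : ℝ} {P : ℝ → E3} {a b : E3}
    (hP : NeedleCurve m h s β P a b)
    (hm : 1 ≤ m) (hh : h = 8 * m) (hs : 1 ≤ s) (hs2 : s ≤ 2) (hβ : 0 ≤ β) (hβ2 : β ≤ 1 / 16)
    (hr : r = 4 * m) (h1 : IsExitL P h r x₁) (h2 : IsExitR P m h r x₂) :
    ∃ c > 0, ∀ l l', c * |l - l'| ≤ ‖capped P m r x₁ x₂ l - capped P m r x₁ x₂ l'‖ := by
  obtain ⟨hpl, hinj, hn1, -, -, -⟩ := capped_pl_injective hP hm hh hs hs2 hβ hβ2 hr h1 h2
  have hin : (0 : ℝ) < inner ℝ (-dir P r (-x₁)) (-dir P r (-x₁)) := by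
    rw [real_inner_self_eq_norm_sq, norm_neg, hn1]; norm_num
  refine pl_lower_bound _ hinj hpl.1 hpl.2 6 (-dir P r (-x₁)) (-dir P r (-x₁)) (-dir P r (-x₁))
    hin hin ?_ ?_
  · intro x hx
    simp only [capped, show x ≤ 0 by linarith, show (-6 : ℝ) ≤ 0 by norm_num, if_true]
    module
  · intro x hx
    have e1 : ∀ y : ℝ, 6 ≤ y → capped P m r x₁ x₂ y = P 0 - (2 * capT P m r x₁ x₂ + (y - 5)) • dir P r (-x₁) := by
      intro y hy
      simp only [capped, show ¬ y ≤ 0 by linarith, show ¬ y ≤ 1 by linarith, show ¬ y ≤ 2 by linarith,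
        show ¬ y ≤ 3 by linarith, show ¬ y ≤ 4 by linarith, show ¬ y ≤ 5 by linarith, if_false]
    rw [e1 x hx, e1 6 le_rfl]
    module

/-- the capped curve of a planar needle curve is unknotted -/
theorem capped_flat {m h s β r x₁ x₂ : ℝ} {P : ℝ → E3} {a b : E3}
    (hP : NeedleCurve m h s β P a b)
    (hm : 1 ≤ m) (hh : h = 8 * m) (hs : 1 ≤ s) (hs2 : s ≤ 2) (hβ : 0 ≤ β) (hβ2 : β ≤ 1 / 16)
    (hr : r = 4 * m) (h1 : IsExitL P h r x₁) (h2 : IsExitR P m h r x₂) (ν : E3) (hν : ‖ν‖ = 1)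
    (d : ℝ) (hflat : ∀ x ∈ Icc (-h) (m + h), inner ℝ (P x) ν = d) :
    Unknotted (capped P m r x₁ x₂) := by
  obtain ⟨hpl, hinj, hn1, -, -, -⟩ := capped_pl_injective hP hm hh hs hs2 hβ hβ2 hr h1 h2
  obtain ⟨c, hc, hlow⟩ := capped_lower hP hm hh hs hs2 hβ hβ2 hr h1 h2
  have hx1 := h1.pos
  have hx1' := h1.lt
  have hx2 := h2.pos
  have hx2' := h2.lt
  have f0 := hflat 0 ⟨by linarith, by linarith⟩
  have f1 := hflat (-x₁) ⟨by linarith, by linarith⟩
  have f2 := hflat (m + x₂) ⟨by linarith, by linarith⟩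
  have d1 : inner ℝ (dir P r (-x₁)) ν = 0 := by
    rw [dir, inner_smul_left, inner_sub_left, f0, f1, sub_self, mul_zero]
  have d2 : inner ℝ (dir P r (m + x₂)) ν = 0 := by
    rw [dir, inner_smul_left, inner_sub_left, f0, f2, sub_self, mul_zero]
  refine flat_unknotted _ (continuous_of_pl _ hpl.1 hpl.2) c hc hlow ν hν d ?_
  intro x
  unfold capped
  split_ifs with g0 g1 g2 g3 g4 g5
  · rw [inner_add_left, inner_smul_left, d1, f1]; simp
  · refine hflat _ ⟨?_, ?_⟩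
    · push Not at g0; nlinarith
    · push Not at g0; nlinarith
  · refine hflat _ ⟨?_, ?_⟩
    · push Not at g1; nlinarith
    · push Not at g1; nlinarith
  · refine hflat _ ⟨?_, ?_⟩
    · push Not at g2; nlinarith
    · push Not at g2; nlinarith
  · rw [inner_add_left, inner_smul_left, d2, f0]; simp
  · rw [inner_sub_left, inner_add_left, inner_smul_left, inner_smul_left, d1, d2, f0]; simp
  · rw [inner_sub_left, inner_smul_left, d1, f0]; simp

/-- a plane is contained in a level set -/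
theorem exists_normal (n : ℕ) (q : ℕ → E3) (S : AffineSubspace ℝ E3)
    (hS : Module.finrank ℝ S.direction = 2) (hq : ∀ i ≤ n, q i ∈ S) :
    ∃ ν : E3, ‖ν‖ = 1 ∧ ∃ d : ℝ, ∀ i ≤ n, inner ℝ (q i) ν = d := by
  have h1 : Module.finrank ℝ (S.directionᗮ : Submodule ℝ E3) = 1 := by
    have := S.direction.finrank_add_finrank_orthogonal
    rw [hS, finrank_euclideanSpace_fin] at this
    omega
  have h2 : (S.directionᗮ : Submodule ℝ E3) ≠ ⊥ := by
    intro h
    rw [h, finrank_bot] at h1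
    omega
  obtain ⟨w, hw, hw0⟩ := Submodule.exists_mem_ne_zero_of_ne_bot h2
  refine ⟨‖w‖⁻¹ • w, ?_, inner ℝ (q 0) (‖w‖⁻¹ • w), ?_⟩
  · rw [norm_smul, norm_inv, norm_norm, inv_mul_cancel₀ (norm_ne_zero_iff.2 hw0)]
  · intro i hi
    have h3 : q i -ᵥ q 0 ∈ S.direction := AffineSubspace.vsub_mem_direction (hq i hi) (hq 0 (Nat.zero_le _))
    have h4 : inner ℝ (q i - q 0) w = 0 := (Submodule.mem_orthogonal _ _).1 hw _ h3
    rw [inner_smul_right, inner_smul_right]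
    rw [inner_sub_left] at h4
    rw [sub_eq_zero.1 h4]

/-- the parametrised chain, with the end of the first needle at parameter `0` -/
noncomputable def chainCurve (N : ℕ) (q : ℕ → E3) (x : ℝ) : E3 := curve (ext q) (N + x)

theorem ext_sub_step (q q' : ℕ → E3) (i : ℕ) :
    (ext q ((i : ℤ) + 1) - ext q' ((i : ℤ) + 1)) - (ext q i - ext q' i) =
      (q (i + 1) - q' (i + 1)) - (q i - q' i) := by
  have e1 : ∀ p : ℕ → E3, ext p ((i : ℤ) + 1) = p (i + 1) := by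
    intro p; simp only [ext]; congr 1
  have e2 : ∀ p : ℕ → E3, ext p (i : ℤ) = p i := by intro p; simp [ext]
  rw [e1, e1, e2, e2]

theorem chainCurve_close (M N : ℕ) (hM : 1 ≤ M) (q q' : ℕ → E3) (δ : ℝ)
    (hδ : 0 ≤ δ) (h : ∀ i < 2 * N + M, ‖(q (i + 1) - q' (i + 1)) - (q i - q' i)‖ ≤ δ)
    (x y : ℝ) (hx : x ∈ Icc (-(N : ℝ)) (M + N)) (hy : y ∈ Icc (-(N : ℝ)) (M + N)) :
    ‖(chainCurve N q x - chainCurve N q' x) - (chainCurve N q y - chainCurve N q' y)‖ ≤ δ * |x - y| := by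
  have key := curve_lipschitz_on (fun i => ext q i - ext q' i) δ hδ 0 (2 * N + M) (by omega) ?_
    (N + x) (N + y) ?_ ?_
  · simp only [chainCurve, curve_sub]
    have e3 : ((N : ℝ) + x - (N + y)) = x - y := by ring
    rwa [e3] at key
  · intro i hi0 hi1
    lift i to ℕ using hi0
    rw [ext_sub_step]
    exact h i (by exact_mod_cast hi1)
  · push_cast; constructor <;> linarith [hx.1, hx.2]
  · push_cast; constructor <;> linarith [hy.1, hy.2]

/-- the invariance of the capped curve along motions -/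
theorem capped_motion : ∃ β₀ : ℝ, 0 < β₀ ∧ β₀ ≤ 1 / 16 ∧ ∀ (M N : ℕ) (s : ℝ) (ℓ θ : ℕ → ℝ)
    (Q : ℝ → ℕ → E3) (x₁ x₂ y₁ y₂ : ℝ), 1 ≤ M → N = 8 * M → 1 ≤ s → s ≤ 2 → Lengths M N s ℓ →
    (∀ i, 1 ≤ i → i < 2 * N + M → 0 ≤ θ i) → SmallTurn M N β₀ θ →
    (∀ t ∈ Icc (0 : ℝ) 1, Config (2 * N + M) ℓ θ (Q t)) →
    (∀ i ≤ 2 * N + M, ContinuousOn (fun t => Q t i) (Icc 0 1)) →
    IsExitL (chainCurve N (Q 0)) N (4 * M) x₁ → IsExitR (chainCurve N (Q 0)) M N (4 * M) x₂ →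
    IsExitL (chainCurve N (Q 1)) N (4 * M) y₁ → IsExitR (chainCurve N (Q 1)) M N (4 * M) y₂ →
    AmbEquiv (capped (chainCurve N (Q 0)) M (4 * M) x₁ x₂)
      (capped (chainCurve N (Q 1)) M (4 * M) y₁ y₂) := by
  obtain ⟨κ, hκ, hκ'⟩ := exists_homeo_of_small
  refine ⟨min (1 / 16) (κ / 16), by positivity, min_le_left _ _, ?_⟩
  intro M N s ℓ θ Q x₁ x₂ y₁ y₂ hM hN hs hs2 hℓ hθ hst hQ hQc hx1 hx2 hy1 hy2
  set β₀ := min (1 / 16) (κ / 16) with hβ₀
  have hm : (1 : ℝ) ≤ M := by exact_mod_cast hM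
  have hh : (N : ℝ) = 8 * M := by rw [hN]; push_cast; ring
  have hneedle : ∀ t ∈ Icc (0 : ℝ) 1, NeedleCurve M N s β₀ (chainCurve N (Q t))
      (s⁻¹ • (Q t (N - 1) - Q t N)) (s⁻¹ • (Q t (N + M + 1) - Q t (N + M))) :=
    fun t ht => needleCurve_of_config hM hN hs ℓ θ (Q t) (hQ t ht) hℓ hθ hst
  have hβ : 0 ≤ β₀ := by positivity
  have hex1 : ∀ t, ∃ x, t ∈ Icc (0 : ℝ) 1 → IsExitL (chainCurve N (Q t)) N (4 * M) x := by
    intro t
    by_cases ht : t ∈ Icc (0 : ℝ) 1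
    · obtain ⟨x, hx⟩ := exit_left (hneedle t ht) hm hh hs hs2 hβ (min_le_left _ _) rfl
      exact ⟨x, fun _ => hx⟩
    · exact ⟨0, fun h => absurd h ht⟩
  have hex2 : ∀ t, ∃ x, t ∈ Icc (0 : ℝ) 1 → IsExitR (chainCurve N (Q t)) M N (4 * M) x := by
    intro t
    by_cases ht : t ∈ Icc (0 : ℝ) 1
    · obtain ⟨x, hx⟩ := exit_right (hneedle t ht) hm hh hs hs2 hβ (min_le_left _ _) rfl
      exact ⟨x, fun _ => hx⟩
    · exact ⟨0, fun h => absurd h ht⟩
  choose X₁ hX₁ using hex1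
  choose X₂ hX₂ using hex2
  have h0 : (0 : ℝ) ∈ Icc (0 : ℝ) 1 := ⟨le_rfl, zero_le_one⟩
  have h1 : (1 : ℝ) ∈ Icc (0 : ℝ) 1 := ⟨zero_le_one, le_rfl⟩
  rw [hx1.unique (hX₁ 0 h0), hx2.unique (hX₂ 0 h0), hy1.unique (hX₁ 1 h1), hy2.unique (hX₂ 1 h1)]
  refine ambEquiv_of_path (fun t => capped (chainCurve N (Q t)) M (4 * M) (X₁ t) (X₂ t)) ?_
  intro t0 ht0
  obtain ⟨-, -, -, -, hne, hT⟩ := capped_pl_injective (hneedle t0 ht0) hm hh hs hs2 hβ
    (min_le_left _ _) rfl (hX₁ t0 ht0) (hX₂ t0 ht0)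
  refine local_equiv hm hh hs hs2 hβ (min_le_left _ _) (min_le_right _ _) rfl hκ
    (fun K K' h => hκ' K K' h) (hneedle t0 ht0) (hX₁ t0 ht0) (hX₂ t0 ht0)
    (capped_lower (hneedle t0 ht0) hm hh hs hs2 hβ (min_le_left _ _) rfl (hX₁ t0 ht0) (hX₂ t0 ht0))
    hne hT (𝓝[Icc 0 1] t0) (fun t => chainCurve N (Q t))
    (fun t => s⁻¹ • (Q t (N - 1) - Q t N)) (fun t => s⁻¹ • (Q t (N + M + 1) - Q t (N + M)))
    X₁ X₂ ?_ ?_ ?_ ?_
  · filter_upwards [self_mem_nhdsWithin] with t ht using hneedle t ht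
  · filter_upwards [self_mem_nhdsWithin] with t ht using hX₁ t ht
  · filter_upwards [self_mem_nhdsWithin] with t ht using hX₂ t ht
  · intro δ hδ
    have hev : ∀ i ∈ Finset.range (2 * N + M), ∀ᶠ t in 𝓝[Icc 0 1] t0,
        ‖(Q t (i + 1) - Q t0 (i + 1)) - (Q t i - Q t0 i)‖ < δ := by
      intro i hi
      rw [Finset.mem_range] at hi
      have c1 : ContinuousWithinAt (fun t => ‖(Q t (i + 1) - Q t0 (i + 1)) - (Q t i - Q t0 i)‖)
          (Icc 0 1) t0 := by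
        have a1 := hQc (i + 1) (by omega) t0 ht0
        have a2 := hQc i (by omega) t0 ht0
        exact ((a1.sub continuousWithinAt_const).sub (a2.sub continuousWithinAt_const)).norm
      have : ‖(Q t0 (i + 1) - Q t0 (i + 1)) - (Q t0 i - Q t0 i)‖ < δ := by simpa using hδ
      exact c1.eventually_lt_const this
    have hall := (Filter.eventually_all_finset (Finset.range (2 * N + M))).2 hev
    filter_upwards [hall] with t ht x hx y hy
    exact chainCurve_close M N hM (Q t) (Q t0) δ hδ.le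
      (fun i hi => (ht i (Finset.mem_range.2 hi)).le) x y hx hy

end Pool.Agent.Helper22.LC
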