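import Pool.Agent.Helper22.LC.Round

set_option autoImplicit false

namespace Pool.Agent.Helper22.LC

open Set Metric Filter Topology


theorem cos_add_sin_ge {φ : ℝ} (h0 : 0 ≤ φ) (h1 : φ ≤ Real.pi / 2) :
    1 ≤ Real.cos φ + Real.sin φ := by
  have c0 : 0 ≤ Real.cos φ := Real.cos_nonneg_of_neg_pi_div_two_le_of_le (by linarith) h1
  have s0 : 0 ≤ Real.sin φ := Real.sin_nonneg_of_nonneg_of_le_pi h0 (by linarith [Real.pi_pos])
  have h := Real.sin_sq_add_cos_sq φ
  nlinarith [mul_nonneg c0 s0, Real.cos_le_one φ, Real.sin_le_one φ]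

theorem angle_bounds (k : ℕ) (n : ℝ) (h0 : 0 ≤ n) (h1 : n ≤ 2 * k) :
    0 ≤ n * unitAngle k ∧ n * unitAngle k ≤ Real.pi / 2 := by
  have hu : 0 < unitAngle k := by
    unfold unitAngle; have := Real.pi_pos; positivity
  refine ⟨by positivity, ?_⟩
  have h2 : (2 * (k : ℝ) + 1) * unitAngle k = Real.pi / 2 := by
    unfold unitAngle; field_simp
  rw [← h2]
  exact mul_le_mul_of_nonneg_right (by linarith) hu.le

/-- the functional used for monotonicity -/
theorem inner_f (j : ℤ) :
    1 ≤ inner ℝ (D0 j) (D0 j + D0 (j + 1)) ∧ 1 ≤ inner ℝ (D0 (j + 1)) (D0 j + D0 (j + 1)) ∧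
    ∀ φ : ℝ, 0 ≤ φ → φ ≤ Real.pi / 2 →
      1 ≤ inner ℝ (mix (D0 j) (D0 (j + 1)) φ) (D0 j + D0 (j + 1)) := by
  have n1 : inner ℝ (D0 j) (D0 j) = 1 := by rw [real_inner_self_eq_norm_sq, norm_D0]; norm_num
  have n2 : inner ℝ (D0 (j + 1)) (D0 (j + 1)) = 1 := by
    rw [real_inner_self_eq_norm_sq, norm_D0]; norm_num
  rcases D0_consec j with h | h
  · rw [← h]
    have e : inner ℝ (D0 j) (D0 j + D0 j) = 2 := by rw [inner_add_right, n1]; norm_num
    refine ⟨by rw [e]; norm_num, by rw [e]; norm_num, fun φ _ _ => ?_⟩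
    rw [mix, if_pos rfl, e]; norm_num
  · have h' : inner ℝ (D0 (j + 1)) (D0 j) = 0 := by rw [real_inner_comm]; exact h
    have e1 : inner ℝ (D0 j) (D0 j + D0 (j + 1)) = 1 := by rw [inner_add_right, n1, h]; norm_num
    have e2 : inner ℝ (D0 (j + 1)) (D0 j + D0 (j + 1)) = 1 := by
      rw [inner_add_right, n2, h']; norm_num
    refine ⟨e1.ge, e2.ge, fun φ h0 h1 => ?_⟩
    have hne : D0 j ≠ D0 (j + 1) := by
      intro hh; rw [← hh, n1] at h; norm_num at h
    rw [mix, if_neg hne, inner_add_left, inner_smul_left, inner_smul_left, e1, e2]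
    simp only [conj_trivial, mul_one]
    exact cos_add_sin_ge h0 h1

theorem rdir_inner (R k : ℕ) (hk : 1 ≤ k) (hR : 2 * k < R) (j i : ℤ)
    (h1 : j * R + k ≤ i) (h2 : i < (j + 2) * R - k) :
    1 ≤ inner ℝ (rdir R k i) (D0 j + D0 (j + 1)) ∧
    1 ≤ inner ℝ (D0 (i / R)) (D0 j + D0 (j + 1)) := by
  have hRp : (0 : ℤ) < R := by omega
  obtain ⟨f1, f2, f3⟩ := inner_f j
  rcases lt_or_ge i ((j + 1) * R) with h | h
  · have hd : i / (R : ℤ) = j := by
      rw [Int.ediv_eq_iff_of_pos hRp]
      constructor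
      · nlinarith
      · nlinarith
    have hm : i % (R : ℤ) = i - j * R := by
      have := Int.emod_add_mul_ediv i R
      rw [hd] at this
      linarith
    rw [hd]
    refine ⟨?_, f1⟩
    unfold rdir
    rw [hm, hd]
    have q1 : ¬ (i - j * R < k) := by linarith
    rw [if_neg q1]
    split_ifs with q2
    · have q3 : i - j * R ≤ R - 1 := by nlinarith
      have q4 : ((i - j * (R : ℤ) : ℤ) : ℝ) ≤ R - 1 := by exact_mod_cast q3
      have q5 : (R : ℝ) - k ≤ ((i - j * (R : ℤ) : ℤ) : ℝ) := by exact_mod_cast q2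
      have hkk : (0 : ℝ) ≤ k := by positivity
      have hb := angle_bounds k (((i - j * (R : ℤ) : ℤ) : ℝ) - ((R : ℝ) - k) + 1) (by linarith)
        (by linarith)
      exact f3 _ hb.1 hb.2
    · exact f1
  · have hd : i / (R : ℤ) = j + 1 := by
      rw [Int.ediv_eq_iff_of_pos hRp]
      constructor
      · nlinarith
      · nlinarith
    have hm : i % (R : ℤ) = i - (j + 1) * R := by
      have := Int.emod_add_mul_ediv i R
      rw [hd] at this
      linarith
    rw [hd]
    refine ⟨?_, f2⟩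
    unfold rdir
    rw [hm, hd]
    split_ifs with q1 q2
    · have q3 : 0 ≤ i - (j + 1) * R := by linarith
      have q4 : (0 : ℝ) ≤ ((i - (j + 1) * (R : ℤ) : ℤ) : ℝ) := by exact_mod_cast q3
      have q6 : i - (j + 1) * (R : ℤ) ≤ k - 1 := by linarith
      have q5 : ((i - (j + 1) * (R : ℤ) : ℤ) : ℝ) ≤ k - 1 := by exact_mod_cast q6
      have hkk : (0 : ℝ) ≤ k := by positivity
      have hb := angle_bounds k (k + ((i - (j + 1) * (R : ℤ) : ℤ) : ℝ) + 1) (by linarith)
        (by linarith)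
      rw [add_sub_cancel_right]
      exact f3 _ hb.1 hb.2
    · exfalso
      nlinarith
    · exact f2

theorem curve_scalar (V : ℤ → E3) (f e : E3) (x : ℝ) :
    curve (fun i => (2 * (i : ℝ) - inner ℝ (V i) f) • e) x
      = (2 * x - inner ℝ (curve V x) f) • e := by
  simp only [curve]
  rw [inner_add_left, inner_smul_left, inner_sub_left]
  simp only [conj_trivial]
  push_cast
  have : x = ⌊x⌋ + Int.fract x := (Int.floor_add_fract x).symm
  conv_rhs => rw [this]
  simp only [Int.floor_intCast_add, Int.floor_fract, Int.fract_intCast_add, Int.fract_fract,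
    add_zero]
  module


/-- monotonicity of the projection along a window -/
theorem window_mono (V : ℤ → E3) (f : E3) (A B : ℤ) (hAB : A < B)
    (h1 : ∀ i, A ≤ i → i < B → 1 ≤ inner ℝ (V (i + 1) - V i) f)
    (h2 : ∀ i, A ≤ i → i < B → inner ℝ (V (i + 1) - V i) f ≤ 3)
    (l l1 : ℝ) (hl : l ∈ Icc (A : ℝ) B) (hl1 : l1 ∈ Icc (A : ℝ) B) (hll : l < l1) :
    l1 - l ≤ inner ℝ (curve V l1) f - inner ℝ (curve V l) f := by
  set e : E3 := pt 1 0 0 with he
  have hne : ‖e‖ = 1 := by rw [he, norm_pt]; norm_num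
  have hL := curve_lipschitz_on (fun i => (2 * (i : ℝ) - inner ℝ (V i) f) • e) 1 zero_le_one A B hAB
    (by
      intro i hi1 hi2
      have e1 : (2 * ((i + 1 : ℤ) : ℝ) - inner ℝ (V (i + 1)) f) • e
          - (2 * (i : ℝ) - inner ℝ (V i) f) • e
          = (2 - inner ℝ (V (i + 1) - V i) f) • e := by
        rw [inner_sub_left]; push_cast; module
      rw [e1, norm_smul, hne, mul_one, Real.norm_eq_abs, abs_le]
      constructor
      · linarith [h2 i hi1 hi2]
      · linarith [h1 i hi1 hi2]) l1 l hl1 hl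
  rw [curve_scalar, curve_scalar, ← sub_smul, norm_smul, hne, mul_one, Real.norm_eq_abs, one_mul,
    abs_of_pos (sub_pos.2 hll)] at hL
  have := (abs_le.1 hL).2
  linarith

theorem curve_norm_le (V : ℤ → E3) (M : ℝ) (h : ∀ i, ‖V i‖ ≤ M) (x : ℝ) : ‖curve V x‖ ≤ M := by
  have e : curve V x = (1 - Int.fract x) • V ⌊x⌋ + Int.fract x • V (⌊x⌋ + 1) := by
    simp only [curve]; module
  rw [e]
  have f0 := Int.fract_nonneg x
  have f1 := (Int.fract_lt_one x).le
  refine (norm_add_le _ _).trans ?_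
  rw [norm_smul, norm_smul, Real.norm_of_nonneg f0, Real.norm_of_nonneg (by linarith)]
  nlinarith [h ⌊x⌋, h (⌊x⌋ + 1)]

/-- The curves interpolating between the rounded path and the lattice path are injective,
provided the scale `R` is large compared to the rounding `k`.  The hypotheses are facts proved
elsewhere and may be used as black boxes. -/
theorem interp_injective
    (hlow : ∃ c > 0, ∀ x y : ℝ, c * |x - y| ≤ ‖curve V0 x - curve V0 y‖)
    (hnorm : ∀ R k i, ‖rdir R k i‖ = 1)
    (hdev : ∀ R k : ℕ, 1 ≤ k → 2 * k < R → ∀ i, ‖dev R k i‖ ≤ 96 * k)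
    (hstep : ∀ R k : ℕ, 1 ≤ k → 2 * k < R → ∀ i,
      (W R (i + 1) + dev R k (i + 1)) - (W R i + dev R k i) = rdir R k i)
    (hW : ∀ R : ℕ, 1 ≤ R → ∀ i, W R (i + 1) - W R i = D0 (i / R))
    (hcW : ∀ R : ℕ, 1 ≤ R → ∀ x : ℝ, curve (W R) x = (R : ℝ) • curve V0 (x / R)) :
    ∃ C : ℕ, 4 ≤ C ∧ ∀ k : ℕ, 1 ≤ k → ∀ R : ℕ, C * k ≤ R → ∀ σ ∈ Icc (0 : ℝ) 1,
      Function.Injective (curve (fun i => W R i + σ • dev R k i)) := by
  obtain ⟨c, hc, hlow⟩ := hlow
  refine ⟨max 8 (⌈384 / c⌉₊ + 1), le_trans (by norm_num) (le_max_left _ _), ?_⟩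
  intro k hk R hR σ hσ
  have hR8 : 8 * k ≤ R := le_trans (Nat.mul_le_mul_right k (le_max_left _ _)) hR
  have hRc : (⌈384 / c⌉₊ + 1) * k ≤ R := le_trans (Nat.mul_le_mul_right k (le_max_right _ _)) hR
  have hR1 : 1 ≤ R := by omega
  have h2k : 2 * k < R := by omega
  have hkr : (1 : ℝ) ≤ k := by exact_mod_cast hk
  have hRr : 8 * (k : ℝ) ≤ R := by exact_mod_cast hR8
  have hRpos : (0 : ℝ) < R := by linarith
  have hfar : 192 * (k : ℝ) < c * (R / 2) := by
    have h1 : 384 / c ≤ (⌈384 / c⌉₊ : ℝ) := Nat.le_ceil _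
    have h2 : ((⌈384 / c⌉₊ : ℝ) + 1) * k ≤ R := by exact_mod_cast hRc
    have h3 : 384 / c * k < R := by
      have : 384 / c * k ≤ (⌈384 / c⌉₊ : ℝ) * k := mul_le_mul_of_nonneg_right h1 (by linarith)
      linarith
    have h4 : 384 * (k : ℝ) < c * R := by
      have := mul_lt_mul_of_pos_left h3 hc
      rwa [← mul_assoc, mul_div_cancel₀ _ hc.ne'] at this
    linarith
  set V : ℤ → E3 := fun i => W R i + σ • dev R k i with hV
  have hVs : ∀ i, V (i + 1) - V i = (1 - σ) • D0 (i / R) + σ • rdir R k i := by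
    intro i
    have a1 := hstep R k hk h2k i
    have a2 := hW R hR1 i
    rw [← a1, ← a2, hV]
    module
  have hcurve : ∀ x, curve V x = curve (W R) x + σ • curve (dev R k) x := by
    intro x
    have := curve_add_smul (W R) (dev R k) 1 σ x
    simp only [one_smul] at this
    rw [this]
  have main : ∀ l l1 : ℝ, l < l1 → curve V l ≠ curve V l1 := by
    intro l l1 hll heq
    rcases le_or_gt (l1 - l) (R / 2) with hn | hf
    · -- near
      have hA1 : (⌊l⌋ : ℝ) ≤ l := Int.floor_le l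
      have hA2 : l < ⌊l⌋ + 1 := Int.lt_floor_add_one l
      have hB1 : l1 ≤ ⌈l1⌉ := Int.le_ceil l1
      have hB2 : (⌈l1⌉ : ℝ) < l1 + 1 := Int.ceil_lt_add_one l1
      set A := ⌊l⌋ with hA
      set B := ⌈l1⌉ with hB
      have hAB : A < B := by
        have : (A : ℝ) < B := by linarith
        exact_mod_cast this
      have hBA : B - A ≤ (R : ℤ) - 2 * k := by
        have h1 : ((B - A : ℤ) : ℝ) < R / 2 + 2 := by push_cast; linarith
        have h2 : ((B - A : ℤ) : ℝ) < ((R : ℤ) - 2 * k + 1 : ℤ) := by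
          push_cast at h1 ⊢
          linarith
        have h3 : B - A < (R : ℤ) - 2 * k + 1 := by exact_mod_cast h2
        omega
      have hRz : (0 : ℤ) < R := by exact_mod_cast (by omega : 0 < R)
      set j := (A - k) / (R : ℤ) with hj
      have j1 : j * R ≤ A - k := Int.ediv_mul_le _ hRz.ne'
      have j2 : A - k < (j + 1) * R := by
        have := Int.lt_ediv_add_one_mul_self (A - k) hRz
        exact this
      have key : ∀ i, A ≤ i → i < B →
          1 ≤ inner ℝ (rdir R k i) (D0 j + D0 (j + 1)) ∧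
          1 ≤ inner ℝ (D0 (i / R)) (D0 j + D0 (j + 1)) := by
        intro i hi1 hi2
        refine rdir_inner R k hk h2k j i (by linarith) ?_
        nlinarith
      have hlow' : ∀ i, A ≤ i → i < B →
          1 ≤ inner ℝ (V (i + 1) - V i) (D0 j + D0 (j + 1)) := by
        intro i hi1 hi2
        obtain ⟨a1, a2⟩ := key i hi1 hi2
        rw [hVs, inner_add_left, inner_smul_left, inner_smul_left]
        simp only [conj_trivial]
        nlinarith [hσ.1, hσ.2, mul_nonneg hσ.1 (sub_nonneg.2 a1),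
          mul_nonneg (sub_nonneg.2 hσ.2) (sub_nonneg.2 a2)]
      have hup : ∀ i, A ≤ i → i < B →
          inner ℝ (V (i + 1) - V i) (D0 j + D0 (j + 1)) ≤ 3 := by
        intro i _ _
        have n1 : ‖V (i + 1) - V i‖ ≤ 1 := by
          rw [hVs]
          refine (norm_add_le _ _).trans ?_
          rw [norm_smul, norm_smul, norm_D0, hnorm, Real.norm_of_nonneg hσ.1,
            Real.norm_of_nonneg (sub_nonneg.2 hσ.2)]
          linarith
        have n2 : ‖D0 j + D0 (j + 1)‖ ≤ 2 := by
          refine (norm_add_le _ _).trans ?_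
          rw [norm_D0, norm_D0]; norm_num
        have n3 := real_inner_le_norm (V (i + 1) - V i) (D0 j + D0 (j + 1))
        have n4 : ‖V (i + 1) - V i‖ * ‖D0 j + D0 (j + 1)‖ ≤ 1 * 2 :=
          mul_le_mul n1 n2 (norm_nonneg _) (by norm_num)
        linarith
      have hm := window_mono V (D0 j + D0 (j + 1)) A B hAB hlow' hup l l1
        ⟨hA1, by linarith⟩ ⟨by linarith, hB1⟩ hll
      rw [heq] at hm
      linarith
    · -- far
      have d1 : ∀ x, ‖curve (dev R k) x‖ ≤ 96 * k := curve_norm_le _ _ (hdev R k hk h2k)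
      have e1 : curve (W R) l - curve (W R) l1
          = σ • (curve (dev R k) l1 - curve (dev R k) l) := by
        have h3 := heq
        rw [hcurve, hcurve] at h3
        have h4 : curve (W R) l - curve (W R) l1 =
          (curve (W R) l + σ • curve (dev R k) l) - (curve (W R) l1 + σ • curve (dev R k) l1)
          + σ • (curve (dev R k) l1 - curve (dev R k) l) := by module
        rw [h4, h3, sub_self, zero_add]
      have e2 : ‖curve (W R) l - curve (W R) l1‖ ≤ 192 * k := by
        rw [e1, norm_smul, Real.norm_of_nonneg hσ.1]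
        have := norm_sub_le (curve (dev R k) l1) (curve (dev R k) l)
        have h5 := d1 l
        have h6 := d1 l1
        have h7 := norm_nonneg (curve (dev R k) l1 - curve (dev R k) l)
        nlinarith [hσ.2, hσ.1]
      have e3 : c * (R / 2) ≤ ‖curve (W R) l - curve (W R) l1‖ := by
        rw [hcW R hR1, hcW R hR1, ← smul_sub, norm_smul, Real.norm_of_nonneg hRpos.le]
        have h5 := hlow (l / R) (l1 / R)
        have h6 : |l / R - l1 / R| = (l1 - l) / R := by
          rw [← sub_div, abs_div, abs_of_pos hRpos, abs_sub_comm, abs_of_pos (sub_pos.2 hll)]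
        rw [h6] at h5
        calc c * (R / 2) ≤ c * (l1 - l) := mul_le_mul_of_nonneg_left hf.le hc.le
          _ = R * (c * ((l1 - l) / R)) := by field_simp
          _ ≤ _ := mul_le_mul_of_nonneg_left h5 hRpos.le
      linarith
  intro x y hxy
  rcases lt_trichotomy x y with h | h | h
  · exact absurd hxy (main x y h)
  · exact h
  · exact absurd hxy.symm (main y x h)


end Pool.Agent.Helper22.LC
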