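import Pool.Agent.Helper22.LC.Lattice
import Pool.Agent.Helper22.LC.Trefoil

set_option autoImplicit false

namespace Pool.Agent.Helper22.LC

open Set Metric Filter Topology

theorem pt_zero (x y z : ℝ) : pt x y z 0 = x := rfl
theorem pt_one (x y z : ℝ) : pt x y z 1 = y := rfl
theorem pt_two (x y z : ℝ) : pt x y z 2 = z := rfl

theorem pt_inj {x y z x' y' z' : ℝ} (h : pt x y z = pt x' y' z') : x = x' ∧ y = y' ∧ z = z' := by
  refine ⟨?_, ?_, ?_⟩
  · have := congrArg (fun p : E3 => p 0) h; simpa [pt] using this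
  · have := congrArg (fun p : E3 => p 1) h; simpa [pt] using this
  · have := congrArg (fun p : E3 => p 2) h; simpa [pt] using this

theorem pt_eta (p : E3) : p = pt (p 0) (p 1) (p 2) := by
  ext i; fin_cases i <;> rfl

/-- Interpolation of a sequence which is affine on an integer interval. -/
theorem seg (V : ℤ → E3) (A B : ℤ) (a1 b1 a2 b2 a3 b3 : ℝ) (hlt : A < B)
    (hV : ∀ i : ℤ, A ≤ i → i ≤ B → V i = pt (a1 + i * b1) (a2 + i * b2) (a3 + i * b3))
    (x : ℝ) (hA : (A : ℝ) ≤ x) (hB : x ≤ B) :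
    curve V x = pt (a1 + x * b1) (a2 + x * b2) (a3 + x * b3) := by
  set n : ℤ := min ⌊x⌋ (B - 1) with hn
  have hfl : A ≤ ⌊x⌋ := Int.le_floor.2 hA
  have h1 : A ≤ n := le_min hfl (by omega)
  have h2 : n + 1 ≤ B := by
    have : n ≤ B - 1 := min_le_right _ _
    omega
  have h3 : (n : ℝ) ≤ x := by
    have : n ≤ ⌊x⌋ := min_le_left _ _
    exact (Int.cast_le.2 this).trans (Int.floor_le x)
  have h4 : x ≤ n + 1 := by
    rcases min_choice ⌊x⌋ (B - 1) with h | h
    · rw [hn, h]; exact (Int.lt_floor_add_one x).le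
    · rw [hn, h]; push_cast; linarith
  rw [curve_of_mem V n x h3 h4, hV n h1 (by omega), hV (n + 1) (by omega) h2]
  ext i
  fin_cases i
  · show (a1 + n * b1) + (x - n) * ((a1 + ((n + 1 : ℤ) : ℝ) * b1) - (a1 + n * b1)) = a1 + x * b1
    push_cast; ring
  · show (a2 + n * b2) + (x - n) * ((a2 + ((n + 1 : ℤ) : ℝ) * b2) - (a2 + n * b2)) = a2 + x * b2
    push_cast; ring
  · show (a3 + n * b3) + (x - n) * ((a3 + ((n + 1 : ℤ) : ℝ) * b3) - (a3 + n * b3)) = a3 + x * b3
    push_cast; ring

theorem P1 (x : ℝ) (h : x ≤ 3) : curve V0 x = pt x 0 0 := by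
  rw [seg V0 (⌊x⌋ - 1) 3 0 1 0 0 0 0 (by
      have : (⌊x⌋ : ℝ) ≤ 3 := (Int.floor_le x).trans h
      have : ⌊x⌋ ≤ 3 := by exact_mod_cast this
      omega) ?_ x (by push_cast; linarith [Int.floor_le x]) (by exact_mod_cast h)]
  · apply pt_congr <;> ring
  · intro i _ hi
    rw [V0, if_pos hi]
    apply pt_congr <;> ring

theorem P2 (x : ℝ) (h0 : 3 ≤ x) (h : x ≤ 5) : curve V0 x = pt 3 (x - 3) 0 := by
  rw [seg V0 3 5 3 0 (-3) 1 0 0 (by norm_num) ?_ x (by exact_mod_cast h0) (by exact_mod_cast h)]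
  · apply pt_congr <;> ring
  · intro i h1 h2
    unfold V0
    interval_cases i <;> norm_num [pt]

theorem P3 (x : ℝ) (h0 : 5 ≤ x) (h : x ≤ 7) : curve V0 x = pt 3 2 (x - 5) := by
  rw [seg V0 5 7 3 0 2 0 (-5) 1 (by norm_num) ?_ x (by exact_mod_cast h0) (by exact_mod_cast h)]
  · apply pt_congr <;> ring
  · intro i h1 h2
    unfold V0
    interval_cases i <;> norm_num [pt]

theorem P4 (x : ℝ) (h0 : 7 ≤ x) (h : x ≤ 9) : curve V0 x = pt (10 - x) 2 2 := by
  rw [seg V0 7 9 10 (-1) 2 0 2 0 (by norm_num) ?_ x (by exact_mod_cast h0) (by exact_mod_cast h)]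
  · apply pt_congr <;> ring
  · intro i h1 h2
    unfold V0
    interval_cases i <;> norm_num [pt]

theorem P5 (x : ℝ) (h0 : 9 ≤ x) (h : x ≤ 12) : curve V0 x = pt 1 2 (11 - x) := by
  rw [seg V0 9 12 1 0 2 0 11 (-1) (by norm_num) ?_ x (by exact_mod_cast h0) (by exact_mod_cast h)]
  · apply pt_congr <;> ring
  · intro i h1 h2
    unfold V0
    interval_cases i <;> norm_num [pt]

theorem P6 (x : ℝ) (h0 : 12 ≤ x) (h : x ≤ 15) : curve V0 x = pt 1 (14 - x) (-1) := by
  rw [seg V0 12 15 1 0 14 (-1) (-1) 0 (by norm_num) ?_ x (by exact_mod_cast h0)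
    (by exact_mod_cast h)]
  · apply pt_congr <;> ring
  · intro i h1 h2
    unfold V0
    interval_cases i <;> norm_num [pt]

theorem P7 (x : ℝ) (h0 : 15 ≤ x) (h : x ≤ 16) : curve V0 x = pt (x - 14) (-1) (-1) := by
  rw [seg V0 15 16 (-14) 1 (-1) 0 (-1) 0 (by norm_num) ?_ x (by exact_mod_cast h0)
    (by exact_mod_cast h)]
  · apply pt_congr <;> ring
  · intro i h1 h2
    unfold V0
    interval_cases i <;> norm_num [pt]

theorem P8 (x : ℝ) (h0 : 16 ≤ x) (h : x ≤ 18) : curve V0 x = pt 2 (-1) (x - 17) := by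
  rw [seg V0 16 18 2 0 (-1) 0 (-17) 1 (by norm_num) ?_ x (by exact_mod_cast h0)
    (by exact_mod_cast h)]
  · apply pt_congr <;> ring
  · intro i h1 h2
    unfold V0
    interval_cases i <;> norm_num [pt]

theorem P9 (x : ℝ) (h0 : 18 ≤ x) (h : x ≤ 22) : curve V0 x = pt 2 (x - 19) 1 := by
  rw [seg V0 18 22 2 0 (-19) 1 1 0 (by norm_num) ?_ x (by exact_mod_cast h0)
    (by exact_mod_cast h)]
  · apply pt_congr <;> ring
  · intro i h1 h2
    unfold V0
    interval_cases i <;> norm_num [pt]

theorem P10 (x : ℝ) (h0 : 22 ≤ x) : curve V0 x = pt (x - 20) 3 1 := by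
  rw [seg V0 22 (⌊x⌋ + 1) (-20) 1 3 0 1 0 (by
      have : (22 : ℤ) ≤ ⌊x⌋ := Int.le_floor.2 (by exact_mod_cast h0)
      omega) ?_ x (by exact_mod_cast h0) (by push_cast; exact (Int.lt_floor_add_one x).le)]
  · apply pt_congr <;> ring
  · intro i h1 h2
    rcases eq_or_lt_of_le h1 with h | h
    · rw [← h]
      unfold V0
      norm_num [pt]
    · rw [V0, if_neg (by omega), if_neg (by omega), if_neg (by omega), if_neg (by omega),
        if_neg (by omega), if_neg (by omega), if_neg (by omega), if_neg (by omega),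
        if_neg (by omega)]
      apply pt_congr <;> ring

/-- The interpolated lattice trefoil is given by the same formulas. -/
theorem curve_V0 (x : ℝ) : curve V0 x =
    if x ≤ 3 then pt x 0 0
    else if x ≤ 5 then pt 3 (x - 3) 0
    else if x ≤ 7 then pt 3 2 (x - 5)
    else if x ≤ 9 then pt (10 - x) 2 2
    else if x ≤ 12 then pt 1 2 (11 - x)
    else if x ≤ 15 then pt 1 (14 - x) (-1)
    else if x ≤ 16 then pt (x - 14) (-1) (-1)
    else if x ≤ 18 then pt 2 (-1) (x - 17)
    else if x ≤ 22 then pt 2 (x - 19) 1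
    else pt (x - 20) 3 1 := by
  split_ifs with h1 h2 h3 h4 h5 h6 h7 h8 h9
  · exact P1 x h1
  · exact P2 x (by linarith) h2
  · exact P3 x (by linarith) h3
  · exact P4 x (by linarith) h4
  · exact P5 x (by linarith) h5
  · exact P6 x (by linarith) h6
  · exact P7 x (by linarith) h7
  · exact P8 x (by linarith) h8
  · exact P9 x (by linarith) h9
  · exact P10 x (by linarith)

set_option maxHeartbeats 4000000 in
theorem curve_V0_injective : Function.Injective (curve V0) := by
  intro x y h
  rw [curve_V0 x, curve_V0 y] at h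
  split_ifs at h <;> obtain ⟨h1, h2, h3⟩ := pt_inj h <;> linarith

theorem range_curve_V0 : Set.range (curve V0) = {p : E3 | (p 0, p 1, p 2) ∈ S0} := by
  ext p
  simp only [Set.mem_range, Set.mem_ofPred_eq, S0]
  constructor
  · rintro ⟨x, rfl⟩
    rw [curve_V0 x]
    split_ifs <;> simp only [pt_zero, pt_one, pt_two]
    · left; refine ⟨by linarith, trivial, trivial⟩
    · right; left; refine ⟨trivial, by linarith, by linarith, trivial⟩
    · right; right; left; refine ⟨trivial, trivial, by linarith, by linarith⟩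
    · right; right; right; left; refine ⟨by linarith, by linarith, trivial, trivial⟩
    · right; right; right; right; left; refine ⟨trivial, trivial, by linarith, by linarith⟩
    · right; right; right; right; right; left; refine ⟨trivial, by linarith, by linarith, trivial⟩
    · right; right; right; right; right; right; left
      refine ⟨by linarith, by linarith, trivial, trivial⟩
    · right; right; right; right; right; right; right; left
      refine ⟨trivial, trivial, by linarith, by linarith⟩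
    · right; right; right; right; right; right; right; right; left
      refine ⟨trivial, by linarith, by linarith, trivial⟩
    · right; right; right; right; right; right; right; right; right
      refine ⟨by linarith, trivial, trivial⟩
  · intro h
    have hp := pt_eta p
    set a := p 0
    set b := p 1
    set c := p 2
    clear_value a b c
    subst hp
    rcases h with h | h | h | h | h | h | h | h | h | h
    · obtain ⟨h1, h2, h3⟩ := h
      refine ⟨a, ?_⟩
      rw [P1 a h1]; apply pt_congr <;> linarith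
    · obtain ⟨h1, h2, h3, h4⟩ := h
      refine ⟨3 + b, ?_⟩
      rw [P2 _ (by linarith) (by linarith)]; apply pt_congr <;> linarith
    · obtain ⟨h1, h2, h3, h4⟩ := h
      refine ⟨5 + c, ?_⟩
      rw [P3 _ (by linarith) (by linarith)]; apply pt_congr <;> linarith
    · obtain ⟨h1, h2, h3, h4⟩ := h
      refine ⟨10 - a, ?_⟩
      rw [P4 _ (by linarith) (by linarith)]; apply pt_congr <;> linarith
    · obtain ⟨h1, h2, h3, h4⟩ := h
      refine ⟨11 - c, ?_⟩
      rw [P5 _ (by linarith) (by linarith)]; apply pt_congr <;> linarith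
    · obtain ⟨h1, h2, h3, h4⟩ := h
      refine ⟨14 - b, ?_⟩
      rw [P6 _ (by linarith) (by linarith)]; apply pt_congr <;> linarith
    · obtain ⟨h1, h2, h3, h4⟩ := h
      refine ⟨14 + a, ?_⟩
      rw [P7 _ (by linarith) (by linarith)]; apply pt_congr <;> linarith
    · obtain ⟨h1, h2, h3, h4⟩ := h
      refine ⟨17 + c, ?_⟩
      rw [P8 _ (by linarith) (by linarith)]; apply pt_congr <;> linarith
    · obtain ⟨h1, h2, h3, h4⟩ := h
      refine ⟨19 + b, ?_⟩
      rw [P9 _ (by linarith) (by linarith)]; apply pt_congr <;> linarith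
    · obtain ⟨h1, h2, h3⟩ := h
      refine ⟨20 + a, ?_⟩
      rw [P10 _ (by linarith)]; apply pt_congr <;> linarith


end Pool.Agent.Helper22.LC
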