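import Pool.Agent.Helper22.LC.RoundB
import Pool.Agent.Helper22.LC.RoundC
import Pool.Agent.Helper22.LC.V0Curve
import Pool.Agent.Helper22.LC.Motion

set_option autoImplicit false

namespace Pool.Agent.Helper22.LC

open Set Metric Filter Topology

theorem e0_eq : e0 = pt 1 0 0 := by
  ext i; fin_cases i <;> simp [e0, pt]

theorem pt_left (x : ℝ) : pt x 0 0 = x • e0 := by
  rw [e0_eq]; ext i; fin_cases i <;> simp [pt]

theorem pt_right (x : ℝ) : pt (x - 20) 3 1 = pt (-20) 3 1 + x • e0 := by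
  rw [e0_eq]; ext i; fin_cases i <;> simp [pt]; ring

theorem lower_V0 : ∃ c > 0, ∀ x y : ℝ, c * |x - y| ≤ ‖curve V0 x - curve V0 y‖ := by
  have h1 : (0 : ℝ) < inner ℝ e0 e0 := by
    rw [real_inner_self_eq_norm_sq, norm_e0]; norm_num
  refine pl_lower_bound _ curve_V0_injective (curve_rightPL _) (curve_leftPL _) 30 e0 e0 e0 h1 h1 ?_ ?_
  · intro x hx
    rw [P1 x (by linarith), P1 (-30) (by norm_num), pt_left, pt_left]; module
  · intro x hx
    rw [P10 x (by linarith), P10 30 (by norm_num), pt_right, pt_right]; module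

/-- vertices of the rounded path -/
noncomputable def p0 (R k : ℕ) (i : ℤ) : E3 := W R i + dev R k i

theorem exists_scale : ∃ C : ℕ, 24 ≤ C ∧ ∀ k : ℕ, 1 ≤ k → ∀ R : ℕ, C * k ≤ R →
    ∀ σ ∈ Icc (0 : ℝ) 1, Function.Injective
      (fun x => σ • curve (p0 R k) x + (1 - σ) • curve (W R) x) := by
  obtain ⟨C, -, hC⟩ := interp_injective lower_V0 norm_rdir
    (fun R k hk hR i => dev_bound R k hk hR (norm_rdir R k) i)
    (fun R k hk hR i => step_eq R k hk hR i) (fun R hR i => W_step R hR i)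
    (fun R hR x => curve_W R hR x)
  refine ⟨max 24 C, le_max_left _ _, ?_⟩
  intro k hk R hR σ hσ
  have h1 : C * k ≤ R := (Nat.mul_le_mul_right k (le_max_right 24 C)).trans hR
  have h2 := hC k hk R h1 σ hσ
  have e : (fun x => σ • curve (p0 R k) x + (1 - σ) • curve (W R) x) =
      curve (fun i => W R i + σ • dev R k i) := by
    funext x
    rw [curve_add_smul]
    congr 1
    funext i
    simp only [p0]
    module
  rw [e]; exact h2

section base

variable (R k : ℕ)

theorem curve_dev_left (x : ℝ) (hx : x ≤ 0) : curve (dev R k) x = 0 := by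
  have h1 : ⌈x⌉ ≤ 0 := Int.ceil_le.2 (by simpa using hx)
  rw [curve_of_mem (dev R k) (⌈x⌉ - 1) x
    (by push_cast; linarith [Int.ceil_lt_add_one x]) (by push_cast; linarith [Int.le_ceil x]),
    dev_of_nonpos R k _ (by omega), dev_of_nonpos R k _ (by omega)]
  simp

theorem curve_dev_right (hk : 1 ≤ k) (hR : 2 * k < R) (x : ℝ) (hx : 23 * (R : ℝ) ≤ x) :
    curve (dev R k) x = dev R k (23 * R) := by
  have h1 : 23 * (R : ℤ) ≤ ⌊x⌋ := Int.le_floor.2 (by push_cast; exact hx)
  rw [curve_of_mem (dev R k) ⌊x⌋ x (Int.floor_le x) (Int.lt_floor_add_one x).le,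
    dev_const R k hk hR ⌊x⌋ h1, dev_const R k hk hR (⌊x⌋ + 1) (by omega)]
  simp

theorem curve_p0 (x : ℝ) : curve (p0 R k) x = curve (W R) x + curve (dev R k) x := by
  rw [← curve_add]; rfl

theorem curve_W_left (hR : 1 ≤ R) (x : ℝ) (hx : x ≤ 0) : curve (W R) x = x • e0 := by
  have hRpos : (0 : ℝ) < R := by exact_mod_cast hR
  rw [curve_W R hR x, P1 (x / R) ((div_nonpos_of_nonpos_of_nonneg hx hRpos.le).trans (by norm_num)),
    pt_left, smul_smul]
  congr 1; field_simp

theorem curve_W_right (hR : 1 ≤ R) (x : ℝ) (hx : 22 * (R : ℝ) ≤ x) :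
    curve (W R) x = (R : ℝ) • pt (-20) 3 1 + x • e0 := by
  have hRpos : (0 : ℝ) < R := by exact_mod_cast hR
  rw [curve_W R hR x, P10 (x / R) (by rw [le_div_iff₀ hRpos]; exact hx), pt_right, smul_add, smul_smul]
  congr 2; field_simp

theorem curve_p0_left (hR : 1 ≤ R) (x : ℝ) (hx : x ≤ 0) : curve (p0 R k) x = x • e0 := by
  rw [curve_p0, curve_W_left R hR x hx, curve_dev_left R k x hx, add_zero]

theorem curve_p0_right (hk : 1 ≤ k) (hR : 2 * k < R) (x : ℝ) (hx : 24 * (R : ℝ) ≤ x) :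
    curve (p0 R k) x = curve (p0 R k) (24 * R) + (x - 24 * R) • e0 := by
  have hR0 : (0 : ℝ) ≤ R := Nat.cast_nonneg R
  rw [curve_p0, curve_p0, curve_W_right R (by omega) x (by linarith),
    curve_dev_right R k hk hR x (by linarith), curve_W_right R (by omega) (24 * R) (by linarith),
    curve_dev_right R k hk hR (24 * R) (by linarith)]
  module

theorem curve_W_right' (hR : 1 ≤ R) (x : ℝ) (hx : 24 * (R : ℝ) ≤ x) :
    curve (W R) x = curve (W R) (24 * R) + (x - 24 * R) • e0 := by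
  have hR0 : (0 : ℝ) ≤ R := Nat.cast_nonneg R
  rw [curve_W_right R (by omega) x (by linarith), curve_W_right R (by omega) (24 * R) (by linarith)]
  module

theorem coord_le_norm (p : E3) (c : Fin 3) : |p c| ≤ ‖p‖ := by
  have := PiLp.norm_apply_le p c
  rwa [Real.norm_eq_abs] at this

theorem W_end_coord (hR : 1 ≤ R) : (curve (W R) (24 * R)) 0 = 4 * R := by
  have hR0 : (0 : ℝ) ≤ R := Nat.cast_nonneg R
  rw [curve_W_right R hR (24 * R) (by linarith), e0_eq]
  simp [pt]; ring

theorem p0_end_coord (hk : 1 ≤ k) (hR : 24 * k ≤ R) : 0 ≤ (curve (p0 R k) (24 * R)) 0 := by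
  have hR0 : (0 : ℝ) ≤ R := Nat.cast_nonneg R
  rw [curve_p0, curve_dev_right R k hk (by omega) (24 * R) (by linarith)]
  have h1 := coord_le_norm (dev R k (23 * R)) 0
  have h2 := dev_bound R k hk (by omega) (norm_rdir R k) (23 * R)
  have h3 : (curve (W R) (24 * R) + dev R k (23 * R)) 0 = 4 * R + (dev R k (23 * R)) 0 := by
    rw [← W_end_coord R (by omega)]; rfl
  rw [h3]
  have h4 := neg_abs_le ((dev R k (23 * R)) 0)
  have h5 : (24 * k : ℝ) ≤ R := by exact_mod_cast hR
  linarith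

theorem curve_p0_lipschitz (hk : 1 ≤ k) (hR : 2 * k < R) (x y : ℝ) :
    ‖curve (p0 R k) x - curve (p0 R k) y‖ ≤ |x - y| := by
  have := curve_lipschitz (p0 R k) 1 (fun i => by
    have h := step_eq R k hk hR i
    simp only [p0]
    rw [h, norm_rdir]) x y
  rwa [one_mul] at this

theorem curve_W_lipschitz (hR : 1 ≤ R) (x y : ℝ) :
    ‖curve (W R) x - curve (W R) y‖ ≤ |x - y| := by
  have := curve_lipschitz (W R) 1 (fun i => by rw [W_step R hR i, norm_D0]) x y
  rwa [one_mul] at this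

theorem range_curve_W (hR : 1 ≤ R) :
    Set.range (curve (W R)) = {p : E3 | (p 0 / R, p 1 / R, p 2 / R) ∈ S0} := by
  have hRpos : (0 : ℝ) < R := by exact_mod_cast hR
  ext p
  constructor
  · rintro ⟨x, rfl⟩
    rw [curve_W R hR x]
    have h1 : curve V0 (x / R) ∈ Set.range (curve V0) := ⟨_, rfl⟩
    rw [range_curve_V0] at h1
    have e : ∀ c : Fin 3, ((R : ℝ) • curve V0 (x / R)) c / R = (curve V0 (x / R)) c := by
      intro c
      rw [PiLp.smul_apply, smul_eq_mul]; field_simp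
    simp only [Set.mem_ofPred_eq, e]
    exact h1
  · intro hp
    have h1 : ((R : ℝ)⁻¹ • p) ∈ Set.range (curve V0) := by
      rw [range_curve_V0]
      have e : ∀ c : Fin 3, ((R : ℝ)⁻¹ • p) c = p c / R := by
        intro c
        rw [PiLp.smul_apply, smul_eq_mul]; field_simp
      simp only [Set.mem_ofPred_eq, e]
      exact hp
    obtain ⟨x, hx⟩ := h1
    refine ⟨R * x, ?_⟩
    rw [curve_W R hR, mul_div_cancel_left₀ _ hRpos.ne', hx, smul_smul, mul_inv_cancel₀ hRpos.ne',
      one_smul]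

end base

end Pool.Agent.Helper22.LC
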