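import Pool.Agent.Helper22.LC.Chain

set_option autoImplicit false

namespace Pool.Agent.Helper22.LC

open Set Metric Filter Topology

/-- point with given coordinates -/
noncomputable def pt (x y z : ℝ) : E3 := !₂[x, y, z]

/-- The lattice trefoil: a path of unit steps with vertices `V0 i`. -/
noncomputable def V0 (i : ℤ) : E3 :=
  if i ≤ 3 then pt i 0 0
  else if i ≤ 5 then pt 3 (i - 3) 0
  else if i ≤ 7 then pt 3 2 (i - 5)
  else if i ≤ 9 then pt (10 - i) 2 2
  else if i ≤ 12 then pt 1 2 (11 - i)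
  else if i ≤ 15 then pt 1 (14 - i) (-1)
  else if i ≤ 16 then pt (i - 14) (-1) (-1)
  else if i ≤ 18 then pt 2 (-1) (i - 17)
  else if i ≤ 22 then pt 2 (i - 19) 1
  else pt (i - 20) 3 1

/-- the edge directions of the lattice trefoil -/
noncomputable def D0 (j : ℤ) : E3 :=
  if j < 3 then pt 1 0 0
  else if j < 5 then pt 0 1 0
  else if j < 7 then pt 0 0 1
  else if j < 9 then pt (-1) 0 0
  else if j < 12 then pt 0 0 (-1)
  else if j < 15 then pt 0 (-1) 0
  else if j < 16 then pt 1 0 0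
  else if j < 18 then pt 0 0 1
  else if j < 22 then pt 0 1 0
  else pt 1 0 0

theorem pt_sub (a b c a' b' c' : ℝ) : pt a b c - pt a' b' c' = pt (a - a') (b - b') (c - c') := by
  ext i; fin_cases i <;> simp [pt]

theorem pt_congr {a b c a' b' c' : ℝ} (h1 : a = a') (h2 : b = b') (h3 : c = c') :
    pt a b c = pt a' b' c' := by rw [h1, h2, h3]

theorem norm_pt (a b c : ℝ) : ‖pt a b c‖ = Real.sqrt (a ^ 2 + b ^ 2 + c ^ 2) := by
  rw [EuclideanSpace.norm_eq, Fin.sum_univ_three]
  simp [pt, sq_abs]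

theorem inner_pt (a b c a' b' c' : ℝ) : inner ℝ (pt a b c) (pt a' b' c') = a * a' + b * b' + c * c' := by
  simp only [pt, EuclideanSpace.inner_eq_star_dotProduct]
  simp [Matrix.vecHead, Matrix.vecTail]
  ring

theorem D0_of_ge (j : ℤ) (h : 22 ≤ j) : D0 j = pt 1 0 0 := by
  unfold D0
  split_ifs <;> first | omega | rfl

theorem D0_of_lt (j : ℤ) (h : j < 3) : D0 j = pt 1 0 0 := by
  unfold D0
  rw [if_pos h]

theorem V0_succ (j : ℤ) : V0 (j + 1) = V0 j + D0 j := by
  have key : V0 (j + 1) - V0 j = D0 j := by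
    rcases lt_or_ge j 3 with h | h
    · simp only [V0, D0, show j + 1 ≤ 3 by omega, show j ≤ 3 by omega, h, if_true]
      rw [pt_sub]; apply pt_congr <;> push_cast <;> ring
    · rcases lt_or_ge j 22 with h' | h'
      · interval_cases j <;> simp [V0, D0, pt_sub] <;> apply pt_congr <;> norm_num
      · have e1 : V0 (j + 1) = pt ((j : ℝ) - 19) 3 1 := by
          simp only [V0]
          split_ifs <;> first | omega | (apply pt_congr <;> push_cast <;> ring)
        have e2 : V0 j = pt ((j : ℝ) - 20) 3 1 := by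
          rcases eq_or_lt_of_le h' with h'' | h''
          · subst h''; simp only [V0]; norm_num
          · simp only [V0]
            split_ifs <;> first | omega | rfl
        have e3 : D0 j = pt 1 0 0 := D0_of_ge j h'
        rw [e1, e2, e3, pt_sub]; apply pt_congr <;> ring
  rw [← key]; abel

theorem D0_cases (j : ℤ) : D0 j = pt 1 0 0 ∨ D0 j = pt 0 1 0 ∨ D0 j = pt 0 0 1 ∨ D0 j = pt (-1) 0 0 ∨
    D0 j = pt 0 0 (-1) ∨ D0 j = pt 0 (-1) 0 := by
  unfold D0
  split_ifs
  exacts [Or.inl rfl, Or.inr (Or.inl rfl), Or.inr (Or.inr (Or.inl rfl)),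
    Or.inr (Or.inr (Or.inr (Or.inl rfl))), Or.inr (Or.inr (Or.inr (Or.inr (Or.inl rfl)))),
    Or.inr (Or.inr (Or.inr (Or.inr (Or.inr rfl)))), Or.inl rfl, Or.inr (Or.inr (Or.inl rfl)),
    Or.inr (Or.inl rfl), Or.inl rfl]

theorem norm_D0 (j : ℤ) : ‖D0 j‖ = 1 := by
  rcases D0_cases j with h | h | h | h | h | h <;> rw [h, norm_pt] <;> norm_num

/-- consecutive edges are parallel or orthogonal -/
theorem D0_consec (j : ℤ) : D0 j = D0 (j + 1) ∨ inner ℝ (D0 j) (D0 (j + 1)) = 0 := by
  rcases lt_or_ge j 2 with h | h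
  · left; simp only [D0, show j + 1 < 3 by omega, show j < 3 by omega, if_true]
  · rcases lt_or_ge j 22 with h' | h'
    · interval_cases j <;> simp [D0, inner_pt]
    · left
      rw [D0_of_ge j h', D0_of_ge (j + 1) (by omega)]

end Pool.Agent.Helper22.LC
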