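import Pool.Agent.Helper22.LC.Exit
import Pool.Agent.Helper22.LC.CapInj

set_option autoImplicit false

namespace Pool.Agent.Helper22.LC

open Set Metric Filter Topology

namespace LocEq

/-- closeness of increments with an additive and a linear error -/
def Near (D : ℝ → E3) (S : Set ℝ) (E L : ℝ) : Prop :=
  ∀ x ∈ S, ∀ y ∈ S, ‖D x - D y‖ ≤ E + L * |x - y|

theorem Near.mono {D : ℝ → E3} {S S' : Set ℝ} {E E' L L' : ℝ} (h : Near D S E L)
    (hS : S' ⊆ S) (hE : E ≤ E') (hL : L ≤ L') : Near D S' E' L' := by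
  intro x hx y hy
  refine (h x (hS hx) y (hS hy)).trans ?_
  have := mul_le_mul_of_nonneg_right hL (abs_nonneg (x - y))
  linarith

theorem Near.chain {D : ℝ → E3} {A B : Set ℝ} {b E₁ E₂ L : ℝ} (hE₁ : 0 ≤ E₁) (hE₂ : 0 ≤ E₂)
    (h1 : Near D A E₁ L) (h2 : Near D B E₂ L)
    (hA : ∀ x ∈ A, x ≤ b) (hB : ∀ x ∈ B, b ≤ x) (hbA : b ∈ A) (hbB : b ∈ B) :
    Near D (A ∪ B) (E₁ + E₂) L := by
  have key : ∀ x ∈ A, ∀ y ∈ B, ‖D x - D y‖ ≤ E₁ + E₂ + L * |x - y| := by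
    intro x hx y hy
    have e1 := h1 x hx b hbA
    have e2 := h2 b hbB y hy
    have e3 : D x - D y = (D x - D b) + (D b - D y) := by abel
    have e4 : |x - y| = |x - b| + |b - y| := by
      rw [abs_of_nonpos (by linarith [hA x hx, hB y hy]), abs_of_nonpos (by linarith [hA x hx]),
        abs_of_nonpos (by linarith [hB y hy])]
      ring
    rw [e3, e4]
    refine (norm_add_le _ _).trans ?_
    linarith
  intro x hx y hy
  rcases hx with hx | hx <;> rcases hy with hy | hy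
  · linarith [h1 x hx y hy]
  · exact key x hx y hy
  · rw [norm_sub_rev, abs_sub_comm]; exact key y hy x hx
  · linarith [h2 x hx y hy]

theorem capped_0 {P : ℝ → E3} {m r x₁ x₂ l : ℝ} (hl : l ≤ 0) :
    capped P m r x₁ x₂ l = P (-x₁) + (-l) • dir P r (-x₁) := by
  simp [capped, hl]

theorem capped_1 {P : ℝ → E3} {m r x₁ x₂ l : ℝ} (hl : 0 ≤ l) (hl2 : l ≤ 1) :
    capped P m r x₁ x₂ l = P (-(x₁ * (1 - l))) := by
  rcases hl.eq_or_lt with h | h
  · rw [capped_0 h.ge, ← h]; simp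
  · have h1 : ¬ l ≤ 0 := not_le.2 h
    simp only [capped, h1, hl2, if_true, if_false]
    congr 1; ring

theorem capped_2 {P : ℝ → E3} {m r x₁ x₂ l : ℝ} (hl : 1 ≤ l) (hl2 : l ≤ 2) :
    capped P m r x₁ x₂ l = P (m * (l - 1)) := by
  rcases hl.eq_or_lt with h | h
  · rw [capped_1 (by linarith) h.ge, ← h]; simp
  · have h1 : ¬ l ≤ 0 := by linarith
    have h2 : ¬ l ≤ 1 := by linarith
    simp only [capped, h1, h2, hl2, if_true, if_false]
    congr 1; ring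

theorem capped_3 {P : ℝ → E3} {m r x₁ x₂ l : ℝ} (hl : 2 ≤ l) (hl2 : l ≤ 3) :
    capped P m r x₁ x₂ l = P (m + x₂ * (l - 2)) := by
  rcases hl.eq_or_lt with h | h
  · rw [capped_2 (by linarith) h.ge, ← h]; congr 1; ring
  · have h1 : ¬ l ≤ 0 := by linarith
    have h2 : ¬ l ≤ 1 := by linarith
    have h3 : ¬ l ≤ 2 := by linarith
    simp only [capped, h1, h2, h3, hl2, if_true, if_false]
    congr 1; ring

theorem capped_4 {P : ℝ → E3} {m r x₁ x₂ l : ℝ} (hr : r ≠ 0) (hl : 3 ≤ l) (hl2 : l ≤ 4) :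
    capped P m r x₁ x₂ l
      = P 0 + (r + (l - 3) * (capT P m r x₁ x₂ - r)) • dir P r (m + x₂) := by
  rcases hl.eq_or_lt with h | h
  · rw [capped_3 (by linarith) h.ge, ← h]
    have : P (m + x₂ * (3 - 2)) = P (m + x₂) := by congr 1; ring
    rw [this, dir]
    rw [sub_self, zero_mul, add_zero, smul_smul, mul_inv_cancel₀ hr, one_smul]; abel
  · have h1 : ¬ l ≤ 0 := by linarith
    have h2 : ¬ l ≤ 1 := by linarith
    have h3 : ¬ l ≤ 2 := by linarith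
    have h4 : ¬ l ≤ 3 := by linarith
    simp only [capped, h1, h2, h3, h4, hl2, if_true, if_false]

theorem capped_5 {P : ℝ → E3} {m r x₁ x₂ l : ℝ} (hr : r ≠ 0) (hl : 4 ≤ l) (hl2 : l ≤ 5) :
    capped P m r x₁ x₂ l
      = P 0 + ((5 - l) * capT P m r x₁ x₂) • dir P r (m + x₂)
        - ((l - 4) * (2 * capT P m r x₁ x₂)) • dir P r (-x₁) := by
  rcases hl.eq_or_lt with h | h
  · rw [capped_4 hr (by linarith) h.ge, ← h]
    module
  · have h1 : ¬ l ≤ 0 := by linarith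
    have h2 : ¬ l ≤ 1 := by linarith
    have h3 : ¬ l ≤ 2 := by linarith
    have h4 : ¬ l ≤ 3 := by linarith
    have h5 : ¬ l ≤ 4 := by linarith
    simp only [capped, h1, h2, h3, h4, h5, hl2, if_true, if_false]

theorem capped_6 {P : ℝ → E3} {m r x₁ x₂ l : ℝ} (hr : r ≠ 0) (hl : 5 ≤ l) :
    capped P m r x₁ x₂ l
      = P 0 - (2 * capT P m r x₁ x₂ + (l - 5)) • dir P r (-x₁) := by
  rcases hl.eq_or_lt with h | h
  · rw [capped_5 hr (by linarith) h.ge, ← h]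
    module
  · have h1 : ¬ l ≤ 0 := by linarith
    have h2 : ¬ l ≤ 1 := by linarith
    have h3 : ¬ l ≤ 2 := by linarith
    have h4 : ¬ l ≤ 3 := by linarith
    have h5 : ¬ l ≤ 4 := by linarith
    have h6 : ¬ l ≤ 5 := by linarith
    simp only [capped, h1, h2, h3, h4, h5, h6, if_false]


theorem half_add_le {u v : E3} (h : 0 ≤ inner ℝ u v) : (‖u‖ + ‖v‖) / 2 ≤ ‖u + v‖ := by
  have h1 : ‖u + v‖ ^ 2 = ‖u‖ ^ 2 + 2 * inner ℝ u v + ‖v‖ ^ 2 := norm_add_sq_real u v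
  have h2 : ((‖u‖ + ‖v‖) / 2) ^ 2 ≤ ‖u + v‖ ^ 2 := by
    rw [h1]; nlinarith [sq_nonneg (‖u‖ - ‖v‖), norm_nonneg u, norm_nonneg v]
  exact le_of_sq_le_sq h2 (norm_nonneg _)

theorem norm_dir_L {P : ℝ → E3} {h r x₁ : ℝ} (hr : 0 < r) (h1 : IsExitL P h r x₁) :
    ‖dir P r (-x₁)‖ = 1 := by
  rw [dir, norm_smul, h1.eq, norm_inv, Real.norm_of_nonneg hr.le, inv_mul_cancel₀ hr.ne']

theorem norm_dir_R {P : ℝ → E3} {m h r x₂ : ℝ} (hr : 0 < r) (h2 : IsExitR P m h r x₂) :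
    ‖dir P r (m + x₂)‖ = 1 := by
  rw [dir, norm_smul, h2.eq, norm_inv, Real.norm_of_nonneg hr.le, inv_mul_cancel₀ hr.ne']

section det

variable {m h s β r κ c ω : ℝ} {P Q : ℝ → E3} {a b a' b' : E3} {x₁ x₂ y₁ y₂ : ℝ}

/-- difference of the two capped curves -/
noncomputable def DD (P Q : ℝ → E3) (m r x₁ x₂ y₁ y₂ : ℝ) (l : ℝ) : E3 :=
  capped Q m r y₁ y₂ l - capped P m r x₁ x₂ l

theorem n0 (w1 : ‖dir Q r (-y₁) - dir P r (-x₁)‖ ≤ ω) :
    Near (DD P Q m r x₁ x₂ y₁ y₂) (Iic 0) 0 ω := by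
  intro l hl l' hl'
  rw [DD, DD, capped_0 hl, capped_0 hl, capped_0 hl', capped_0 hl']
  have : Q (-y₁) + (-l) • dir Q r (-y₁) - (P (-x₁) + (-l) • dir P r (-x₁))
      - (Q (-y₁) + (-l') • dir Q r (-y₁) - (P (-x₁) + (-l') • dir P r (-x₁)))
      = (l' - l) • (dir Q r (-y₁) - dir P r (-x₁)) := by module
  rw [this, norm_smul, Real.norm_eq_abs, abs_sub_comm, zero_add, mul_comm]
  exact mul_le_mul_of_nonneg_right w1 (abs_nonneg _)

theorem k1 (hP : NeedleCurve m h s β P a b) (h1 : IsExitL P h r x₁) {l l' : ℝ}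
    (hl : l ∈ Icc (0 : ℝ) 1) (hl' : l' ∈ Icc (0 : ℝ) 1) :
    ‖capped P m r x₁ x₂ l - capped P m r x₁ x₂ l' - ((l' - l) * (x₁ * s)) • a‖
      ≤ x₁ * s * β * |l - l'| := by
  rw [capped_1 hl.1 hl.2, capped_1 hl'.1 hl'.2]
  have hx := h1.pos
  have hxh := h1.lt
  have m1 : -(x₁ * (1 - l)) ∈ Icc (-h) 0 := by
    constructor
    · nlinarith [hl.1, hl.2, mul_nonneg hx.le hl.1]
    · nlinarith [hl.1, hl.2, mul_nonneg hx.le (sub_nonneg.2 hl.2)]
  have m2 : -(x₁ * (1 - l')) ∈ Icc (-h) 0 := by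
    constructor
    · nlinarith [hl'.1, hl'.2, mul_nonneg hx.le hl'.1]
    · nlinarith [hl'.1, hl'.2, mul_nonneg hx.le (sub_nonneg.2 hl'.2)]
  have := hP.left _ m1 _ m2
  have e1 : (-(x₁ * (1 - l')) - -(x₁ * (1 - l))) * s = (l' - l) * (x₁ * s) := by ring
  have e2 : |-(x₁ * (1 - l)) - -(x₁ * (1 - l'))| = x₁ * |l - l'| := by
    rw [show -(x₁ * (1 - l)) - -(x₁ * (1 - l')) = x₁ * (l - l') by ring, abs_mul,
      abs_of_pos hx]
  rw [e1, e2] at this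
  refine this.trans (le_of_eq ?_)
  ring

theorem k3 (hP : NeedleCurve m h s β P a b) (h2 : IsExitR P m h r x₂) {l l' : ℝ}
    (hl : l ∈ Icc (2 : ℝ) 3) (hl' : l' ∈ Icc (2 : ℝ) 3) :
    ‖capped P m r x₁ x₂ l - capped P m r x₁ x₂ l' - ((l - l') * (x₂ * s)) • b‖
      ≤ x₂ * s * β * |l - l'| := by
  rw [capped_3 hl.1 hl.2, capped_3 hl'.1 hl'.2]
  have hx := h2.pos
  have hxh := h2.lt
  have m1 : m + x₂ * (l - 2) ∈ Icc m (m + h) := by
    constructor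
    · nlinarith [mul_nonneg hx.le (sub_nonneg.2 hl.1)]
    · nlinarith [mul_nonneg hx.le (sub_nonneg.2 hl.2)]
  have m2 : m + x₂ * (l' - 2) ∈ Icc m (m + h) := by
    constructor
    · nlinarith [mul_nonneg hx.le (sub_nonneg.2 hl'.1)]
    · nlinarith [mul_nonneg hx.le (sub_nonneg.2 hl'.2)]
  have := hP.right _ m1 _ m2
  have e1 : (m + x₂ * (l - 2) - (m + x₂ * (l' - 2))) * s = (l - l') * (x₂ * s) := by ring
  have e2 : |m + x₂ * (l - 2) - (m + x₂ * (l' - 2))| = x₂ * |l - l'| := by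
    rw [show m + x₂ * (l - 2) - (m + x₂ * (l' - 2)) = x₂ * (l - l') by ring, abs_mul,
      abs_of_pos hx]
  rw [e1, e2] at this
  refine this.trans (le_of_eq ?_)
  ring

theorem n1 (hs : 1 ≤ s) (hP : NeedleCurve m h s β P a b) (hQ : NeedleCurve m h s β Q a' b')
    (h1 : IsExitL P h r x₁) (g1 : IsExitL Q h r y₁)
    (e1 : ‖y₁ • a' - x₁ • a‖ ≤ ω) :
    Near (DD P Q m r x₁ x₂ y₁ y₂) (Icc 0 1) 0 (s * (ω + β * (x₁ + y₁))) := by
  intro l hl l' hl'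
  have p1 := k1 (x₂ := x₂) hP h1 hl hl'
  have p2 := k1 (x₂ := y₂) hQ g1 hl hl'
  set A := capped P m r x₁ x₂ l - capped P m r x₁ x₂ l' - ((l' - l) * (x₁ * s)) • a with hA
  set B := capped Q m r y₁ y₂ l - capped Q m r y₁ y₂ l' - ((l' - l) * (y₁ * s)) • a' with hB
  have : DD P Q m r x₁ x₂ y₁ y₂ l - DD P Q m r x₁ x₂ y₁ y₂ l'
      = B - A + ((l' - l) * s) • (y₁ • a' - x₁ • a) := by
    rw [hA, hB, DD, DD]; module
  rw [this]
  have h3 : ‖((l' - l) * s) • (y₁ • a' - x₁ • a)‖ ≤ |l - l'| * s * ω := by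
    rw [norm_smul, Real.norm_eq_abs, abs_mul, abs_sub_comm, abs_of_nonneg (by linarith : 0 ≤ s)]
    exact mul_le_mul_of_nonneg_left e1 (by positivity)
  have h4 := norm_add_le (B - A) (((l' - l) * s) • (y₁ • a' - x₁ • a))
  have h5 := norm_sub_le B A
  rw [zero_add]
  nlinarith

theorem n3 (hs : 1 ≤ s) (hP : NeedleCurve m h s β P a b) (hQ : NeedleCurve m h s β Q a' b')
    (h2 : IsExitR P m h r x₂) (g2 : IsExitR Q m h r y₂)
    (e2 : ‖y₂ • b' - x₂ • b‖ ≤ ω) :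
    Near (DD P Q m r x₁ x₂ y₁ y₂) (Icc 2 3) 0 (s * (ω + β * (x₂ + y₂))) := by
  intro l hl l' hl'
  have p1 := k3 (x₁ := x₁) hP h2 hl hl'
  have p2 := k3 (x₁ := y₁) hQ g2 hl hl'
  set A := capped P m r x₁ x₂ l - capped P m r x₁ x₂ l' - ((l - l') * (x₂ * s)) • b with hA
  set B := capped Q m r y₁ y₂ l - capped Q m r y₁ y₂ l' - ((l - l') * (y₂ * s)) • b' with hB
  have : DD P Q m r x₁ x₂ y₁ y₂ l - DD P Q m r x₁ x₂ y₁ y₂ l'
      = B - A + ((l - l') * s) • (y₂ • b' - x₂ • b) := by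
    rw [hA, hB, DD, DD]; module
  rw [this]
  have h3 : ‖((l - l') * s) • (y₂ • b' - x₂ • b)‖ ≤ |l - l'| * s * ω := by
    rw [norm_smul, Real.norm_eq_abs, abs_mul, abs_of_nonneg (by linarith : 0 ≤ s)]
    exact mul_le_mul_of_nonneg_left e2 (by positivity)
  have h4 := norm_add_le (B - A) (((l - l') * s) • (y₂ • b' - x₂ • b))
  have h5 := norm_sub_le B A
  rw [zero_add]
  nlinarith

theorem lipL (hs : 1 ≤ s) (hP : NeedleCurve m h s β P a b) {x y : ℝ}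
    (hx : x ∈ Icc (-h) 0) (hy : y ∈ Icc (-h) 0) : ‖P x - P y‖ ≤ s * (1 + β) * |x - y| := by
  have h1 := hP.left x hx y hy
  have h2 : ‖P x - P y‖ ≤ ‖((y - x) * s) • a‖ + ‖(P x - P y) - ((y - x) * s) • a‖ := by
    have : P x - P y = ((y - x) * s) • a + ((P x - P y) - ((y - x) * s) • a) := by abel
    calc ‖P x - P y‖ = ‖((y - x) * s) • a + ((P x - P y) - ((y - x) * s) • a)‖ := by rw [← this]
      _ ≤ _ := norm_add_le _ _
  rw [norm_smul, hP.ha, mul_one, Real.norm_eq_abs, abs_mul, abs_of_nonneg (by linarith : 0 ≤ s),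
    abs_sub_comm] at h2
  nlinarith

theorem lipR (hs : 1 ≤ s) (hP : NeedleCurve m h s β P a b) {x y : ℝ}
    (hx : x ∈ Icc m (m + h)) (hy : y ∈ Icc m (m + h)) : ‖P x - P y‖ ≤ s * (1 + β) * |x - y| := by
  have h1 := hP.right x hx y hy
  have h2 : ‖P x - P y‖ ≤ ‖((x - y) * s) • b‖ + ‖(P x - P y) - ((x - y) * s) • b‖ := by
    have : P x - P y = ((x - y) * s) • b + ((P x - P y) - ((x - y) * s) • b) := by abel
    calc ‖P x - P y‖ = ‖((x - y) * s) • b + ((P x - P y) - ((x - y) * s) • b)‖ := by rw [← this]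
      _ ≤ _ := norm_add_le _ _
  rw [norm_smul, hP.hb, mul_one, Real.norm_eq_abs, abs_mul, abs_of_nonneg (by linarith : 0 ≤ s)]
    at h2
  nlinarith

theorem n1b (hm : 1 ≤ m) (hh : h = 8 * m) (hs : 1 ≤ s) (hs2 : s ≤ 2) (hβ : 0 ≤ β)
    (hβ2 : β ≤ 1 / 16) (hω : 0 < ω) (hP : NeedleCurve m h s β P a b)
    (h1 : IsExitL P h r x₁) (g1 : IsExitL Q h r y₁) (f1 : |y₁ - x₁| ≤ ω)
    (hcl : ∀ x ∈ Icc (-h) (m + h), ∀ y ∈ Icc (-h) (m + h),
      ‖(Q x - P x) - (Q y - P y)‖ ≤ ω * |x - y|) :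
    Near (DD P Q m r x₁ x₂ y₁ y₂) (Icc 0 1) (2 * ((h + 3) * ω)) 0 := by
  have key : ∀ l ∈ Icc (0 : ℝ) 1, ‖DD P Q m r x₁ x₂ y₁ y₂ l - (Q 0 - P 0)‖ ≤ (h + 3) * ω := by
    intro l hl
    have hy := g1.pos
    have hyh := g1.lt
    have hx := h1.pos
    have hxh := h1.lt
    rw [DD, capped_1 hl.1 hl.2, capped_1 hl.1 hl.2]
    have e1 : Q (-(y₁ * (1 - l))) - P (-(x₁ * (1 - l))) - (Q 0 - P 0)
        = ((Q (-(y₁ * (1 - l))) - P (-(y₁ * (1 - l)))) - (Q 0 - P 0))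
          + (P (-(y₁ * (1 - l))) - P (-(x₁ * (1 - l)))) := by abel
    rw [e1]
    refine (norm_add_le _ _).trans ?_
    have m1 : -(y₁ * (1 - l)) ∈ Icc (-h) 0 := by
      constructor
      · nlinarith [mul_nonneg hy.le hl.1]
      · nlinarith [mul_nonneg hy.le (sub_nonneg.2 hl.2)]
    have m2 : -(x₁ * (1 - l)) ∈ Icc (-h) 0 := by
      constructor
      · nlinarith [mul_nonneg hx.le hl.1]
      · nlinarith [mul_nonneg hx.le (sub_nonneg.2 hl.2)]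
    have q1 := hcl _ ⟨m1.1, by linarith [m1.2]⟩ 0 ⟨by linarith, by linarith⟩
    have q2 := lipL hs hP m1 m2
    have q3 : |-(y₁ * (1 - l)) - 0| ≤ h := by
      rw [sub_zero, abs_of_nonpos m1.2]; linarith [m1.1]
    have q4 : |-(y₁ * (1 - l)) - -(x₁ * (1 - l))| ≤ ω := by
      rw [show -(y₁ * (1 - l)) - -(x₁ * (1 - l)) = -((y₁ - x₁) * (1 - l)) by ring, abs_neg,
        abs_mul, abs_of_nonneg (sub_nonneg.2 hl.2)]
      have := abs_nonneg (y₁ - x₁)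
      nlinarith [hl.1]
    have q5 : s * (1 + β) ≤ 3 := by nlinarith
    have q6 : s * (1 + β) * |-(y₁ * (1 - l)) - -(x₁ * (1 - l))| ≤ 3 * ω :=
      mul_le_mul q5 q4 (abs_nonneg _) (by norm_num)
    have q7 : ω * |-(y₁ * (1 - l)) - 0| ≤ ω * h := mul_le_mul_of_nonneg_left q3 hω.le
    linarith
  intro l hl l' hl'
  have e : DD P Q m r x₁ x₂ y₁ y₂ l - DD P Q m r x₁ x₂ y₁ y₂ l'
      = (DD P Q m r x₁ x₂ y₁ y₂ l - (Q 0 - P 0)) - (DD P Q m r x₁ x₂ y₁ y₂ l' - (Q 0 - P 0)) := by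
    abel
  rw [e]
  refine (norm_sub_le _ _).trans ?_
  linarith [key l hl, key l' hl']

theorem n3b (hm : 1 ≤ m) (hh : h = 8 * m) (hs : 1 ≤ s) (hs2 : s ≤ 2) (hβ : 0 ≤ β)
    (hβ2 : β ≤ 1 / 16) (hω : 0 < ω) (hP : NeedleCurve m h s β P a b)
    (h2 : IsExitR P m h r x₂) (g2 : IsExitR Q m h r y₂) (f2 : |y₂ - x₂| ≤ ω)
    (hcl : ∀ x ∈ Icc (-h) (m + h), ∀ y ∈ Icc (-h) (m + h),
      ‖(Q x - P x) - (Q y - P y)‖ ≤ ω * |x - y|) :
    Near (DD P Q m r x₁ x₂ y₁ y₂) (Icc 2 3) (2 * ((h + 3) * ω)) 0 := by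
  have key : ∀ l ∈ Icc (2 : ℝ) 3, ‖DD P Q m r x₁ x₂ y₁ y₂ l - (Q m - P m)‖ ≤ (h + 3) * ω := by
    intro l hl
    have hy := g2.pos
    have hyh := g2.lt
    have hx := h2.pos
    have hxh := h2.lt
    rw [DD, capped_3 hl.1 hl.2, capped_3 hl.1 hl.2]
    have e1 : Q (m + y₂ * (l - 2)) - P (m + x₂ * (l - 2)) - (Q m - P m)
        = ((Q (m + y₂ * (l - 2)) - P (m + y₂ * (l - 2))) - (Q m - P m))
          + (P (m + y₂ * (l - 2)) - P (m + x₂ * (l - 2))) := by abel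
    rw [e1]
    refine (norm_add_le _ _).trans ?_
    have m1 : m + y₂ * (l - 2) ∈ Icc m (m + h) := by
      constructor
      · nlinarith [mul_nonneg hy.le (sub_nonneg.2 hl.1)]
      · nlinarith [mul_nonneg hy.le (sub_nonneg.2 hl.2)]
    have m2 : m + x₂ * (l - 2) ∈ Icc m (m + h) := by
      constructor
      · nlinarith [mul_nonneg hx.le (sub_nonneg.2 hl.1)]
      · nlinarith [mul_nonneg hx.le (sub_nonneg.2 hl.2)]
    have q1 := hcl _ ⟨by linarith [m1.1], m1.2⟩ m ⟨by linarith, by linarith⟩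
    have q2 := lipR hs hP m1 m2
    have q3 : |m + y₂ * (l - 2) - m| ≤ h := by
      rw [abs_of_nonneg (by linarith [m1.1])]; linarith [m1.2]
    have q4 : |m + y₂ * (l - 2) - (m + x₂ * (l - 2))| ≤ ω := by
      rw [show m + y₂ * (l - 2) - (m + x₂ * (l - 2)) = (y₂ - x₂) * (l - 2) by ring,
        abs_mul, abs_of_nonneg (sub_nonneg.2 hl.1)]
      have := abs_nonneg (y₂ - x₂)
      nlinarith [hl.2]
    have q5 : s * (1 + β) ≤ 3 := by nlinarith
    have q6 : s * (1 + β) * |m + y₂ * (l - 2) - (m + x₂ * (l - 2))| ≤ 3 * ω :=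
      mul_le_mul q5 q4 (abs_nonneg _) (by norm_num)
    have q7 : ω * |m + y₂ * (l - 2) - m| ≤ ω * h := mul_le_mul_of_nonneg_left q3 hω.le
    linarith
  intro l hl l' hl'
  have e : DD P Q m r x₁ x₂ y₁ y₂ l - DD P Q m r x₁ x₂ y₁ y₂ l'
      = (DD P Q m r x₁ x₂ y₁ y₂ l - (Q m - P m)) - (DD P Q m r x₁ x₂ y₁ y₂ l' - (Q m - P m)) := by
    abel
  rw [e]
  refine (norm_sub_le _ _).trans ?_
  linarith [key l hl, key l' hl']

theorem n1c (hm : 1 ≤ m) (hh : h = 8 * m) (hs : 1 ≤ s) (hP : NeedleCurve m h s β P a b)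
    (hQ : NeedleCurve m h s β Q a' b')
    (h1 : IsExitL P h r x₁) (g1 : IsExitL Q h r y₁) (e1 : ‖y₁ • a' - x₁ • a‖ ≤ ω) :
    Near (DD P Q m r x₁ x₂ y₁ y₂) (Icc (1 - 1 / h) 1) 0 (s * ω) := by
  have hhp : 0 < h := by linarith
  have hinv : 1 / h ≤ 1 := by rw [div_le_one hhp]; linarith
  have form : ∀ (R : ℝ → E3) (v w : E3) (z t : ℝ), NeedleCurve m h s β R v w → IsExitL R h r z →
      ∀ l ∈ Icc (1 - 1 / h) 1, capped R m r z t l = R 0 + ((z * (1 - l)) * s) • v := by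
    intro R v w z t hR hz l hl
    rw [capped_1 (by linarith [hl.1]) hl.2]
    have hz1 := hz.pos
    have hz2 := hz.lt
    have h3 : z * (1 - l) ≤ 1 := by
      have h4 : 1 - l ≤ 1 / h := by linarith [hl.1]
      calc z * (1 - l) ≤ h * (1 / h) := mul_le_mul hz2.le h4 (by linarith [hl.2]) hhp.le
        _ = 1 := by field_simp
    have h5 : 0 ≤ z * (1 - l) := mul_nonneg hz1.le (by linarith [hl.2])
    rw [hR.left1 (-(z * (1 - l))) ⟨by linarith, by linarith⟩, neg_neg]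
  intro l hl l' hl'
  rw [DD, DD, form P a b x₁ x₂ hP h1 l hl, form P a b x₁ x₂ hP h1 l' hl',
    form Q a' b' y₁ y₂ hQ g1 l hl, form Q a' b' y₁ y₂ hQ g1 l' hl']
  have : Q 0 + (y₁ * (1 - l) * s) • a' - (P 0 + (x₁ * (1 - l) * s) • a)
      - (Q 0 + (y₁ * (1 - l') * s) • a' - (P 0 + (x₁ * (1 - l') * s) • a))
      = ((l' - l) * s) • (y₁ • a' - x₁ • a) := by module
  rw [this, norm_smul, Real.norm_eq_abs, abs_mul, abs_sub_comm,
    abs_of_nonneg (by linarith : 0 ≤ s), zero_add]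
  have := mul_le_mul_of_nonneg_left e1 (by positivity : 0 ≤ |l - l'| * s)
  linarith

theorem n3c (hm : 1 ≤ m) (hh : h = 8 * m) (hs : 1 ≤ s) (hP : NeedleCurve m h s β P a b)
    (hQ : NeedleCurve m h s β Q a' b')
    (h2 : IsExitR P m h r x₂) (g2 : IsExitR Q m h r y₂) (e2 : ‖y₂ • b' - x₂ • b‖ ≤ ω) :
    Near (DD P Q m r x₁ x₂ y₁ y₂) (Icc 2 (2 + 1 / h)) 0 (s * ω) := by
  have hhp : 0 < h := by linarith
  have hinv : 1 / h ≤ 1 := by rw [div_le_one hhp]; linarith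
  have form : ∀ (R : ℝ → E3) (v w : E3) (z t : ℝ), NeedleCurve m h s β R v w →
      IsExitR R m h r z →
      ∀ l ∈ Icc 2 (2 + 1 / h), capped R m r t z l = R m + ((z * (l - 2)) * s) • w := by
    intro R v w z t hR hz l hl
    rw [capped_3 hl.1 (by linarith [hl.2])]
    have hz1 := hz.pos
    have hz2 := hz.lt
    have h3 : z * (l - 2) ≤ 1 := by
      have h4 : l - 2 ≤ 1 / h := by linarith [hl.2]
      calc z * (l - 2) ≤ h * (1 / h) := mul_le_mul hz2.le h4 (by linarith [hl.1]) hhp.le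
        _ = 1 := by field_simp
    have h5 : 0 ≤ z * (l - 2) := mul_nonneg hz1.le (by linarith [hl.1])
    rw [hR.right1 (m + z * (l - 2)) ⟨by linarith, by linarith⟩, add_sub_cancel_left]
  intro l hl l' hl'
  rw [DD, DD, form P a b x₂ x₁ hP h2 l hl, form P a b x₂ x₁ hP h2 l' hl',
    form Q a' b' y₂ y₁ hQ g2 l hl, form Q a' b' y₂ y₁ hQ g2 l' hl']
  have : Q m + (y₂ * (l - 2) * s) • b' - (P m + (x₂ * (l - 2) * s) • b)
      - (Q m + (y₂ * (l' - 2) * s) • b' - (P m + (x₂ * (l' - 2) * s) • b))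
      = ((l - l') * s) • (y₂ • b' - x₂ • b) := by module
  rw [this, norm_smul, Real.norm_eq_abs, abs_mul,
    abs_of_nonneg (by linarith : 0 ≤ s), zero_add]
  have := mul_le_mul_of_nonneg_left e2 (by positivity : 0 ≤ |l - l'| * s)
  linarith

theorem n2 (hm : 1 ≤ m) (hh : h = 8 * m)
    (hcl : ∀ x ∈ Icc (-h) (m + h), ∀ y ∈ Icc (-h) (m + h),
      ‖(Q x - P x) - (Q y - P y)‖ ≤ ω * |x - y|) :
    Near (DD P Q m r x₁ x₂ y₁ y₂) (Icc 1 2) 0 (m * ω) := by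
  intro l hl l' hl'
  rw [DD, DD, capped_2 hl.1 hl.2, capped_2 hl.1 hl.2, capped_2 hl'.1 hl'.2, capped_2 hl'.1 hl'.2]
  have := hcl (m * (l - 1)) ⟨by nlinarith [hl.1], by nlinarith [hl.2]⟩ (m * (l' - 1))
    ⟨by nlinarith [hl'.1], by nlinarith [hl'.2]⟩
  refine this.trans (le_of_eq ?_)
  rw [show m * (l - 1) - m * (l' - 1) = m * (l - l') by ring, abs_mul,
    abs_of_nonneg (by linarith : 0 ≤ m)]
  ring

theorem n4 (hr : 0 < r) (w2 : ‖dir Q r (m + y₂) - dir P r (m + x₂)‖ ≤ ω)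
    (T2 : ‖capT Q m r y₁ y₂ • dir Q r (m + y₂) - capT P m r x₁ x₂ • dir P r (m + x₂)‖ ≤ ω) :
    Near (DD P Q m r x₁ x₂ y₁ y₂) (Icc 3 4) 0 ((1 + r) * ω) := by
  intro l hl l' hl'
  rw [DD, DD, capped_4 hr.ne' hl.1 hl.2, capped_4 hr.ne' hl.1 hl.2,
    capped_4 hr.ne' hl'.1 hl'.2, capped_4 hr.ne' hl'.1 hl'.2]
  set T' := capT Q m r y₁ y₂
  set T := capT P m r x₁ x₂
  set u := dir P r (m + x₂)
  set u' := dir Q r (m + y₂)
  have : Q 0 + (r + (l - 3) * (T' - r)) • u' - (P 0 + (r + (l - 3) * (T - r)) • u)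
      - (Q 0 + (r + (l' - 3) * (T' - r)) • u' - (P 0 + (r + (l' - 3) * (T - r)) • u))
      = (l - l') • ((T' • u' - T • u) - r • (u' - u)) := by module
  rw [this, norm_smul, Real.norm_eq_abs, zero_add, mul_comm]
  refine mul_le_mul_of_nonneg_right ?_ (abs_nonneg _)
  refine (norm_sub_le _ _).trans ?_
  rw [norm_smul, Real.norm_of_nonneg hr.le]
  nlinarith

theorem n5 (hr : 0 < r)
    (T2 : ‖capT Q m r y₁ y₂ • dir Q r (m + y₂) - capT P m r x₁ x₂ • dir P r (m + x₂)‖ ≤ ω)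
    (T1 : ‖capT Q m r y₁ y₂ • dir Q r (-y₁) - capT P m r x₁ x₂ • dir P r (-x₁)‖ ≤ ω) :
    Near (DD P Q m r x₁ x₂ y₁ y₂) (Icc 4 5) 0 (3 * ω) := by
  intro l hl l' hl'
  rw [DD, DD, capped_5 hr.ne' hl.1 hl.2, capped_5 hr.ne' hl.1 hl.2,
    capped_5 hr.ne' hl'.1 hl'.2, capped_5 hr.ne' hl'.1 hl'.2]
  set T' := capT Q m r y₁ y₂
  set T := capT P m r x₁ x₂
  set u := dir P r (m + x₂)
  set u' := dir Q r (m + y₂)
  set w := dir P r (-x₁)
  set w' := dir Q r (-y₁)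
  have : Q 0 + ((5 - l) * T') • u' - ((l - 4) * (2 * T')) • w'
        - (P 0 + ((5 - l) * T) • u - ((l - 4) * (2 * T)) • w)
      - (Q 0 + ((5 - l') * T') • u' - ((l' - 4) * (2 * T')) • w'
        - (P 0 + ((5 - l') * T) • u - ((l' - 4) * (2 * T)) • w))
      = (l' - l) • ((T' • u' - T • u) + (2 : ℝ) • (T' • w' - T • w)) := by module
  rw [this, norm_smul, Real.norm_eq_abs, abs_sub_comm, zero_add, mul_comm]
  refine mul_le_mul_of_nonneg_right ?_ (abs_nonneg _)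
  refine (norm_add_le _ _).trans ?_
  rw [norm_smul, Real.norm_of_nonneg (by norm_num : (0 : ℝ) ≤ 2)]
  linarith

theorem n6 (hr : 0 < r) (w1 : ‖dir Q r (-y₁) - dir P r (-x₁)‖ ≤ ω) :
    Near (DD P Q m r x₁ x₂ y₁ y₂) (Ici 5) 0 ω := by
  intro l hl l' hl'
  rw [DD, DD, capped_6 hr.ne' hl, capped_6 hr.ne' hl, capped_6 hr.ne' hl', capped_6 hr.ne' hl']
  set T' := capT Q m r y₁ y₂
  set T := capT P m r x₁ x₂
  set w := dir P r (-x₁)
  set w' := dir Q r (-y₁)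
  have : Q 0 - (2 * T' + (l - 5)) • w' - (P 0 - (2 * T + (l - 5)) • w)
      - (Q 0 - (2 * T' + (l' - 5)) • w' - (P 0 - (2 * T + (l' - 5)) • w))
      = (l' - l) • (w' - w) := by module
  rw [this, norm_smul, Real.norm_eq_abs, abs_sub_comm, zero_add, mul_comm]
  exact mul_le_mul_of_nonneg_right w1 (abs_nonneg _)


theorem x1_ge (hm : 1 ≤ m) (hh : h = 8 * m) (hs : 1 ≤ s) (hs2 : s ≤ 2) (hβ : 0 ≤ β)
    (hβ2 : β ≤ 1 / 16) (hr : r = 4 * m) (hP : NeedleCurve m h s β P a b)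
    (h1 : IsExitL P h r x₁) : 1 ≤ x₁ := by
  have hx := h1.pos
  have hxh := h1.lt
  have q2 := lipL hs hP (x := -x₁) (y := 0) ⟨by linarith, by linarith⟩ ⟨by linarith, le_rfl⟩
  rw [h1.eq, sub_zero, abs_neg, abs_of_pos hx] at q2
  have q5 : s * (1 + β) ≤ 3 := by nlinarith
  nlinarith

theorem x2_ge (hm : 1 ≤ m) (hh : h = 8 * m) (hs : 1 ≤ s) (hs2 : s ≤ 2) (hβ : 0 ≤ β)
    (hβ2 : β ≤ 1 / 16) (hr : r = 4 * m) (hP : NeedleCurve m h s β P a b)
    (h2 : IsExitR P m h r x₂) : 3 * m ≤ x₂ * s * (1 + β) ∧ 1 ≤ x₂ := by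
  have hx := h2.pos
  have hxh := h2.lt
  have q2 := lipR hs hP (x := m + x₂) (y := m) ⟨by linarith, by linarith⟩ ⟨by linarith, by linarith⟩
  rw [add_sub_cancel_left, abs_of_pos hx] at q2
  have hmid : ‖P m - P 0‖ ≤ m := by
    have := hP.mid m ⟨by linarith, le_rfl⟩ 0 ⟨le_rfl, by linarith⟩
    rwa [sub_zero, abs_of_nonneg (by linarith)] at this
  have q3 : ‖P (m + x₂) - P 0‖ ≤ ‖P (m + x₂) - P m‖ + ‖P m - P 0‖ := by
    have : P (m + x₂) - P 0 = (P (m + x₂) - P m) + (P m - P 0) := by abel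
    rw [this]; exact norm_add_le _ _
  rw [h2.eq] at q3
  have q5 : s * (1 + β) ≤ 3 := by nlinarith
  constructor
  · linarith
  · nlinarith

theorem low1 (hs : 1 ≤ s) (hP : NeedleCurve m h s β P a b) (h1 : IsExitL P h r x₁) {l l' : ℝ}
    (hl : l ∈ Icc (0 : ℝ) 1) (hl' : l' ∈ Icc (0 : ℝ) 1) :
    x₁ * s * (1 - β) * |l - l'| ≤ ‖capped P m r x₁ x₂ l - capped P m r x₁ x₂ l'‖ := by
  have h3 := k1 (x₂ := x₂) hP h1 hl hl'
  have hx := h1.pos
  set A := capped P m r x₁ x₂ l - capped P m r x₁ x₂ l' with hA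
  have h4 : ‖((l' - l) * (x₁ * s)) • a‖ ≤ ‖A‖ + ‖A - ((l' - l) * (x₁ * s)) • a‖ := by
    calc ‖((l' - l) * (x₁ * s)) • a‖ = ‖A - (A - ((l' - l) * (x₁ * s)) • a)‖ := by congr 1; abel
      _ ≤ _ := norm_sub_le _ _
  rw [norm_smul, hP.ha, mul_one, Real.norm_eq_abs, abs_mul, abs_sub_comm,
    abs_of_nonneg (mul_nonneg hx.le (by linarith : 0 ≤ s))] at h4
  linarith

theorem low3 (hs : 1 ≤ s) (hP : NeedleCurve m h s β P a b) (h2 : IsExitR P m h r x₂) {l l' : ℝ}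
    (hl : l ∈ Icc (2 : ℝ) 3) (hl' : l' ∈ Icc (2 : ℝ) 3) :
    x₂ * s * (1 - β) * |l - l'| ≤ ‖capped P m r x₁ x₂ l - capped P m r x₁ x₂ l'‖ := by
  have h3 := k3 (x₁ := x₁) hP h2 hl hl'
  have hx := h2.pos
  set A := capped P m r x₁ x₂ l - capped P m r x₁ x₂ l' with hA
  have h4 : ‖((l - l') * (x₂ * s)) • b‖ ≤ ‖A‖ + ‖A - ((l - l') * (x₂ * s)) • b‖ := by
    calc ‖((l - l') * (x₂ * s)) • b‖ = ‖A - (A - ((l - l') * (x₂ * s)) • b)‖ := by congr 1; abel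
      _ ≤ _ := norm_sub_le _ _
  rw [norm_smul, hP.hb, mul_one, Real.norm_eq_abs, abs_mul,
    abs_of_nonneg (mul_nonneg hx.le (by linarith : 0 ≤ s))] at h4
  linarith

theorem J1 (hm : 1 ≤ m) (hh : h = 8 * m) (hs : 1 ≤ s) (hs2 : s ≤ 2)
    (hβ : 0 ≤ β) (hβ2 : β ≤ 1 / 16) (hβκ : β ≤ κ / 16) (hr : r = 4 * m) (hκ0 : 0 < κ)
    (hP : NeedleCurve m h s β P a b) (hQ : NeedleCurve m h s β Q a' b')
    (h1 : IsExitL P h r x₁) (g1 : IsExitL Q h r y₁)
    (hω : 0 < ω) (hω1 : ω ≤ κ / 10)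
    (e1 : ‖y₁ • a' - x₁ • a‖ ≤ ω) (f1 : |y₁ - x₁| ≤ ω)
    (w1 : ‖dir Q r (-y₁) - dir P r (-x₁)‖ ≤ ω) :
    ∀ l ∈ Iic (1 : ℝ), ∀ l' ∈ Iic (1 : ℝ),
      ‖DD P Q m r x₁ x₂ y₁ y₂ l - DD P Q m r x₁ x₂ y₁ y₂ l'‖
        ≤ κ * ‖capped P m r x₁ x₂ l - capped P m r x₁ x₂ l'‖ := by
  have hrp : 0 < r := by linarith
  have hx := h1.pos
  have hxh := h1.lt
  have hx1 := x1_ge hm hh hs hs2 hβ hβ2 hr hP h1
  have c0 : ∀ l ∈ Iic (0 : ℝ), ∀ l' ∈ Iic (0 : ℝ),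
      ‖DD P Q m r x₁ x₂ y₁ y₂ l - DD P Q m r x₁ x₂ y₁ y₂ l'‖
        ≤ κ / 4 * ‖capped P m r x₁ x₂ l - capped P m r x₁ x₂ l'‖ := by
    intro l hl l' hl'
    have h3 := n0 (m := m) (x₂ := x₂) (y₂ := y₂) w1 l hl l' hl'
    have h4 : ‖capped P m r x₁ x₂ l - capped P m r x₁ x₂ l'‖ = |l - l'| := by
      rw [capped_0 hl, capped_0 hl']
      have : P (-x₁) + (-l) • dir P r (-x₁) - (P (-x₁) + (-l') • dir P r (-x₁))
        = (l' - l) • dir P r (-x₁) := by module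
      rw [this, norm_smul, norm_dir_L hrp h1, mul_one, Real.norm_eq_abs, abs_sub_comm]
    rw [h4]
    have := abs_nonneg (l - l')
    nlinarith
  have c1 : ∀ l ∈ Icc (0 : ℝ) 1, ∀ l' ∈ Icc (0 : ℝ) 1,
      ‖DD P Q m r x₁ x₂ y₁ y₂ l - DD P Q m r x₁ x₂ y₁ y₂ l'‖
        ≤ κ / 4 * ‖capped P m r x₁ x₂ l - capped P m r x₁ x₂ l'‖ := by
    intro l hl l' hl'
    have h3 := n1 (x₂ := x₂) (y₂ := y₂) hs hP hQ h1 g1 e1 l hl l' hl'
    have h4 := low1 (x₂ := x₂) hs hP h1 hl hl'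
    have h5 : s * (ω + β * (x₁ + y₁)) ≤ κ / 4 * (x₁ * s * (1 - β)) := by
      have h6 : y₁ ≤ x₁ + ω := by linarith [(abs_le.1 f1).2]
      have h7 : ω + β * (x₁ + y₁) ≤ κ / 4 * (x₁ * (1 - β)) := by
        have t1 : β * y₁ ≤ β * (x₁ + ω) := mul_le_mul_of_nonneg_left h6 hβ
        have t2 : β * ω ≤ 1 / 16 * ω := mul_le_mul_of_nonneg_right hβ2 hω.le
        have t3 : β * x₁ ≤ κ / 16 * x₁ := mul_le_mul_of_nonneg_right hβκ hx.le
        have t4 : κ * x₁ * β ≤ κ * x₁ * (1 / 16) := mul_le_mul_of_nonneg_left hβ2 (by positivity)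
        have t5 : κ * 1 ≤ κ * x₁ := mul_le_mul_of_nonneg_left hx1 hκ0.le
        nlinarith
      calc s * (ω + β * (x₁ + y₁)) ≤ s * (κ / 4 * (x₁ * (1 - β))) :=
            mul_le_mul_of_nonneg_left h7 (by linarith)
        _ = _ := by ring
    rw [zero_add] at h3
    have h8 := mul_le_mul_of_nonneg_right h5 (abs_nonneg (l - l'))
    have h9 := mul_le_mul_of_nonneg_left h4 (by positivity : 0 ≤ κ / 4)
    linarith
  have mixed : ∀ l ∈ Iic (0 : ℝ), ∀ l' ∈ Icc (0 : ℝ) 1,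
      ‖DD P Q m r x₁ x₂ y₁ y₂ l - DD P Q m r x₁ x₂ y₁ y₂ l'‖
        ≤ κ * ‖capped P m r x₁ x₂ l - capped P m r x₁ x₂ l'‖ := by
    intro l hl l' hl'
    have d1 := c0 l hl 0 (le_refl (0 : ℝ))
    have d2 := c1 0 ⟨le_rfl, by norm_num⟩ l' hl'
    have hin : 0 ≤ inner ℝ (capped P m r x₁ x₂ l - capped P m r x₁ x₂ 0)
        (capped P m r x₁ x₂ 0 - capped P m r x₁ x₂ l') := by
      have hu : capped P m r x₁ x₂ l - capped P m r x₁ x₂ 0
          = ((-l) * r⁻¹) • (P (-x₁) - P 0) := by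
        rw [capped_0 hl, capped_0 le_rfl, dir]; module
      have hv0 : ‖(P (-x₁) - P 0) - (x₁ * s) • a‖ ≤ (x₁ * s) * β := by
        have := hP.left (-x₁) ⟨by linarith, by linarith⟩ 0 ⟨by linarith, le_rfl⟩
        rw [zero_sub, neg_neg, sub_zero, abs_neg, abs_of_pos hx] at this
        linarith
      have hv := k1 (x₂ := x₂) hP h1 (l := 0) (l' := l') ⟨le_rfl, by norm_num⟩ hl'
      rw [zero_sub, abs_neg, abs_of_nonneg hl'.1, sub_zero] at hv
      have hi := inner_needle_lower (c := x₁ * s) (d := l' * (x₁ * s)) (β := β) (v := a)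
        (e := (P (-x₁) - P 0) - (x₁ * s) • a)
        (f := capped P m r x₁ x₂ 0 - capped P m r x₁ x₂ l' - (l' * (x₁ * s)) • a)
        (by nlinarith) (mul_nonneg hl'.1 (by nlinarith)) hP.ha hv0 (by linarith) hβ
      rw [add_sub_cancel, add_sub_cancel] at hi
      rw [hu, inner_smul_left]
      have hz : 0 ≤ x₁ * s * (l' * (x₁ * s)) * (1 - 2 * β - β ^ 2) := by
        have t0 : 0 ≤ 1 - 2 * β - β ^ 2 := by nlinarith
        have t1 : 0 ≤ x₁ * s := by nlinarith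
        exact mul_nonneg (mul_nonneg t1 (mul_nonneg hl'.1 t1)) t0
      have hl0 : 0 ≤ -l := by linarith [mem_Iic.1 hl]
      refine mul_nonneg ?_ (hz.trans hi)
      simp only [conj_trivial]
      positivity
    have h5 := half_add_le hin
    have e5 : capped P m r x₁ x₂ l - capped P m r x₁ x₂ 0
        + (capped P m r x₁ x₂ 0 - capped P m r x₁ x₂ l')
        = capped P m r x₁ x₂ l - capped P m r x₁ x₂ l' := by abel
    rw [e5] at h5
    have e6 : DD P Q m r x₁ x₂ y₁ y₂ l - DD P Q m r x₁ x₂ y₁ y₂ l'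
        = (DD P Q m r x₁ x₂ y₁ y₂ l - DD P Q m r x₁ x₂ y₁ y₂ 0)
          + (DD P Q m r x₁ x₂ y₁ y₂ 0 - DD P Q m r x₁ x₂ y₁ y₂ l') := by abel
    rw [e6]
    refine (norm_add_le _ _).trans ?_
    have h6 := mul_le_mul_of_nonneg_left h5 hκ0.le
    have h7 := mul_nonneg hκ0.le (norm_nonneg (capped P m r x₁ x₂ l - capped P m r x₁ x₂ 0))
    have h8 := mul_nonneg hκ0.le (norm_nonneg (capped P m r x₁ x₂ 0 - capped P m r x₁ x₂ l'))
    nlinarith
  have up : ∀ z : ℝ, 0 ≤ z → κ / 4 * z ≤ κ * z := fun z hz => by nlinarith [mul_nonneg hκ0.le hz]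
  intro l hl l' hl'
  rcases le_total l 0 with q | q <;> rcases le_total l' 0 with q' | q'
  · exact (c0 l q l' q').trans (up _ (norm_nonneg _))
  · exact mixed l q l' ⟨q', hl'⟩
  · rw [norm_sub_rev, norm_sub_rev (capped P m r x₁ x₂ l)]
    exact mixed l' q' l ⟨q, hl⟩
  · exact (c1 l ⟨q, hl⟩ l' ⟨q', hl'⟩).trans (up _ (norm_nonneg _))

set_option maxHeartbeats 1000000 in
theorem J3 (hm : 1 ≤ m) (hh : h = 8 * m) (hs : 1 ≤ s) (hs2 : s ≤ 2)
    (hβ : 0 ≤ β) (hβ2 : β ≤ 1 / 16) (hβκ : β ≤ κ / 16) (hr : r = 4 * m) (hκ0 : 0 < κ)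
    (hP : NeedleCurve m h s β P a b) (hQ : NeedleCurve m h s β Q a' b')
    (h2 : IsExitR P m h r x₂) (g2 : IsExitR Q m h r y₂)
    (hT : 4 * r ≤ capT P m r x₁ x₂)
    (hω : 0 < ω) (hω1 : ω ≤ κ / 10)
    (e2 : ‖y₂ • b' - x₂ • b‖ ≤ ω) (f2 : |y₂ - x₂| ≤ ω)
    (w2 : ‖dir Q r (m + y₂) - dir P r (m + x₂)‖ ≤ ω)
    (T2 : ‖capT Q m r y₁ y₂ • dir Q r (m + y₂) - capT P m r x₁ x₂ • dir P r (m + x₂)‖ ≤ ω) :
    ∀ l ∈ Icc (2 : ℝ) 4, ∀ l' ∈ Icc (2 : ℝ) 4,
      ‖DD P Q m r x₁ x₂ y₁ y₂ l - DD P Q m r x₁ x₂ y₁ y₂ l'‖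
        ≤ κ * ‖capped P m r x₁ x₂ l - capped P m r x₁ x₂ l'‖ := by
  have hrp : 0 < r := by linarith
  have hx := h2.pos
  have hxh := h2.lt
  obtain ⟨hx3, hx1⟩ := x2_ge hm hh hs hs2 hβ hβ2 hr hP h2
  have c0 : ∀ l ∈ Icc (3 : ℝ) 4, ∀ l' ∈ Icc (3 : ℝ) 4,
      ‖DD P Q m r x₁ x₂ y₁ y₂ l - DD P Q m r x₁ x₂ y₁ y₂ l'‖
        ≤ κ / 4 * ‖capped P m r x₁ x₂ l - capped P m r x₁ x₂ l'‖ := by
    intro l hl l' hl'
    have h3 := n4 (x₁ := x₁) (y₁ := y₁) hrp w2 T2 l hl l' hl'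
    have h4 : ‖capped P m r x₁ x₂ l - capped P m r x₁ x₂ l'‖
        = |l - l'| * (capT P m r x₁ x₂ - r) := by
      rw [capped_4 hrp.ne' hl.1 hl.2, capped_4 hrp.ne' hl'.1 hl'.2]
      set T := capT P m r x₁ x₂
      have : P 0 + (r + (l - 3) * (T - r)) • dir P r (m + x₂)
          - (P 0 + (r + (l' - 3) * (T - r)) • dir P r (m + x₂))
        = ((l - l') * (T - r)) • dir P r (m + x₂) := by module
      rw [this, norm_smul, norm_dir_R hrp h2, mul_one, Real.norm_eq_abs, abs_mul,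
        abs_of_nonneg (by linarith : 0 ≤ T - r)]
    rw [h4]
    have h5 := abs_nonneg (l - l')
    have h6 : (1 + r) * ω ≤ κ / 4 * (capT P m r x₁ x₂ - r) := by
      have : κ / 4 * (3 * r) ≤ κ / 4 * (capT P m r x₁ x₂ - r) :=
        mul_le_mul_of_nonneg_left (by linarith) (by positivity)
      nlinarith
    have h7 := mul_le_mul_of_nonneg_right h6 h5
    linarith
  have c1 : ∀ l ∈ Icc (2 : ℝ) 3, ∀ l' ∈ Icc (2 : ℝ) 3,
      ‖DD P Q m r x₁ x₂ y₁ y₂ l - DD P Q m r x₁ x₂ y₁ y₂ l'‖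
        ≤ κ / 4 * ‖capped P m r x₁ x₂ l - capped P m r x₁ x₂ l'‖ := by
    intro l hl l' hl'
    have h3 := n3 (x₁ := x₁) (y₁ := y₁) hs hP hQ h2 g2 e2 l hl l' hl'
    have h4 := low3 (x₁ := x₁) hs hP h2 hl hl'
    have h5 : s * (ω + β * (x₂ + y₂)) ≤ κ / 4 * (x₂ * s * (1 - β)) := by
      have h6 : y₂ ≤ x₂ + ω := by linarith [(abs_le.1 f2).2]
      have h7 : ω + β * (x₂ + y₂) ≤ κ / 4 * (x₂ * (1 - β)) := by
        have t1 : β * y₂ ≤ β * (x₂ + ω) := mul_le_mul_of_nonneg_left h6 hβ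
        have t2 : β * ω ≤ 1 / 16 * ω := mul_le_mul_of_nonneg_right hβ2 hω.le
        have t3 : β * x₂ ≤ κ / 16 * x₂ := mul_le_mul_of_nonneg_right hβκ hx.le
        have t4 : κ * x₂ * β ≤ κ * x₂ * (1 / 16) := mul_le_mul_of_nonneg_left hβ2 (by positivity)
        have t5 : κ * 1 ≤ κ * x₂ := mul_le_mul_of_nonneg_left hx1 hκ0.le
        nlinarith
      calc s * (ω + β * (x₂ + y₂)) ≤ s * (κ / 4 * (x₂ * (1 - β))) :=
            mul_le_mul_of_nonneg_left h7 (by linarith)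
        _ = _ := by ring
    rw [zero_add] at h3
    have h8 := mul_le_mul_of_nonneg_right h5 (abs_nonneg (l - l'))
    have h9 := mul_le_mul_of_nonneg_left h4 (by positivity : 0 ≤ κ / 4)
    linarith
  have mixed : ∀ l' ∈ Icc (3 : ℝ) 4, ∀ l ∈ Icc (2 : ℝ) 3,
      ‖DD P Q m r x₁ x₂ y₁ y₂ l' - DD P Q m r x₁ x₂ y₁ y₂ l‖
        ≤ κ * ‖capped P m r x₁ x₂ l' - capped P m r x₁ x₂ l‖ := by
    intro l' hl' l hl
    have d1 := c0 l' hl' 3 ⟨le_rfl, by norm_num⟩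
    have d2 := c1 3 ⟨by norm_num, le_rfl⟩ l hl
    have hin : 0 ≤ inner ℝ (capped P m r x₁ x₂ l' - capped P m r x₁ x₂ 3)
        (capped P m r x₁ x₂ 3 - capped P m r x₁ x₂ l) := by
      have hu : capped P m r x₁ x₂ l' - capped P m r x₁ x₂ 3
          = ((l' - 3) * (capT P m r x₁ x₂ - r) * r⁻¹) • (P (m + x₂) - P 0) := by
        rw [capped_4 hrp.ne' hl'.1 hl'.2, capped_4 hrp.ne' le_rfl (by norm_num), dir]; module
      have hv0 : ‖(P (m + x₂) - P m) - (x₂ * s) • b‖ ≤ (x₂ * s) * β := by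
        have := hP.right (m + x₂) ⟨by linarith, by linarith⟩ m ⟨by linarith, by linarith⟩
        rw [add_sub_cancel_left, abs_of_pos hx] at this
        linarith
      have hv := k3 (x₁ := x₁) hP h2 (l := 3) (l' := l) ⟨by norm_num, le_rfl⟩ hl
      rw [abs_of_nonneg (by linarith [hl.2] : 0 ≤ 3 - l)] at hv
      have hl3 : 0 ≤ 3 - l := by linarith [hl.2]
      have hxs : 0 ≤ x₂ * s := by nlinarith
      have hi := inner_needle_lower (c := x₂ * s) (d := (3 - l) * (x₂ * s)) (β := β) (v := b)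
        (e := (P (m + x₂) - P m) - (x₂ * s) • b)
        (f := capped P m r x₁ x₂ 3 - capped P m r x₁ x₂ l - ((3 - l) * (x₂ * s)) • b)
        hxs (mul_nonneg hl3 hxs) hP.hb hv0 (by linarith) hβ
      rw [add_sub_cancel, add_sub_cancel] at hi
      have hnb := needle_norm_bounds (c := (3 - l) * (x₂ * s)) (β := β) (v := b)
        (w := capped P m r x₁ x₂ 3 - capped P m r x₁ x₂ l) (mul_nonneg hl3 hxs) hP.hb (by linarith)
      have hmid : ‖P m - P 0‖ ≤ m := by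
        have := hP.mid m ⟨by linarith, le_rfl⟩ 0 ⟨le_rfl, by linarith⟩
        rwa [sub_zero, abs_of_nonneg (by linarith)] at this
      have h6 : -(m * ((3 - l) * (x₂ * s) * (1 + β))) ≤
          inner ℝ (P m - P 0) (capped P m r x₁ x₂ 3 - capped P m r x₁ x₂ l) := by
        have := (abs_le.1 (abs_real_inner_le_norm (P m - P 0)
          (capped P m r x₁ x₂ 3 - capped P m r x₁ x₂ l))).1
        have h7 : ‖P m - P 0‖ * ‖capped P m r x₁ x₂ 3 - capped P m r x₁ x₂ l‖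
            ≤ m * ((3 - l) * (x₂ * s) * (1 + β)) :=
          mul_le_mul hmid hnb.2 (norm_nonneg _) (by linarith)
        linarith
      have h8 : inner ℝ (P (m + x₂) - P 0) (capped P m r x₁ x₂ 3 - capped P m r x₁ x₂ l)
          = inner ℝ (P (m + x₂) - P m) (capped P m r x₁ x₂ 3 - capped P m r x₁ x₂ l)
            + inner ℝ (P m - P 0) (capped P m r x₁ x₂ 3 - capped P m r x₁ x₂ l) := by
        rw [← inner_add_left]; congr 1; abel
      have h9 : 0 ≤ inner ℝ (P (m + x₂) - P 0) (capped P m r x₁ x₂ 3 - capped P m r x₁ x₂ l) := by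
        rw [h8]
        have t0 : 1 - 1 / 8 - 1 / 256 ≤ 1 - 2 * β - β ^ 2 := by nlinarith
        have t1 : 2.8 * m ≤ x₂ * s := by nlinarith
        have t2 : (x₂ * s) * (1 - 1 / 8 - 1 / 256) ≤ (x₂ * s) * (1 - 2 * β - β ^ 2) :=
          mul_le_mul_of_nonneg_left t0 hxs
        have t3 : 0 ≤ (x₂ * s) * (1 - 2 * β - β ^ 2) - m * (1 + β) := by nlinarith
        have t4 := mul_nonneg (mul_nonneg hl3 hxs) t3
        nlinarith
      rw [hu, inner_smul_left]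
      refine mul_nonneg ?_ h9
      simp only [conj_trivial]
      have hl0 : 0 ≤ l' - 3 := by linarith [hl'.1]
      have hT0 : 0 ≤ capT P m r x₁ x₂ - r := by linarith
      positivity
    have h5 := half_add_le hin
    have e5 : capped P m r x₁ x₂ l' - capped P m r x₁ x₂ 3
        + (capped P m r x₁ x₂ 3 - capped P m r x₁ x₂ l)
        = capped P m r x₁ x₂ l' - capped P m r x₁ x₂ l := by abel
    rw [e5] at h5
    have e6 : DD P Q m r x₁ x₂ y₁ y₂ l' - DD P Q m r x₁ x₂ y₁ y₂ l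
        = (DD P Q m r x₁ x₂ y₁ y₂ l' - DD P Q m r x₁ x₂ y₁ y₂ 3)
          + (DD P Q m r x₁ x₂ y₁ y₂ 3 - DD P Q m r x₁ x₂ y₁ y₂ l) := by abel
    rw [e6]
    refine (norm_add_le _ _).trans ?_
    have h6 := mul_le_mul_of_nonneg_left h5 hκ0.le
    have h7 := mul_nonneg hκ0.le (norm_nonneg (capped P m r x₁ x₂ l' - capped P m r x₁ x₂ 3))
    have h8 := mul_nonneg hκ0.le (norm_nonneg (capped P m r x₁ x₂ 3 - capped P m r x₁ x₂ l))
    nlinarith
  have up : ∀ z : ℝ, 0 ≤ z → κ / 4 * z ≤ κ * z := fun z hz => by nlinarith [mul_nonneg hκ0.le hz]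
  intro l hl l' hl'
  rcases le_total l 3 with q | q <;> rcases le_total l' 3 with q' | q'
  · exact (c1 l ⟨hl.1, q⟩ l' ⟨hl'.1, q'⟩).trans (up _ (norm_nonneg _))
  · rw [norm_sub_rev, norm_sub_rev (capped P m r x₁ x₂ l)]
    exact mixed l' ⟨q', hl'.2⟩ l ⟨hl.1, q⟩
  · exact mixed l ⟨q, hl.2⟩ l' ⟨hl'.1, q'⟩
  · exact (c0 l ⟨q, hl.2⟩ l' ⟨q', hl'.2⟩).trans (up _ (norm_nonneg _))

theorem det_bound (hm : 1 ≤ m) (hh : h = 8 * m) (hs : 1 ≤ s) (hs2 : s ≤ 2)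
    (hβ : 0 ≤ β) (hβ2 : β ≤ 1 / 16) (hβκ : β ≤ κ / 16) (hr : r = 4 * m) (hκ0 : 0 < κ)
    (hP : NeedleCurve m h s β P a b) (hQ : NeedleCurve m h s β Q a' b')
    (h1 : IsExitL P h r x₁) (g1 : IsExitL Q h r y₁)
    (h2 : IsExitR P m h r x₂) (g2 : IsExitR Q m h r y₂)
    (hlow : ∀ l l', c * |l - l'| ≤ ‖capped P m r x₁ x₂ l - capped P m r x₁ x₂ l'‖)
    (hT : 4 * r ≤ capT P m r x₁ x₂)
    (hω : 0 < ω) (hω1 : ω ≤ κ / 10) (hω2 : (4 * (h + 3) * h + 3 + r) * ω ≤ κ * c)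
    (e1 : ‖y₁ • a' - x₁ • a‖ ≤ ω) (f1 : |y₁ - x₁| ≤ ω)
    (e2 : ‖y₂ • b' - x₂ • b‖ ≤ ω) (f2 : |y₂ - x₂| ≤ ω)
    (w1 : ‖dir Q r (-y₁) - dir P r (-x₁)‖ ≤ ω)
    (w2 : ‖dir Q r (m + y₂) - dir P r (m + x₂)‖ ≤ ω)
    (T2 : ‖capT Q m r y₁ y₂ • dir Q r (m + y₂) - capT P m r x₁ x₂ • dir P r (m + x₂)‖ ≤ ω)
    (T1 : ‖capT Q m r y₁ y₂ • dir Q r (-y₁) - capT P m r x₁ x₂ • dir P r (-x₁)‖ ≤ ω)
    (hcl : ∀ x ∈ Icc (-h) (m + h), ∀ y ∈ Icc (-h) (m + h),
      ‖(Q x - P x) - (Q y - P y)‖ ≤ ω * |x - y|) :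
    ∀ l l', ‖DD P Q m r x₁ x₂ y₁ y₂ l - DD P Q m r x₁ x₂ y₁ y₂ l'‖
        ≤ κ * ‖capped P m r x₁ x₂ l - capped P m r x₁ x₂ l'‖ := by
  have hrp : 0 < r := by linarith
  have hhp : 0 < h := by linarith
  have hh1 : 1 ≤ h := by linarith
  have hinvp : 0 < 1 / h := by positivity
  have hinv : 1 / h ≤ 1 := by rw [div_le_one hhp]; linarith
  set D := DD P Q m r x₁ x₂ y₁ y₂ with hD
  have N0 : Near D (Iic 0) 0 ω := n0 w1
  have N1b : Near D (Icc 0 1) (2 * ((h + 3) * ω)) 0 := n1b hm hh hs hs2 hβ hβ2 hω hP h1 g1 f1 hcl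
  have N1c : Near D (Icc (1 - 1 / h) 1) 0 (s * ω) := n1c hm hh hs hP hQ h1 g1 e1
  have N2 : Near D (Icc 1 2) 0 (m * ω) := n2 hm hh hcl
  have N3b : Near D (Icc 2 3) (2 * ((h + 3) * ω)) 0 := n3b hm hh hs hs2 hβ hβ2 hω hP h2 g2 f2 hcl
  have N3c : Near D (Icc 2 (2 + 1 / h)) 0 (s * ω) := n3c hm hh hs hP hQ h2 g2 e2
  have N4 : Near D (Icc 3 4) 0 ((1 + r) * ω) := n4 hrp w2 T2
  have N5 : Near D (Icc 4 5) 0 (3 * ω) := n5 hrp T2 T1
  have N6 : Near D (Ici 5) 0 ω := n6 hrp w1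
  set L := (3 + r) * ω with hL
  have hLp : 0 < L := by positivity
  have L0 : ω ≤ L := by rw [hL]; nlinarith
  have L1 : s * ω ≤ L := by rw [hL]; nlinarith
  have L2 : m * ω ≤ L := by rw [hL]; nlinarith
  have L4 : (1 + r) * ω ≤ L := by rw [hL]; nlinarith
  have L5 : 3 * ω ≤ L := by rw [hL]; nlinarith
  have hE : 0 ≤ 2 * ((h + 3) * ω) := by positivity
  -- the last three pieces
  have N456 : Near D (Ici 3) 0 L := by
    have s1 := (N5.mono subset_rfl le_rfl L5).chain (b := 5) le_rfl le_rfl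
      (N6.mono subset_rfl le_rfl L0) (fun x hx => hx.2) (fun x hx => hx)
      ⟨by norm_num, le_rfl⟩ (le_refl (5 : ℝ))
    have s2 := (N4.mono subset_rfl le_rfl L4).chain (b := 4) le_rfl (by norm_num)
      s1 (fun x hx => hx.2) (fun x hx => by
        rcases hx with hx | hx
        · exact hx.1
        · exact le_trans (by norm_num) (mem_Ici.1 hx)) ⟨by norm_num, le_rfl⟩
        (Or.inl ⟨le_rfl, by norm_num⟩)
    refine s2.mono ?_ (by norm_num) le_rfl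
    intro x hx
    rcases le_total x 4 with q | q
    · exact Or.inl ⟨hx, q⟩
    · rcases le_total x 5 with q2 | q2
      · exact Or.inr (Or.inl ⟨q, q2⟩)
      · exact Or.inr (Or.inr q2)
  -- middle
  have N123 : Near D (Icc (1 - 1 / h) (2 + 1 / h)) 0 L := by
    have s1 := (N2.mono subset_rfl le_rfl L2).chain (b := 2) le_rfl le_rfl
      (N3c.mono subset_rfl le_rfl L1) (fun x hx => hx.2) (fun x hx => hx.1)
      ⟨by norm_num, le_rfl⟩ ⟨le_rfl, by linarith⟩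
    have s2 := (N1c.mono subset_rfl le_rfl L1).chain (b := 1) le_rfl (by norm_num)
      s1 (fun x hx => hx.2) (fun x hx => by
        rcases hx with hx | hx
        · exact hx.1
        · exact le_trans (by norm_num) hx.1) ⟨by linarith, le_rfl⟩
        (Or.inl ⟨le_rfl, by norm_num⟩)
    refine s2.mono ?_ (by norm_num) le_rfl
    intro x hx
    rcases le_total x 1 with q | q
    · exact Or.inl ⟨hx.1, q⟩
    · rcases le_total x 2 with q2 | q2
      · exact Or.inr (Or.inl ⟨q, q2⟩)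
      · exact Or.inr (Or.inr ⟨q2, hx.2⟩)
  -- everything
  have Nall : Near D univ (2 * ((h + 3) * ω) + 2 * ((h + 3) * ω)) L := by
    have s1 := (N3b.mono subset_rfl le_rfl hLp.le).chain (b := 3) hE le_rfl
      N456 (fun x hx => hx.2) (fun x hx => hx) ⟨by norm_num, le_rfl⟩ (le_refl (3 : ℝ))
    have s2 := (N2.mono subset_rfl le_rfl L2).chain (b := 2) le_rfl (by linarith)
      s1 (fun x hx => hx.2) (fun x hx => by
        rcases hx with hx | hx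
        · exact hx.1
        · exact le_trans (by norm_num) (mem_Ici.1 hx)) ⟨by norm_num, le_rfl⟩
        (Or.inl ⟨le_rfl, by norm_num⟩)
    have s3 := (N1b.mono subset_rfl le_rfl hLp.le).chain (b := 1) hE (by linarith)
      s2 (fun x hx => hx.2) (fun x hx => by
        rcases hx with hx | hx | hx
        · exact hx.1
        · exact le_trans (by norm_num) hx.1
        · exact le_trans (by norm_num) (mem_Ici.1 hx)) ⟨by norm_num, le_rfl⟩
        (Or.inl ⟨le_rfl, by norm_num⟩)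
    have s4 := (N0.mono subset_rfl le_rfl L0).chain (b := 0) le_rfl (by linarith)
      s3 (fun x hx => hx) (fun x hx => by
        rcases hx with hx | hx | hx | hx
        · exact hx.1
        · exact le_trans (by norm_num) hx.1
        · exact le_trans (by norm_num) hx.1
        · exact le_trans (by norm_num) (mem_Ici.1 hx)) (le_refl (0 : ℝ))
        (Or.inl ⟨le_rfl, by norm_num⟩)
    refine s4.mono ?_ (by linarith) le_rfl
    intro x _
    rcases le_total x 0 with q | q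
    · exact Or.inl q
    rcases le_total x 1 with q1 | q1
    · exact Or.inr (Or.inl ⟨q, q1⟩)
    rcases le_total x 2 with q2 | q2
    · exact Or.inr (Or.inr (Or.inl ⟨q1, q2⟩))
    rcases le_total x 3 with q3 | q3
    · exact Or.inr (Or.inr (Or.inr (Or.inl ⟨q2, q3⟩)))
    · exact Or.inr (Or.inr (Or.inr (Or.inr q3)))
  have hLc : L ≤ κ * c := by
    refine le_trans ?_ hω2
    rw [hL]
    have : 0 ≤ (4 * (h + 3) * h) * ω := by positivity
    linarith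
  have lipc : ∀ l l', ‖D l - D l'‖ ≤ L * |l - l'| →
      ‖D l - D l'‖ ≤ κ * ‖capped P m r x₁ x₂ l - capped P m r x₁ x₂ l'‖ := by
    intro l l' hll
    refine hll.trans ?_
    have t1 := mul_le_mul_of_nonneg_right hLc (abs_nonneg (l - l'))
    have t2 := mul_le_mul_of_nonneg_left (hlow l l') hκ0.le
    linarith
  have j1 := J1 (x₂ := x₂) (y₂ := y₂) hm hh hs hs2 hβ hβ2 hβκ hr hκ0 hP hQ h1 g1 hω hω1 e1 f1 w1
  have j3 := J3 (x₁ := x₁) (y₁ := y₁) hm hh hs hs2 hβ hβ2 hβκ hr hκ0 hP hQ h2 g2 hT hω hω1 e2 f2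
    w2 T2
  have main : ∀ l l', l ≤ l' → ‖D l - D l'‖
      ≤ κ * ‖capped P m r x₁ x₂ l - capped P m r x₁ x₂ l'‖ := by
    intro l l' hll
    rcases lt_or_ge (l' - l) (1 / h) with hn | hf
    · -- near
      rcases le_or_gt l' 1 with q1 | q1
      · exact j1 l (hll.trans q1) l' q1
      rcases le_or_gt l' (2 + 1 / h) with q2 | q2
      · apply lipc
        have := N123 l ⟨by linarith, by linarith⟩ l' ⟨by linarith, q2⟩
        linarith
      rcases le_or_gt l' 4 with q3 | q3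
      · exact j3 l ⟨by linarith, by linarith⟩ l' ⟨by linarith, q3⟩
      · apply lipc
        have := N456 l (mem_Ici.2 (by linarith)) l' (mem_Ici.2 (by linarith))
        linarith
    · -- far
      have t0 := Nall l (mem_univ _) l' (mem_univ _)
      have t1 : 1 ≤ h * |l - l'| := by
        rw [abs_of_nonpos (by linarith)]
        have := mul_le_mul_of_nonneg_left hf hhp.le
        rw [mul_one_div_cancel hhp.ne'] at this
        linarith
      have t2 : 2 * ((h + 3) * ω) + 2 * ((h + 3) * ω)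
          ≤ (2 * ((h + 3) * ω) + 2 * ((h + 3) * ω)) * (h * |l - l'|) := by
        have : 0 ≤ 2 * ((h + 3) * ω) + 2 * ((h + 3) * ω) := by positivity
        nlinarith
      have t3 := mul_le_mul_of_nonneg_right hω2 (abs_nonneg (l - l'))
      have t4 := mul_le_mul_of_nonneg_left (hlow l l') hκ0.le
      calc ‖D l - D l'‖ ≤ _ := t0
        _ ≤ (2 * ((h + 3) * ω) + 2 * ((h + 3) * ω)) * (h * |l - l'|) + L * |l - l'| := by linarith
        _ = (4 * (h + 3) * h + 3 + r) * ω * |l - l'| := by rw [hL]; ring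
        _ ≤ κ * c * |l - l'| := t3
        _ ≤ _ := by linarith
  intro l l'
  rcases le_total l l' with q | q
  · exact main l l' q
  · rw [norm_sub_rev, norm_sub_rev (capped P m r x₁ x₂ l)]
    exact main l' l q

end det


section filt

variable {ι : Type} {F : Filter ι}

theorem exit_tendsto {f : ℝ → ℝ} {g : ι → ℝ → ℝ} {x₁ h r : ℝ} {y : ι → ℝ}
    (hx0 : 0 < x₁) (hxh : x₁ < h) (hin : ∀ x, 0 ≤ x → x < x₁ → f x < r)
    (hout : ∀ x, x₁ < x → x ≤ h → r < f x)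
    (hy : ∀ᶠ i in F, 0 < y i ∧ y i < h ∧ g i (y i) = r ∧
      (∀ x, 0 ≤ x → x < y i → g i x < r) ∧ (∀ x, y i < x → x ≤ h → r < g i x))
    (ht : ∀ z ∈ Icc 0 h, Tendsto (fun i => g i z) F (𝓝 (f z))) : Tendsto y F (𝓝 x₁) := by
  rw [tendsto_order]
  constructor
  · intro p hp
    have hz1 : max p 0 < x₁ := max_lt hp hx0
    have hz0 : 0 ≤ max p 0 := le_max_right _ _
    have h1 := (ht (max p 0) ⟨hz0, by linarith⟩).eventually_lt_const (hin _ hz0 hz1)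
    filter_upwards [hy, h1] with i hi h2
    obtain ⟨i1, i2, i3, i4, i5⟩ := hi
    by_contra hcon
    have h3 : y i ≤ max p 0 := (not_lt.1 hcon).trans (le_max_left _ _)
    rcases h3.eq_or_lt with h4 | h4
    · rw [← h4, i3] at h2; exact lt_irrefl _ h2
    · exact lt_asymm h2 (i5 _ h4 (by linarith))
  · intro p hp
    have hz1 : x₁ < min p h := lt_min hp hxh
    have hz0 : min p h ≤ h := min_le_right _ _
    have h1 := (ht (min p h) ⟨by linarith, hz0⟩).eventually_const_lt (hout _ hz1 hz0)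
    filter_upwards [hy, h1] with i hi h2
    obtain ⟨i1, i2, i3, i4, i5⟩ := hi
    by_contra hcon
    have h3 : min p h ≤ y i := (min_le_left _ _).trans (not_lt.1 hcon)
    rcases h3.eq_or_lt with h4 | h4
    · rw [h4, i3] at h2; exact lt_irrefl _ h2
    · exact lt_asymm h2 (i4 _ (by linarith) h4)

theorem moving {P : ℝ → E3} {Q : ι → ℝ → E3} {m h : ℝ} (hm : 1 ≤ m) (hhp : 0 < h)
    (hclose : ∀ δ > 0, ∀ᶠ i in F, ∀ x ∈ Icc (-h) (m + h), ∀ y ∈ Icc (-h) (m + h),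
      ‖(Q i x - P x) - (Q i y - P y)‖ ≤ δ * |x - y|)
    {y : ι → ℝ} {x x0 : ℝ} (hmem : ∀ᶠ i in F, y i ∈ Icc (-h) (m + h))
    (hx0 : x0 ∈ Icc (-h) (m + h)) (hy : Tendsto (fun i => P (y i)) F (𝓝 (P x))) :
    Tendsto (fun i => Q i (y i) - Q i x0) F (𝓝 (P x - P x0)) := by
  have h1 : Tendsto (fun i => (Q i (y i) - P (y i)) - (Q i x0 - P x0)) F (𝓝 0) := by
    rw [Metric.tendsto_nhds]
    intro ε hε
    have hpos : 0 < m + 2 * h := by linarith
    filter_upwards [hclose (ε / (2 * (m + 2 * h))) (by positivity), hmem] with i hi hi2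
    rw [dist_zero_right]
    refine (hi _ hi2 _ hx0).trans_lt ?_
    have h2 : |y i - x0| ≤ m + 2 * h := by
      rw [abs_le]
      exact ⟨by linarith [hi2.1, hx0.2], by linarith [hi2.2, hx0.1]⟩
    calc ε / (2 * (m + 2 * h)) * |y i - x0| ≤ ε / (2 * (m + 2 * h)) * (m + 2 * h) :=
          mul_le_mul_of_nonneg_left h2 (by positivity)
      _ = ε / 2 := by field_simp
      _ < ε := by linarith
  have h2 := (hy.sub_const (P x0)).add h1
  rw [add_zero] at h2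
  refine h2.congr fun i => ?_
  abel

theorem ev_le {f : ι → E3} {x : E3} {ω : ℝ} (hf : Tendsto f F (𝓝 x)) (hω : 0 < ω) :
    ∀ᶠ i in F, ‖f i - x‖ ≤ ω := by
  filter_upwards [Metric.tendsto_nhds.1 hf ω hω] with i hi
  rw [dist_eq_norm] at hi
  exact hi.le

end filt

end LocEq

open LocEq

/-- Capped curves of two close needle curves are ambient equivalent. -/
theorem local_equiv {m h s β r κ : ℝ} (hm : 1 ≤ m) (hh : h = 8 * m) (hs : 1 ≤ s) (hs2 : s ≤ 2)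
    (hβ : 0 ≤ β) (hβ2 : β ≤ 1 / 16) (hβκ : β ≤ κ / 16) (hr : r = 4 * m) (hκ0 : 0 < κ)
    (hκ : ∀ K K' : ℝ → E3, (∀ x y, ‖(K' x - K x) - (K' y - K y)‖ ≤ κ * ‖K x - K y‖) →
      AmbEquiv K K')
    {P : ℝ → E3} {a b : E3} {x₁ x₂ : ℝ} (hP : NeedleCurve m h s β P a b)
    (h1 : IsExitL P h r x₁) (h2 : IsExitR P m h r x₂)
    (hlow : ∃ c > 0, ∀ l l', c * |l - l'| ≤ ‖capped P m r x₁ x₂ l - capped P m r x₁ x₂ l'‖)
    (hne : dir P r (m + x₂) ≠ dir P r (-x₁)) (hT : 4 * r ≤ capT P m r x₁ x₂)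
    {ι : Type} (F : Filter ι) (Q : ι → ℝ → E3) (a' b' : ι → E3) (y₁ y₂ : ι → ℝ)
    (hQ : ∀ᶠ i in F, NeedleCurve m h s β (Q i) (a' i) (b' i))
    (hQ1 : ∀ᶠ i in F, IsExitL (Q i) h r (y₁ i)) (hQ2 : ∀ᶠ i in F, IsExitR (Q i) m h r (y₂ i))
    (hclose : ∀ δ > 0, ∀ᶠ i in F, ∀ x ∈ Icc (-h) (m + h), ∀ y ∈ Icc (-h) (m + h),
      ‖(Q i x - P x) - (Q i y - P y)‖ ≤ δ * |x - y|) :
    ∀ᶠ i in F, AmbEquiv (capped P m r x₁ x₂) (capped (Q i) m r (y₁ i) (y₂ i)) := by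
  obtain ⟨c, hc, hlow⟩ := hlow
  have hrp : 0 < r := by linarith
  have hhp : 0 < h := by linarith
  have hx1 := h1.pos
  have hx1h := h1.lt
  have hx2 := h2.pos
  have hx2h := h2.lt
  -- convergence of the increments at fixed points
  have fixed : ∀ x ∈ Icc (-h) (m + h),
      Tendsto (fun i => Q i x - Q i 0) F (𝓝 (P x - P 0)) := fun x hx =>
    moving hm hhp hclose (Eventually.of_forall fun _ => hx) ⟨by linarith, by linarith⟩
      tendsto_const_nhds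
  have fixedm : ∀ x ∈ Icc (-h) (m + h),
      Tendsto (fun i => Q i x - Q i m) F (𝓝 (P x - P m)) := fun x hx =>
    moving hm hhp hclose (Eventually.of_forall fun _ => hx) ⟨by linarith, by linarith⟩
      tendsto_const_nhds
  have ty1 : Tendsto y₁ F (𝓝 x₁) := by
    refine exit_tendsto (f := fun x => ‖P (-x) - P 0‖) (g := fun i x => ‖Q i (-x) - Q i 0‖)
      hx1 hx1h h1.inside h1.outside ?_ ?_
    · filter_upwards [hQ1] with i hi
      exact ⟨hi.pos, hi.lt, hi.eq, hi.inside, hi.outside⟩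
    · intro z hz
      exact (fixed (-z) ⟨by linarith [hz.2], by linarith [hz.1]⟩).norm
  have ty2 : Tendsto y₂ F (𝓝 x₂) := by
    refine exit_tendsto (f := fun x => ‖P (m + x) - P 0‖) (g := fun i x => ‖Q i (m + x) - Q i 0‖)
      hx2 hx2h h2.inside h2.outside ?_ ?_
    · filter_upwards [hQ2] with i hi
      exact ⟨hi.pos, hi.lt, hi.eq, hi.inside, hi.outside⟩
    · intro z hz
      exact (fixed (m + z) ⟨by linarith [hz.1], by linarith [hz.2]⟩).norm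
  have tw1 : Tendsto (fun i => dir (Q i) r (-y₁ i)) F (𝓝 (dir P r (-x₁))) := by
    unfold dir
    refine Tendsto.const_smul ?_ _
    refine moving hm hhp hclose ?_ ⟨by linarith, by linarith⟩ ?_
    · filter_upwards [hQ1] with i hi
      exact ⟨by linarith [hi.lt], by linarith [hi.pos]⟩
    · have hc1 : ContinuousAt P (-x₁) :=
        (left_cont hP hs hβ).continuousAt (Icc_mem_nhds (by linarith) (by linarith))
      exact hc1.tendsto.comp ty1.neg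
  have tw2 : Tendsto (fun i => dir (Q i) r (m + y₂ i)) F (𝓝 (dir P r (m + x₂))) := by
    unfold dir
    refine Tendsto.const_smul ?_ _
    refine moving hm hhp hclose ?_ ⟨by linarith, by linarith⟩ ?_
    · filter_upwards [hQ2] with i hi
      exact ⟨by linarith [hi.pos], by linarith [hi.lt]⟩
    · have hc1 : ContinuousAt P (m + x₂) :=
        (right_cont hP hs hβ).continuousAt (Icc_mem_nhds (by linarith) (by linarith))
      exact hc1.tendsto.comp (ty2.const_add m)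
  have tT : Tendsto (fun i => capT (Q i) m r (y₁ i) (y₂ i)) F (𝓝 (capT P m r x₁ x₂)) := by
    unfold capT
    refine Tendsto.div tendsto_const_nhds (tw2.sub tw1).norm ?_
    exact norm_ne_zero_iff.2 (sub_ne_zero.2 hne)
  have ta : Tendsto a' F (𝓝 a) := by
    have h3 : s⁻¹ • (P (-1) - P 0) = a := by
      rw [hP.left1 (-1) ⟨le_rfl, by norm_num⟩, neg_neg, one_mul, add_sub_cancel_left, smul_smul,
        inv_mul_cancel₀ (by linarith), one_smul]
    have h4 := (fixed (-1) ⟨by linarith, by linarith⟩).const_smul s⁻¹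
    rw [h3] at h4
    refine h4.congr' ?_
    filter_upwards [hQ] with i hi
    rw [hi.left1 (-1) ⟨le_rfl, by norm_num⟩, neg_neg, one_mul, add_sub_cancel_left, smul_smul,
        inv_mul_cancel₀ (by linarith), one_smul]
  have tb : Tendsto b' F (𝓝 b) := by
    have h3 : s⁻¹ • (P (m + 1) - P m) = b := by
      rw [hP.right1 (m + 1) ⟨by linarith, le_rfl⟩, add_sub_cancel_left,
        add_sub_cancel_left, one_mul, smul_smul, inv_mul_cancel₀ (by linarith), one_smul]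
    have h4 := (fixedm (m + 1) ⟨by linarith, by linarith⟩).const_smul s⁻¹
    rw [h3] at h4
    refine h4.congr' ?_
    filter_upwards [hQ] with i hi
    rw [hi.right1 (m + 1) ⟨by linarith, le_rfl⟩, add_sub_cancel_left,
        add_sub_cancel_left, one_mul, smul_smul, inv_mul_cancel₀ (by linarith), one_smul]
  -- the small constant
  have hC : 0 < 4 * (h + 3) * h + 3 + r := by positivity
  obtain ⟨ω, hω, hω1, hω2⟩ : ∃ ω > 0, ω ≤ κ / 10 ∧ (4 * (h + 3) * h + 3 + r) * ω ≤ κ * c := by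
    refine ⟨min (κ / 10) (κ * c / (4 * (h + 3) * h + 3 + r)), by positivity, min_le_left _ _, ?_⟩
    calc (4 * (h + 3) * h + 3 + r) * min (κ / 10) (κ * c / (4 * (h + 3) * h + 3 + r))
        ≤ (4 * (h + 3) * h + 3 + r) * (κ * c / (4 * (h + 3) * h + 3 + r)) :=
          mul_le_mul_of_nonneg_left (min_le_right _ _) hC.le
      _ = κ * c := by field_simp
  have evR : ∀ {f : ι → ℝ} {x : ℝ}, Tendsto f F (𝓝 x) → ∀ᶠ i in F, |f i - x| ≤ ω := by
    intro f x hf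
    filter_upwards [Metric.tendsto_nhds.1 hf ω hω] with i hi
    rw [Real.dist_eq] at hi
    exact hi.le
  filter_upwards [hQ, hQ1, hQ2, hclose ω hω, evR ty1, evR ty2, ev_le (ty1.smul ta) hω,
    ev_le (ty2.smul tb) hω, ev_le tw1 hω, ev_le tw2 hω, ev_le (tT.smul tw2) hω,
    ev_le (tT.smul tw1) hω] with i i1 i2 i3 i4 i5 i6 i7 i8 i9 i10 i11 i12
  apply hκ
  intro x y
  exact det_bound hm hh hs hs2 hβ hβ2 hβκ hr hκ0 hP i1 h1 i2 h2 i3 hlow hT hω hω1 hω2 i7 i5 i8 i6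
    i9 i10 i11 i12 i4 x y


end Pool.Agent.Helper22.LC
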