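import Pool.Agent.Helper22.LC.Curve

set_option autoImplicit false

namespace Pool.Agent.Helper22.LC

open Set Metric Filter Topology

/-- right linear piece at every point -/
def RightPL (K : ℝ → E3) : Prop :=
  ∀ x, ∃ ε > 0, ∃ v : E3, ∀ t ∈ Icc (0 : ℝ) ε, K (x + t) = K x + t • v

/-- left linear piece at every point -/
def LeftPL (K : ℝ → E3) : Prop :=
  ∀ x, ∃ ε > 0, ∃ v : E3, ∀ t ∈ Icc (0 : ℝ) ε, K (x - t) = K x - t • v

theorem continuous_of_pl (K : ℝ → E3) (hr : RightPL K) (hl : LeftPL K) : Continuous K := by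
  rw [continuous_iff_continuousAt]
  intro x
  rw [continuousAt_iff_continuous_left_right]
  constructor
  · obtain ⟨ε, hε, v, hv⟩ := hl x
    have h1 : ContinuousWithinAt (fun y => K x - (x - y) • v) (Iic x) x := by
      apply Continuous.continuousWithinAt; fun_prop
    refine h1.congr_of_eventuallyEq ?_ (by simp)
    have : Icc (x - ε) x ∈ 𝓝[≤] x := Icc_mem_nhdsLE (by linarith)
    filter_upwards [this] with y hy
    have := hv (x - y) ⟨by linarith [hy.2], by linarith [hy.1]⟩
    rw [← this]; congr 1; ring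
  · obtain ⟨ε, hε, v, hv⟩ := hr x
    have h1 : ContinuousWithinAt (fun y => K x + (y - x) • v) (Ici x) x := by
      apply Continuous.continuousWithinAt; fun_prop
    refine h1.congr_of_eventuallyEq ?_ (by simp)
    have : Icc x (x + ε) ∈ 𝓝[≥] x := Icc_mem_nhdsGE (by linarith)
    filter_upwards [this] with y hy
    have := hv (y - x) ⟨by linarith [hy.1], by linarith [hy.2]⟩
    rw [← this]; congr 1; ring

theorem local_lower (K : ℝ → E3) (hinj : Function.Injective K) (hr : RightPL K) (hl : LeftPL K)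
    (x0 : ℝ) : ∃ ε > 0, ∃ c > 0, ∀ x ∈ Icc (x0 - ε) (x0 + ε), ∀ y ∈ Icc (x0 - ε) (x0 + ε),
      c * |x - y| ≤ ‖K x - K y‖ := by
  obtain ⟨ε1, hε1, v, hv⟩ := hr x0
  obtain ⟨ε2, hε2, w, hw⟩ := hl x0
  set ε := min ε1 ε2 with hε
  have hε0 : 0 < ε := lt_min hε1 hε2
  have hv' : ∀ t ∈ Icc (0 : ℝ) ε, K (x0 + t) = K x0 + t • v := fun t ht =>
    hv t ⟨ht.1, ht.2.trans (min_le_left _ _)⟩
  have hw' : ∀ t ∈ Icc (0 : ℝ) ε, K (x0 - t) = K x0 - t • w := fun t ht =>
    hw t ⟨ht.1, ht.2.trans (min_le_right _ _)⟩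
  -- positivity of the norm on the segment from v to w
  have hpos : ∀ θ ∈ Icc (0 : ℝ) 1, 0 < ‖(1 - θ) • v + θ • w‖ := by
    intro θ hθ
    rw [norm_pos_iff]
    intro h0
    have e1 := hv' (ε * (1 - θ)) ⟨mul_nonneg hε0.le (by linarith [hθ.2]), by nlinarith [hθ.1]⟩
    have e2 := hw' (ε * θ) ⟨mul_nonneg hε0.le hθ.1, by nlinarith [hθ.2]⟩
    have e3 : K (x0 + ε * (1 - θ)) = K (x0 - ε * θ) := by
      rw [e1, e2]
      have : (ε * (1 - θ)) • v + (ε * θ) • w = 0 := by
        have : (ε * (1 - θ)) • v + (ε * θ) • w = ε • ((1 - θ) • v + θ • w) := by module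
        rw [this, h0, smul_zero]
      have h2 : (ε * (1 - θ)) • v = -((ε * θ) • w) := eq_neg_of_add_eq_zero_left this
      rw [h2]; abel
    have e4 := hinj e3
    nlinarith
  have hcont : ContinuousOn (fun θ : ℝ => ‖(1 - θ) • v + θ • w‖) (Icc 0 1) := by
    apply Continuous.continuousOn; fun_prop
  obtain ⟨θ0, hθ0, hmin⟩ := isCompact_Icc.exists_isMinOn (nonempty_Icc.2 zero_le_one) hcont
  set c := ‖(1 - θ0) • v + θ0 • w‖ with hc
  have hc0 : 0 < c := hpos θ0 hθ0
  have hcv : c ≤ ‖v‖ := by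
    have := hmin (show (0 : ℝ) ∈ Icc (0 : ℝ) 1 by simp)
    simpa using this
  have hcw : c ≤ ‖w‖ := by
    have := hmin (show (1 : ℝ) ∈ Icc (0 : ℝ) 1 by simp)
    simpa using this
  have hmix : ∀ s t : ℝ, 0 ≤ s → 0 ≤ t → c * (s + t) ≤ ‖t • v + s • w‖ := by
    intro s t hs ht
    rcases eq_or_lt_of_le (add_nonneg hs ht) with h | h
    · rw [← h, mul_zero]; exact norm_nonneg _
    · have hm := hmin (show s / (s + t) ∈ Icc (0 : ℝ) 1 from
        ⟨div_nonneg hs h.le, (div_le_one h).2 (by linarith)⟩)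
      have e : t • v + s • w = (s + t) • ((1 - s / (s + t)) • v + (s / (s + t)) • w) := by
        rw [smul_add, smul_smul, smul_smul]
        congr 2
        · field_simp; ring
        · field_simp
      rw [e, norm_smul, Real.norm_eq_abs, abs_of_pos h, mul_comm]
      exact mul_le_mul_of_nonneg_left hm h.le
  refine ⟨ε, hε0, c, hc0, ?_⟩
  -- decompose
  have key : ∀ x ∈ Icc (x0 - ε) (x0 + ε), ∀ y ∈ Icc (x0 - ε) (x0 + ε), y ≤ x →
      c * (x - y) ≤ ‖K x - K y‖ := by
    intro x hx y hy hyx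
    rcases le_total x0 x with h1 | h1
    · have ex := hv' (x - x0) ⟨by linarith, by linarith [hx.2]⟩
      rw [add_sub_cancel] at ex
      rcases le_total x0 y with h2 | h2
      · have ey := hv' (y - x0) ⟨by linarith, by linarith [hy.2]⟩
        rw [add_sub_cancel] at ey
        have : K x - K y = (x - y) • v := by rw [ex, ey]; module
        rw [this, norm_smul, Real.norm_eq_abs, abs_of_nonneg (by linarith), mul_comm]
        exact mul_le_mul_of_nonneg_left hcv (by linarith)
      · have ey := hw' (x0 - y) ⟨by linarith, by linarith [hy.1]⟩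
        rw [sub_sub_cancel] at ey
        have : K x - K y = (x - x0) • v + (x0 - y) • w := by rw [ex, ey]; module
        rw [this]
        have := hmix (x0 - y) (x - x0) (by linarith) (by linarith)
        calc c * (x - y) = c * ((x0 - y) + (x - x0)) := by ring
          _ ≤ _ := this
    · have ex := hw' (x0 - x) ⟨by linarith, by linarith [hx.1]⟩
      rw [sub_sub_cancel] at ex
      have ey := hw' (x0 - y) ⟨by linarith, by linarith [hy.1]⟩
      rw [sub_sub_cancel] at ey
      have : K x - K y = (x - y) • w := by rw [ex, ey]; module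
      rw [this, norm_smul, Real.norm_eq_abs, abs_of_nonneg (by linarith), mul_comm]
      exact mul_le_mul_of_nonneg_left hcw (by linarith)
  intro x hx y hy
  rcases le_total y x with h | h
  · rw [abs_of_nonneg (by linarith)]; exact key x hx y hy h
  · rw [abs_of_nonpos (by linarith), norm_sub_rev, neg_sub]; exact key y hy x hx h

/-- An injective piecewise linear long curve is bi-Lipschitz from below. -/
theorem pl_lower_bound (K : ℝ → E3) (hinj : Function.Injective K) (hr : RightPL K)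
    (hl : LeftPL K) (R : ℝ) (d₁ d₂ u : E3)
    (h1 : 0 < inner ℝ d₁ u) (h2 : 0 < inner ℝ d₂ u)
    (hL : ∀ x, x ≤ -R → K x = K (-R) + (x + R) • d₁)
    (hR : ∀ x, R ≤ x → K x = K R + (x - R) • d₂) :
    ∃ c > 0, ∀ x y, c * |x - y| ≤ ‖K x - K y‖ := by
  have hK : Continuous K := continuous_of_pl K hr hl
  have hu : u ≠ 0 := by
    rintro rfl; simp at h1
  have hu0 : 0 < ‖u‖ := norm_pos_iff.2 hu
  have hd1 : 0 < ‖d₁‖ := norm_pos_iff.2 (by rintro rfl; simp at h1)
  have hd2 : 0 < ‖d₂‖ := norm_pos_iff.2 (by rintro rfl; simp at h2)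
  set m0 := min (inner ℝ d₁ u) (inner ℝ d₂ u) with hm0
  have hm0p : 0 < m0 := lt_min h1 h2
  set g : ℝ → ℝ := fun x => inner ℝ (K x) u - m0 * x with hg
  have hgc : Continuous g := by
    simp only [hg]; fun_prop
  obtain ⟨B, hB⟩ := (isCompact_Icc (a := -|R|) (b := |R|)).exists_bound_of_continuousOn hgc.continuousOn
  have hB0 : 0 ≤ B := (norm_nonneg _).trans (hB 0 ⟨by simp, by simp⟩)
  -- monotone on the rays
  have hRabs : R ≤ |R| := le_abs_self R
  have hRabs' : -|R| ≤ -R := by linarith [le_abs_self R]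
  have hmonoR : ∀ x y, |R| ≤ x → x ≤ y → g x ≤ g y := by
    intro x y hx hxy
    have e1 := hR x (by linarith)
    have e2 := hR y (by linarith)
    have : g y - g x = (y - x) * (inner ℝ d₂ u - m0) := by
      simp only [hg, e1, e2, inner_add_left, inner_smul_left]
      simp only [RCLike.conj_to_real]; ring
    have h3 : m0 ≤ inner ℝ d₂ u := min_le_right _ _
    nlinarith
  have hmonoL : ∀ x y, y ≤ -|R| → x ≤ y → g x ≤ g y := by
    intro x y hy hxy
    have e1 := hL x (by linarith)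
    have e2 := hL y (by linarith)
    have : g y - g x = (y - x) * (inner ℝ d₁ u - m0) := by
      simp only [hg, e1, e2, inner_add_left, inner_smul_left]
      simp only [RCLike.conj_to_real]; ring
    have h3 : m0 ≤ inner ℝ d₁ u := min_le_left _ _
    nlinarith
  have hgB : ∀ x ∈ Icc (-|R|) |R|, |g x| ≤ B := fun x hx => by
    have := hB x hx; rwa [Real.norm_eq_abs] at this
  have hglow : ∀ y, -|R| ≤ y → -B ≤ g y := by
    intro y hy
    rcases le_total y |R| with h | h
    · exact (abs_le.1 (hgB y ⟨hy, h⟩)).1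
    · exact ((abs_le.1 (hgB |R| ⟨by linarith [abs_nonneg R], le_rfl⟩)).1).trans
        (hmonoR _ _ le_rfl h)
  have hgup : ∀ x, x ≤ |R| → g x ≤ B := by
    intro x hx
    rcases le_total (-|R|) x with h | h
    · exact (abs_le.1 (hgB x ⟨h, hx⟩)).2
    · exact (hmonoL _ _ le_rfl h).trans ((abs_le.1 (hgB (-|R|) ⟨le_rfl, by linarith [abs_nonneg R]⟩)).2)
  have hgdiff : ∀ x y, x ≤ y → -(2 * B) ≤ g y - g x := by
    intro x y hxy
    rcases le_total (-|R|) y with h | h
    · rcases le_total x |R| with h' | h'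
      · linarith [hglow y h, hgup x h']
      · linarith [hmonoR x y h' hxy]
    · linarith [hmonoL x y h hxy]
  set D := 4 * B / m0 with hD
  have hD0 : 0 ≤ D := by positivity
  have hfar : ∀ x y, x ≤ y → D ≤ y - x → (m0 / (2 * ‖u‖)) * (y - x) ≤ ‖K y - K x‖ := by
    intro x y hxy hxyD
    have h3 : inner ℝ (K y - K x) u = (g y - g x) + m0 * (y - x) := by
      simp only [hg, inner_sub_left]; ring
    have h4 : inner ℝ (K y - K x) u ≤ ‖K y - K x‖ * ‖u‖ := real_inner_le_norm _ _
    have h5 : 2 * B ≤ m0 * (y - x) / 2 := by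
      rw [hD, div_le_iff₀ hm0p] at hxyD
      linarith
    have h6 : m0 * (y - x) / 2 ≤ ‖K y - K x‖ * ‖u‖ := by
      linarith [hgdiff x y hxy]
    have : (m0 / (2 * ‖u‖)) * (y - x) = (m0 * (y - x) / 2) / ‖u‖ := by field_simp
    rw [this, div_le_iff₀ hu0]; exact h6
  -- compact part
  set A := |R| + D + 1 with hA
  have hcomp : ∃ c > 0, ∀ p ∈ Icc (-A) A ×ˢ Icc (-A) A, c * |p.1 - p.2| ≤ ‖K p.1 - K p.2‖ := by
    refine (isCompact_Icc.prod isCompact_Icc).induction_on
      (p := fun S : Set (ℝ × ℝ) => ∃ c > 0, ∀ p ∈ S, c * |p.1 - p.2| ≤ ‖K p.1 - K p.2‖) ?_ ?_ ?_ ?_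
    · exact ⟨1, one_pos, fun p hp => absurd hp (notMem_empty p)⟩
    · rintro S T hST ⟨c, hc, h⟩
      exact ⟨c, hc, fun p hp => h p (hST hp)⟩
    · rintro S T ⟨c, hc, h⟩ ⟨c', hc', h'⟩
      refine ⟨min c c', lt_min hc hc', ?_⟩
      rintro p (hp | hp)
      · exact (mul_le_mul_of_nonneg_right (min_le_left _ _) (abs_nonneg _)).trans (h p hp)
      · exact (mul_le_mul_of_nonneg_right (min_le_right _ _) (abs_nonneg _)).trans (h' p hp)
    · rintro ⟨x0, y0⟩ hxy
      rcases eq_or_ne x0 y0 with rfl | hne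
      · obtain ⟨ε, hε, c, hc, h⟩ := local_lower K hinj hr hl x0
        refine ⟨Icc (x0 - ε) (x0 + ε) ×ˢ Icc (x0 - ε) (x0 + ε), ?_, c, hc, ?_⟩
        · exact mem_nhdsWithin_of_mem_nhds (prod_mem_nhds
            (Icc_mem_nhds (by linarith) (by linarith)) (Icc_mem_nhds (by linarith) (by linarith)))
        · rintro p ⟨hp1, hp2⟩
          exact h p.1 hp1 p.2 hp2
      · have hpos : 0 < ‖K x0 - K y0‖ := norm_pos_iff.2 (sub_ne_zero.2 (fun h => hne (hinj h)))
        have hcont : Continuous (fun p : ℝ × ℝ => ‖K p.1 - K p.2‖) := by fun_prop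
        have hev : ∀ᶠ p : ℝ × ℝ in 𝓝 (x0, y0), ‖K x0 - K y0‖ / 2 < ‖K p.1 - K p.2‖ :=
          hcont.continuousAt.eventually_const_lt (by simpa using half_lt_self hpos)
        have hcont2 : Continuous (fun p : ℝ × ℝ => |p.1 - p.2|) := by fun_prop
        have hev2 : ∀ᶠ p : ℝ × ℝ in 𝓝 (x0, y0), |p.1 - p.2| < |x0 - y0| + 1 :=
          hcont2.continuousAt.eventually_lt_const (by simp)
        refine ⟨{p | ‖K x0 - K y0‖ / 2 < ‖K p.1 - K p.2‖ ∧ |p.1 - p.2| < |x0 - y0| + 1},
          mem_nhdsWithin_of_mem_nhds (hev.and hev2),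
          (‖K x0 - K y0‖ / 2) / (|x0 - y0| + 1), by positivity, ?_⟩
        rintro p ⟨hp1, hp2⟩
        calc (‖K x0 - K y0‖ / 2) / (|x0 - y0| + 1) * |p.1 - p.2|
            ≤ (‖K x0 - K y0‖ / 2) / (|x0 - y0| + 1) * (|x0 - y0| + 1) :=
              mul_le_mul_of_nonneg_left hp2.le (by positivity)
          _ = ‖K x0 - K y0‖ / 2 := by
              field_simp
          _ ≤ _ := hp1.le
  obtain ⟨c0, hc0, hcc⟩ := hcomp
  refine ⟨min (min c0 (m0 / (2 * ‖u‖))) (min ‖d₁‖ ‖d₂‖), by positivity, ?_⟩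
  set c := min (min c0 (m0 / (2 * ‖u‖))) (min ‖d₁‖ ‖d₂‖) with hcdef
  have hcc0 : c ≤ c0 := (min_le_left _ _).trans (min_le_left _ _)
  have hccm : c ≤ m0 / (2 * ‖u‖) := (min_le_left _ _).trans (min_le_right _ _)
  have hccd1 : c ≤ ‖d₁‖ := (min_le_right _ _).trans (min_le_left _ _)
  have hccd2 : c ≤ ‖d₂‖ := (min_le_right _ _).trans (min_le_right _ _)
  have key : ∀ x y, x ≤ y → c * (y - x) ≤ ‖K y - K x‖ := by
    intro x y hxy
    have hyx : 0 ≤ y - x := by linarith
    rcases le_total D (y - x) with h | h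
    · exact (mul_le_mul_of_nonneg_right hccm hyx).trans (hfar x y hxy h)
    · rcases le_total y (-|R|) with h3 | h3
      · have e1 := hL x (by linarith)
        have e2 := hL y (by linarith)
        have : K y - K x = (y - x) • d₁ := by rw [e1, e2]; module
        rw [this, norm_smul, Real.norm_eq_abs, abs_of_nonneg hyx, mul_comm]
        exact mul_le_mul_of_nonneg_left hccd1 hyx
      · rcases le_total |R| x with h4 | h4
        · have e1 := hR x (by linarith)
          have e2 := hR y (by linarith)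
          have : K y - K x = (y - x) • d₂ := by rw [e1, e2]; module
          rw [this, norm_smul, Real.norm_eq_abs, abs_of_nonneg hyx, mul_comm]
          exact mul_le_mul_of_nonneg_left hccd2 hyx
        · have hx : x ∈ Icc (-A) A := ⟨by rw [hA]; linarith, by rw [hA]; linarith⟩
          have hy : y ∈ Icc (-A) A := ⟨by rw [hA]; linarith, by rw [hA]; linarith⟩
          have := hcc (y, x) ⟨hy, hx⟩
          simp only [abs_of_nonneg hyx] at this
          exact (mul_le_mul_of_nonneg_right hcc0 hyx).trans this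
  intro x y
  rcases le_total x y with h | h
  · rw [abs_of_nonpos (by linarith), norm_sub_rev, neg_sub]; exact key x y h
  · rw [abs_of_nonneg (by linarith)]; exact key y x h

/-- The interpolated curve is piecewise linear to the right of every point. -/
theorem curve_rightPL (V : ℤ → E3) : RightPL (curve V) := by
  intro x
  refine ⟨⌊x⌋ + 1 - x, by linarith [Int.lt_floor_add_one x], V (⌊x⌋ + 1) - V ⌊x⌋, ?_⟩
  intro t ht
  rw [curve_of_mem V ⌊x⌋ x (Int.floor_le x) (Int.lt_floor_add_one x).le,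
    curve_of_mem V ⌊x⌋ (x + t) (by linarith [Int.floor_le x, ht.1]) (by linarith [ht.2])]
  module

theorem curve_leftPL (V : ℤ → E3) : LeftPL (curve V) := by
  intro x
  refine ⟨x - (⌈x⌉ - 1), by linarith [Int.ceil_lt_add_one x], V (⌈x⌉ - 1 + 1) - V (⌈x⌉ - 1), ?_⟩
  intro t ht
  have h1 : ((⌈x⌉ - 1 : ℤ) : ℝ) ≤ x := by push_cast; linarith [Int.ceil_lt_add_one x]
  have h2 : x ≤ ((⌈x⌉ - 1 : ℤ) : ℝ) + 1 := by push_cast; linarith [Int.le_ceil x]
  rw [curve_of_mem V (⌈x⌉ - 1) x h1 h2,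
    curve_of_mem V (⌈x⌉ - 1) (x - t) (by push_cast; linarith [ht.2]) (by linarith [ht.1])]
  module

end Pool.Agent.Helper22.LC
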