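import Pool.Agent.Helper22.LC.Base

set_option autoImplicit false

namespace Pool.Agent.Helper22.LC

open Set Metric Filter Topology LocEq


/-! ### auxiliary lemmas for the initial configuration -/

/-- the reparametrisation -/
noncomputable def phiC (m r c : ℝ) (l : ℝ) : ℝ :=
  if l ≤ 0 then 1 * l + (-r)
  else if l ≤ 1 then r * l + (-r)
  else if l ≤ 2 then m * l + (-m)
  else if l ≤ 3 then c * l + (m - 2 * c)
  else 1 * l + (m + c - 3)

theorem phiC_strictMono {m r c : ℝ} (hm : 0 < m) (hr : 0 < r) (hc : 0 < c) :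
    StrictMono (phiC m r c) := by
  intro x y hxy
  unfold phiC
  split_ifs <;> nlinarith

theorem lip_glue {F : Type*} [SeminormedAddCommGroup F] {f g : ℝ → F} {C : ℝ}
    (hf : ∀ x y, ‖f x - f y‖ ≤ C * |x - y|) (hg : ∀ x y, ‖g x - g y‖ ≤ C * |x - y|) (a : ℝ)
    (hfg : f a = g a) (x y : ℝ) :
    ‖(if x ≤ a then f x else g x) - (if y ≤ a then f y else g y)‖ ≤ C * |x - y| := by
  have key : ∀ x y : ℝ, x ≤ a → a < y → ‖f x - g y‖ ≤ C * |x - y| := by
    intro x y hx hy
    have e : f x - g y = (f x - f a) + (g a - g y) := by rw [hfg]; abel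
    rw [e]
    refine (norm_add_le _ _).trans ((add_le_add (hf x a) (hg a y)).trans ?_)
    rw [abs_of_nonpos (by linarith), abs_of_nonpos (by linarith), abs_of_nonpos (by linarith)]
    linarith
  by_cases hx : x ≤ a <;> by_cases hy : y ≤ a <;> simp only [hx, hy, if_true, if_false]
  · exact hf x y
  · exact key x y hx (not_le.1 hy)
  · rw [norm_sub_rev, abs_sub_comm]
    exact key y x hy (not_le.1 hx)
  · exact hg x y

theorem lip_affR {C : ℝ} (a b : ℝ) (h : |a| ≤ C) (x y : ℝ) :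
    ‖(a * x + b) - (a * y + b)‖ ≤ C * |x - y| := by
  have : (a * x + b) - (a * y + b) = a * (x - y) := by ring
  rw [this, Real.norm_eq_abs, abs_mul]
  exact mul_le_mul_of_nonneg_right h (abs_nonneg _)

theorem lip_affE {C : ℝ} (p v : E3) (h : ‖v‖ ≤ C) (x y : ℝ) :
    ‖(p + x • v) - (p + y • v)‖ ≤ C * |x - y| := by
  have : (p + x • v) - (p + y • v) = (x - y) • v := by module
  rw [this, norm_smul, Real.norm_eq_abs, mul_comm]
  exact mul_le_mul_of_nonneg_right h (abs_nonneg _)

theorem phiC_lip {m r c : ℝ} (hm : 0 < m) (hr : 0 < r) (hc : 0 < c) (x y : ℝ) :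
    |phiC m r c x - phiC m r c y| ≤ (1 + r + m + c) * |x - y| := by
  have h := lip_glue (C := 1 + r + m + c)
    (f := fun l => 1 * l + (-r))
    (g := fun l => if l ≤ 1 then r * l + (-r) else if l ≤ 2 then m * l + (-m)
      else if l ≤ 3 then c * l + (m - 2 * c) else 1 * l + (m + c - 3))
    (fun x y => lip_affR _ _ (by rw [abs_of_pos one_pos]; linarith) x y)
    (fun x y => lip_glue
      (fun x y => lip_affR _ _ (by rw [abs_of_pos hr]; linarith) x y)
      (fun x y => lip_glue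
        (fun x y => lip_affR _ _ (by rw [abs_of_pos hm]; linarith) x y)
        (fun x y => lip_glue
          (fun x y => lip_affR _ _ (by rw [abs_of_pos hc]; linarith) x y)
          (fun x y => lip_affR _ _ (by rw [abs_of_pos one_pos]; linarith) x y) 3
          (by ring) x y) 2
        (by norm_num; ring) x y) 1
      (by norm_num) x y) 0
    (by norm_num) x y
  rw [Real.norm_eq_abs] at h
  exact h

theorem phiC_cont {m r c : ℝ} (hm : 0 < m) (hr : 0 < r) (hc : 0 < c) :
    Continuous (phiC m r c) := by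
  have : LipschitzWith (Real.toNNReal (1 + r + m + c)) (phiC m r c) := by
    refine LipschitzWith.of_dist_le_mul fun x y => ?_
    rw [Real.dist_eq, Real.dist_eq, Real.coe_toNNReal _ (by positivity)]
    exact phiC_lip hm hr hc x y
  exact this.continuous

theorem phiC_surj {m r c : ℝ} (hm : 0 < m) (hr : 0 < r) (hc : 0 < c) :
    Function.Surjective (phiC m r c) := by
  intro z
  have h := mem_range_of_exists_le_of_exists_ge (phiC_cont hm hr hc) (c := z)
    ⟨min 0 (z + r), by
      rw [phiC, if_pos (min_le_left _ _)]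
      linarith [min_le_right 0 (z + r)]⟩
    ⟨max 4 (z - m - c + 3), by
      have h4 := le_max_left 4 (z - m - c + 3)
      rw [phiC, if_neg (by linarith), if_neg (by linarith), if_neg (by linarith),
        if_neg (by linarith)]
      linarith [le_max_right 4 (z - m - c + 3)]⟩
  exact h

theorem phiC_0 {m r c l : ℝ} (h : l ≤ 0) : phiC m r c l = l - r := by
  rw [phiC, if_pos h]; ring

theorem phiC_1 {m r c l : ℝ} (h : 0 ≤ l) (h' : l ≤ 1) : phiC m r c l = r * l - r := by
  rcases h.eq_or_lt with h0 | h0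
  · rw [phiC_0 h0.ge, ← h0]; ring
  · rw [phiC, if_neg (by linarith), if_pos h']; ring

theorem phiC_2 {m r c l : ℝ} (h : 1 ≤ l) (h' : l ≤ 2) : phiC m r c l = m * l - m := by
  rcases h.eq_or_lt with h0 | h0
  · rw [phiC_1 (by linarith) h0.ge, ← h0]; ring
  · rw [phiC, if_neg (by linarith), if_neg (by linarith), if_pos h']; ring

theorem phiC_3 {m r c l : ℝ} (h : 2 ≤ l) (h' : l ≤ 3) : phiC m r c l = m + c * (l - 2) := by
  rcases h.eq_or_lt with h0 | h0
  · rw [phiC_2 (by linarith) h0.ge, ← h0]; ring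
  · rw [phiC, if_neg (by linarith), if_neg (by linarith), if_neg (by linarith), if_pos h']; ring

theorem phiC_4 {m r c l : ℝ} (h : 3 ≤ l) : phiC m r c l = l + (m + c - 3) := by
  rcases h.eq_or_lt with h0 | h0
  · rw [phiC_3 (by linarith) h0.ge, ← h0]; ring
  · rw [phiC, if_neg (by linarith), if_neg (by linarith), if_neg (by linarith),
      if_neg (by linarith)]; ring

theorem abs_coord_le (v : E3) (i : Fin 3) : |v i| ≤ ‖v‖ := by
  have := PiLp.norm_apply_le v i
  rwa [Real.norm_eq_abs] at this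

theorem e0_norm : ‖e0‖ = 1 := by simp [e0]

theorem e0_coord : e0 0 = 1 := by simp [e0]

/-- the first coordinate before the last breakpoint -/
theorem coord_lt {m r c : ℝ} (hm : 0 < m) (hr : 0 < r) (hc : m < c) (g : ℝ → E3)
    (hlip : ∀ x y, ‖g x - g y‖ ≤ |x - y|) (hgl : ∀ y ≤ 0, g y = y • e0)
    (hgr : ∀ y, m ≤ y → g y = g m + (y - m) • e0) (hpos : 0 ≤ g m 0) {l : ℝ} (hl : l < 3) :
    g (phiC m r c l) 0 < g m 0 + c := by
  rcases le_or_gt l 2 with h2 | h2
  · have hle : phiC m r c l ≤ m := by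
      have h3 := (phiC_strictMono hm hr (hm.trans hc)).monotone h2
      rw [phiC_2 (l := 2) (by norm_num) le_rfl] at h3
      linarith
    rcases le_or_gt (phiC m r c l) 0 with h4 | h4
    · rw [hgl _ h4]
      simp only [PiLp.smul_apply, e0_coord, smul_eq_mul, mul_one]
      linarith
    · have h5 : g 0 = 0 := by rw [hgl 0 le_rfl, zero_smul]
      have h6 := hlip (phiC m r c l) 0
      rw [h5, sub_zero, sub_zero, abs_of_pos h4] at h6
      have h7 := abs_coord_le (g (phiC m r c l)) 0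
      have h8 := le_abs_self (g (phiC m r c l) 0)
      linarith
  · rw [phiC_3 h2.le hl.le, hgr _ (by nlinarith)]
    simp only [PiLp.add_apply, PiLp.smul_apply, e0_coord, smul_eq_mul, mul_one]
    nlinarith

theorem PL.comb {K L : ℝ → E3} (hK : PL K) (hL : PL L) (p q : ℝ) :
    PL (fun x => p • K x + q • L x) := by
  refine ⟨fun x => ?_, fun x => ?_⟩
  · obtain ⟨ε, hε, v, hv⟩ := hK.1 x
    obtain ⟨ε', hε', v', hv'⟩ := hL.1 x
    refine ⟨min ε ε', lt_min hε hε', p • v + q • v', fun t ht => ?_⟩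
    beta_reduce
    rw [hv t ⟨ht.1, ht.2.trans (min_le_left _ _)⟩, hv' t ⟨ht.1, ht.2.trans (min_le_right _ _)⟩]
    module
  · obtain ⟨ε, hε, v, hv⟩ := hK.2 x
    obtain ⟨ε', hε', v', hv'⟩ := hL.2 x
    refine ⟨min ε ε', lt_min hε hε', p • v + q • v', fun t ht => ?_⟩
    beta_reduce
    rw [hv t ⟨ht.1, ht.2.trans (min_le_left _ _)⟩, hv' t ⟨ht.1, ht.2.trans (min_le_right _ _)⟩]
    module

theorem PL.comp_phiC {g : ℝ → E3} (hg : PL g) {m r c : ℝ} (hm : 0 < m) (hr : 0 < r)
    (hc : 0 < c) : PL (fun l => g (phiC m r c l)) := by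
  have h := PL.glue (hg.comp 1 (-r) one_pos)
    (PL.glue (hg.comp r (-r) hr)
      (PL.glue (hg.comp m (-m) hm)
        (PL.glue (hg.comp c (m - 2 * c) hc) (hg.comp 1 (m + c - 3) one_pos) 3
          (by congr 1; ring)) 2
        (by norm_num; congr 1; ring)) 1
      (by norm_num)) 0
    (by norm_num)
  have e : (fun l => g (phiC m r c l)) = fun x => if x ≤ 0 then g (1 * x + (-r)) else
      if x ≤ 1 then g (r * x + (-r)) else if x ≤ 2 then g (m * x + (-m)) else
      if x ≤ 3 then g (c * x + (m - 2 * c)) else g (1 * x + (m + c - 3)) := by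
    ext1 x
    unfold phiC
    split_ifs <;> rfl
  rw [e]
  exact h

/-- The capped curve of the explicit initial configuration is ambient equivalent to a
reparametrisation of the model curve `g₁`.  The hypotheses `hseg`, `hlb` and `hcap` are
theorems proved elsewhere and may be used as black boxes. -/
theorem capped_equiv_model {m h s β r x₁ x₂ : ℝ} {P : ℝ → E3} {a b : E3}
    (hm : 1 ≤ m) (hh : h = 8 * m) (hs : 1 ≤ s) (hs2 : s ≤ 2) (hβ : 0 ≤ β) (hβ2 : β ≤ 1 / 16)
    (hr : r = 4 * m) (hP : NeedleCurve m h s β P a b) (h1 : IsExitL P h r x₁)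
    (h2 : IsExitR P m h r x₂) (hx2s : m < x₂ * s)
    (g₀ g₁ : ℝ → E3) (hpl0 : PL g₀) (hpl1 : PL g₁)
    (hlip0 : ∀ x y, ‖g₀ x - g₀ y‖ ≤ |x - y|) (hlip1 : ∀ x y, ‖g₁ x - g₁ y‖ ≤ |x - y|)
    (hg0l : ∀ y ≤ 0, g₀ y = y • e0) (hg1l : ∀ y ≤ 0, g₁ y = y • e0)
    (hg0r : ∀ y, m ≤ y → g₀ y = g₀ m + (y - m) • e0)
    (hg1r : ∀ y, m ≤ y → g₁ y = g₁ m + (y - m) • e0)
    (hpos0 : 0 ≤ g₀ m 0) (hpos1 : 0 ≤ g₁ m 0)
    (hinj : ∀ σ ∈ Icc (0 : ℝ) 1, Function.Injective (fun x => σ • g₀ x + (1 - σ) • g₁ x))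
    (hPg : ∀ x ∈ Icc (-h) (m + h), P x = g₀ (psi s m x))
    (hcap : PL (capped P m r x₁ x₂) ∧ Function.Injective (capped P m r x₁ x₂) ∧
      ‖dir P r (-x₁)‖ = 1 ∧ ‖dir P r (m + x₂)‖ = 1 ∧
      dir P r (m + x₂) ≠ dir P r (-x₁) ∧ 4 * r ≤ capT P m r x₁ x₂)
    (hseg : ∀ (K₀ K₁ : ℝ → E3) (C : ℝ),
      (∀ x y, ‖(K₁ x - K₀ x) - (K₁ y - K₀ y)‖ ≤ C * |x - y|) →
      (∀ τ ∈ Icc (0 : ℝ) 1, ∃ c > 0, ∀ x y,
        c * |x - y| ≤ ‖((1 - τ) • K₀ x + τ • K₁ x) - ((1 - τ) • K₀ y + τ • K₁ y)‖) →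
      AmbEquiv K₀ K₁)
    (hlb : ∀ K : ℝ → E3, Function.Injective K → RightPL K → LeftPL K →
      ∀ (R : ℝ) (d₁ d₂ u : E3), 0 < inner ℝ d₁ u → 0 < inner ℝ d₂ u →
      (∀ x, x ≤ -R → K x = K (-R) + (x + R) • d₁) → (∀ x, R ≤ x → K x = K R + (x - R) • d₂) →
      ∃ c > 0, ∀ x y, c * |x - y| ≤ ‖K x - K y‖) :
    ∃ K₁ : ℝ → E3, AmbEquiv (capped P m r x₁ x₂) K₁ ∧ Set.range K₁ = Set.range g₁ := by
  obtain ⟨hcpl, hcinj, hdL, hdR, hne, hT⟩ := hcap
  have hm0 : 0 < m := by linarith
  have hr0 : 0 < r := by rw [hr]; linarith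
  have hs0 : 0 < s := by linarith
  have hh0 : 0 < h := by rw [hh]; linarith
  obtain ⟨c, hc⟩ : ∃ c, c = s * x₂ := ⟨_, rfl⟩
  have hcm : m < c := by rw [hc]; linarith
  have hc0 : 0 < c := by linarith
  have hg00 : g₀ 0 = 0 := by rw [hg0l 0 le_rfl, zero_smul]
  have hP0 : P 0 = 0 := by
    rw [hPg 0 ⟨by linarith, by linarith⟩, psi, if_pos le_rfl, mul_zero, hg00]
  have hPl : ∀ x, 0 ≤ x → x ≤ h → P (-x) = g₀ (-(s * x)) := by
    intro x hx hx'
    rw [hPg (-x) ⟨by linarith, by linarith⟩, psi, if_pos (by linarith)]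
    congr 1; ring
  have hsx1 : s * x₁ = r := by
    have h3 := h1.eq
    rw [hP0, sub_zero, hPl x₁ h1.pos.le h1.lt.le, hg0l _ (by nlinarith [h1.pos]), norm_smul,
      e0_norm, mul_one, Real.norm_eq_abs, abs_neg, abs_of_pos (mul_pos hs0 h1.pos)] at h3
    exact h3
  have hPm : ∀ y, 0 ≤ y → y ≤ h → P (m + y) = g₀ (m + s * y) := by
    intro y hy hy'
    rw [hPg (m + y) ⟨by linarith, by linarith⟩, psi, if_neg (by linarith)]
    congr 1
    split_ifs with h3
    · have : y = 0 := by linarith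
      rw [this]; ring
    · ring
  have hPmid : ∀ y, 0 ≤ y → y ≤ m → P y = g₀ y := by
    intro y hy hy'
    rw [hPg y ⟨by linarith, by linarith⟩, psi]
    congr 1
    split_ifs with h3
    · have : y = 0 := by linarith
      rw [this]; ring
    · rfl
  have hPx1 : P (-x₁) = (-r) • e0 := by
    rw [hPl x₁ h1.pos.le h1.lt.le, hsx1, hg0l _ (by linarith)]
  have hdirL : dir P r (-x₁) = -e0 := by
    rw [dir, hP0, sub_zero, hPx1, smul_smul]
    have : r⁻¹ * -r = -1 := by field_simp
    rw [this]; module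
  obtain ⟨w, hwdef⟩ : ∃ w, w = dir P r (m + x₂) := ⟨_, rfl⟩
  obtain ⟨T, hTdef⟩ : ∃ T, T = capT P m r x₁ x₂ := ⟨_, rfl⟩
  rw [← hTdef] at hT
  rw [← hwdef] at hdR
  have hT0 : 0 < T := by linarith
  have hw : r • w = g₀ m + c • e0 := by
    rw [hwdef, dir, smul_smul, mul_inv_cancel₀ hr0.ne', one_smul, hP0, sub_zero,
      hPm x₂ h2.pos.le h2.lt.le, ← hc, hg0r _ (by linarith)]
    congr 2; ring
  have hw0 : r * w 0 = g₀ m 0 + c := by
    have := congrArg (fun v : E3 => v 0) hw
    simpa [e0_coord] using this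
  have hwpos : 0 < w 0 := by
    by_contra hcon
    have : r * w 0 ≤ 0 := mul_nonpos_of_nonneg_of_nonpos hr0.le (not_lt.1 hcon)
    linarith
  have hw1 : w 0 ≤ 1 := by
    have := abs_coord_le w 0
    rw [hdR] at this
    exact (le_abs_self _).trans this
  -- the capped curve
  have hK3 : ∀ l ≤ 3, capped P m r x₁ x₂ l = g₀ (phiC m r c l) := by
    intro l hl
    rcases le_or_gt l 0 with h3 | h3
    · rw [capped_0 h3, phiC_0 h3, hPx1, hdirL, hg0l _ (by linarith)]
      module
    rcases le_or_gt l 1 with h4 | h4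
    · rw [capped_1 h3.le h4, phiC_1 h3.le h4, hPl _ (by nlinarith [h1.pos])
        (by nlinarith [h1.pos, h1.lt])]
      congr 1
      rw [← hsx1]; ring
    rcases le_or_gt l 2 with h5 | h5
    · rw [capped_2 h4.le h5, phiC_2 h4.le h5, hPmid _ (by nlinarith) (by nlinarith)]
      congr 1; ring
    · rw [capped_3 h5.le hl, phiC_3 h5.le hl, hPm _ (by nlinarith [h2.pos])
        (by nlinarith [h2.pos, h2.lt]), hc]
      congr 1; ring
  have hK4 : ∀ l, 3 ≤ l → l ≤ 4 → capped P m r x₁ x₂ l =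
      (r - 3 * (T - r)) • w + l • ((T - r) • w) := by
    intro l h3 h4
    rw [capped_4 hr0.ne' h3 h4, hP0, ← hTdef, ← hwdef]
    module
  have hK5 : ∀ l, 4 ≤ l → l ≤ 5 → capped P m r x₁ x₂ l =
      ((5 * T) • w - (8 * T) • e0) + l • ((2 * T) • e0 - T • w) := by
    intro l h3 h4
    rw [capped_5 hr0.ne' h3 h4, hP0, ← hTdef, ← hwdef, hdirL]
    module
  have hK6 : ∀ l, 5 ≤ l → capped P m r x₁ x₂ l = (2 * T - 5) • e0 + l • e0 := by
    intro l h3
    rw [capped_6 hr0.ne' h3, hP0, ← hTdef, hdirL]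
    module
  obtain ⟨K₀, hK₀⟩ : ∃ K₀, K₀ = capped P m r x₁ x₂ := ⟨_, rfl⟩
  rw [← hK₀] at hcpl hcinj hK3 hK4 hK5 hK6 ⊢
  have hlipφ : ∀ (g : ℝ → E3), (∀ x y, ‖g x - g y‖ ≤ |x - y|) → ∀ x y,
      ‖g (phiC m r c x) - g (phiC m r c y)‖ ≤ (1 + r + m + c) * |x - y| := fun g hg x y =>
    (hg _ _).trans (phiC_lip hm0 hr0 hc0 x y)
  have hlipK0 : ∃ C, ∀ x y, ‖K₀ x - K₀ y‖ ≤ C * |x - y| := by
    have n1 := norm_nonneg ((T - r) • w)
    have n2 := norm_nonneg ((2 * T) • e0 - T • w)
    have n3 := norm_nonneg e0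
    refine ⟨(1 + r + m + c) + ‖(T - r) • w‖ + ‖(2 * T) • e0 - T • w‖ + ‖e0‖, ?_⟩
    intro x y
    have h3 := lip_glue (C := (1 + r + m + c) + ‖(T - r) • w‖ + ‖(2 * T) • e0 - T • w‖ + ‖e0‖)
      (f := fun l => g₀ (phiC m r c l))
      (g := fun l => if l ≤ 4 then (r - 3 * (T - r)) • w + l • ((T - r) • w) else
        if l ≤ 5 then ((5 * T) • w - (8 * T) • e0) + l • ((2 * T) • e0 - T • w) else
        (2 * T - 5) • e0 + l • e0)
      (fun x y => (hlipφ g₀ hlip0 x y).trans
        (mul_le_mul_of_nonneg_right (by linarith) (abs_nonneg _)))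
      (fun x y => lip_glue (fun x y => lip_affE _ _ (by linarith) x y)
        (fun x y => lip_glue (fun x y => lip_affE _ _ (by linarith) x y)
          (fun x y => lip_affE _ _ (by linarith) x y) 5 (by module) x y) 4
        (by norm_num; module) x y) 3
      (by
        norm_num
        rw [← hK3 3 le_rfl, hK4 3 le_rfl (by norm_num)]) x y
    have e : ∀ l, K₀ l = if l ≤ 3 then g₀ (phiC m r c l) else
        if l ≤ 4 then (r - 3 * (T - r)) • w + l • ((T - r) • w) else
        if l ≤ 5 then ((5 * T) • w - (8 * T) • e0) + l • ((2 * T) • e0 - T • w) else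
        (2 * T - 5) • e0 + l • e0 := by
      intro l
      split_ifs with i1 i2 i3
      · exact hK3 l i1
      · exact hK4 l (by linarith) i2
      · exact hK5 l (by linarith) i3
      · exact hK6 l (by linarith)
    rw [e x, e y]
    exact h3
  obtain ⟨C0, hC0⟩ := hlipK0
  -- the first coordinate after the break point 3
  have hX0 : StrictMonoOn (fun l => K₀ l 0) (Ici 3) := by
    have a1 : StrictMonoOn (fun l => K₀ l 0) (Icc 3 4) := by
      intro x hx y hy hxy
      simp only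
      rw [hK4 x hx.1 hx.2, hK4 y hy.1 hy.2]
      simp only [PiLp.add_apply, PiLp.smul_apply, smul_eq_mul]
      have : 0 < (T - r) * w 0 := mul_pos (by linarith) hwpos
      nlinarith
    have a2 : StrictMonoOn (fun l => K₀ l 0) (Icc 4 5) := by
      intro x hx y hy hxy
      simp only
      rw [hK5 x hx.1 hx.2, hK5 y hy.1 hy.2]
      simp only [PiLp.add_apply, PiLp.sub_apply, PiLp.smul_apply, smul_eq_mul, e0_coord]
      have : 0 < (2 * T - T * w 0) := by nlinarith
      nlinarith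
    have a3 : StrictMonoOn (fun l => K₀ l 0) (Ici 5) := by
      intro x hx y hy hxy
      simp only
      rw [hK6 x hx, hK6 y hy]
      simp only [PiLp.add_apply, PiLp.smul_apply, smul_eq_mul, e0_coord]
      linarith
    have a4 : StrictMonoOn (fun l => K₀ l 0) (Ici 4) := by
      have := a2.union a3 (c := 5) ⟨⟨by norm_num, le_rfl⟩, fun _ h => h.2⟩ ⟨self_mem_Ici, fun _ h => h⟩
      rwa [Icc_union_Ici_eq_Ici (by norm_num)] at this
    have := a1.union a4 (c := 4) ⟨⟨by norm_num, le_rfl⟩, fun _ h => h.2⟩ ⟨self_mem_Ici, fun _ h => h⟩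
    rwa [Icc_union_Ici_eq_Ici (by norm_num)] at this
  have hφmono := phiC_strictMono hm0 hr0 hc0
  have hX1 : ∀ l, 3 ≤ l → g₁ (phiC m r c l) 0 = g₁ m 0 + (l + c - 3) := by
    intro l hl
    rw [phiC_4 hl, hg1r _ (by linarith)]
    simp only [PiLp.add_apply, PiLp.smul_apply, smul_eq_mul, e0_coord]
    ring
  have hX03 : K₀ 3 0 = g₀ m 0 + c := by
    rw [hK3 3 le_rfl, phiC_3 (by norm_num) le_rfl, hg0r _ (by linarith)]
    simp only [PiLp.add_apply, PiLp.smul_apply, smul_eq_mul, e0_coord]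
    ring
  refine ⟨fun l => g₁ (phiC m r c l), ?_, ?_⟩
  · refine hseg K₀ (fun l => g₁ (phiC m r c l)) ((1 + r + m + c) + C0) ?_ ?_
    · intro x y
      have e : (g₁ (phiC m r c x) - K₀ x) - (g₁ (phiC m r c y) - K₀ y) =
          (g₁ (phiC m r c x) - g₁ (phiC m r c y)) - (K₀ x - K₀ y) := by abel
      rw [e]
      refine (norm_sub_le _ _).trans ?_
      rw [add_mul]
      exact add_le_add (hlipφ g₁ hlip1 x y) (hC0 x y)
    · intro τ hτ
      have hPL : PL (fun x => (1 - τ) • K₀ x + τ • g₁ (phiC m r c x)) :=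
        PL.comb hcpl (PL.comp_phiC hpl1 hm0 hr0 hc0) _ _
      refine hlb (fun x => (1 - τ) • K₀ x + τ • g₁ (phiC m r c x)) ?_ hPL.1 hPL.2 6 e0 e0 e0
        ?_ ?_ ?_ ?_
      · -- injectivity
        have hlt3 : ∀ l, l < 3 → ((1 - τ) • K₀ l + τ • g₁ (phiC m r c l)) 0 <
            ((1 - τ) • K₀ 3 + τ • g₁ (phiC m r c 3)) 0 := by
          intro l hl
          have b1 := coord_lt hm0 hr0 hcm g₀ hlip0 hg0l hg0r hpos0 hl
          have b2 := coord_lt hm0 hr0 hcm g₁ hlip1 hg1l hg1r hpos1 hl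
          simp only [PiLp.add_apply, PiLp.smul_apply, smul_eq_mul]
          rw [hX03, hX1 3 le_rfl, hK3 l hl.le]
          rcases hτ.1.eq_or_lt with h0 | h0
          · rw [← h0]; linarith
          · have c1 : τ * g₁ (phiC m r c l) 0 < τ * (g₁ m 0 + c) := mul_lt_mul_of_pos_left b2 h0
            have c2 : (1 - τ) * g₀ (phiC m r c l) 0 ≤ (1 - τ) * (g₀ m 0 + c) :=
              mul_le_mul_of_nonneg_left b1.le (by linarith [hτ.2])
            nlinarith
        have hmono : ∀ l l', 3 ≤ l → l < l' → ((1 - τ) • K₀ l + τ • g₁ (phiC m r c l)) 0 <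
            ((1 - τ) • K₀ l' + τ • g₁ (phiC m r c l')) 0 := by
          intro l l' hl hll
          have b1 : K₀ l 0 < K₀ l' 0 := hX0 hl (hl.trans hll.le) hll
          simp only [PiLp.add_apply, PiLp.smul_apply, smul_eq_mul]
          rw [hX1 l hl, hX1 l' (hl.trans hll.le)]
          rcases hτ.1.eq_or_lt with h0 | h0
          · rw [← h0]; linarith
          · have c1 : τ * (g₁ m 0 + (l + c - 3)) < τ * (g₁ m 0 + (l' + c - 3)) :=
              mul_lt_mul_of_pos_left (by linarith) h0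
            have c2 : (1 - τ) * K₀ l 0 ≤ (1 - τ) * K₀ l' 0 :=
              mul_le_mul_of_nonneg_left b1.le (by linarith [hτ.2])
            linarith
        have hmain : ∀ l l', l < l' → (1 - τ) • K₀ l + τ • g₁ (phiC m r c l) ≠
            (1 - τ) • K₀ l' + τ • g₁ (phiC m r c l') := by
          intro l l' hll heq
          rcases le_or_gt l' 3 with h3 | h3
          · rw [hK3 l (hll.le.trans h3), hK3 l' h3] at heq
            have h4 := hinj (1 - τ) ⟨by linarith [hτ.2], by linarith [hτ.1]⟩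
            have e1 : 1 - (1 - τ) = τ := by ring
            simp only [e1] at h4
            have h5 := h4 heq
            exact absurd h5 (hφmono hll).ne
          · have h6 := congrArg (fun v : E3 => v 0) heq
            simp only at h6
            rcases lt_or_ge l 3 with h4 | h4
            · have b1 := hlt3 l h4
              have b2 := hmono 3 l' le_rfl h3
              linarith
            · have b1 := hmono l l' h4 hll
              linarith
        intro l l' heq
        rcases lt_trichotomy l l' with h3 | h3 | h3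
        · exact absurd heq (hmain l l' h3)
        · exact h3
        · exact absurd heq.symm (hmain l' l h3)
      · rw [real_inner_self_eq_norm_sq, e0_norm]; norm_num
      · rw [real_inner_self_eq_norm_sq, e0_norm]; norm_num
      · intro x hx
        rw [hK3 x (by linarith), hK3 (-6) (by norm_num), phiC_0 (by linarith),
          phiC_0 (by norm_num), hg0l _ (by linarith), hg0l _ (by linarith), hg1l _ (by linarith),
          hg1l _ (by linarith)]
        module
      · intro x hx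
        rw [hK6 x (by linarith), hK6 6 (by norm_num), phiC_4 (by linarith),
          phiC_4 (by norm_num), hg1r (x + (m + c - 3)) (by linarith),
          hg1r (6 + (m + c - 3)) (by linarith)]
        module
  · ext v
    constructor
    · rintro ⟨l, rfl⟩
      exact ⟨_, rfl⟩
    · rintro ⟨x, rfl⟩
      obtain ⟨l, rfl⟩ := phiC_surj hm0 hr0 hc0 x
      exact ⟨l, rfl⟩


end Pool.Agent.Helper22.LC
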