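import Pool.Agent.Helper22.LC.Path

set_option autoImplicit false

namespace Pool.Agent.Helper22.LC

open Set Metric Filter Topology

/-- piecewise linear (one sided linear germs everywhere) -/
def PL (K : ℝ → E3) : Prop := RightPL K ∧ LeftPL K

theorem PL.affine (p v : E3) : PL (fun x => p + x • v) := by
  refine ⟨fun x => ⟨1, one_pos, v, fun t _ => ?_⟩, fun x => ⟨1, one_pos, v, fun t _ => ?_⟩⟩
  · module
  · module

theorem PL.comp {P : ℝ → E3} (h : PL P) (α γ : ℝ) (hα : 0 < α) : PL (fun x => P (α * x + γ)) := by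
  refine ⟨fun x => ?_, fun x => ?_⟩
  · obtain ⟨ε, hε, v, hv⟩ := h.1 (α * x + γ)
    refine ⟨ε / α, by positivity, α • v, fun t ht => ?_⟩
    have := hv (α * t) ⟨mul_nonneg hα.le ht.1, by
      have := ht.2; rw [le_div_iff₀ hα] at this; linarith⟩
    have e : α * (x + t) + γ = α * x + γ + α * t := by ring
    beta_reduce
    rw [e, this, smul_smul, mul_comm α t]
  · obtain ⟨ε, hε, v, hv⟩ := h.2 (α * x + γ)
    refine ⟨ε / α, by positivity, α • v, fun t ht => ?_⟩
    have := hv (α * t) ⟨mul_nonneg hα.le ht.1, by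
      have := ht.2; rw [le_div_iff₀ hα] at this; linarith⟩
    have e : α * (x - t) + γ = α * x + γ - α * t := by ring
    beta_reduce
    rw [e, this, smul_smul, mul_comm α t]

theorem PL.glue {f g : ℝ → E3} (hf : PL f) (hg : PL g) (a : ℝ) (hfg : f a = g a) :
    PL (fun x => if x ≤ a then f x else g x) := by
  refine ⟨fun x => ?_, fun x => ?_⟩
  · rcases lt_or_ge x a with h | h
    · obtain ⟨ε, hε, v, hv⟩ := hf.1 x
      refine ⟨min ε (a - x), lt_min hε (by linarith), v, fun t ht => ?_⟩
      have h1 : x + t ≤ a := by linarith [ht.2.trans (min_le_right _ _)]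
      simp only [h1, h.le, if_true]
      exact hv t ⟨ht.1, ht.2.trans (min_le_left _ _)⟩
    · obtain ⟨ε, hε, v, hv⟩ := hg.1 x
      refine ⟨ε, hε, v, fun t ht => ?_⟩
      have h1 : (if x ≤ a then f x else g x) = g x := by
        split_ifs with h2
        · have : x = a := le_antisymm h2 h
          rw [this, hfg]
        · rfl
      have h3 : (if x + t ≤ a then f (x + t) else g (x + t)) = g (x + t) := by
        split_ifs with h2
        · have : x + t = a := le_antisymm h2 (by linarith [ht.1])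
          rw [this, hfg]
        · rfl
      beta_reduce
      rw [h1, h3]; exact hv t ht
  · rcases le_or_gt x a with h | h
    · obtain ⟨ε, hε, v, hv⟩ := hf.2 x
      refine ⟨ε, hε, v, fun t ht => ?_⟩
      have h1 : x - t ≤ a := by linarith [ht.1]
      simp only [h1, h, if_true]
      exact hv t ht
    · obtain ⟨ε, hε, v, hv⟩ := hg.2 x
      refine ⟨min ε (x - a), lt_min hε (by linarith), v, fun t ht => ?_⟩
      have h1 : (if x ≤ a then f x else g x) = g x := if_neg (not_le.2 h)
      have h3 : (if x - t ≤ a then f (x - t) else g (x - t)) = g (x - t) := by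
        split_ifs with h2
        · have : x - t = a := le_antisymm h2 (by linarith [ht.2.trans (min_le_right _ _)])
          rw [this, hfg]
        · rfl
      beta_reduce
      rw [h1, h3]; exact hv t ⟨ht.1, ht.2.trans (min_le_left _ _)⟩

/-- A curve with two long nearly straight ends.  Parameters: `m` the length of the middle part,
`h` the parameter length of the two ends, `s` the speed on the ends, `β` the deviation. -/
structure NeedleCurve (m h s β : ℝ) (P : ℝ → E3) (a b : E3) : Prop where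
  pl : PL P
  inj : Set.InjOn P (Set.Icc (-h) (m + h))
  ha : ‖a‖ = 1
  hb : ‖b‖ = 1
  left : ∀ x ∈ Set.Icc (-h) 0, ∀ y ∈ Set.Icc (-h) 0,
    ‖(P x - P y) - ((y - x) * s) • a‖ ≤ s * β * |x - y|
  right : ∀ x ∈ Set.Icc m (m + h), ∀ y ∈ Set.Icc m (m + h),
    ‖(P x - P y) - ((x - y) * s) • b‖ ≤ s * β * |x - y|
  mid : ∀ x ∈ Set.Icc 0 m, ∀ y ∈ Set.Icc 0 m, ‖P x - P y‖ ≤ |x - y|
  left1 : ∀ x ∈ Set.Icc (-1 : ℝ) 0, P x = P 0 + (-x * s) • a
  right1 : ∀ x ∈ Set.Icc m (m + 1), P x = P m + ((x - m) * s) • b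

/-- The unit vector from the centre `P 0` towards the point `P x`, for a point at distance `r`. -/
noncomputable def dir (P : ℝ → E3) (r x : ℝ) : E3 := r⁻¹ • (P x - P 0)

/-- the large radius used for the cap -/
noncomputable def capT (P : ℝ → E3) (m r x₁ x₂ : ℝ) : ℝ :=
  8 * r / ‖dir P r (m + x₂) - dir P r (-x₁)‖

/-- The curve `P` restricted to `[-x₁, m + x₂]` and closed up outside the ball of radius `r`
around `P 0` to a long curve with both ends on the line through `P 0` and `P (-x₁)`. -/
noncomputable def capped (P : ℝ → E3) (m r x₁ x₂ : ℝ) (l : ℝ) : E3 :=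
  if l ≤ 0 then P (-x₁) + (-l) • dir P r (-x₁)
  else if l ≤ 1 then P (x₁ * l + (-x₁))
  else if l ≤ 2 then P (m * l + (-m))
  else if l ≤ 3 then P (x₂ * l + (m - 2 * x₂))
  else if l ≤ 4 then P 0 + (r + (l - 3) * (capT P m r x₁ x₂ - r)) • dir P r (m + x₂)
  else if l ≤ 5 then P 0 + ((5 - l) * capT P m r x₁ x₂) • dir P r (m + x₂)
      - ((l - 4) * (2 * capT P m r x₁ x₂)) • dir P r (-x₁)
  else P 0 - (2 * capT P m r x₁ x₂ + (l - 5)) • dir P r (-x₁)

end Pool.Agent.Helper22.LC
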