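import Pool.Agent.Helper22.LC.Lower

set_option autoImplicit false

namespace Pool.Agent.Helper22.LC

open Set Metric Filter Topology

/-- ambient equivalence of parametrised curves -/
def AmbEquiv (K K' : ℝ → E3) : Prop := ∃ Φ : E3 ≃ₜ E3, ∀ x, Φ (K x) = K' x

theorem AmbEquiv.refl (K : ℝ → E3) : AmbEquiv K K := ⟨Homeomorph.refl _, fun _ => rfl⟩

theorem AmbEquiv.symm {K K' : ℝ → E3} (h : AmbEquiv K K') : AmbEquiv K' K := by
  obtain ⟨Φ, hΦ⟩ := h
  exact ⟨Φ.symm, fun x => by rw [← hΦ x, Homeomorph.symm_apply_apply]⟩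

theorem AmbEquiv.trans {K K' K'' : ℝ → E3} (h : AmbEquiv K K') (h' : AmbEquiv K' K'') :
    AmbEquiv K K'' := by
  obtain ⟨Φ, hΦ⟩ := h
  obtain ⟨Ψ, hΨ⟩ := h'
  exact ⟨Φ.trans Ψ, fun x => by rw [Homeomorph.trans_apply, hΦ, hΨ]⟩

/-- local equivalence along a path gives global equivalence -/
theorem ambEquiv_of_path (K : ℝ → ℝ → E3)
    (h : ∀ t0 ∈ Icc (0 : ℝ) 1, ∀ᶠ t in 𝓝[Icc 0 1] t0, AmbEquiv (K t0) (K t)) :
    AmbEquiv (K 0) (K 1) := by
  refine isPreconnected_Icc.induction₂' (s := Icc (0 : ℝ) 1) (fun a b => AmbEquiv (K a) (K b))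
    ?_ ?_ (left_mem_Icc.2 zero_le_one) (right_mem_Icc.2 zero_le_one)
  · intro t0 ht0
    filter_upwards [h t0 ht0] with t ht
    exact ⟨ht, ht.symm⟩
  · intro x y z _ _ _ hxy hyz
    exact hxy.trans hyz

/-- straight line homotopy -/
theorem ambEquiv_of_segment (K₀ K₁ : ℝ → E3) (C : ℝ)
    (hC : ∀ x y, ‖(K₁ x - K₀ x) - (K₁ y - K₀ y)‖ ≤ C * |x - y|)
    (h : ∀ τ ∈ Icc (0 : ℝ) 1, ∃ c > 0, ∀ x y,
      c * |x - y| ≤ ‖((1 - τ) • K₀ x + τ • K₁ x) - ((1 - τ) • K₀ y + τ • K₁ y)‖) :
    AmbEquiv K₀ K₁ := by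
  obtain ⟨κ, hκ, hκ'⟩ := exists_homeo_of_small
  have := ambEquiv_of_path (fun τ x => (1 - τ) • K₀ x + τ • K₁ x) ?_
  · simpa using this
  · intro t0 ht0
    obtain ⟨c, hc, hlow⟩ := h t0 ht0
    have hcont : Continuous (fun t : ℝ => |t - t0| * |C|) := by fun_prop
    have : ∀ᶠ t in 𝓝 t0, |t - t0| * |C| < κ * c :=
      hcont.continuousAt.eventually_lt_const (by simpa using mul_pos hκ hc)
    filter_upwards [mem_nhdsWithin_of_mem_nhds this] with t ht
    refine hκ' _ _ ?_
    intro x y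
    have e : ((1 - t) • K₀ x + t • K₁ x - ((1 - t0) • K₀ x + t0 • K₁ x)) -
        ((1 - t) • K₀ y + t • K₁ y - ((1 - t0) • K₀ y + t0 • K₁ y)) =
        (t - t0) • ((K₁ x - K₀ x) - (K₁ y - K₀ y)) := by module
    beta_reduce
    rw [e, norm_smul, Real.norm_eq_abs]
    calc |t - t0| * ‖(K₁ x - K₀ x) - (K₁ y - K₀ y)‖
        ≤ |t - t0| * (|C| * |x - y|) := by
          refine mul_le_mul_of_nonneg_left ((hC x y).trans ?_) (abs_nonneg _)
          exact mul_le_mul_of_nonneg_right (le_abs_self C) (abs_nonneg _)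
      _ = (|t - t0| * |C|) * |x - y| := by ring
      _ ≤ (κ * c) * |x - y| := mul_le_mul_of_nonneg_right ht.le (abs_nonneg _)
      _ = κ * (c * |x - y|) := by ring
      _ ≤ _ := mul_le_mul_of_nonneg_left (hlow x y) hκ.le

/-- the standard direction -/
noncomputable def e0 : E3 := EuclideanSpace.single 0 1

theorem norm_e0 : ‖e0‖ = 1 := by simp [e0]

/-- A long curve is unknotted if some homeomorphism of space straightens it. -/
def Unknotted (K : ℝ → E3) : Prop := AmbEquiv K (fun x => x • e0)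

/-- any two unit directions are related by an isometry -/
theorem line_equiv (ν : E3) (hν : ‖ν‖ = 1) (s : ℝ) (hs : 0 < s) :
    Unknotted (fun x => (s * x) • ν) := by
  let ρ := Submodule.reflection (Submodule.span ℝ {ν - e0})ᗮ
  have hρ : ρ ν = e0 := Submodule.reflection_sub (by rw [hν, norm_e0])
  refine ⟨ρ.toHomeomorph.trans (Homeomorph.smulOfNeZero (s⁻¹) (inv_ne_zero hs.ne')), ?_⟩
  intro x
  simp only [Homeomorph.trans_apply, LinearIsometryEquiv.coe_toHomeomorph,
    Homeomorph.smulOfNeZero_apply, map_smul, hρ]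
  rw [smul_smul]; congr 1; field_simp

/-- A planar long curve is unknotted. -/
theorem flat_unknotted (K : ℝ → E3) (hK : Continuous K) (c : ℝ) (hc : 0 < c)
    (hlow : ∀ x y, c * |x - y| ≤ ‖K x - K y‖) (ν : E3) (hν : ‖ν‖ = 1) (b : ℝ)
    (hflat : ∀ x, inner ℝ (K x) ν = b) : Unknotted K := by
  obtain ⟨κ, hκ, hκ'⟩ := exists_homeo_of_small
  set s := κ * c with hs
  have hs0 : 0 < s := mul_pos hκ hc
  -- step 1 : lift
  have h1 : AmbEquiv K (fun x => K x + (s * x) • ν) := by
    refine hκ' _ _ ?_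
    intro x y
    have e : (K x + (s * x) • ν - K x) - (K y + (s * y) • ν - K y) = (s * (x - y)) • ν := by module
    rw [e, norm_smul, hν, mul_one, Real.norm_eq_abs, abs_mul, abs_of_pos hs0, hs]
    calc κ * c * |x - y| = κ * (c * |x - y|) := by ring
      _ ≤ _ := mul_le_mul_of_nonneg_left (hlow x y) hκ.le
  -- step 2 : shear
  have hνν : inner ℝ ν ν = (1 : ℝ) := by rw [real_inner_self_eq_norm_sq, hν]; norm_num
  have hcont : Continuous (fun p : E3 => K ((inner ℝ p ν - b) / s)) := by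
    apply hK.comp; fun_prop
  let Φ : E3 ≃ₜ E3 :=
    { toFun := fun p => p - K ((inner ℝ p ν - b) / s)
      invFun := fun p => p + K (inner ℝ p ν / s)
      left_inv := by
        intro p
        simp only [inner_sub_left, hflat]
        abel
      right_inv := by
        intro p
        simp only [inner_add_left, hflat]
        rw [add_sub_cancel_right]; abel
      continuous_toFun := by fun_prop
      continuous_invFun := by
        have : Continuous (fun p : E3 => K (inner ℝ p ν / s)) := by apply hK.comp; fun_prop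
        fun_prop }
  have h2 : AmbEquiv (fun x => K x + (s * x) • ν) (fun x => (s * x) • ν) := by
    refine ⟨Φ, ?_⟩
    intro x
    change (K x + (s * x) • ν) - K ((inner ℝ (K x + (s * x) • ν) ν - b) / s) = (s * x) • ν
    have : (inner ℝ (K x + (s * x) • ν) ν - b) / s = x := by
      rw [inner_add_left, hflat, inner_smul_left, hνν]
      simp only [RCLike.conj_to_real]
      field_simp; ring
    rw [this]; abel
  exact (h1.trans h2).trans (line_equiv ν hν s hs0)

end Pool.Agent.Helper22.LC
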