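import Pool.Agent.Helper22.LC.Lattice

set_option autoImplicit false

namespace Pool.Agent.Helper22.LC

open Set Metric Filter Topology

/-- quarter turn interpolation from `D` to `D'` -/
noncomputable def mix (D D' : E3) (φ : ℝ) : E3 :=
  if D = D' then D else Real.cos φ • D + Real.sin φ • D'

/-- the step of the turn -/
noncomputable def unitAngle (k : ℕ) : ℝ := Real.pi / 2 / (2 * k + 1)

/-- directions of the rounded path: near each multiple of `R` the direction turns in `2k` steps -/
noncomputable def rdir (R k : ℕ) (i : ℤ) : E3 :=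
  if i % R < k then
    mix (D0 (i / R - 1)) (D0 (i / R)) ((k + ((i % R : ℤ) : ℝ) + 1) * unitAngle k)
  else if (R : ℤ) - k ≤ i % R then
    mix (D0 (i / R)) (D0 (i / R + 1)) ((((i % R : ℤ) : ℝ) - ((R : ℝ) - k) + 1) * unitAngle k)
  else D0 (i / R)

/-- the accumulated deviation of the rounded path from the lattice path -/
noncomputable def dev (R k : ℕ) (i : ℤ) : E3 :=
  ∑ j ∈ Finset.range i.toNat, (rdir R k j - D0 ((j : ℤ) / R))

/-- the lattice path scaled by `R`, with unit steps -/
noncomputable def W (R : ℕ) (i : ℤ) : E3 := (R : ℝ) • curve V0 ((i : ℝ) / R)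

end Pool.Agent.Helper22.LC
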