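import Pool.Agent.Helper22.LC.Round

set_option autoImplicit false

namespace Pool.Agent.Helper22.LC

open Set Metric Filter Topology

theorem mix_norm (j : ℤ) (φ : ℝ) : ‖mix (D0 j) (D0 (j + 1)) φ‖ = 1 := by
  unfold mix
  split_ifs with h
  · exact norm_D0 j
  · have ho : inner ℝ (D0 j) (D0 (j + 1)) = 0 := (D0_consec j).resolve_left h
    have h1 : ‖Real.cos φ • D0 j + Real.sin φ • D0 (j + 1)‖ ^ 2 = 1 := by
      rw [norm_add_sq_real, inner_smul_left, inner_smul_right, ho, norm_smul, norm_smul,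
        norm_D0, norm_D0]
      simp
    nlinarith [norm_nonneg (Real.cos φ • D0 j + Real.sin φ • D0 (j + 1))]

theorem mix_angle (j : ℤ) (φ u : ℝ) (hu0 : 0 ≤ u) (hu : u ≤ Real.pi) :
    InnerProductGeometry.angle (mix (D0 j) (D0 (j + 1)) φ) (mix (D0 j) (D0 (j + 1)) (φ + u)) ≤ u := by
  by_cases h : D0 j = D0 (j + 1)
  · have hD : D0 j ≠ 0 := by
      intro h0
      have := norm_D0 j
      rw [h0, norm_zero] at this
      exact zero_ne_one this
    have e : ∀ ψ, mix (D0 j) (D0 (j + 1)) ψ = D0 j := fun ψ => by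
      unfold mix; rw [if_pos h]
    rw [e, e, InnerProductGeometry.angle_self hD]
    exact hu0
  · have ho : inner ℝ (D0 j) (D0 (j + 1)) = 0 := (D0_consec j).resolve_left h
    have h1 := mix_norm j φ
    have h2 := mix_norm j (φ + u)
    have h3 : inner ℝ (mix (D0 j) (D0 (j + 1)) φ) (mix (D0 j) (D0 (j + 1)) (φ + u)) = Real.cos u := by
      unfold mix
      rw [if_neg h, if_neg h, inner_add_left, inner_add_right, inner_add_right]
      simp only [real_inner_smul_left, real_inner_smul_right]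
      rw [real_inner_comm (D0 j) (D0 (j + 1)), ho, real_inner_self_eq_norm_sq,
        real_inner_self_eq_norm_sq, norm_D0, norm_D0]
      have : Real.cos u = Real.cos ((φ + u) - φ) := by congr 1; ring
      rw [this, Real.cos_sub]
      ring
    unfold InnerProductGeometry.angle
    rw [h1, h2, h3, mul_one, div_one, Real.arccos_cos hu0 hu]

theorem rdir_eq (R k : ℕ) (j t : ℤ) (h0 : 0 ≤ t) (h1 : t < R) :
    rdir R k (R * j + t) =
      if t < k then mix (D0 (j - 1)) (D0 j) ((k + (t : ℝ) + 1) * unitAngle k)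
      else if (R : ℤ) - k ≤ t then mix (D0 j) (D0 (j + 1)) (((t : ℝ) - ((R : ℝ) - k) + 1) * unitAngle k)
      else D0 j := by
  have hR : (R : ℤ) ≠ 0 := by omega
  have e1 : ((R : ℤ) * j + t) % R = t := by
    rw [add_comm, Int.add_mul_emod_self_left, Int.emod_eq_of_lt h0 h1]
  have e2 : ((R : ℤ) * j + t) / R = j := by
    rw [add_comm, Int.add_mul_ediv_left _ _ hR, Int.ediv_eq_zero_of_lt h0 h1, zero_add]
  unfold rdir
  rw [e1, e2]

theorem unitAngle_bd (k : ℕ) : 0 ≤ unitAngle k ∧ unitAngle k ≤ Real.pi := by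
  have hp := Real.pi_pos
  have hk : (0 : ℝ) ≤ k := Nat.cast_nonneg k
  unfold unitAngle
  refine ⟨by positivity, ?_⟩
  rw [div_le_iff₀ (by positivity)]
  nlinarith

theorem unitAngle_mul (k : ℕ) : (2 * (k : ℝ) + 1) * unitAngle k = Real.pi / 2 := by
  have hk : (0 : ℝ) ≤ k := Nat.cast_nonneg k
  unfold unitAngle
  have : (2 * (k : ℝ) + 1) ≠ 0 := by positivity
  field_simp

theorem mix_half (D D' : E3) : mix D D' (Real.pi / 2) = D' := by
  unfold mix
  split_ifs with h
  · exact h
  · rw [Real.cos_pi_div_two, Real.sin_pi_div_two, zero_smul, one_smul, zero_add]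

theorem mix_zero (D D' : E3) : mix D D' 0 = D := by
  unfold mix
  split_ifs with h
  · rfl
  · rw [Real.cos_zero, Real.sin_zero, zero_smul, one_smul, add_zero]

theorem norm_rdir (R k : ℕ) (i : ℤ) : ‖rdir R k i‖ = 1 := by
  unfold rdir
  split_ifs
  · have := mix_norm (i / R - 1) ((k + ((i % R : ℤ) : ℝ) + 1) * unitAngle k)
    rwa [sub_add_cancel] at this
  · exact mix_norm _ _
  · exact norm_D0 _

theorem angle_rdir (R k : ℕ) (hk : 1 ≤ k) (hR : 2 * k < R) (i : ℤ) :
    InnerProductGeometry.angle (rdir R k i) (rdir R k (i + 1)) ≤ unitAngle k := by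
  obtain ⟨j, t, h0, h1, rfl⟩ : ∃ j t : ℤ, 0 ≤ t ∧ t < R ∧ i = R * j + t :=
    ⟨i / R, i % R, Int.emod_nonneg _ (by omega), Int.emod_lt_of_pos _ (by omega),
      (Int.mul_ediv_add_emod i R).symm⟩
  obtain ⟨hu0, hu1⟩ := unitAngle_bd k
  have hum := unitAngle_mul k
  have hD : ∀ j, D0 j ≠ 0 := by
    intro j h0
    have := norm_D0 j
    rw [h0, norm_zero] at this
    exact zero_ne_one this
  rcases lt_or_ge (t + 1) R with hlt | hge
  · have e0 : (R : ℤ) * j + t + 1 = R * j + (t + 1) := by ring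
    rw [e0, rdir_eq R k j t h0 h1, rdir_eq R k j (t + 1) (by omega) hlt]
    rcases lt_trichotomy (t + 1) (k : ℤ) with c1 | c1 | c1
    · rw [if_pos (by omega), if_pos c1]
      have := mix_angle (j - 1) ((k + (t : ℝ) + 1) * unitAngle k) (unitAngle k) hu0 hu1
      rw [sub_add_cancel] at this
      have e1 : ((k : ℝ) + ((t + 1 : ℤ) : ℝ) + 1) * unitAngle k =
          (k + (t : ℝ) + 1) * unitAngle k + unitAngle k := by push_cast; ring
      rw [e1]
      exact this
    · rw [if_pos (by omega : t < (k : ℤ)), if_neg (by omega : ¬ t + 1 < (k : ℤ)),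
        if_neg (by omega : ¬ (R : ℤ) - k ≤ t + 1)]
      have := mix_angle (j - 1) ((k + (t : ℝ) + 1) * unitAngle k) (unitAngle k) hu0 hu1
      rw [sub_add_cancel] at this
      have e1 : ((k : ℝ) + (t : ℝ) + 1) * unitAngle k + unitAngle k = Real.pi / 2 := by
        have : (t : ℝ) = k - 1 := by
          have : t = (k : ℤ) - 1 := by omega
          rw [this]; push_cast; ring
        rw [this, ← hum]
        ring
      rw [e1, mix_half] at this
      exact this
    · rw [if_neg (by omega : ¬ t < (k : ℤ)), if_neg (by omega : ¬ t + 1 < (k : ℤ))]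
      rcases lt_trichotomy (t + 1) ((R : ℤ) - k) with c2 | c2 | c2
      · rw [if_neg (by omega : ¬ (R : ℤ) - k ≤ t), if_neg (by omega : ¬ (R : ℤ) - k ≤ t + 1),
          InnerProductGeometry.angle_self (hD j)]
        exact hu0
      · rw [if_neg (by omega : ¬ (R : ℤ) - k ≤ t), if_pos (by omega : (R : ℤ) - k ≤ t + 1)]
        have := mix_angle j 0 (unitAngle k) hu0 hu1
        rw [mix_zero, zero_add] at this
        have e1 : (((t + 1 : ℤ) : ℝ) - ((R : ℝ) - k) + 1) * unitAngle k = unitAngle k := by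
          rw [c2]; push_cast; ring
        rw [e1]
        exact this
      · rw [if_pos (by omega : (R : ℤ) - k ≤ t), if_pos (by omega : (R : ℤ) - k ≤ t + 1)]
        have := mix_angle j (((t : ℝ) - ((R : ℝ) - k) + 1) * unitAngle k) (unitAngle k) hu0 hu1
        have e1 : (((t + 1 : ℤ) : ℝ) - ((R : ℝ) - k) + 1) * unitAngle k =
            ((t : ℝ) - ((R : ℝ) - k) + 1) * unitAngle k + unitAngle k := by push_cast; ring
        rw [e1]
        exact this
  · have ht : t = R - 1 := by omega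
    have e0 : (R : ℤ) * j + t + 1 = R * (j + 1) + 0 := by rw [ht]; ring
    rw [e0, rdir_eq R k j t h0 h1, rdir_eq R k (j + 1) 0 le_rfl (by omega),
      if_neg (by omega : ¬ t < (k : ℤ)), if_pos (by omega : (R : ℤ) - k ≤ t),
      if_pos (by omega : (0 : ℤ) < (k : ℤ)), add_sub_cancel_right]
    have := mix_angle j (((t : ℝ) - ((R : ℝ) - k) + 1) * unitAngle k) (unitAngle k) hu0 hu1
    have e1 : ((k : ℝ) + ((0 : ℤ) : ℝ) + 1) * unitAngle k =
        ((t : ℝ) - ((R : ℝ) - k) + 1) * unitAngle k + unitAngle k := by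
      rw [ht]; push_cast; ring
    rw [e1]
    exact this

theorem D0_supp (j : ℤ) : ∃ a : Fin 3, ∀ c, c ≠ a → D0 j c = 0 := by
  rcases D0_cases j with h | h | h | h | h | h <;> rw [h]
  · exact ⟨0, fun c hc => by fin_cases c <;> simp_all [pt]⟩
  · exact ⟨1, fun c hc => by fin_cases c <;> simp_all [pt]⟩
  · exact ⟨2, fun c hc => by fin_cases c <;> simp_all [pt]⟩
  · exact ⟨0, fun c hc => by fin_cases c <;> simp_all [pt]⟩
  · exact ⟨2, fun c hc => by fin_cases c <;> simp_all [pt]⟩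
  · exact ⟨1, fun c hc => by fin_cases c <;> simp_all [pt]⟩

theorem exists_ne_ne : ∀ a b : Fin 3, ∃ c : Fin 3, c ≠ a ∧ c ≠ b := by decide

theorem mix_coord (i j : ℤ) (φ : ℝ) : ∃ c : Fin 3, mix (D0 i) (D0 j) φ c = 0 := by
  obtain ⟨a, ha⟩ := D0_supp i
  obtain ⟨b, hb⟩ := D0_supp j
  obtain ⟨c, hc1, hc2⟩ := exists_ne_ne a b
  refine ⟨c, ?_⟩
  unfold mix
  split_ifs
  · exact ha c hc1
  · simp [ha c hc1, hb c hc2]

/-- every direction has a vanishing coordinate -/
theorem rdir_coord (R k : ℕ) (i : ℤ) : ∃ c : Fin 3, rdir R k i c = 0 := by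
  unfold rdir
  split_ifs
  · exact mix_coord _ _ _
  · exact mix_coord _ _ _
  · obtain ⟨a, ha⟩ := D0_supp (i / R)
    obtain ⟨c, hc⟩ : ∃ c : Fin 3, c ≠ a := exists_ne a
    exact ⟨c, ha c hc⟩


end Pool.Agent.Helper22.LC
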