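import Pool.Agent.Helper22.LC.RoundA

set_option autoImplicit false

namespace Pool.Agent.Helper22.LC

open Set Metric Filter Topology

theorem seg_formula (R : ℕ) (hR : 1 ≤ R) (i : ℤ) (x : ℝ) (h0 : (i : ℝ) ≤ x) (h1 : x ≤ i + 1) :
    curve V0 (x / R) = V0 (i / R) + (x / R - ((i / R : ℤ) : ℝ)) • D0 (i / R) := by
  have hRpos : (0 : ℝ) < R := by exact_mod_cast hR
  have hRz : (0 : ℤ) < R := by exact_mod_cast hR
  have e := Int.mul_ediv_add_emod i R
  have ht0 := Int.emod_nonneg i hRz.ne'
  have ht1 := Int.emod_lt_of_pos i hRz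
  set j : ℤ := i / R with hj
  set t : ℤ := i % R with ht
  have eR : (R : ℝ) * j + t = i := by exact_mod_cast e
  have ht0R : (0 : ℝ) ≤ t := by exact_mod_cast ht0
  have ht1R : (t : ℝ) + 1 ≤ R := by exact_mod_cast ht1
  have k0 : (j : ℝ) ≤ x / R := by
    rw [le_div_iff₀ hRpos]
    nlinarith
  have k1 : x / R ≤ (j : ℝ) + 1 := by
    rw [div_le_iff₀ hRpos]
    nlinarith
  rw [curve_of_mem V0 j _ k0 k1, V0_succ]
  congr 2
  abel

theorem W_formula (R : ℕ) (hR : 1 ≤ R) (i : ℤ) :
    W R i = (R : ℝ) • (V0 (i / R) + ((i : ℝ) / R - ((i / R : ℤ) : ℝ)) • D0 (i / R)) := by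
  rw [W, seg_formula R hR i _ le_rfl (by linarith)]

theorem W_step' (R : ℕ) (hR : 1 ≤ R) (i : ℤ) : W R (i + 1) - W R i = D0 (i / R) := by
  have hRpos : (0 : ℝ) < R := by exact_mod_cast hR
  rw [W_formula R hR i, W, seg_formula R hR i _ (by push_cast; linarith) (by push_cast; linarith)]
  rw [← smul_sub, add_sub_add_left_eq_sub, ← sub_smul, smul_smul]
  have : (R : ℝ) * ((((i + 1 : ℤ) : ℝ) / R - ((i / R : ℤ) : ℝ)) - ((i : ℝ) / R - ((i / R : ℤ) : ℝ))) = 1 := by
    push_cast
    field_simp
    ring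
  rw [this, one_smul]

theorem mix_self (D : E3) (φ : ℝ) : mix D D φ = D := if_pos rfl

theorem rdir_flat (R k : ℕ) (i : ℤ) (h1 : D0 (i / R - 1) = D0 (i / R))
    (h2 : D0 (i / R) = D0 (i / R + 1)) : rdir R k i = D0 (i / R) := by
  unfold rdir
  rw [h1, ← h2, mix_self, mix_self]
  split_ifs <;> rfl

theorem dev_succ (R k : ℕ) (hR : 1 ≤ R) (i : ℤ) :
    dev R k (i + 1) - dev R k i = rdir R k i - D0 (i / R) := by
  have hRz : (0 : ℤ) < R := by exact_mod_cast hR
  rcases lt_or_ge i 0 with h | h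
  · have e1 : dev R k (i + 1) = 0 := by
      unfold dev
      rw [Int.toNat_of_nonpos (by omega)]
      simp
    have e2 : dev R k i = 0 := by
      unfold dev
      rw [Int.toNat_of_nonpos (by omega)]
      simp
    have h3 : i / R < 0 := Int.ediv_neg_of_neg_of_pos h hRz
    rw [e1, e2, rdir_flat R k i, sub_self, sub_self]
    · rw [D0_of_lt _ (by omega), D0_of_lt _ (by omega)]
    · rw [D0_of_lt _ (by omega), D0_of_lt _ (by omega)]
  · have e1 : (i + 1).toNat = i.toNat + 1 := by omega
    have e2 : ((i.toNat : ℕ) : ℤ) = i := Int.toNat_of_nonneg h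
    unfold dev
    rw [e1, Finset.sum_range_succ, add_sub_cancel_left, e2]

theorem dev_const' (R k : ℕ) (hk : 1 ≤ k) (hR : 2 * k < R) (i : ℤ) (hi : 23 * (R : ℤ) ≤ i) :
    dev R k i = dev R k (23 * R) := by
  have hRz : (0 : ℤ) < R := by omega
  refine Int.leInduction (motive := fun i _ => dev R k i = dev R k (23 * R)) rfl ?_ i hi
  intro n hn ih
  have h1 := dev_succ R k (by omega) n
  have h2 : 23 ≤ n / R := Int.le_ediv_of_mul_le hRz hn
  rw [rdir_flat R k n, sub_self, sub_eq_zero] at h1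
  · rw [h1, ih]
  · rw [D0_of_ge _ (by omega), D0_of_ge _ (by omega)]
  · rw [D0_of_ge _ (by omega), D0_of_ge _ (by omega)]

/-- majorant of one step of the deviation -/
noncomputable def maj (R k : ℕ) (j : ℕ) : ℝ :=
  (if j % R < k then 2 else 0) + (if R - k ≤ j % R then 2 else 0)

theorem maj_nonneg (R k j : ℕ) : 0 ≤ maj R k j := by
  unfold maj
  split_ifs <;> norm_num

theorem step_le_maj (R k : ℕ) (hR : 2 * k < R) (hnorm : ∀ i, ‖rdir R k i‖ = 1) (j : ℕ) :
    ‖rdir R k j - D0 ((j : ℤ) / R)‖ ≤ maj R k j := by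
  have h2 : ‖rdir R k j - D0 ((j : ℤ) / R)‖ ≤ 2 := by
    refine (norm_sub_le _ _).trans ?_
    rw [hnorm, norm_D0]; norm_num
  have hm : ((j : ℤ) % (R : ℤ)) = ((j % R : ℕ) : ℤ) := by push_cast; rfl
  unfold maj
  by_cases a : j % R < k
  · rw [if_pos a]
    refine h2.trans ?_
    split_ifs <;> norm_num
  · by_cases b : R - k ≤ j % R
    · rw [if_neg a, if_pos b]
      linarith
    · rw [if_neg a, if_neg b]
      have : rdir R k j = D0 ((j : ℤ) / R) := by
        unfold rdir
        rw [if_neg (by rw [hm]; omega), if_neg (by rw [hm]; omega)]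
      rw [this, sub_self, norm_zero]
      norm_num

theorem sum_maj_block (R k : ℕ) (hR : 2 * k < R) : ∑ t ∈ Finset.range R, maj R k t ≤ 4 * k := by
  have h1 : ∀ t ∈ Finset.range R, maj R k t =
      (if t < k then (2 : ℝ) else 0) + (if R - k ≤ t then 2 else 0) := by
    intro t ht
    rw [Finset.mem_range] at ht
    unfold maj
    rw [Nat.mod_eq_of_lt ht]
  rw [Finset.sum_congr rfl h1, Finset.sum_add_distrib]
  have h2 : ∑ t ∈ Finset.range R, (if t < k then (2 : ℝ) else 0) ≤ 2 * k := by
    rw [← Finset.sum_filter, Finset.sum_const, nsmul_eq_mul, mul_comm]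
    have : (Finset.filter (fun t => t < k) (Finset.range R)).card ≤ k := by
      calc _ ≤ (Finset.range k).card := by
            apply Finset.card_le_card
            intro t ht
            rw [Finset.mem_filter] at ht
            exact Finset.mem_range.2 ht.2
        _ = k := Finset.card_range k
    have : ((Finset.filter (fun t => t < k) (Finset.range R)).card : ℝ) ≤ k := by exact_mod_cast this
    linarith
  have h3 : ∑ t ∈ Finset.range R, (if R - k ≤ t then (2 : ℝ) else 0) ≤ 2 * k := by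
    rw [← Finset.sum_filter, Finset.sum_const, nsmul_eq_mul, mul_comm]
    have : (Finset.filter (fun t => R - k ≤ t) (Finset.range R)).card ≤ k := by
      calc _ ≤ (Finset.Ico (R - k) R).card := by
            apply Finset.card_le_card
            intro t ht
            rw [Finset.mem_filter, Finset.mem_range] at ht
            exact Finset.mem_Ico.2 ⟨ht.2, ht.1⟩
        _ = k := by rw [Nat.card_Ico]; omega
    have : ((Finset.filter (fun t => R - k ≤ t) (Finset.range R)).card : ℝ) ≤ k := by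
      exact_mod_cast this
    linarith
  linarith

theorem sum_maj_blocks (R k : ℕ) (hR : 2 * k < R) (a : ℕ) :
    ∑ t ∈ Finset.range (a * R), maj R k t ≤ a * (4 * k) := by
  induction a with
  | zero => simp
  | succ a ih =>
    rw [add_mul, one_mul, Finset.sum_range_add]
    have h1 : ∀ t ∈ Finset.range R, maj R k (a * R + t) = maj R k t := by
      intro t _
      unfold maj
      rw [Nat.mul_add_mod']
    rw [Finset.sum_congr rfl h1]
    have h2 := sum_maj_block R k hR
    push_cast
    linarith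

theorem dev_bound (R k : ℕ) (hk : 1 ≤ k) (hR : 2 * k < R)
    (hnorm : ∀ i, ‖rdir R k i‖ = 1) (i : ℤ) : ‖dev R k i‖ ≤ 96 * k := by
  have hsmall : ∀ i : ℤ, i ≤ 23 * R → ‖dev R k i‖ ≤ 96 * k := by
    intro i hi
    have h1 : ‖dev R k i‖ ≤ ∑ j ∈ Finset.range i.toNat, maj R k j := by
      unfold dev
      refine (norm_sum_le _ _).trans ?_
      exact Finset.sum_le_sum fun j _ => step_le_maj R k hR hnorm j
    have h2 : ∑ j ∈ Finset.range i.toNat, maj R k j ≤ ∑ j ∈ Finset.range (23 * R), maj R k j := by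
      apply Finset.sum_le_sum_of_subset_of_nonneg
      · apply Finset.range_subset_range.2
        omega
      · intro j _ _
        exact maj_nonneg R k j
    have h3 := sum_maj_blocks R k hR 23
    push_cast at h3
    have hk0 : (0 : ℝ) ≤ k := by positivity
    linarith
  rcases le_total i (23 * R) with h | h
  · exact hsmall i h
  · rw [dev_const' R k hk hR i h]
    exact hsmall _ le_rfl

theorem dev_const (R k : ℕ) (hk : 1 ≤ k) (hR : 2 * k < R) (i : ℤ) (hi : 23 * (R : ℤ) ≤ i) :
    dev R k i = dev R k (23 * R) := dev_const' R k hk hR i hi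

theorem dev_of_nonpos (R k : ℕ) (i : ℤ) (hi : i ≤ 0) : dev R k i = 0 := by
  unfold dev
  rw [Int.toNat_of_nonpos hi]
  simp

/-- the vertices `W + dev` have edge directions `rdir` -/
theorem step_eq (R k : ℕ) (hk : 1 ≤ k) (hR : 2 * k < R) (i : ℤ) :
    (W R (i + 1) + dev R k (i + 1)) - (W R i + dev R k i) = rdir R k i := by
  have h1 := W_step' R (by omega) i
  have h2 := dev_succ R k (by omega) i
  calc (W R (i + 1) + dev R k (i + 1)) - (W R i + dev R k i)
      = (W R (i + 1) - W R i) + (dev R k (i + 1) - dev R k i) := by abel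
    _ = rdir R k i := by rw [h1, h2]; abel

theorem W_step (R : ℕ) (hR : 1 ≤ R) (i : ℤ) : W R (i + 1) - W R i = D0 (i / R) := W_step' R hR i

theorem curve_W (R : ℕ) (hR : 1 ≤ R) (x : ℝ) : curve (W R) x = (R : ℝ) • curve V0 (x / R) := by
  have hRpos : (0 : ℝ) < R := by exact_mod_cast hR
  have h0 := Int.floor_le x
  have h1 := (Int.lt_floor_add_one x).le
  rw [curve_of_mem (W R) ⌊x⌋ x h0 h1, W_step' R hR, W_formula R hR, seg_formula R hR ⌊x⌋ x h0 h1]
  have : (R : ℝ) * ((⌊x⌋ : ℝ) / R) = ⌊x⌋ := by field_simp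
  have h2 : (R : ℝ) * (x / R) = x := by field_simp
  rw [smul_add, smul_add, smul_smul, smul_smul, mul_sub, mul_sub, this, h2]
  module


end Pool.Agent.Helper22.LC
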